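import Pool.Agent.KS6_34.CE.Res

/-!
# Crouzeix equality: the algebra
-/

set_option autoImplicit false
set_option linter.unusedSectionVars false

open Complex Polynomial

namespace Pool.Agent.KS6_34.CE

theorem coprime_factor {S : Type*} [EuclideanDomain S] [DecidableEq S] (a b : S) (hb : b ≠ 0) :
    ∃ g a' b' : S, g ≠ 0 ∧ a = g * a' ∧ b = g * b' ∧ IsCoprime a' b' := by
  obtain ⟨a', ha⟩ := EuclideanDomain.gcd_dvd_left a b
  obtain ⟨b', hb'⟩ := EuclideanDomain.gcd_dvd_right a b
  have h1 := EuclideanDomain.gcd_eq_gcd_ab a b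
  generalize EuclideanDomain.gcd a b = g at ha hb' h1
  generalize EuclideanDomain.gcdA a b = u at h1
  generalize EuclideanDomain.gcdB a b = v at h1
  have hg0 : g ≠ 0 := by
    rintro rfl
    exact hb (by rw [hb', zero_mul])
  refine ⟨g, a', b', hg0, ha, hb', u, v, ?_⟩
  have h2 : g * (u * a' + v * b') = g * 1 := by
    rw [mul_one]
    conv_rhs => rw [h1, ha, hb']
    ring
  exact mul_left_cancel₀ hg0 h2

/-- **The purely polynomial step.** -/
theorem poly_of_infinite (p M1 N1 : ℂ[X]) (hM1 : M1 ≠ 0) (hD : 1 ≤ p.natDegree)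
    (hinf : {σ : ℂ | ‖p.eval σ‖ = 1 ∧ (starRingEnd ℂ) σ * M1.eval σ = N1.eval σ}.Infinite) :
    ∃ a c : ℂ, c ≠ 0 ∧ p = C c * (X - C a) ^ p.natDegree := by
  classical
  have hp0 : p ≠ 0 := by
    rintro rfl
    simp at hD
  obtain ⟨g, N2, M2, hg0, hN, hM, hcop⟩ := coprime_factor N1 M1 hM1
  obtain ⟨D, hDd⟩ : ∃ D, D = p.natDegree := ⟨_, rfl⟩
  rw [← hDd] at hD ⊢
  obtain ⟨F, hF⟩ : ∃ F : ℂ[X], F = ∑ j ∈ Finset.range (D + 1), C ((starRingEnd ℂ) (p.coeff j)) * N2 ^ j * M2 ^ (D - j) :=
    ⟨_, rfl⟩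
  have hFp : p * F = M2 ^ D := by
    apply Polynomial.eq_of_infinite_eval_eq
    have hfin : {σ : ℂ | g.eval σ = 0}.Finite := by
      have := Polynomial.finite_setOf_isRoot hg0
      exact this
    refine (hinf.diff hfin).mono ?_
    rintro σ ⟨⟨h1, h2⟩, h3⟩
    simp only [Set.mem_setOf_eq] at h3 ⊢
    have h4 : (starRingEnd ℂ) σ * M2.eval σ = N2.eval σ := by
      rw [hN, hM, eval_mul, eval_mul] at h2
      have h5 : g.eval σ * ((starRingEnd ℂ) σ * M2.eval σ) = g.eval σ * N2.eval σ := by rw [← h2]; ring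
      exact mul_left_cancel₀ h3 h5
    have h6 : F.eval σ = M2.eval σ ^ D * (starRingEnd ℂ) (p.eval σ) := by
      rw [hF, eval_finsetSum, Polynomial.eval_eq_sum_range (p := p), ← hDd, map_sum, Finset.mul_sum]
      refine Finset.sum_congr rfl fun j hj => ?_
      have hjD : j ≤ D := Nat.lt_succ_iff.mp (Finset.mem_range.mp hj)
      rw [eval_mul, eval_mul, eval_C, eval_pow, eval_pow, ← h4, map_mul, map_pow, mul_pow]
      have h7 : M2.eval σ ^ D = M2.eval σ ^ j * M2.eval σ ^ (D - j) := by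
        rw [← pow_add, Nat.add_sub_cancel' hjD]
      rw [h7]
      ring
    rw [eval_mul, h6, eval_pow]
    have h8 : p.eval σ * (starRingEnd ℂ) (p.eval σ) = 1 := by
      rw [mul_conj, normSq_eq_norm_sq, h1]
      norm_num
    calc p.eval σ * (M2.eval σ ^ D * (starRingEnd ℂ) (p.eval σ)) =
        M2.eval σ ^ D * (p.eval σ * (starRingEnd ℂ) (p.eval σ)) := by ring
      _ = _ := by rw [h8, mul_one]
  -- coprimality
  have hFcop : IsCoprime F (M2 ^ D) := by
    have h1 : F = M2 * (∑ j ∈ Finset.range D, C ((starRingEnd ℂ) (p.coeff j)) * N2 ^ j * M2 ^ (D - 1 - j)) +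
        C ((starRingEnd ℂ) (p.coeff D)) * N2 ^ D := by
      rw [hF, Finset.sum_range_succ, Nat.sub_self, pow_zero, mul_one, Finset.mul_sum]
      congr 1
      refine Finset.sum_congr rfl fun j hj => ?_
      have hjD : j < D := Finset.mem_range.mp hj
      have h2 : M2 ^ (D - j) = M2 * M2 ^ (D - 1 - j) := by
        rw [← pow_succ']
        congr 1
        omega
      rw [h2]
      ring
    have h2 : IsUnit (C ((starRingEnd ℂ) (p.coeff D)) : ℂ[X]) := by
      rw [Polynomial.isUnit_C, isUnit_iff_ne_zero]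
      intro h
      have := (map_eq_zero _).mp h
      rw [hDd, Polynomial.coeff_natDegree, Polynomial.leadingCoeff_eq_zero] at this
      exact hp0 this
    have h3 : IsCoprime (C ((starRingEnd ℂ) (p.coeff D)) * N2 ^ D) M2 := by
      exact (isCoprime_mul_unit_left_left h2 _ _).mpr hcop.pow_left
    apply IsCoprime.pow_right
    rw [h1, add_comm]
    exact IsCoprime.add_mul_left_left h3 _
  have hFu : IsUnit F := hFcop.isUnit_of_dvd' (dvd_refl F) ⟨p, by rw [← hFp]; ring⟩
  obtain ⟨c', hc', hFc⟩ := Polynomial.isUnit_iff.mp hFu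
  have hc0 : c' ≠ 0 := hc'.ne_zero
  rw [← hFc] at hFp
  have hdeg : D = D * M2.natDegree := by
    have h1 := congrArg Polynomial.natDegree hFp
    rw [Polynomial.natDegree_mul_C hc0, Polynomial.natDegree_pow, ← hDd] at h1
    exact h1
  have hM2deg : M2.natDegree = 1 := by
    have h2 : D * 1 = D * M2.natDegree := by rw [mul_one]; exact hdeg
    exact (Nat.eq_of_mul_eq_mul_left (by omega) h2).symm
  have hM2eq := Polynomial.eq_X_add_C_of_natDegree_le_one hM2deg.le
  set u := M2.coeff 1 with hu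
  have hu0 : u ≠ 0 := by
    have h1 : M2.leadingCoeff = u := by rw [Polynomial.leadingCoeff, hM2deg]
    intro h
    rw [h, Polynomial.leadingCoeff_eq_zero] at h1
    rw [h1] at hM2deg
    simp at hM2deg
  refine ⟨-(M2.coeff 0 / u), c'⁻¹ * u ^ D, mul_ne_zero (inv_ne_zero hc0) (pow_ne_zero _ hu0), ?_⟩
  have h1 : M2 = C u * (X - C (-(M2.coeff 0 / u))) := by
    conv_lhs => rw [hM2eq]
    rw [mul_sub, ← C_mul, sub_eq_add_neg, ← C_neg]
    congr 2
    field_simp
  have h2 : p = C c'⁻¹ * M2 ^ D := by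
    rw [← hFp, mul_comm p, ← mul_assoc, ← C_mul, inv_mul_cancel₀ hc0, C_1, one_mul]
  rw [h1, mul_pow] at h2
  rw [h2, C_mul, C_pow, mul_assoc]

variable {H : Type*} [NormedAddCommGroup H] [InnerProductSpace ℂ H] [CompleteSpace H]

/-- matrix elements of `Pop` as polynomials -/
noncomputable def Pl (A : H →L[ℂ] H) (χ : ℂ[X]) (u v : H) : ℂ[X] :=
  ∑ k ∈ Finset.range (χ.natDegree + 1), C (χ.coeff k) *
    ∑ i ∈ Finset.range k, C (inner ℂ v ((A ^ (k - 1 - i)) u)) * X ^ i

theorem Pl_eval (A : H →L[ℂ] H) (χ : ℂ[X]) (u v : H) (s : ℂ) :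
    (Pl A χ u v).eval s = inner ℂ v (Pop A χ s u) := by
  unfold Pl Pop
  rw [eval_finsetSum, ContinuousLinearMap.sum_apply, inner_sum]
  refine Finset.sum_congr rfl fun k _ => ?_
  rw [eval_mul, eval_C, smul_apply, inner_smul_right, ContinuousLinearMap.sum_apply, inner_sum, eval_finsetSum]
  congr 1
  refine Finset.sum_congr rfl fun i _ => ?_
  rw [eval_mul, eval_C, eval_pow, eval_X, smul_apply, inner_smul_right]
  ring

theorem Pl_coeff (A : H →L[ℂ] H) (χ : ℂ[X]) (u v : H) (j : ℕ) :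
    (Pl A χ u v).coeff j = ∑ k ∈ Finset.range (χ.natDegree + 1), χ.coeff k *
      (if j < k then inner ℂ v ((A ^ (k - 1 - j)) u) else 0) := by
  unfold Pl
  rw [finsetSum_coeff]
  refine Finset.sum_congr rfl fun k _ => ?_
  rw [coeff_C_mul, finsetSum_coeff]
  congr 1
  simp only [coeff_C_mul, coeff_X_pow, mul_ite, mul_one, mul_zero]
  rw [Finset.sum_ite_eq]
  simp

theorem Pl_natDegree_lt (A : H →L[ℂ] H) (χ : ℂ[X]) (hd : 1 ≤ χ.natDegree) (u v : H) :
    (Pl A χ u v).natDegree < χ.natDegree := by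
  have h : (Pl A χ u v).natDegree ≤ χ.natDegree - 1 := by
    apply Polynomial.natDegree_le_iff_coeff_eq_zero.mpr
    intro j hj
    rw [Pl_coeff]
    apply Finset.sum_eq_zero
    intro k hk
    have hk' := Finset.mem_range.mp hk
    rw [if_neg (by omega), mul_zero]
  omega

theorem Pl_coeff_top (A : H →L[ℂ] H) (χ : ℂ[X]) (hd : 1 ≤ χ.natDegree) (u v : H) :
    (Pl A χ u v).coeff (χ.natDegree - 1) = χ.leadingCoeff * inner ℂ v u := by
  rw [Pl_coeff, Finset.sum_eq_single χ.natDegree]
  · rw [if_pos (by omega), Nat.sub_self, pow_zero]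
    rfl
  · intro k hk hne
    have hk' := Finset.mem_range.mp hk
    rw [if_neg (by omega), mul_zero]
  · intro h
    exact absurd (Finset.mem_range.mpr (Nat.lt_succ_self _)) h

/-- `p(s) Pop_χ(s) = Pop_χ(s) p(A) + χ(s) Pop_p(s)` -/
theorem Pop_swap (A : H →L[ℂ] H) (p χ : ℂ[X]) (hχ : aeval A χ = 0) (s : ℂ) :
    p.eval s • Pop A χ s = Pop A χ s * aeval A p + χ.eval s • Pop A p s := by
  have h1 : Pop A χ s * ((s • (1 : H →L[ℂ] H) - A) * Pop A p s) =
      Pop A χ s * (p.eval s • (1 : H →L[ℂ] H) - aeval A p) := by rw [sA_mul_Pop]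
  rw [← mul_assoc, Pop_mul_sA, hχ, sub_zero, smul_one_mul, mul_sub, mul_smul_comm, mul_one] at h1
  rw [h1]
  abel

theorem Pl_swap (A : H →L[ℂ] H) (p χ : ℂ[X]) (hχ : aeval A χ = 0) {x y : H}
    (hTx : aeval A p x = (2 : ℂ) • y) :
    p * Pl A χ x y = C 2 * Pl A χ y y + χ * Pl A p x y := by
  apply Polynomial.funext
  intro s
  rw [eval_mul, eval_add, eval_mul, eval_mul, eval_C, Pl_eval, Pl_eval, Pl_eval]
  have h := congrArg (fun L : H →L[ℂ] H => inner ℂ y (L x)) (Pop_swap A p χ hχ s)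
  simp only [smul_apply, add_apply, inner_smul_right, inner_add_right, ContinuousLinearMap.mul_apply, hTx,
    map_smul] at h
  exact h

theorem Pl_xx_yy (A : H →L[ℂ] H) (p χ : ℂ[X]) {x y : H}
    (hTx : aeval A p x = (2 : ℂ) • y) (hTy : (star (aeval A p)) y = (2 : ℂ) • x) :
    Pl A χ y y = Pl A χ x x := by
  have key : ∀ m : ℕ, inner ℂ y ((A ^ m) y) = inner ℂ x ((A ^ m) x) := by
    intro m
    have h1 : (2 : ℂ) * inner ℂ y ((A ^ m) y) = 2 * inner ℂ x ((A ^ m) x) := by
      calc (2 : ℂ) * inner ℂ y ((A ^ m) y) = inner ℂ y ((A ^ m) ((2 : ℂ) • y)) := by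
            rw [map_smul, inner_smul_right]
        _ = inner ℂ y ((A ^ m * aeval A p) x) := by rw [← hTx]; rfl
        _ = inner ℂ y ((aeval A p * A ^ m) x) := by
            have : Commute (aeval A p) (A ^ m) :=
              (Pool.Agent.W753.CZ.commute_aeval (Commute.refl A) p).pow_right m
            rw [this.eq]
        _ = inner ℂ ((star (aeval A p)) y) ((A ^ m) x) := by
            rw [ContinuousLinearMap.star_eq_adjoint, ContinuousLinearMap.adjoint_inner_left]
            rfl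
        _ = 2 * inner ℂ x ((A ^ m) x) := by
            rw [hTy, inner_smul_left, map_ofNat]
    exact mul_left_cancel₀ two_ne_zero h1
  unfold Pl
  simp only [key]

/-- **the polynomial is a power of a linear one** -/
theorem poly_form (A : H →L[ℂ] H) (p χ : ℂ[X]) (hχ0 : χ ≠ 0) (hχ : aeval A χ = 0) (x y : H)
    (hy : ‖y‖ = 1) (hTx : aeval A p x = (2 : ℂ) • y) (hTy : (star (aeval A p)) y = (2 : ℂ) • x)
    (hD : 1 ≤ p.natDegree)
    (hinf : {σ : ℂ | ‖p.eval σ‖ = 1 ∧ Psi A χ x y σ (p.eval σ) = 0}.Infinite) :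
    ∃ a c : ℂ, c ≠ 0 ∧ p = C c * (X - C a) ^ p.natDegree := by
  have hd : 1 ≤ χ.natDegree := by
    by_contra hcon
    have h0 : χ.natDegree = 0 := by omega
    have h1 := Polynomial.eq_C_of_natDegree_eq_zero h0
    have h2 : χ.coeff 0 ≠ 0 := by
      intro h
      rw [h, C_0] at h1
      exact hχ0 h1
    rw [h1, aeval_C, Algebra.algebraMap_eq_smul_one] at hχ
    have h3 := congrArg (fun L : H →L[ℂ] H => L y) hχ
    simp only [smul_apply, ContinuousLinearMap.one_apply, ContinuousLinearMap.zero_apply] at h3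
    rcases smul_eq_zero.mp h3 with h4 | h4
    · exact h2 h4
    · rw [h4, norm_zero] at hy
      exact zero_ne_one hy
  apply poly_of_infinite p (Pl A χ y x - p * Pl A χ x x + p * Pl A χ y y - p ^ 2 * Pl A χ x y)
    (Pl A χ y (A x) - p * Pl A χ x (A x) + p * Pl A χ y (A y) - p ^ 2 * Pl A χ x (A y)) ?_ hD
  · refine hinf.mono ?_
    rintro σ ⟨h1, h2⟩
    refine ⟨h1, ?_⟩
    rw [Psi, star_def, sub_apply, smul_apply, ContinuousLinearMap.one_apply, inner_sub_left, inner_smul_left,
      map_add, map_smul, inner_add_left, inner_add_left, inner_smul_left, inner_smul_left, conj_conj, map_sub,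
      map_smul, inner_sub_right, inner_sub_right, inner_sub_right, inner_sub_right, inner_smul_right,
      inner_smul_right, inner_smul_right, inner_smul_right, sub_eq_zero] at h2
    simp only [eval_sub, eval_add, eval_mul, eval_pow, Pl_eval]
    linear_combination h2
  · rw [Pl_xx_yy A p χ hTx hTy]
    intro h0
    have h1 : Pl A χ y x = p * (p * Pl A χ x y) := by
      linear_combination h0
    rw [Pl_swap A p χ hχ hTx] at h1
    have hp0 : p ≠ 0 := by
      rintro rfl
      simp at hD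
    have hyy : (Pl A χ y y).natDegree = χ.natDegree - 1 ∧ Pl A χ y y ≠ 0 := by
      have h2 := Pl_coeff_top A χ hd y y
      have h3 : (Pl A χ y y).coeff (χ.natDegree - 1) ≠ 0 := by
        rw [h2, inner_self_eq_norm_sq_to_K, hy]
        apply mul_ne_zero (leadingCoeff_ne_zero.mpr hχ0)
        norm_num
      constructor
      · apply le_antisymm
        · have := Pl_natDegree_lt A χ hd y y
          omega
        · exact le_natDegree_of_ne_zero h3
      · intro h4
        rw [h4] at h3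
        simp at h3
    have hlt := Pl_natDegree_lt A χ hd y x
    have h2C : (C (2 : ℂ) : ℂ[X]) ≠ 0 := C_ne_zero.mpr two_ne_zero
    have hdeg1 : (p * (C 2 * Pl A χ y y)).natDegree = p.natDegree + (χ.natDegree - 1) := by
      rw [natDegree_mul hp0 (mul_ne_zero h2C hyy.2), natDegree_C_mul two_ne_zero, hyy.1]
    by_cases hq : Pl A p x y = 0
    · rw [hq, mul_zero, add_zero] at h1
      rw [h1, hdeg1] at hlt
      omega
    · have hdeg2 : (p * (χ * Pl A p x y)).natDegree = p.natDegree + (χ.natDegree + (Pl A p x y).natDegree) := by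
        rw [natDegree_mul hp0 (mul_ne_zero hχ0 hq), natDegree_mul hχ0 hq]
      rw [mul_add] at h1
      have h3 : (p * (C 2 * Pl A χ y y) + p * (χ * Pl A p x y)).natDegree =
          (p * (χ * Pl A p x y)).natDegree := by
        apply natDegree_add_eq_right_of_natDegree_lt
        rw [hdeg1, hdeg2]
        omega
      rw [h1, h3, hdeg2] at hlt
      omega

end Pool.Agent.KS6_34.CE
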