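import Pool.Agent.KS6_34.CE.Crabb
import Pool.Graph.R_seed8.W753.CZ.Crouzeix

/-!
# Crouzeix equality: eigenvalues at which the polynomial is extremal
-/

set_option autoImplicit false
set_option linter.unusedSectionVars false

open Filter Topology Complex Set

namespace Pool.Agent.KS6_34.CE

open Pool.Agent.W753.CZ (numRange crouzeix_bound supp supp_props le_supp near_convex numRange_norm
  numRange_nonempty norm_exp')

variable {H : Type*} [NormedAddCommGroup H] [InnerProductSpace ℂ H] [CompleteSpace H]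

/-- a point of a convex set at which a nonconstant polynomial bounded by one has modulus one is a
boundary point -/
theorem exists_dir {W : Set ℂ} {R : ℝ} (hW : ∀ w ∈ W, ‖w‖ ≤ R) (hne : W.Nonempty) (hconv : Convex ℝ W)
    (p : Polynomial ℂ) (hdeg : 1 ≤ p.natDegree) (hp : ∀ w ∈ W, ‖p.eval w‖ ≤ 1) (a : ℂ)
    (ha : ‖p.eval a‖ = 1) : ∃ ψ : ℝ, supp W ψ ≤ (exp (-ψ * I) * a).re := by
  by_contra hcon
  push Not at hcon
  obtain ⟨-, hL, hper, -⟩ := supp_props hW hne
  have hsc : Continuous (supp W) := by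
    have : LipschitzWith (Real.toNNReal R) (supp W) := by
      apply LipschitzWith.of_dist_le_mul
      intro φ ψ
      rw [Real.dist_eq, Real.dist_eq]
      refine (hL φ ψ).trans ?_
      apply mul_le_mul_of_nonneg_right (Real.le_coe_toNNReal R) (abs_nonneg _)
    exact this.continuous
  set f : ℝ → ℝ := fun ψ => supp W ψ - (exp (-ψ * I) * a).re with hf
  have hfc : Continuous f := by
    have : Continuous (fun ψ : ℝ => (exp (-ψ * I) * a).re) := by fun_prop
    exact hsc.sub this
  have hfper : ∀ ψ, f (ψ + 2 * Real.pi) = f ψ := by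
    intro ψ
    rw [hf]
    simp only
    rw [hper]
    congr 3
    push_cast
    rw [show -((ψ : ℂ) + 2 * (Real.pi : ℂ)) * I = -(ψ : ℂ) * I - 2 * (Real.pi : ℂ) * I by ring, Complex.exp_sub,
      Complex.exp_two_pi_mul_I, div_one]
  obtain ⟨ψ0, hψ0, hmin⟩ := (isCompact_Icc (a := (0 : ℝ)) (b := 2 * Real.pi)).exists_isMinOn
    (nonempty_Icc.mpr (by positivity)) hfc.continuousOn
  have hε : 0 < f ψ0 := by
    have := hcon ψ0
    rw [hf]
    simp only
    linarith
  set ε := f ψ0 with hεd
  have hall : ∀ ψ, ε ≤ f ψ := by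
    intro ψ
    have hP : Function.Periodic f (2 * Real.pi) := hfper
    obtain ⟨φ, hφ, hφe⟩ := hP.exists_mem_Ico₀ Real.two_pi_pos ψ
    rw [hφe]
    exact hmin (Ico_subset_Icc_self hφ)
  -- a ball around `a` is inside the closure
  have hball : ∀ z, ‖z - a‖ < ε → ‖p.eval z‖ ≤ 1 := by
    intro z hz
    have h1 : Metric.infDist z W ≤ 0 := by
      apply near_convex hW hne hconv _ le_rfl
      intro ψ
      have h2 := hall ψ
      rw [hf] at h2
      simp only at h2
      have h3 : (exp (-ψ * I) * z).re = (exp (-ψ * I) * a).re + (exp (-ψ * I) * (z - a)).re := by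
        rw [← Complex.add_re]
        congr 1
        ring
      have h4 : (exp (-ψ * I) * (z - a)).re ≤ ‖z - a‖ := by
        refine (Complex.re_le_norm _).trans ?_
        rw [norm_mul, norm_exp', one_mul]
      linarith
    have h2 : z ∈ closure W := by
      rw [Metric.mem_closure_iff_infDist_zero hne]
      exact le_antisymm h1 Metric.infDist_nonneg
    have h3 : closure W ⊆ {z : ℂ | ‖p.eval z‖ ≤ 1} :=
      closure_minimal hp (isClosed_le (by fun_prop) continuous_const)
    exact h3 h2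
  -- maximum modulus
  have hmax : IsLocalMax (norm ∘ fun z => p.eval z) a := by
    have : ∀ᶠ z in 𝓝 a, ‖z - a‖ < ε := by
      have h1 := Metric.ball_mem_nhds a hε
      filter_upwards [h1] with z hz
      rwa [mem_ball_iff_norm] at hz
    filter_upwards [this] with z hz
    simp only [Function.comp_apply]
    rw [ha]
    exact hball z hz
  have hd : ∀ᶠ z in 𝓝 a, DifferentiableAt ℂ (fun z => p.eval z) z :=
    Eventually.of_forall fun z => p.differentiable z
  have hconst := Complex.eventually_eq_of_isLocalMax_norm hd hmax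
  have hinf : {z : ℂ | (p - Polynomial.C (p.eval a)).eval z = 0}.Infinite := by
    apply infinite_of_mem_nhds a
    filter_upwards [hconst] with z hz
    simp only [Polynomial.eval_sub, Polynomial.eval_C, mem_setOf_eq] at hz ⊢
    rw [hz, sub_self]
  have h0 : p - Polynomial.C (p.eval a) = 0 := Polynomial.eq_zero_of_infinite_isRoot _ hinf
  have h1 : p = Polynomial.C (p.eval a) := sub_eq_zero.mp h0
  rw [h1, Polynomial.natDegree_C] at hdeg
  omega

/-- an extremal eigenvector is a normal eigenvector -/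
theorem bd_eig [Nontrivial H] (A : H →L[ℂ] H) (p : Polynomial ℂ) (hdeg : 1 ≤ p.natDegree)
    (hp : ∀ w ∈ numRange A, ‖p.eval w‖ ≤ 1) (a : ℂ) (ha : ‖p.eval a‖ = 1) (e : H) (he : A e = a • e) :
    star A e = (starRingEnd ℂ) a • e := by
  have hconv : Convex ℝ (numRange A) := _root_.H640R2.PhaseMu.toeplitz_hausdorff A
  obtain ⟨ψ, hψ⟩ := exists_dir (numRange_norm A) (numRange_nonempty A) hconv p hdeg hp a ha
  have hnum : ∀ u : H, 0 ≤ (exp (-ψ * I) * inner ℂ u (a • u - A u)).re := by
    intro u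
    by_cases hu : u = 0
    · simp [hu]
    have hn : ‖u‖ ≠ 0 := norm_ne_zero_iff.mpr hu
    set x : H := ((‖u‖⁻¹ : ℝ) : ℂ) • u with hx
    have hx1 : ‖x‖ = 1 := by
      rw [hx, norm_smul, Complex.norm_real, norm_inv, norm_norm, inv_mul_cancel₀ hn]
    have h1 := (le_supp (numRange_norm A) ψ (w := inner ℂ x (A x)) ⟨x, hx1, rfl⟩).trans hψ
    have h2 : inner ℂ x (A x) = (((‖u‖⁻¹) ^ 2 : ℝ) : ℂ) * inner ℂ u (A u) := by
      rw [hx, map_smul, inner_smul_left, inner_smul_right, Complex.conj_ofReal]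
      push_cast
      ring
    rw [h2, mul_left_comm, Complex.re_ofReal_mul] at h1
    have h3 : 0 < ‖u‖ ^ 2 := by positivity
    have h4 : inner ℂ u (a • u) = a * ((‖u‖ ^ 2 : ℝ) : ℂ) := by
      rw [inner_smul_right, inner_self_eq_norm_sq_to_K]
      push_cast; rfl
    have h5 : (exp (-ψ * I) * (a * ((‖u‖ ^ 2 : ℝ) : ℂ))).re = (exp (-ψ * I) * a).re * ‖u‖ ^ 2 := by
      rw [← mul_assoc, Complex.re_mul_ofReal]
    rw [inner_sub_right, mul_sub, Complex.sub_re, h4, h5]
    have h6 : (exp (-ψ * I) * inner ℂ u (A u)).re =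
        ((‖u‖⁻¹) ^ 2 * (exp (-ψ * I) * inner ℂ u (A u)).re) * ‖u‖ ^ 2 := by
      field_simp
    rw [h6]
    have := mul_le_mul_of_nonneg_right h1 h3.le
    linarith
  -- the operator `S`
  set S : H →L[ℂ] H := (exp (-ψ * I)) • (a • (1 : H →L[ℂ] H) - A) with hS
  have hSu : ∀ u, S u = exp (-ψ * I) • (a • u - A u) := by
    intro u
    rw [hS, smul_apply, sub_apply, smul_apply, one_apply_eq_self]
  have hSe : S e = 0 := by rw [hSu, he, sub_self, smul_zero]
  have hSpos : ∀ u, 0 ≤ (inner ℂ u (S u)).re := by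
    intro u
    rw [hSu, inner_smul_right]
    exact hnum u
  have hS0 : star S e = 0 := by
    set w := star S e with hw
    have h : ∀ (g : H) (t : ℝ), 0 ≤ t * (inner ℂ w g).re + t ^ 2 * (inner ℂ g (S g)).re := by
      intro g t
      have h1 := hSpos (e + (t : ℂ) • g)
      rw [map_add, hSe, zero_add, map_smul, inner_add_left, inner_smul_left, inner_smul_right, inner_smul_right,
        Complex.conj_ofReal, Complex.add_re, Complex.re_ofReal_mul, Complex.re_ofReal_mul,
        Complex.re_ofReal_mul] at h1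
      rw [hw, adj_one]
      nlinarith [h1]
    by_contra hw0
    have hpos : 0 < ‖w‖ ^ 2 := by positivity
    have hs : (inner ℂ w w).re = ‖w‖ ^ 2 := by
      rw [inner_self_eq_norm_sq_to_K]
      norm_cast
    set Q := (inner ℂ w (S w)).re with hQ
    have hQ0 : 0 ≤ Q := hSpos w
    have h1 := h w (-(‖w‖ ^ 2 / (2 * (Q + 1))))
    rw [hs, ← hQ] at h1
    have h2 : 0 < ‖w‖ ^ 2 / (2 * (Q + 1)) := by positivity
    set τ := ‖w‖ ^ 2 / (2 * (Q + 1)) with hτ
    have h3 : τ * (2 * (Q + 1)) = ‖w‖ ^ 2 := by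
      rw [hτ]
      field_simp
    rw [← h3] at h1
    nlinarith [sq_nonneg τ, mul_pos h2 h2, mul_nonneg hQ0 (mul_pos h2 h2).le]
  have h1 : star S = (starRingEnd ℂ) (exp (-ψ * I)) • ((starRingEnd ℂ) a • (1 : H →L[ℂ] H) - star A) := by
    rw [hS, star_smul, star_sub, star_smul, star_one]
    rfl
  rw [h1, smul_apply, sub_apply, smul_apply, one_apply_eq_self] at hS0
  have h2 : (starRingEnd ℂ) (exp (-ψ * I)) ≠ 0 := by
    rw [map_ne_zero]
    exact Complex.exp_ne_zero _
  have h3 := (smul_eq_zero.mp hS0).resolve_left h2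
  exact (sub_eq_zero.mp h3).symm

end Pool.Agent.KS6_34.CE
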