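import Pool.Agent.KS6_34.CE.Crabb

/-!
# The power inequality for the numerical radius
-/

set_option autoImplicit false
set_option linter.unusedSectionVars false

open Filter Topology Complex

namespace Pool.Agent.KS6_34.CE

variable {H : Type*} [NormedAddCommGroup H] [InnerProductSpace ℂ H] [CompleteSpace H]

theorem berger_re (B : H →L[ℂ] H) (hB : ∀ u : H, ‖inner ℂ u (B u)‖ ≤ ‖u‖ ^ 2) (D : ℕ) (hD : 1 ≤ D) (w : H) :
    (inner ℂ w ((B ^ D) w)).re ≤ ‖w‖ ^ 2 := by
  set ζ : ℂ := exp (2 * Real.pi * I / D) with hζ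
  have hprim : IsPrimitiveRoot ζ D := Complex.isPrimitiveRoot_exp D (by omega)
  have hζD : ζ ^ D = 1 := hprim.pow_eq_one
  have hζn : ‖ζ‖ = 1 := by
    have h1 : ‖ζ‖ ^ D = 1 := by rw [← norm_pow, hζD, norm_one]
    exact (pow_eq_one_iff_of_nonneg (norm_nonneg _) (by omega)).mp h1
  set E : ℕ → H := fun j => ∑ k ∈ Finset.range D, (((ζ ^ j) • B) ^ k) w with hE
  have hEj : ∀ j, E j = (∑ k ∈ Finset.range D, ((ζ ^ j) • B) ^ k : H →L[ℂ] H) w := by
    intro j
    rw [hE, sum_apply]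
  have h1 : ∀ j, ((1 : H →L[ℂ] H) - (ζ ^ j) • B) (E j) = w - (B ^ D) w := by
    intro j
    have h2 : ((1 : H →L[ℂ] H) - (ζ ^ j) • B) * (∑ k ∈ Finset.range D, ((ζ ^ j) • B) ^ k : H →L[ℂ] H) =
        1 - ((ζ ^ j) • B) ^ D := mul_neg_geom_sum _ _
    have h3 : ((ζ ^ j) • B) ^ D = B ^ D := by
      rw [smul_pow, ← pow_mul, mul_comm, pow_mul, hζD, one_pow, one_smul]
    rw [h3] at h2
    rw [hEj, ← mulA, h2, sub_apply, one_apply_eq_self]
  have h2 : ∀ j, 0 ≤ (inner ℂ (E j) (w - (B ^ D) w)).re := by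
    intro j
    rw [← h1 j, sub_apply, one_apply_eq_self, smul_apply, inner_sub_right, Complex.sub_re, inner_smul_right]
    have h3 : (inner ℂ (E j) (E j)).re = ‖E j‖ ^ 2 := by
      rw [inner_self_eq_norm_sq_to_K]
      norm_cast
    have h4 : (ζ ^ j * inner ℂ (E j) (B (E j))).re ≤ ‖E j‖ ^ 2 := by
      refine (Complex.re_le_norm _).trans ?_
      rw [norm_mul, norm_pow, hζn, one_pow, one_mul]
      exact hB (E j)
    rw [h3]
    linarith
  have hsum : ∑ j ∈ Finset.range D, E j = (D : ℂ) • w := by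
    rw [hE]
    simp only
    rw [Finset.sum_comm]
    have h3 : ∀ k ∈ Finset.range D, ∑ j ∈ Finset.range D, (((ζ ^ j) • B) ^ k) w =
        if k = 0 then (D : ℂ) • w else 0 := by
      intro k hk
      have hk' := Finset.mem_range.mp hk
      have h4 : ∀ j ∈ Finset.range D, (((ζ ^ j) • B) ^ k) w = ((ζ ^ k) ^ j) • (B ^ k) w := by
        intro j _
        rw [smul_pow, smul_apply]
        congr 1
        rw [← pow_mul, ← pow_mul, mul_comm]
      rw [Finset.sum_congr rfl h4, ← Finset.sum_smul]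
      by_cases hk0 : k = 0
      · subst hk0
        rw [if_pos rfl]
        simp
      · rw [if_neg hk0]
        have h5 : ζ ^ k ≠ 1 := hprim.pow_ne_one_of_pos_of_lt hk0 hk'
        have h6 : (∑ j ∈ Finset.range D, (ζ ^ k) ^ j) * (ζ ^ k - 1) = (ζ ^ k) ^ D - 1 := geom_sum_mul _ _
        have h7 : (ζ ^ k) ^ D = 1 := by rw [← pow_mul, mul_comm, pow_mul, hζD, one_pow]
        rw [h7, sub_self] at h6
        rw [(mul_eq_zero.mp h6).resolve_right (sub_ne_zero.mpr h5), zero_smul]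
    rw [Finset.sum_congr rfl h3, Finset.sum_ite_eq' (Finset.range D) 0 (fun _ => (D : ℂ) • w),
      if_pos (Finset.mem_range.mpr (by omega))]
  have h3 : 0 ≤ (inner ℂ (∑ j ∈ Finset.range D, E j) (w - (B ^ D) w)).re := by
    rw [sum_inner, Complex.re_sum]
    exact Finset.sum_nonneg fun j _ => h2 j
  rw [hsum, inner_smul_left, Complex.conj_natCast] at h3
  have h4 : ((D : ℂ) * inner ℂ w (w - (B ^ D) w)).re = (D : ℝ) * (inner ℂ w (w - (B ^ D) w)).re := by
    rw [← Complex.ofReal_natCast, Complex.re_ofReal_mul]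
  rw [h4] at h3
  have hD0 : (0 : ℝ) < D := by exact_mod_cast hD
  have h5 := nonneg_of_mul_nonneg_right h3 hD0
  rw [inner_sub_right, Complex.sub_re] at h5
  have h6 : (inner ℂ w w).re = ‖w‖ ^ 2 := by
    rw [inner_self_eq_norm_sq_to_K]
    norm_cast
  linarith

/-- **Berger's inequality** -/
theorem berger (B : H →L[ℂ] H) (hB : ∀ u : H, ‖inner ℂ u (B u)‖ ≤ ‖u‖ ^ 2) (D : ℕ) (hD : 1 ≤ D) (w : H) :
    ‖inner ℂ w ((B ^ D) w)‖ ≤ ‖w‖ ^ 2 := by
  set m : ℂ := inner ℂ w ((B ^ D) w) with hm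
  have hD0 : (D : ℂ) ≠ 0 := by
    have : D ≠ 0 := by omega
    exact_mod_cast this
  set l : ℂ := exp ((-(Complex.arg m / D) : ℝ) * I) with hl
  have hln : ‖l‖ = 1 := Complex.norm_exp_ofReal_mul_I _
  have hlD : l ^ D * m = (‖m‖ : ℂ) := by
    have h1 : l ^ D = exp (-(Complex.arg m : ℂ) * I) := by
      rw [hl, ← Complex.exp_nat_mul]
      congr 1
      push_cast
      field_simp
    have h2 : (‖m‖ : ℂ) * exp (Complex.arg m * I) = m := Complex.norm_mul_exp_arg_mul_I m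
    calc l ^ D * m = exp (-(Complex.arg m : ℂ) * I) * ((‖m‖ : ℂ) * exp (Complex.arg m * I)) := by rw [h1, h2]
      _ = (‖m‖ : ℂ) * (exp (-(Complex.arg m : ℂ) * I) * exp (Complex.arg m * I)) := by ring
      _ = (‖m‖ : ℂ) := by
          rw [← Complex.exp_add]
          simp
  have h1 := berger_re (l • B) (fun u => by
    rw [smul_apply, inner_smul_right, norm_mul, hln, one_mul]
    exact hB u) D hD w
  rw [smul_pow, smul_apply, inner_smul_right, ← hm, hlD, Complex.ofReal_re] at h1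
  exact h1

end Pool.Agent.KS6_34.CE
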