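import Pool.Agent.KS6_34.CE.Curve

/-!
# Crouzeix equality: curve data
-/

set_option autoImplicit false
set_option linter.unusedSectionVars false

open MeasureTheory Set Filter Topology Complex Polynomial

namespace Pool.Agent.KS6_34.CE

open Pool.Agent.W753.CZ (sg sg_deriv numRange numRange_norm numRange_nonempty supp supp_props le_supp
  smooth_support near_convex curve_support crouzeix_bound)

variable {H : Type*} [NormedAddCommGroup H] [InnerProductSpace ℂ H] [CompleteSpace H]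

/-- data of a smooth convex curve around the numerical range -/
structure CD (A : H →L[ℂ] H) (p : ℂ[X]) (M R : ℝ) where
  Hf : ℝ → ℝ
  H1 : ℝ → ℝ
  H2 : ℝ → ℝ
  h1 : ∀ φ, HasDerivAt Hf (H1 φ) φ
  h2 : ∀ φ, HasDerivAt H1 (H2 φ) φ
  h2c : Continuous H2
  hρ : ∀ φ, 0 ≤ Hf φ + H2 φ
  X : ℝ → H →L[ℂ] H
  Xc : Continuous X
  Xre : ∀ φ u, 0 ≤ (inner ℂ u (X φ u)).re
  Xeq : ∀ φ, (sg Hf H1 φ • (1 : H →L[ℂ] H) - A) * X φ =
        (((Hf φ + H2 φ : ℝ) : ℂ) * exp (φ * I)) • (1 : H →L[ℂ] H)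
  Xcomm : ∀ φ, A * X φ = X φ * A
  Xint : ∀ q : ℂ[X], ∫ φ in (0 : ℝ)..(2 * Real.pi), q.eval (sg Hf H1 φ) • X φ =
        ((2 * Real.pi : ℝ) : ℂ) • aeval A q
  hM : ∀ φ, ‖p.eval (sg Hf H1 φ)‖ ≤ M
  hR : ∀ φ, ‖sg Hf H1 φ‖ ≤ R

theorem exists_CD [Nontrivial H] (A : H →L[ℂ] H) (p : ℂ[X])
    (hM : ∀ w ∈ numRange A, ‖p.eval w‖ ≤ 1) (M' : ℝ) (hM' : 1 < M') :
    Nonempty (CD A p M' (‖A‖ + 2)) := by
  set W := numRange A with hWd
  set R := ‖A‖ with hR
  have hR0 : 0 ≤ R := norm_nonneg _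
  have hW : ∀ w ∈ W, ‖w‖ ≤ R := numRange_norm A
  have hne : W.Nonempty := numRange_nonempty A
  have hconv : Convex ℝ W := _root_.H640R2.PhaseMu.toeplitz_hausdorff A
  obtain ⟨hb, hL, hper, hcos⟩ := supp_props hW hne
  have hnum : ∀ (φ : ℝ) (u : H), (Complex.exp (-φ * Complex.I) * inner ℂ u (A u)).re ≤
      supp W φ * ‖u‖ ^ 2 := by
    intro φ u
    by_cases hu : u = 0
    · simp [hu]
    have hn : ‖u‖ ≠ 0 := norm_ne_zero_iff.mpr hu
    set x : H := ((‖u‖⁻¹ : ℝ) : ℂ) • u with hx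
    have hx1 : ‖x‖ = 1 := by
      rw [hx, norm_smul, Complex.norm_real, norm_inv, norm_norm, inv_mul_cancel₀ hn]
    have h1 := le_supp hW φ (w := inner ℂ x (A x)) ⟨x, hx1, rfl⟩
    have h2 : inner ℂ x (A x) = (((‖u‖⁻¹) ^ 2 : ℝ) : ℂ) * inner ℂ u (A u) := by
      rw [hx, map_smul, inner_smul_left, inner_smul_right, Complex.conj_ofReal]
      push_cast
      ring
    rw [h2, mul_left_comm, Complex.re_ofReal_mul] at h1
    have h3 : 0 < ‖u‖ ^ 2 := by positivity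
    calc (Complex.exp (-φ * Complex.I) * inner ℂ u (A u)).re =
        ((‖u‖⁻¹) ^ 2 * (Complex.exp (-φ * Complex.I) * inner ℂ u (A u)).re) * ‖u‖ ^ 2 := by
          field_simp
      _ ≤ supp W φ * ‖u‖ ^ 2 := by gcongr
  have hU : IsOpen {z : ℂ | ‖p.eval z‖ < M'} := isOpen_lt (by fun_prop) continuous_const
  have hK : IsCompact (closure W) := by
    apply Metric.isCompact_of_isClosed_isBounded isClosed_closure
    apply Bornology.IsBounded.closure
    rw [isBounded_iff_forall_norm_le]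
    exact ⟨R, hW⟩
  have hsub : closure W ⊆ {z : ℂ | ‖p.eval z‖ < M'} := by
    have h1 : closure W ⊆ {z : ℂ | ‖p.eval z‖ ≤ 1} :=
      closure_minimal hM (isClosed_le (by fun_prop) continuous_const)
    intro z hz
    have : ‖p.eval z‖ ≤ 1 := h1 hz
    show ‖p.eval z‖ < M'
    linarith
  obtain ⟨η', hη', hηs'⟩ := hK.exists_cthickening_subset_open hU hsub
  set η := min η' 1 with hηd
  have hη : 0 < η := lt_min hη' one_pos
  have hηs : Metric.cthickening η (closure W) ⊆ {z : ℂ | ‖p.eval z‖ < M'} :=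
    (Metric.cthickening_mono (min_le_left _ _) _).trans hηs'
  rw [Metric.cthickening_closure] at hηs
  set δ := min 1 (η / (6 * R + 1)) with hδ
  have hδ0 : 0 < δ := lt_min one_pos (by positivity)
  have hδ1 : δ ≤ 1 := min_le_left _ _
  have hδη : (6 * R + 1) * δ ≤ η := by
    have : δ ≤ η / (6 * R + 1) := min_le_right _ _
    rw [le_div_iff₀ (by positivity)] at this
    linarith
  obtain ⟨Hf, H1, H2, h1, h2, h2c, hp0, hp1, hρ, hlow, hup⟩ :=
    smooth_support (supp W) R hR0 hb hL hper hcos δ hδ0 hδ1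
  have hnear : ∀ φ, Metric.infDist (sg Hf H1 φ) W ≤ η := by
    intro φ
    apply near_convex hW hne hconv _ hη.le
    intro ψ
    have := curve_support Hf H1 H2 h1 h2 hp0 hρ φ ψ
    linarith [hup ψ]
  have hev : ∀ φ, ‖p.eval (sg Hf H1 φ)‖ ≤ M' := by
    intro φ
    have hmem : sg Hf H1 φ ∈ Metric.cthickening η W := by
      rw [Metric.mem_cthickening_iff]
      rw [← ENNReal.ofReal_toReal (Metric.infEDist_ne_top hne)]
      exact ENNReal.ofReal_le_ofReal (hnear φ)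
    exact (hηs hmem).le
  have hbound : ∀ φ, ‖sg Hf H1 φ‖ ≤ R + 2 := by
    intro φ
    have h3 : Metric.infDist (sg Hf H1 φ) W < 2 := by
      have : η ≤ 1 := min_le_right _ _
      linarith [hnear φ]
    obtain ⟨w, hw, hd⟩ := (Metric.infDist_lt_iff hne).mp h3
    have h4 : ‖sg Hf H1 φ‖ ≤ ‖w‖ + ‖sg Hf H1 φ - w‖ := by
      have := norm_add_le w (sg Hf H1 φ - w)
      rwa [add_sub_cancel] at this
    rw [dist_eq_norm] at hd
    linarith [hW w hw]
  obtain ⟨X, hXc, hXre, hXeq, hXcomm, hXint⟩ := curve_data A Hf H1 H2 h1 h2 h2c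
    (by have := hp0 0; rwa [zero_add] at this)
    (by have := hp1 0; rwa [zero_add] at this) hρ ((2 * R + 1) * δ) (by positivity)
    (fun φ u => by
      refine (hnum φ u).trans ?_
      gcongr
      linarith [hlow φ])
  exact ⟨⟨Hf, H1, H2, h1, h2, h2c, hρ, X, hXc, hXre, hXeq, hXcomm, hXint, hev, hbound⟩⟩

namespace CD

variable {A : H →L[ℂ] H} {p : ℂ[X]} {M R : ℝ} (C : CD A p M R)

/-- the curve -/
noncomputable def s (φ : ℝ) : ℂ := sg C.Hf C.H1 φ

/-- the radius of curvature -/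
def ρ (φ : ℝ) : ℝ := C.Hf φ + C.H2 φ

/-- the normalised values of the polynomial -/
noncomputable def z (φ : ℝ) : ℂ := (M : ℂ)⁻¹ * p.eval (C.s φ)

theorem s_deriv (φ : ℝ) : HasDerivAt C.s (I * exp (φ * I) * (C.ρ φ : ℂ)) φ :=
  sg_deriv C.Hf C.H1 C.H2 C.h1 C.h2 φ

theorem s_cont : Continuous C.s := continuous_iff_continuousAt.mpr fun φ => (C.s_deriv φ).continuousAt

theorem ρ_cont : Continuous C.ρ := by
  have hHc : Continuous C.Hf := continuous_iff_continuousAt.mpr fun φ => (C.h1 φ).continuousAt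
  exact hHc.add C.h2c

theorem ρ_nonneg (φ : ℝ) : 0 ≤ C.ρ φ := C.hρ φ

theorem z_cont : Continuous C.z := by
  have := C.s_cont
  unfold z
  fun_prop

theorem z_le (hM : 0 < M) (φ : ℝ) : ‖C.z φ‖ ≤ 1 := by
  rw [z, norm_mul, norm_inv, Complex.norm_real, Real.norm_eq_abs, abs_of_pos hM, inv_mul_le_iff₀ hM, mul_one]
  exact C.hM φ

/-- the normalised operator -/
noncomputable def T (_ : CD A p M R) : H →L[ℂ] H := (M : ℂ)⁻¹ • aeval A p

/-- the conjugate moments -/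
noncomputable def G (k : ℕ) : H →L[ℂ] H :=
  ((2 * Real.pi : ℝ) : ℂ)⁻¹ • ∫ φ in (0 : ℝ)..(2 * Real.pi), star (C.z φ) ^ k • C.X φ

theorem pi2_ne : ((2 * Real.pi : ℝ) : ℂ) ≠ 0 := by
  have : (0 : ℝ) < 2 * Real.pi := by positivity
  exact_mod_cast this.ne'

theorem int_G (k : ℕ) : ∫ φ in (0 : ℝ)..(2 * Real.pi), star (C.z φ) ^ k • C.X φ =
    ((2 * Real.pi : ℝ) : ℂ) • C.G k := by
  rw [G, smul_smul, mul_inv_cancel₀ pi2_ne, one_smul]

theorem int_T (k : ℕ) : ∫ φ in (0 : ℝ)..(2 * Real.pi), C.z φ ^ k • C.X φ =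
    ((2 * Real.pi : ℝ) : ℂ) • C.T ^ k := by
  have h := C.Xint ((Polynomial.C ((M : ℂ)⁻¹) * p) ^ k)
  rw [map_pow, map_mul, aeval_C, Algebra.algebraMap_eq_smul_one, smul_one_mul] at h
  rw [T, ← h]
  apply intervalIntegral.integral_congr
  intro φ _
  simp only [eval_pow, eval_mul, eval_C]
  rfl

theorem int_one : ∫ φ in (0 : ℝ)..(2 * Real.pi), C.X φ = ((2 * Real.pi : ℝ) : ℂ) • (1 : H →L[ℂ] H) := by
  have := C.int_T 0
  simpa using this

theorem TX (φ : ℝ) : C.T * C.X φ = C.X φ * C.T := by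
  have h : Commute (aeval A p) (C.X φ) := Pool.Agent.W753.CZ.commute_aeval (C.Xcomm φ) p
  exact (h.smul_left _).eq

theorem hcomm (n : ℕ) : C.T * C.G n = C.G n * C.T := by
  have hz := C.z_cont
  have hX := C.Xc
  have hstar : Continuous (fun φ => star (C.z φ)) := hz.star
  have i1 : IntervalIntegrable (fun φ => star (C.z φ) ^ n • C.X φ) volume 0 (2 * Real.pi) := by
    apply Continuous.intervalIntegrable; fun_prop
  have e1 : C.T * (∫ φ in (0 : ℝ)..(2 * Real.pi), star (C.z φ) ^ n • C.X φ) =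
      ∫ φ in (0 : ℝ)..(2 * Real.pi), C.T * (star (C.z φ) ^ n • C.X φ) :=
    (ContinuousLinearMap.intervalIntegral_comp_comm
        (ContinuousLinearMap.mul ℂ (H →L[ℂ] H) C.T) i1).symm
  have e2 : (∫ φ in (0 : ℝ)..(2 * Real.pi), star (C.z φ) ^ n • C.X φ) * C.T =
      ∫ φ in (0 : ℝ)..(2 * Real.pi), (star (C.z φ) ^ n • C.X φ) * C.T :=
    (ContinuousLinearMap.intervalIntegral_comp_comm
        ((ContinuousLinearMap.mul ℂ (H →L[ℂ] H)).flip C.T) i1).symm
  rw [G, mul_smul_comm, smul_mul_assoc, e1, e2]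
  congr 1
  apply intervalIntegral.integral_congr
  intro φ _
  simp only
  rw [mul_smul_comm, smul_mul_assoc, C.TX]

theorem hre (Y : ℝ → H →L[ℂ] H) (hY : Continuous Y) (v u : H) :
    ∫ φ in (0 : ℝ)..(2 * Real.pi), (inner ℂ v (Y φ u)).re =
      (inner ℂ v ((∫ φ in (0 : ℝ)..(2 * Real.pi), Y φ) u)).re := by
  have e1 := ContinuousLinearMap.intervalIntegral_comp_comm
    ((innerSL ℂ v).comp (ContinuousLinearMap.apply ℂ H u)) (f := Y) (a := (0 : ℝ)) (b := 2 * Real.pi) (μ := volume)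
    (hY.intervalIntegrable _ _)
  have hYc : Continuous (fun φ => inner ℂ v (Y φ u)) := by fun_prop
  have e2 := ContinuousLinearMap.intervalIntegral_comp_comm Complex.reCLM
    (f := fun φ => inner ℂ v (Y φ u)) (a := (0 : ℝ)) (b := 2 * Real.pi) (μ := volume)
    (hYc.intervalIntegrable _ _)
  have e3 : ∫ φ in (0 : ℝ)..(2 * Real.pi), inner ℂ v (Y φ u) =
      inner ℂ v ((∫ φ in (0 : ℝ)..(2 * Real.pi), Y φ) u) := e1
  rw [← e3]
  exact e2

theorem hrec (Y : ℝ → H →L[ℂ] H) (hY : Continuous Y) (v u : H) :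
    IntervalIntegrable (fun φ => (inner ℂ v (Y φ u)).re) volume 0 (2 * Real.pi) := by
  apply Continuous.intervalIntegrable
  have hYc : Continuous (fun φ => inner ℂ v (Y φ u)) := by fun_prop
  exact Complex.continuous_re.comp hYc

theorem hs1 (Y : H →L[ℂ] H) (v u : H) : (inner ℂ v ((((2 * Real.pi : ℝ) : ℂ) • Y) u)).re =
    2 * Real.pi * (inner ℂ v (Y u)).re := by
  rw [smul_apply, inner_smul_right, re_ofReal_mul]

theorem hs2 (v : H) : (inner ℂ v ((1 : H →L[ℂ] H) v)).re = ‖v‖ ^ 2 := by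
  rw [one_apply_eq_self, inner_self_eq_norm_sq_to_K]
  norm_cast

theorem hs3 (Y Z : H →L[ℂ] H) (v u : H) : (inner ℂ v ((Y + star Z) u)).re =
    (inner ℂ v (Y u)).re + (inner ℂ u (Z v)).re := by
  rw [add_apply, inner_add_right, add_re]
  congr 1
  rw [ContinuousLinearMap.star_eq_adjoint, ContinuousLinearMap.adjoint_inner_right]
  exact inner_re_symm (𝕜 := ℂ) _ _

theorem hpos (hM : 0 < M) (k : ℕ) (a b c : H) :
    0 ≤ ‖a‖ ^ 2 + ‖b‖ ^ 2 + ‖c‖ ^ 2 + (inner ℂ b ((C.T ^ k + star (C.G k)) a)).re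
      + (inner ℂ c ((C.T ^ (k + 1) + star (C.G (k + 1))) a)).re
      + (inner ℂ c ((C.T ^ 1 + star (C.G 1)) b)).re := by
  have hzc := C.z_cont
  have hXc := C.Xc
  have hstarc : Continuous (fun φ => star (C.z φ)) := hzc.star
  have hπ : (0 : ℝ) < 2 * Real.pi := by positivity
  have hzk : ∀ n : ℕ, Continuous (fun φ => C.z φ ^ n • C.X φ) := fun n => by fun_prop
  have hwk : ∀ n : ℕ, Continuous (fun φ => star (C.z φ) ^ n • C.X φ) := fun n => by fun_prop
  have h0 : 0 ≤ ∫ φ in (0 : ℝ)..(2 * Real.pi), ((inner ℂ a (C.X φ a)).re + (inner ℂ b (C.X φ b)).re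
      + (inner ℂ c (C.X φ c)).re
      + ((inner ℂ b ((C.z φ ^ k • C.X φ) a)).re + (inner ℂ a ((star (C.z φ) ^ k • C.X φ) b)).re)
      + ((inner ℂ c ((C.z φ ^ (k + 1) • C.X φ) a)).re
        + (inner ℂ a ((star (C.z φ) ^ (k + 1) • C.X φ) c)).re)
      + ((inner ℂ c ((C.z φ ^ 1 • C.X φ) b)).re + (inner ℂ b ((star (C.z φ) ^ 1 • C.X φ) c)).re)) :=
    intervalIntegral.integral_nonneg hπ.le
      (fun φ _ => Pool.Agent.W753.CZ.sos_nonneg (C.X φ) (C.Xre φ) (C.z φ) (C.z_le hM φ) k a b c)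
  rw [Pool.Agent.W753.CZ.int9 (hrec _ hXc a a) (hrec _ hXc b b) (hrec _ hXc c c) (hrec _ (hzk k) b a)
    (hrec _ (hwk k) a b) (hrec _ (hzk (k + 1)) c a) (hrec _ (hwk (k + 1)) a c)
    (hrec _ (hzk 1) c b) (hrec _ (hwk 1) b c),
    hre _ hXc, hre _ hXc, hre _ hXc, hre _ (hzk k), hre _ (hwk k), hre _ (hzk (k + 1)),
    hre _ (hwk (k + 1)), hre _ (hzk 1), hre _ (hwk 1), C.int_one, C.int_T, C.int_G, C.int_T, C.int_G,
    C.int_T, C.int_G] at h0
  simp only [hs1, hs2] at h0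
  simp only [hs3]
  have h1 : 0 ≤ 2 * Real.pi * (‖a‖ ^ 2 + ‖b‖ ^ 2 + ‖c‖ ^ 2 +
      ((inner ℂ b ((C.T ^ k) a)).re + (inner ℂ a ((C.G k) b)).re) +
      ((inner ℂ c ((C.T ^ (k + 1)) a)).re + (inner ℂ a ((C.G (k + 1)) c)).re) +
      ((inner ℂ c ((C.T ^ 1) b)).re + (inner ℂ b ((C.G 1) c)).re)) := by
    refine h0.trans (le_of_eq ?_)
    ring
  exact nonneg_of_mul_nonneg_right h1 hπ

/-- the deficit -/
noncomputable def Q (x y : H) : ℝ :=
  ‖x‖ ^ 2 + ‖y‖ ^ 2 - (inner ℂ y ((C.T + star (C.G 1)) x)).re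

theorem int_Q (x y : H) : ∫ φ in (0 : ℝ)..(2 * Real.pi),
    ((inner ℂ (y - C.z φ • x) (C.X φ (y - C.z φ • x))).re
      + (1 - ‖C.z φ‖ ^ 2) * (inner ℂ x (C.X φ x)).re) = 2 * Real.pi * C.Q x y := by
  have hzc := C.z_cont
  have hXc := C.Xc
  have hstarc : Continuous (fun φ => star (C.z φ)) := hzc.star
  have hzk : Continuous (fun φ => C.z φ ^ 1 • C.X φ) := by fun_prop
  have hwk : Continuous (fun φ => star (C.z φ) ^ 1 • C.X φ) := by fun_prop
  have e : ∀ φ, (inner ℂ (y - C.z φ • x) (C.X φ (y - C.z φ • x))).re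
      + (1 - ‖C.z φ‖ ^ 2) * (inner ℂ x (C.X φ x)).re =
      (inner ℂ y (C.X φ y)).re + (inner ℂ x (C.X φ x)).re - (inner ℂ y ((C.z φ ^ 1 • C.X φ) x)).re
        - (inner ℂ x ((star (C.z φ) ^ 1 • C.X φ) y)).re := by
    intro φ
    have h1 : (‖C.z φ‖ ^ 2) * (inner ℂ x (C.X φ x)).re =
        ((starRingEnd ℂ) (C.z φ) * C.z φ * inner ℂ x (C.X φ x)).re := by
      rw [mul_comm ((starRingEnd ℂ) (C.z φ)), mul_conj, normSq_eq_norm_sq, re_ofReal_mul]
    rw [sub_mul, one_mul, h1, map_sub, map_smul, inner_sub_left, inner_sub_right, inner_sub_right,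
      inner_smul_left, inner_smul_left, inner_smul_right, inner_smul_right]
    simp only [pow_one, smul_apply, inner_smul_right, star_def]
    rw [← add_sub_assoc]
    rw [← add_re, ← sub_re, ← add_re, ← sub_re, ← sub_re]
    congr 1
    ring
  rw [intervalIntegral.integral_congr (fun φ _ => e φ)]
  rw [intervalIntegral.integral_sub (((hrec _ hXc y y).add (hrec _ hXc x x)).sub (hrec _ hzk y x)) (hrec _ hwk x y),
    intervalIntegral.integral_sub ((hrec _ hXc y y).add (hrec _ hXc x x)) (hrec _ hzk y x),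
    intervalIntegral.integral_add (hrec _ hXc y y) (hrec _ hXc x x), hre _ hXc, hre _ hXc, hre _ hzk, hre _ hwk,
    C.int_one, C.int_T, C.int_G]
  simp only [hs1, hs2]
  rw [Q, hs3, pow_one]
  ring

end CD

end Pool.Agent.KS6_34.CE
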