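import Pool.Agent.KS6_34.CE.CD

/-!
# Crouzeix equality: curves arbitrarily near the numerical range
-/

set_option autoImplicit false
set_option linter.unusedSectionVars false

open MeasureTheory Set Filter Topology Complex Polynomial

namespace Pool.Agent.KS6_34.CE

open Pool.Agent.W753.CZ (sg sg_deriv numRange numRange_norm numRange_nonempty supp supp_props le_supp
  smooth_support near_convex curve_support crouzeix_bound)

variable {H : Type*} [NormedAddCommGroup H] [InnerProductSpace ℂ H] [CompleteSpace H]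

theorem exists_CD2 [Nontrivial H] (A : H →L[ℂ] H) (p : ℂ[X]) (M0 : ℝ)
    (hM : ∀ w ∈ numRange A, ‖p.eval w‖ ≤ M0) (M' : ℝ) (hM' : M0 < M') (η0 : ℝ) (hη0 : 0 < η0) :
    ∃ C : CD A p M' (‖A‖ + 2), ∀ φ, Metric.infDist (C.s φ) (numRange A) ≤ η0 := by
  set W := numRange A with hWd
  set R := ‖A‖ with hR
  have hR0 : 0 ≤ R := norm_nonneg _
  have hW : ∀ w ∈ W, ‖w‖ ≤ R := numRange_norm A
  have hne : W.Nonempty := numRange_nonempty A
  have hconv : Convex ℝ W := _root_.H640R2.PhaseMu.toeplitz_hausdorff A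
  obtain ⟨hb, hL, hper, hcos⟩ := supp_props hW hne
  have hnum : ∀ (φ : ℝ) (u : H), (Complex.exp (-φ * Complex.I) * inner ℂ u (A u)).re ≤
      supp W φ * ‖u‖ ^ 2 := by
    intro φ u
    by_cases hu : u = 0
    · simp [hu]
    have hn : ‖u‖ ≠ 0 := norm_ne_zero_iff.mpr hu
    set x : H := ((‖u‖⁻¹ : ℝ) : ℂ) • u with hx
    have hx1 : ‖x‖ = 1 := by
      rw [hx, norm_smul, Complex.norm_real, norm_inv, norm_norm, inv_mul_cancel₀ hn]
    have h1 := le_supp hW φ (w := inner ℂ x (A x)) ⟨x, hx1, rfl⟩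
    have h2 : inner ℂ x (A x) = (((‖u‖⁻¹) ^ 2 : ℝ) : ℂ) * inner ℂ u (A u) := by
      rw [hx, map_smul, inner_smul_left, inner_smul_right, Complex.conj_ofReal]
      push_cast
      ring
    rw [h2, mul_left_comm, Complex.re_ofReal_mul] at h1
    have h3 : 0 < ‖u‖ ^ 2 := by positivity
    calc (Complex.exp (-φ * Complex.I) * inner ℂ u (A u)).re =
        ((‖u‖⁻¹) ^ 2 * (Complex.exp (-φ * Complex.I) * inner ℂ u (A u)).re) * ‖u‖ ^ 2 := by
          field_simp
      _ ≤ supp W φ * ‖u‖ ^ 2 := by gcongr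
  have hU : IsOpen {z : ℂ | ‖p.eval z‖ < M'} := isOpen_lt (by fun_prop) continuous_const
  have hK : IsCompact (closure W) := by
    apply Metric.isCompact_of_isClosed_isBounded isClosed_closure
    apply Bornology.IsBounded.closure
    rw [isBounded_iff_forall_norm_le]
    exact ⟨R, hW⟩
  have hsub : closure W ⊆ {z : ℂ | ‖p.eval z‖ < M'} := by
    have h1 : closure W ⊆ {z : ℂ | ‖p.eval z‖ ≤ M0} :=
      closure_minimal hM (isClosed_le (by fun_prop) continuous_const)
    intro z hz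
    have : ‖p.eval z‖ ≤ M0 := h1 hz
    show ‖p.eval z‖ < M'
    linarith
  obtain ⟨η', hη', hηs'⟩ := hK.exists_cthickening_subset_open hU hsub
  set η := min η' (min 1 η0) with hηd
  have hη : 0 < η := lt_min hη' (lt_min one_pos hη0)
  have hηs : Metric.cthickening η (closure W) ⊆ {z : ℂ | ‖p.eval z‖ < M'} :=
    (Metric.cthickening_mono (min_le_left _ _) _).trans hηs'
  rw [Metric.cthickening_closure] at hηs
  set δ := min 1 (η / (6 * R + 1)) with hδ
  have hδ0 : 0 < δ := lt_min one_pos (by positivity)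
  have hδ1 : δ ≤ 1 := min_le_left _ _
  have hδη : (6 * R + 1) * δ ≤ η := by
    have : δ ≤ η / (6 * R + 1) := min_le_right _ _
    rw [le_div_iff₀ (by positivity)] at this
    linarith
  obtain ⟨Hf, H1, H2, h1, h2, h2c, hp0, hp1, hρ, hlow, hup⟩ :=
    smooth_support (supp W) R hR0 hb hL hper hcos δ hδ0 hδ1
  have hnear : ∀ φ, Metric.infDist (sg Hf H1 φ) W ≤ η := by
    intro φ
    apply near_convex hW hne hconv _ hη.le
    intro ψ
    have := curve_support Hf H1 H2 h1 h2 hp0 hρ φ ψ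
    linarith [hup ψ]
  have hev : ∀ φ, ‖p.eval (sg Hf H1 φ)‖ ≤ M' := by
    intro φ
    have hmem : sg Hf H1 φ ∈ Metric.cthickening η W := by
      rw [Metric.mem_cthickening_iff]
      rw [← ENNReal.ofReal_toReal (Metric.infEDist_ne_top hne)]
      exact ENNReal.ofReal_le_ofReal (hnear φ)
    exact (hηs hmem).le
  have hbound : ∀ φ, ‖sg Hf H1 φ‖ ≤ R + 2 := by
    intro φ
    have h3 : Metric.infDist (sg Hf H1 φ) W < 2 := by
      have : η ≤ 1 := (min_le_right _ _).trans (min_le_left _ _)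
      linarith [hnear φ]
    obtain ⟨w, hw, hd⟩ := (Metric.infDist_lt_iff hne).mp h3
    have h4 : ‖sg Hf H1 φ‖ ≤ ‖w‖ + ‖sg Hf H1 φ - w‖ := by
      have := norm_add_le w (sg Hf H1 φ - w)
      rwa [add_sub_cancel] at this
    rw [dist_eq_norm] at hd
    linarith [hW w hw]
  obtain ⟨X, hXc, hXre, hXeq, hXcomm, hXint⟩ := curve_data A Hf H1 H2 h1 h2 h2c
    (by have := hp0 0; rwa [zero_add] at this)
    (by have := hp1 0; rwa [zero_add] at this) hρ ((2 * R + 1) * δ) (by positivity)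
    (fun φ u => by
      refine (hnum φ u).trans ?_
      gcongr
      linarith [hlow φ])
  exact ⟨⟨Hf, H1, H2, h1, h2, h2c, hρ, X, hXc, hXre, hXeq, hXcomm, hXint, hev, hbound⟩, fun φ =>
    (hnear φ).trans ((min_le_right _ _).trans (min_le_right _ _))⟩

end Pool.Agent.KS6_34.CE
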