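import Pool.Agent.KS6_34.CE.Small

/-!
# The equality cases at the operator level
-/

set_option autoImplicit false
set_option linter.unusedSectionVars false

open Filter Topology Complex Set Polynomial

namespace Pool.Agent.KS6_34.CE

open Pool.Agent.W753.CZ (numRange crouzeix_bound numRange_nonempty numRange_norm)
open Pool.Agent.X24.QN (Om disc_le main_le inner_self_one norm_add_orth exists_max)

variable {H : Type*} [NormedAddCommGroup H] [InnerProductSpace ℂ H] [CompleteSpace H]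

/-- the weights: `κ` for `D = 1`, and `√2, 1, …, 1, √2` for `D ≥ 2` -/
noncomputable def wgt (κ : ℝ) (D j : ℕ) : ℝ := if D = 1 then κ else if j = 0 ∨ j + 1 = D then √2 else 1

theorem wgt_two (D : ℕ) : wgt 2 D = crabbW D := rfl

theorem scale_le (p : ℂ[X]) {M : ℝ} (hM : 0 < M) {z : ℂ} (h : ‖p.eval z‖ ≤ M) :
    ‖(C ((M : ℂ)⁻¹) * p).eval z‖ ≤ 1 := by
  rw [eval_mul, eval_C, norm_mul, norm_inv, Complex.norm_real, Real.norm_of_nonneg hM.le,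
    inv_mul_le_iff₀ hM, mul_one]
  exact h

theorem scale_aeval (A : H →L[ℂ] H) (p : ℂ[X]) (M : ℝ) :
    aeval A (C ((M : ℂ)⁻¹) * p) = ((M : ℂ)⁻¹) • aeval A p := by
  rw [map_mul, aeval_C, Algebra.algebraMap_eq_smul_one, smul_one_mul]

theorem scale_natDegree (p : ℂ[X]) {M : ℝ} (hM : 0 < M) : (C ((M : ℂ)⁻¹) * p).natDegree = p.natDegree := by
  apply natDegree_C_mul
  apply inv_ne_zero
  exact_mod_cast hM.ne'

theorem deg_pos [Nontrivial H] (A : H →L[ℂ] H) (p : ℂ[X]) {M κ : ℝ} (hM : 0 < M) (hκ : 1 < κ) {z : ℂ}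
    (hz : ‖p.eval z‖ ≤ M) (heq : ‖aeval A p‖ = κ * M) : 1 ≤ p.natDegree := by
  by_contra hcon
  have h0 : p.natDegree = 0 := by omega
  rw [eq_C_of_natDegree_eq_zero h0] at hz heq
  rw [aeval_C, norm_algebraMap'] at heq
  rw [eval_C] at hz
  nlinarith

/-- an extremal pair -/
theorem exists_pair [FiniteDimensional ℂ H] [Nontrivial H] (T : H →L[ℂ] H) {κ : ℝ} (hκ : 0 < κ) (hT : ‖T‖ = κ) :
    ∃ x y : H, ‖x‖ = 1 ∧ ‖y‖ = 1 ∧ T x = (κ : ℂ) • y := by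
  obtain ⟨x, hx, hTx⟩ := exists_max T
  have hκc : (κ : ℂ) ≠ 0 := by exact_mod_cast hκ.ne'
  refine ⟨x, (κ : ℂ)⁻¹ • T x, hx, ?_, ?_⟩
  · rw [norm_smul, norm_inv, Complex.norm_real, Real.norm_of_nonneg hκ.le, hTx, hT, inv_mul_cancel₀ hκ.ne']
  · rw [smul_smul, mul_inv_cancel₀ hκc, one_smul]

theorem unscale (p : ℂ[X]) {M : ℝ} (hM : 0 < M) {a c : ℂ} {D : ℕ}
    (h : C ((M : ℂ)⁻¹) * p = C c * (X - C a) ^ D) : p = C ((M : ℂ) * c) * (X - C a) ^ D := by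
  have hMc : (M : ℂ) ≠ 0 := by exact_mod_cast hM.ne'
  calc p = C (M : ℂ) * (C ((M : ℂ)⁻¹) * p) := by
        rw [← mul_assoc, ← C_mul, mul_inv_cancel₀ hMc, C_1, one_mul]
    _ = _ := by rw [h, ← mul_assoc, ← C_mul]

/-- equality in Crouzeix's theorem -/
theorem case_one [FiniteDimensional ℂ H] [Nontrivial H] (A : H →L[ℂ] H) (p : ℂ[X]) {M : ℝ} (hM : 0 < M)
    (hp : ∀ w ∈ numRange A, ‖p.eval w‖ ≤ M) (heq : ‖aeval A p‖ = 2 * M) :
    ∃ (D : ℕ) (a γ : ℂ) (ρ : ℝ) (v : ℕ → H), 1 ≤ D ∧ 0 < ρ ∧ γ ≠ 0 ∧ p = C γ * (X - C a) ^ D ∧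
      ‖γ‖ * ρ ^ D = M ∧ Chain A a ρ D (wgt 2 D) v := by
  have hMc : (M : ℂ) ≠ 0 := by exact_mod_cast hM.ne'
  obtain ⟨z, hz⟩ := numRange_nonempty A
  have hdeg := deg_pos A p hM one_lt_two (hp z hz) heq
  have hn : ‖aeval A (C ((M : ℂ)⁻¹) * p)‖ = 2 := by
    rw [scale_aeval, norm_smul, norm_inv, Complex.norm_real, Real.norm_of_nonneg hM.le, heq]
    field_simp
  obtain ⟨x, y, hx, hy, hxy⟩ := exists_pair _ two_pos hn
  have hxy' : aeval A (C ((M : ℂ)⁻¹) * p) x = (2 : ℂ) • y := by rw [hxy]; norm_num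
  obtain ⟨a, c, ρ, v, hρ, hc, hpc, hcρ, -, -, -, hch⟩ := q1_full A _ (by rw [scale_natDegree p hM]; exact hdeg)
    (fun w hw => scale_le p hM (hp w hw)) x y hx hy hxy'
  rw [scale_natDegree p hM] at hpc hcρ hch
  refine ⟨p.natDegree, a, (M : ℂ) * c, ρ, v, hdeg, hρ, mul_ne_zero hMc hc, unscale p hM hpc, ?_, ?_⟩
  · rw [norm_mul, Complex.norm_real, Real.norm_of_nonneg hM.le, mul_assoc, hcρ, mul_one]
  · rw [wgt_two]; exact hch

/-- equality for `4/5 < |q| < 1` -/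
theorem case_q [FiniteDimensional ℂ H] [Nontrivial H] {q : ℂ} (hq0 : q ≠ 0) (hq1 : ‖q‖ < 1)
    (A : H →L[ℂ] H) (hdim : ∀ x : H, ‖x‖ = 1 → ∃ v : H, ‖v‖ = 1 ∧ inner ℂ x v = (0 : ℂ))
    (p : ℂ[X]) {M κ : ℝ} (hκ1 : 1 < κ) (hκ : κ = 2 * (‖q‖ / (1 + √(1 - ‖q‖ ^ 2)))) (hM : 0 < M)
    (hp : ∀ w ∈ Om q A, ‖p.eval w‖ ≤ M) (heq : ‖aeval A p‖ = κ * M) :
    ∃ (a γ : ℂ) (ρ : ℝ) (v : ℕ → H), 0 < ρ ∧ γ ≠ 0 ∧ p = C γ * (X - C a) ^ 1 ∧
      ‖γ‖ * ρ ^ 1 = M ∧ Chain A a ρ 1 (wgt κ 1) v := by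
  have hMc : (M : ℂ) ≠ 0 := by exact_mod_cast hM.ne'
  obtain ⟨z, hz⟩ := numRange_nonempty A
  have hdeg := deg_pos A p hM hκ1 (numRange_le hq0 hq1.le A hdim p M hp z hz) heq
  have hn : ‖aeval A (C ((M : ℂ)⁻¹) * p)‖ = κ := by
    rw [scale_aeval, norm_smul, norm_inv, Complex.norm_real, Real.norm_of_nonneg hM.le, heq]
    field_simp
  have hp1 : ∀ w ∈ Om q A, ‖(C ((M : ℂ)⁻¹) * p).eval w‖ ≤ 1 := fun w hw => scale_le p hM (hp w hw)
  obtain ⟨x, y, hx, hy, hxy⟩ := exists_pair _ (by linarith) hn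
  have hle : ∀ P : ℂ[X], (∀ z ∈ Om q A, ‖P.eval z‖ ≤ 1) → ‖aeval A P‖ ≤ κ := by
    intro P hP
    refine (main_le hq0 hq1.le A hdim P hP).trans ?_
    rw [← hκ]
    exact max_le hκ1.le le_rfl
  have hyx := q_orth A _ hp1 hκ1 hn hle hx hy hxy
  rw [hκ] at hxy
  obtain ⟨-, a, c, ρ, v, hρ, hc, hpc, hcρ, hch⟩ := q_core hq0 hq1 A hdim _
    (by rw [scale_natDegree p hM]; exact hdeg) hp1 hx hy hyx hxy
  refine ⟨a, (M : ℂ) * c, ρ, v, hρ, mul_ne_zero hMc hc, unscale p hM hpc, ?_, ?_⟩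
  · rw [norm_mul, Complex.norm_real, Real.norm_of_nonneg hM.le, mul_assoc, pow_one, hcρ, mul_one]
  · have hW : wgt κ 1 = fun _ => 2 * (‖q‖ / (1 + √(1 - ‖q‖ ^ 2))) := by
      funext j
      unfold wgt
      rw [if_pos rfl, hκ]
    rw [hW]
    exact hch

/-- strictness for `|q| < 4/5` -/
theorem case_small [FiniteDimensional ℂ H] [Nontrivial H] {q : ℂ} (hq0 : q ≠ 0) (hq1 : ‖q‖ < 4 / 5)
    (A : H →L[ℂ] H) (hdim : ∀ x : H, ‖x‖ = 1 → ∃ v : H, ‖v‖ = 1 ∧ inner ℂ x v = (0 : ℂ))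
    (hA : ∀ a : ℂ, A ≠ a • 1) (p : ℂ[X]) (hdeg : 1 ≤ p.natDegree) {M : ℝ} (hM : 0 < M)
    (hp : ∀ w ∈ Om q A, ‖p.eval w‖ ≤ M) : ‖aeval A p‖ < M := by
  have h1 := small_strict hq0 hq1 A hdim hA (C ((M : ℂ)⁻¹) * p) (by rw [scale_natDegree p hM]; exact hdeg)
    (fun w hw => scale_le p hM (hp w hw))
  rw [scale_aeval, norm_smul, norm_inv, Complex.norm_real, Real.norm_of_nonneg hM.le, inv_mul_lt_iff₀ hM,
    mul_one] at h1
  exact h1

/-- a polynomial vanishing on the numerical range -/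
theorem vanish (A : H →L[ℂ] H) [Nontrivial H] (p : ℂ[X]) (hp : ∀ w ∈ numRange A, p.eval w = 0) :
    p = 0 ∨ ∃ a : ℂ, A = a • 1 ∧ p.eval a = 0 := by
  by_cases hsub : (numRange A).Subsingleton
  · right
    obtain ⟨a, ha⟩ := numRange_nonempty A
    refine ⟨a, ?_, hp a ha⟩
    have h1 : ∀ u : H, inner ℂ u ((A - a • (1 : H →L[ℂ] H)) u) = 0 := by
      intro u
      by_cases hu : u = 0
      · simp [hu]
      have hn : ‖u‖ ≠ 0 := norm_ne_zero_iff.mpr hu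
      have hx1 : ‖((‖u‖⁻¹ : ℝ) : ℂ) • u‖ = 1 := by
        rw [norm_smul, Complex.norm_real, norm_inv, norm_norm, inv_mul_cancel₀ hn]
      have h2 := hsub ⟨_, hx1, rfl⟩ ha
      rw [map_smul, inner_smul_left, inner_smul_right, Complex.conj_ofReal] at h2
      have hnc : (‖u‖ : ℂ) ≠ 0 := by exact_mod_cast hn
      rw [sub_apply, smul_apply, one_apply_eq_self, inner_sub_right, inner_smul_right, inner_self_eq_norm_sq_to_K]
      have h3 : inner ℂ u (A u) = a * (‖u‖ : ℂ) ^ 2 := by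
        push_cast at h2
        field_simp at h2
        rw [h2, mul_comm]
      rw [h3]
      exact sub_self _
    have h2 : (A - a • (1 : H →L[ℂ] H)) = 0 := by
      have h3 : ((A - a • (1 : H →L[ℂ] H) : H →L[ℂ] H) : H →ₗ[ℂ] H) = 0 := by
        rw [← inner_map_self_eq_zero]
        intro u
        rw [← inner_conj_symm]
        change (starRingEnd ℂ) (inner ℂ u ((A - a • (1 : H →L[ℂ] H)) u)) = 0
        rw [h1 u, map_zero]
      apply ContinuousLinearMap.ext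
      intro u
      exact congrArg (fun L : H →ₗ[ℂ] H => L u) h3
    exact sub_eq_zero.mp h2
  · left
    have hconv : Convex ℝ (numRange A) := _root_.H640R2.PhaseMu.toeplitz_hausdorff A
    rw [Set.not_subsingleton_iff] at hsub
    have hinf : (numRange A).Infinite := hconv.isPreconnected.infinite_of_nontrivial hsub
    apply Polynomial.eq_zero_of_infinite_isRoot
    exact hinf.mono hp

end Pool.Agent.KS6_34.CE
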