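import Mathlib

/-!
# Crouzeix equality: the abstract core

Equality `‖T‖ = 2` in the Toeplitz positivity argument.
-/

set_option autoImplicit false

open ContinuousLinearMap Filter Topology

namespace Pool.Agent.KS6_34.CE

variable {H : Type*} [NormedAddCommGroup H] [InnerProductSpace ℂ H] [CompleteSpace H]

theorem quad_form (T : H →L[ℂ] H) (G : ℕ → H →L[ℂ] H) (hcomm : ∀ n, T * G n = G n * T)
    (hpos : ∀ k, 1 ≤ k → ∀ a b c : H,
      0 ≤ ‖a‖ ^ 2 + ‖b‖ ^ 2 + ‖c‖ ^ 2 + (inner ℂ b ((T ^ k + star (G k)) a)).re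
        + (inner ℂ c ((T ^ (k + 1) + star (G (k + 1))) a)).re
        + (inner ℂ c ((T ^ 1 + star (G 1)) b)).re)
    (x y : H) (hx : ‖x‖ = 1) (hy : ‖y‖ = 1) (hTx : T x = (2 : ℂ) • y) (hTy : (star T) y = (2 : ℂ) • x)
    (k : ℕ) (hk : 1 ≤ k) (t : ℝ) :
    0 ≤ t ^ 2 * ‖((star T) ^ k) x‖ ^ 2 + t * ((inner ℂ x ((T ^ k * G k) x)).re
      - (inner ℂ x ((T ^ (k + 1) * G (k + 1)) x)).re / 2 - ‖((star T) ^ k) x‖ ^ 2)
      - (inner ℂ x ((T ^ 1 * G 1) x)).re / 2 := by
  have hmul : ∀ (S R : H →L[ℂ] H) (u : H), (S * R) u = S (R u) := fun _ _ _ => rfl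
  have hadj : ∀ (S : H →L[ℂ] H) (u v : H), inner ℂ ((star S) u) v = inner ℂ u (S v) := by
    intro S u v; rw [ContinuousLinearMap.star_eq_adjoint, adjoint_inner_left]
  have hadj' : ∀ (S : H →L[ℂ] H) (u v : H), inner ℂ u ((star S) v) = inner ℂ (S u) v := by
    intro S u v; rw [ContinuousLinearMap.star_eq_adjoint, adjoint_inner_right]
  have hcomm' : ∀ j n, (T ^ j * G n) * T = T ^ (j + 1) * G n := by
    intro j n
    rw [mul_assoc, ← hcomm, ← mul_assoc, ← pow_succ]
  have hyx : y = ((2⁻¹ : ℝ) : ℂ) • T x := by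
    rw [hTx, smul_smul]
    norm_num
  -- the value at `y`
  have hGy : ∀ j, (inner ℂ ((T ^ j * G (j + 1)) y) x).re =
      (inner ℂ x ((T ^ (j + 1) * G (j + 1)) x)).re / 2 := by
    intro j
    have e1 : (T ^ j * G (j + 1)) y = ((2⁻¹ : ℝ) : ℂ) • (T ^ (j + 1) * G (j + 1)) x := by
      conv_lhs => rw [hyx]
      rw [map_smul, ← hcomm' j (j + 1)]
      rfl
    rw [e1, inner_smul_left, Complex.conj_ofReal, Complex.re_ofReal_mul]
    have h2 : (inner ℂ ((T ^ (j + 1) * G (j + 1)) x) x).re =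
        (inner ℂ x ((T ^ (j + 1) * G (j + 1)) x)).re := inner_re_symm (𝕜 := ℂ) _ _
    rw [h2]
    ring
  have hyTx : (inner ℂ y (T x)).re = 2 := by
    rw [hTx, inner_smul_right, inner_self_eq_norm_sq_to_K, hy]
    norm_num
  set v : H := ((star T) ^ k) x with hv
  have h := hpos k hk (-((t : ℂ) • v)) (-x) y
  have hv1 : inner ℂ x ((T ^ k) v) = ((‖v‖ ^ 2 : ℝ) : ℂ) := by
    have : inner ℂ x ((T ^ k) v) = inner ℂ ((star (T ^ k)) x) v := (hadj _ _ _).symm
    rw [this, star_pow, ← hv, inner_self_eq_norm_sq_to_K]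
    push_cast; rfl
  have hg1 : (inner ℂ x ((star (G k)) v)).re = (inner ℂ x ((T ^ k * G k) x)).re := by
    rw [hadj', hv, ← star_pow, hadj', ← hmul]
    exact inner_re_symm (𝕜 := ℂ) _ _
  have hv2 : inner ℂ y ((T ^ (k + 1)) v) = ((2 * ‖v‖ ^ 2 : ℝ) : ℂ) := by
    rw [pow_succ', hmul, ← hadj, hTy, inner_smul_left, hv1]
    push_cast
    rw [map_ofNat]
  have hg2 : (inner ℂ y ((star (G (k + 1))) v)).re = (inner ℂ x ((T ^ (k + 1) * G (k + 1)) x)).re / 2 := by
    rw [hadj', hv, ← star_pow, hadj', ← hmul]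
    exact hGy k
  have hna : ‖-((t : ℂ) • v)‖ ^ 2 = t ^ 2 * ‖v‖ ^ 2 := by
    rw [norm_neg, norm_smul, Complex.norm_real, mul_pow, Real.norm_eq_abs, sq_abs]
  have hI1 : (inner ℂ (-x) ((T ^ k + star (G k)) (-((t : ℂ) • v)))).re =
      t * (‖v‖ ^ 2 + (inner ℂ x ((T ^ k * G k) x)).re) := by
    rw [map_neg, inner_neg_neg, map_smul, inner_smul_right, Complex.re_ofReal_mul,
      add_apply, inner_add_right, Complex.add_re, hv1, hg1,
      Complex.ofReal_re]
  have hI2 : (inner ℂ y ((T ^ (k + 1) + star (G (k + 1))) (-((t : ℂ) • v)))).re =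
      -(t * (2 * ‖v‖ ^ 2 + (inner ℂ x ((T ^ (k + 1) * G (k + 1)) x)).re / 2)) := by
    rw [map_neg, inner_neg_right, Complex.neg_re, map_smul, inner_smul_right,
      Complex.re_ofReal_mul, add_apply, inner_add_right, Complex.add_re, hv2,
      Complex.ofReal_re, hg2]
  have hI3 : (inner ℂ y ((T ^ 1 + star (G 1)) (-x))).re =
      -(2 + (inner ℂ x ((T ^ 1 * G 1) x)).re / 2) := by
    rw [map_neg, inner_neg_right, Complex.neg_re, add_apply, inner_add_right, Complex.add_re, pow_one,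
      hyTx, hadj']
    have h0 := hGy 0
    simp only [pow_zero, one_mul, zero_add] at h0
    rw [h0, pow_one]
  rw [hna, hI1, hI2, hI3, norm_neg, hx, hy] at h
  nlinarith [h]

theorem eq_core (T : H →L[ℂ] H) (G : ℕ → H →L[ℂ] H) (hcomm : ∀ n, T * G n = G n * T)
    (B : ℝ) (hB : ∀ n, ‖T ^ n * G n‖ ≤ B)
    (hpos : ∀ k, 1 ≤ k → ∀ a b c : H,
      0 ≤ ‖a‖ ^ 2 + ‖b‖ ^ 2 + ‖c‖ ^ 2 + (inner ℂ b ((T ^ k + star (G k)) a)).re
        + (inner ℂ c ((T ^ (k + 1) + star (G (k + 1))) a)).re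
        + (inner ℂ c ((T ^ 1 + star (G 1)) b)).re)
    (x y : H) (hx : ‖x‖ = 1) (hy : ‖y‖ = 1) (hTx : T x = (2 : ℂ) • y) (hTy : (star T) y = (2 : ℂ) • x)
    (hlim : Tendsto (fun k => ‖((star T) ^ k) x‖) atTop (𝓝 0)) :
    star T x = 0 ∧ (inner ℂ y ((star (G 1)) x)).re = 0 := by
  have hq := quad_form T G hcomm hpos x y hx hy hTx hTy
  set γ : ℕ → ℝ := fun k => (inner ℂ x ((T ^ k * G k) x)).re with hγ
  have hbd : ∀ k, -B ≤ γ k := by
    intro k
    have h1 : |γ k| ≤ B := by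
      calc |γ k| ≤ ‖inner ℂ x ((T ^ k * G k) x)‖ := Complex.abs_re_le_norm _
        _ ≤ ‖x‖ * ‖(T ^ k * G k) x‖ := norm_inner_le_norm _ _
        _ ≤ 1 * (B * 1) := by
            rw [hx]
            gcongr
            refine ((T ^ k * G k).le_opNorm x).trans ?_
            rw [hx]
            gcongr
            exact hB k
        _ = B := by ring
    exact (abs_le.mp h1).1
  have hstep : ∀ k, 1 ≤ k → γ (k + 1) - γ 1 ≤ 2 * (γ k - γ 1) := by
    intro k hk
    have := hq k hk 1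
    change 0 ≤ 1 ^ 2 * ‖((star T) ^ k) x‖ ^ 2 + 1 * (γ k - γ (k + 1) / 2 - ‖((star T) ^ k) x‖ ^ 2) - γ 1 / 2 at this
    linarith
  -- lower bound
  have hlow : ∀ k, 1 ≤ k → 0 ≤ γ k - γ 1 := by
    intro k hk
    by_contra hcon
    push Not at hcon
    have hpow : ∀ j, γ (k + j) - γ 1 ≤ 2 ^ j * (γ k - γ 1) := by
      intro j
      induction j with
      | zero => simp
      | succ j ih =>
        have h1 := hstep (k + j) (by omega)
        calc γ (k + (j + 1)) - γ 1 = γ (k + j + 1) - γ 1 := by rw [← add_assoc]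
          _ ≤ 2 * (γ (k + j) - γ 1) := h1
          _ ≤ 2 * (2 ^ j * (γ k - γ 1)) := by linarith
          _ = 2 ^ (j + 1) * (γ k - γ 1) := by ring
    obtain ⟨n, hn⟩ := pow_unbounded_of_one_lt ((B + |γ 1| + 1) / (-(γ k - γ 1))) (show (1 : ℝ) < 2 by norm_num)
    have h1 := hpow n
    have h2 := hbd (k + n)
    rw [div_lt_iff₀ (by linarith)] at hn
    have h3 := neg_abs_le (γ 1)
    have h4 := le_abs_self (γ 1)
    nlinarith
  have hall : ∀ k, 1 ≤ k → γ k = γ 1 := by
    intro k hk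
    induction k, hk using Nat.le_induction with
    | base => rfl
    | succ k hk ih =>
      have h1 := hstep k hk
      have h2 := hlow (k + 1) (by omega)
      rw [ih] at h1
      linarith
  have hv : ∀ k, 1 ≤ k → ‖((star T) ^ k) x‖ ^ 2 = -(γ 1 / 2) := by
    intro k hk
    set w := ‖((star T) ^ k) x‖ ^ 2 with hw
    have hqt : ∀ t : ℝ, 0 ≤ (t - 1) * (t * w + γ 1 / 2) := by
      intro t
      have h1 := hq k hk t
      change 0 ≤ t ^ 2 * w + t * (γ k - γ (k + 1) / 2 - w) - γ 1 / 2 at h1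
      rw [hall k hk, hall (k + 1) (by omega)] at h1
      nlinarith
    by_contra hne
    rcases lt_or_gt_of_ne hne with hlt | hgt
    · -- w + γ1/2 < 0 : take t slightly larger than 1
      have hw0 : 0 ≤ w := by positivity
      have hδ : 0 < -(w + γ 1 / 2) := by linarith
      set e := -(w + γ 1 / 2) / (2 * (w + 1)) with he
      have he0 : 0 < e := by positivity
      have h1 := hqt (1 + e)
      have h2 : (1 + e) * w + γ 1 / 2 < 0 := by
        have h3 : e * w ≤ -(w + γ 1 / 2) / 2 := by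
          rw [he, div_mul_eq_mul_div, div_le_div_iff₀ (by positivity) (by norm_num)]
          nlinarith
        linarith
      have h4 : (1 + e - 1) * ((1 + e) * w + γ 1 / 2) < 0 := by
        apply mul_neg_of_pos_of_neg _ h2
        linarith
      linarith
    · have hw0 : 0 ≤ w := by positivity
      have hδ : 0 < w + γ 1 / 2 := by linarith
      set e := (w + γ 1 / 2) / (2 * (w + 1)) with he
      have he0 : 0 < e := by positivity
      have h1 := hqt (1 - e)
      have h2 : 0 < (1 - e) * w + γ 1 / 2 := by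
        have h3 : e * w ≤ (w + γ 1 / 2) / 2 := by
          rw [he, div_mul_eq_mul_div, div_le_div_iff₀ (by positivity) (by norm_num)]
          nlinarith
        linarith
      have h4 : (1 - e - 1) * ((1 - e) * w + γ 1 / 2) < 0 := by
        apply mul_neg_of_neg_of_pos _ h2
        linarith
      linarith
  have hγ0 : γ 1 = 0 := by
    have h1 : Tendsto (fun k => ‖((star T) ^ k) x‖ ^ 2) atTop (𝓝 0) := by
      have := hlim.pow 2
      simpa using this
    have h2 : Tendsto (fun k => ‖((star T) ^ k) x‖ ^ 2) atTop (𝓝 (-(γ 1 / 2))) := by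
      apply tendsto_const_nhds.congr'
      filter_upwards [eventually_ge_atTop 1] with k hk
      exact (hv k hk).symm
    have := tendsto_nhds_unique h1 h2
    linarith
  constructor
  · have h1 := hv 1 le_rfl
    rw [hγ0, pow_one] at h1
    have h2 : ‖(star T) x‖ ^ 2 = 0 := by rw [h1]; norm_num
    exact norm_eq_zero.mp (pow_eq_zero_iff (two_ne_zero) |>.mp h2)
  · have h1 : (inner ℂ y ((star (G 1)) x)).re = γ 1 / 2 := by
      have hyx : y = ((2⁻¹ : ℝ) : ℂ) • T x := by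
        rw [hTx, smul_smul]
        norm_num
      rw [ContinuousLinearMap.star_eq_adjoint, adjoint_inner_right]
      have e1 : G 1 y = ((2⁻¹ : ℝ) : ℂ) • (T ^ 1 * G 1) x := by
        conv_lhs => rw [hyx]
        rw [map_smul, pow_one, hcomm 1]
        rfl
      rw [e1, inner_smul_left, Complex.conj_ofReal, Complex.re_ofReal_mul]
      have h2 : (inner ℂ ((T ^ 1 * G 1) x) x).re = γ 1 := inner_re_symm (𝕜 := ℂ) _ _
      rw [h2]
      ring
    rw [h1, hγ0]
    norm_num

end Pool.Agent.KS6_34.CE
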