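import Pool.Agent.KS6_34.CE.CD
import Pool.Agent.KS6_34.CE.Core

/-!
# Crouzeix equality: passing to the limit
-/

set_option autoImplicit false
set_option linter.unusedSectionVars false

open MeasureTheory Set Filter Topology Complex Polynomial

namespace Pool.Agent.KS6_34.CE

open Pool.Agent.W753.CZ (numRange crouzeix_bound)

variable {H : Type*} [NormedAddCommGroup H] [InnerProductSpace ℂ H] [CompleteSpace H]

theorem norm_le_two_of_pos (S : H →L[ℂ] H) (h : ∀ a b : H, 0 ≤ ‖a‖ ^ 2 + ‖b‖ ^ 2 + (inner ℂ b (S a)).re) :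
    ‖S‖ ≤ 2 := by
  refine S.opNorm_le_bound (by norm_num) fun a => ?_
  have h1 := h a (-((2⁻¹ : ℝ) : ℂ) • S a)
  rw [norm_smul, norm_neg, Complex.norm_real, inner_smul_left, map_neg, Complex.conj_ofReal, neg_mul, neg_re,
    re_ofReal_mul, inner_self_eq_norm_sq_to_K] at h1
  have h2 : (((‖S a‖ : ℝ) : ℂ) ^ 2).re = ‖S a‖ ^ 2 := by norm_cast
  have h2' : (((RCLike.ofReal ‖S a‖ : ℂ)) ^ 2).re = ‖S a‖ ^ 2 := h2
  rw [h2', Real.norm_eq_abs, abs_of_pos (by norm_num : (0 : ℝ) < 2⁻¹)] at h1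
  have h3 : ‖S a‖ ^ 2 ≤ (2 * ‖a‖) ^ 2 := by nlinarith
  exact (pow_le_pow_iff_left₀ (norm_nonneg _) (by positivity) (by norm_num)).mp h3

theorem T_pow_le [Nontrivial H] {A : H →L[ℂ] H} {p : ℂ[X]} (hp : ∀ w ∈ numRange A, ‖p.eval w‖ ≤ 1)
    {M R : ℝ} (hM : 1 ≤ M) (C : CD A p M R) (k : ℕ) : ‖C.T ^ k‖ ≤ 2 := by
  have hM0 : 0 < M := by linarith
  have h := crouzeix_bound A ((Polynomial.C ((M : ℂ)⁻¹) * p) ^ k) 1 (by
    intro w hw
    rw [eval_pow, eval_mul, eval_C, norm_pow, norm_mul, norm_inv, Complex.norm_real, Real.norm_eq_abs,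
      abs_of_pos hM0]
    apply pow_le_one₀ (by positivity)
    rw [inv_mul_le_iff₀ hM0]
    linarith [hp w hw])
  rw [map_pow, map_mul, aeval_C, Algebra.algebraMap_eq_smul_one, smul_one_mul] at h
  rw [CD.T]
  linarith

theorem G_le [Nontrivial H] {A : H →L[ℂ] H} {p : ℂ[X]} (hp : ∀ w ∈ numRange A, ‖p.eval w‖ ≤ 1)
    {M R : ℝ} (hM : 1 ≤ M) (C : CD A p M R) (k : ℕ) : ‖C.G k‖ ≤ 4 := by
  have h1 : ‖C.T ^ k + star (C.G k)‖ ≤ 2 := by
    apply norm_le_two_of_pos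
    intro a b
    have := C.hpos (by linarith) k a b 0
    simpa using this
  have h2 := T_pow_le hp hM C k
  have h3 : star (C.G k) = (C.T ^ k + star (C.G k)) - C.T ^ k := by abel
  have h4 : ‖star (C.G k)‖ ≤ 4 := by
    rw [h3]
    refine (norm_sub_le _ _).trans ?_
    linarith
  rwa [norm_star] at h4

theorem near_eq [FiniteDimensional ℂ H] [Nontrivial H] (A : H →L[ℂ] H) (p : ℂ[X])
    (hp : ∀ w ∈ numRange A, ‖p.eval w‖ ≤ 1) (x y : H) (hx : ‖x‖ = 1) (hy : ‖y‖ = 1)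
    (hTx : aeval A p x = (2 : ℂ) • y) (hTy : (star (aeval A p)) y = (2 : ℂ) • x)
    (hlim : Tendsto (fun k => ‖((star (aeval A p)) ^ k) x‖) atTop (𝓝 0)) :
    star (aeval A p) x = 0 ∧
      ∀ ε : ℝ, 0 < ε → ∃ M : ℝ, 1 < M ∧ M < 1 + ε ∧ ∃ C : CD A p M (‖A‖ + 2), C.Q x y < ε := by
  set M : ℕ → ℝ := fun n => 1 + 1 / ((n : ℝ) + 1) with hMd
  have hM1 : ∀ n, 1 < M n := by
    intro n
    rw [hMd]
    simp only
    have : (0 : ℝ) < 1 / ((n : ℝ) + 1) := by positivity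
    linarith
  have hMlim : Tendsto M atTop (𝓝 1) := by
    have h1 : Tendsto (fun n : ℕ => 1 / ((n : ℝ) + 1)) atTop (𝓝 0) := tendsto_one_div_add_atTop_nhds_zero_nat
    have := (tendsto_const_nhds (x := (1 : ℝ))).add h1
    rwa [add_zero] at this
  have hC : ∀ n, Nonempty (CD A p (M n) (‖A‖ + 2)) := fun n => exists_CD A p hp (M n) (hM1 n)
  let C : ∀ n, CD A p (M n) (‖A‖ + 2) := fun n => (hC n).some
  have : FiniteDimensional ℂ (H →L[ℂ] H) := inferInstance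
  have : ProperSpace (H →L[ℂ] H) := FiniteDimensional.proper ℂ (H →L[ℂ] H)
  set U : Ultrafilter ℕ := hyperfilter ℕ with hU
  have hUtop : (U : Filter ℕ) ≤ atTop := Nat.hyperfilter_le_atTop
  have hG : ∀ k, ∃ g : H →L[ℂ] H, ‖g‖ ≤ 4 ∧ Tendsto (fun n => (C n).G k) U (𝓝 g) := by
    intro k
    have hcpt : IsCompact (Metric.closedBall (0 : H →L[ℂ] H) 4) := isCompact_closedBall _ _
    obtain ⟨g, hg, hgl⟩ := hcpt.ultrafilter_le_nhds (U.map fun n => (C n).G k) (by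
      rw [le_principal_iff]
      apply mem_map.mpr
      apply univ_mem'
      intro n
      simp only [Set.mem_preimage, mem_closedBall_zero_iff]
      exact G_le hp (hM1 n).le (C n) k)
    exact ⟨g, mem_closedBall_zero_iff.mp hg, hgl⟩
  choose G hGb hGl using hG
  set T := aeval A p with hT
  have hTl : Tendsto (fun n => (C n).T) U (𝓝 T) := by
    have h1 : Tendsto (fun n => ((M n : ℂ))⁻¹ • T) atTop (𝓝 (((1 : ℝ) : ℂ)⁻¹ • T)) := by
      apply Tendsto.smul_const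
      apply Tendsto.inv₀
      · exact (Complex.continuous_ofReal.tendsto 1).comp hMlim
      · norm_num
    have h2 : (((1 : ℝ) : ℂ)⁻¹ • T) = T := by norm_num
    rw [h2] at h1
    exact h1.mono_left hUtop
  have hTk : ∀ k, Tendsto (fun n => (C n).T ^ k) U (𝓝 (T ^ k)) := fun k => hTl.pow k
  have hcomm : ∀ k, T * G k = G k * T := by
    intro k
    have h1 : Tendsto (fun n => (C n).T * (C n).G k) U (𝓝 (T * G k)) := hTl.mul (hGl k)
    have h2 : Tendsto (fun n => (C n).G k * (C n).T) U (𝓝 (G k * T)) := (hGl k).mul hTl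
    have h3 : (fun n => (C n).T * (C n).G k) = fun n => (C n).G k * (C n).T := funext fun n => (C n).hcomm k
    rw [h3] at h1
    exact tendsto_nhds_unique h1 h2
  have hS : ∀ k, Tendsto (fun n => (C n).T ^ k + star ((C n).G k)) U (𝓝 (T ^ k + star (G k))) := fun k =>
    (hTk k).add ((continuous_star.tendsto _).comp (hGl k))
  have hin : ∀ (k : ℕ) (u v : H), Tendsto (fun n => (inner ℂ u (((C n).T ^ k + star ((C n).G k)) v)).re) U
      (𝓝 (inner ℂ u ((T ^ k + star (G k)) v)).re) := by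
    intro k u v
    have hc : Continuous (fun S : H →L[ℂ] H => (inner ℂ u (S v)).re) := by fun_prop
    exact (hc.tendsto _).comp (hS k)
  have hpos : ∀ k, 1 ≤ k → ∀ a b c : H,
      0 ≤ ‖a‖ ^ 2 + ‖b‖ ^ 2 + ‖c‖ ^ 2 + (inner ℂ b ((T ^ k + star (G k)) a)).re
        + (inner ℂ c ((T ^ (k + 1) + star (G (k + 1))) a)).re
        + (inner ℂ c ((T ^ 1 + star (G 1)) b)).re := by
    intro k _ a b c
    refine ge_of_tendsto' (((tendsto_const_nhds.add (hin k b a)).add (hin (k + 1) c a)).add (hin 1 c b))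
      (fun n => (C n).hpos (by linarith [hM1 n]) k a b c)
  have hTp : ∀ k, ‖T ^ k‖ ≤ 2 := by
    intro k
    refine le_of_tendsto (hTk k).norm (Eventually.of_forall fun n => T_pow_le hp (hM1 n).le (C n) k)
  have hB : ∀ n, ‖T ^ n * G n‖ ≤ 2 * 4 := fun n =>
    (norm_mul_le _ _).trans (mul_le_mul (hTp n) (hGb n) (norm_nonneg _) (by norm_num))
  obtain ⟨hx0, hg0⟩ := eq_core T G hcomm (2 * 4) hB hpos x y hx hy hTx hTy hlim
  refine ⟨hx0, fun ε hε => ?_⟩
  have hQ : Tendsto (fun n => (C n).Q x y) U (𝓝 0) := by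
    have h1 : Tendsto (fun n => ‖x‖ ^ 2 + ‖y‖ ^ 2 -
        (inner ℂ y (((C n).T ^ 1 + star ((C n).G 1)) x)).re) U
        (𝓝 (‖x‖ ^ 2 + ‖y‖ ^ 2 - (inner ℂ y ((T ^ 1 + star (G 1)) x)).re)) :=
      tendsto_const_nhds.sub (hin 1 y x)
    have h2 : ‖x‖ ^ 2 + ‖y‖ ^ 2 - (inner ℂ y ((T ^ 1 + star (G 1)) x)).re = 0 := by
      rw [pow_one, add_apply, inner_add_right, add_re, hg0, hTx, inner_smul_right,
        inner_self_eq_norm_sq_to_K, hx, hy]
      norm_num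
    rw [h2] at h1
    refine h1.congr fun n => ?_
    rw [CD.Q, pow_one]
  have h1 : ∀ᶠ n in (U : Filter ℕ), (C n).Q x y < ε := hQ.eventually_lt_const hε
  have h2 : ∀ᶠ n in (U : Filter ℕ), M n < 1 + ε :=
    (hMlim.eventually_lt_const (by linarith)).filter_mono hUtop
  obtain ⟨n, hn1, hn2⟩ := (h1.and h2).exists
  exact ⟨M n, hM1 n, hn2, C n, hn1⟩

end Pool.Agent.KS6_34.CE
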