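import Pool.Agent.KS6_34.CE.Proj
import Pool.Agent.KS6_34.CE.Lim

/-!
# Crouzeix equality: the contact set is infinite
-/

set_option autoImplicit false
set_option linter.unusedSectionVars false

open MeasureTheory Set Filter Topology Complex Polynomial

namespace Pool.Agent.KS6_34.CE

open Pool.Agent.W753.CZ (numRange crouzeix_bound)

variable {H : Type*} [NormedAddCommGroup H] [InnerProductSpace ℂ H] [CompleteSpace H]

theorem q_F_cont {A : H →L[ℂ] H} {p : ℂ[X]} {M R : ℝ} (C : CD A p M R) (x y : H) :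
    Continuous (fun φ => C.q φ (y - C.z φ • x)) := by
  have hX := C.Xc
  have hz := C.z_cont
  unfold CD.q
  have hYc : Continuous (fun φ => inner ℂ (y - C.z φ • x) (C.X φ (y - C.z φ • x))) := by fun_prop
  exact Complex.continuous_re.comp hYc

theorem int_F {A : H →L[ℂ] H} {p : ℂ[X]} {M R : ℝ} (hM : 0 < M) (C : CD A p M R) (x y : H) :
    ∫ φ in (0 : ℝ)..(2 * Real.pi), C.q φ (y - C.z φ • x) ≤ 2 * Real.pi * C.Q x y := by
  rw [← C.int_Q x y]
  have hπ : (0 : ℝ) ≤ 2 * Real.pi := by positivity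
  have hzc := C.z_cont
  have hqx := C.q_cont x
  have h1 : Continuous (fun φ => (1 - ‖C.z φ‖ ^ 2) * C.q φ x) := by fun_prop
  apply intervalIntegral.integral_mono_on hπ ((q_F_cont C x y).intervalIntegrable _ _)
    (((q_F_cont C x y).add h1).intervalIntegrable _ _)
  intro φ _
  have h2 : 0 ≤ (1 - ‖C.z φ‖ ^ 2) * C.q φ x := by
    apply mul_nonneg _ (C.q_nonneg φ x)
    have := pow_le_one₀ (n := 2) (norm_nonneg _) (C.z_le hM φ)
    linarith
  change C.q φ (y - C.z φ • x) ≤ C.q φ (y - C.z φ • x) + (1 - ‖C.z φ‖ ^ 2) * C.q φ x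
  linarith

theorem int_def {A : H →L[ℂ] H} {p : ℂ[X]} {M R : ℝ} (C : CD A p M R) (x y : H) :
    ∫ φ in (0 : ℝ)..(2 * Real.pi), (1 - ‖C.z φ‖ ^ 2) * C.q φ x ≤ 2 * Real.pi * C.Q x y := by
  rw [← C.int_Q x y]
  have hπ : (0 : ℝ) ≤ 2 * Real.pi := by positivity
  have hzc := C.z_cont
  have hqx := C.q_cont x
  have h1 : Continuous (fun φ => (1 - ‖C.z φ‖ ^ 2) * C.q φ x) := by fun_prop
  apply intervalIntegral.integral_mono_on hπ (h1.intervalIntegrable _ _)
    (((q_F_cont C x y).add h1).intervalIntegrable _ _)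
  intro φ _
  have h2 := C.q_nonneg φ (y - C.z φ • x)
  change (1 - ‖C.z φ‖ ^ 2) * C.q φ x ≤ C.q φ (y - C.z φ • x) + (1 - ‖C.z φ‖ ^ 2) * C.q φ x
  linarith

theorem conc1 (A : H →L[ℂ] H) (p χ : ℂ[X]) (hχ : aeval A χ = 0) (x y : H) (hxy : inner ℂ x y = (0 : ℂ))
    (hx : ‖x‖ = 1) (hy : ‖y‖ = 1) (R : ℝ) :
    ∃ C1 : ℝ, 0 < C1 ∧ ∀ (M : ℝ) (_ : 0 < M) (C : CD A p M R) (ε : ℝ), 0 < ε → C.Q x y < ε →
      ∫ φ in (0 : ℝ)..(2 * Real.pi), C.ρ φ * ‖Psi A χ x y (C.s φ) (C.z φ)‖ ^ 2 ≤ C1 * √ε := by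
  have hcomp : IsCompact (Metric.closedBall (0 : ℂ) R ×ˢ Metric.closedBall (0 : ℂ) 1) :=
    (isCompact_closedBall _ _).prod (isCompact_closedBall _ _)
  have hcont : Continuous (fun w : ℂ × ℂ => χ.eval w.1 * Psi A χ x y w.1 w.2) := by
    have h1 := Psi_cont A χ x y
    have h2 : Continuous (fun w : ℂ × ℂ => χ.eval w.1) := by fun_prop
    exact h2.mul h1
  obtain ⟨cw, hcw⟩ := hcomp.exists_bound_of_continuousOn hcont.continuousOn
  set Cg : ℝ := cw ^ 2 * (4 * (R ^ 2 + ‖A x‖ ^ 2 + R ^ 2 + ‖A y‖ ^ 2)) with hCg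
  have hCg0 : 0 ≤ Cg := by positivity
  refine ⟨2 * Real.pi * (1 + Cg), by positivity, ?_⟩
  intro M hM C ε hε hQ
  have hπ : (0 : ℝ) < 2 * Real.pi := by positivity
  have hsq : 0 < √ε := Real.sqrt_pos.mpr hε
  have hsq2 : √ε * √ε = ε := Real.mul_self_sqrt hε.le
  have hzc := C.z_cont
  have hsc := C.s_cont
  have hρc := C.ρ_cont
  have hψc : Continuous (fun φ => Psi A χ x y (C.s φ) (C.z φ)) :=
    (Psi_cont A χ x y).comp (hsc.prodMk hzc)
  have hpt : ∀ φ, C.ρ φ * ‖Psi A χ x y (C.s φ) (C.z φ)‖ ^ 2 ≤ (√ε)⁻¹ * C.q φ (y - C.z φ • x) +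
      √ε * (cw ^ 2 * (4 * (R ^ 2 * C.q φ x + C.q φ (A x) + R ^ 2 * C.q φ y + C.q φ (A y)))) := by
    intro φ
    refine (C.psi_pair hχ hxy hx hy φ (√ε)⁻¹ (by positivity)).trans ?_
    rw [inv_inv]
    apply add_le_add_right
    apply mul_le_mul_of_nonneg_left _ hsq.le
    have hs := C.hR φ
    have hz := C.z_le hM φ
    have hs' : ‖C.s φ‖ ≤ R := hs
    rw [C.q_smul]
    have hw : ‖star (χ.eval (C.s φ)) * (exp (φ * I) * Psi A χ x y (C.s φ) (C.z φ))‖ ≤ cw := by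
      rw [norm_mul, norm_star, norm_mul, Complex.norm_exp_ofReal_mul_I, one_mul, ← norm_mul]
      exact hcw (C.s φ, C.z φ) ⟨mem_closedBall_zero_iff.mpr hs', mem_closedBall_zero_iff.mpr hz⟩
    have hw2 := pow_le_pow_left₀ (norm_nonneg _) hw 2
    have hvq : C.q φ ((C.s φ • (1 : H →L[ℂ] H) - A) (x + star (C.z φ) • y)) ≤
        4 * (R ^ 2 * C.q φ x + C.q φ (A x) + R ^ 2 * C.q φ y + C.q φ (A y)) := by
      have e : (C.s φ • (1 : H →L[ℂ] H) - A) (x + star (C.z φ) • y) =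
          (C.s φ • x + (-A x)) + ((C.s φ * star (C.z φ)) • y + (-(star (C.z φ) • A y))) := by
        rw [sub_apply, smul_apply, one_apply_eq_self, map_add, map_smul, smul_add, smul_smul]
        abel
      rw [e]
      have a1 := C.q_add_le φ (C.s φ • x + (-A x)) ((C.s φ * star (C.z φ)) • y + (-(star (C.z φ) • A y)))
      have a2 := C.q_add_le φ (C.s φ • x) (-A x)
      have a3 := C.q_add_le φ ((C.s φ * star (C.z φ)) • y) (-(star (C.z φ) • A y))
      rw [C.q_neg, C.q_smul] at a2 a3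
      rw [C.q_smul, norm_mul, norm_star] at a3
      have n1 := C.q_nonneg φ x
      have n2 := C.q_nonneg φ (A x)
      have n3 := C.q_nonneg φ y
      have n4 := C.q_nonneg φ (A y)
      have b1 : ‖C.s φ‖ ^ 2 * C.q φ x ≤ R ^ 2 * C.q φ x := by gcongr
      have hz2 : ‖C.z φ‖ ^ 2 ≤ 1 := pow_le_one₀ (norm_nonneg _) hz
      have b2 : ‖C.z φ‖ ^ 2 * C.q φ (A y) ≤ 1 * C.q φ (A y) := by gcongr
      have b3 : (‖C.s φ‖ * ‖C.z φ‖) ^ 2 * C.q φ y ≤ R ^ 2 * C.q φ y := by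
        have : (‖C.s φ‖ * ‖C.z φ‖) ^ 2 ≤ R ^ 2 := by
          rw [mul_pow]
          calc ‖C.s φ‖ ^ 2 * ‖C.z φ‖ ^ 2 ≤ R ^ 2 * 1 := by gcongr
            _ = R ^ 2 := mul_one _
        gcongr
      linarith
    exact mul_le_mul hw2 hvq (C.q_nonneg φ _) (by positivity)
  have hrc : Continuous (fun φ => (√ε)⁻¹ * C.q φ (y - C.z φ • x) +
      √ε * (cw ^ 2 * (4 * (R ^ 2 * C.q φ x + C.q φ (A x) + R ^ 2 * C.q φ y + C.q φ (A y))))) := by
    have c1 := C.q_cont x
    have c2 := C.q_cont y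
    have c3 := C.q_cont (A x)
    have c4 := C.q_cont (A y)
    have c5 := q_F_cont C x y
    fun_prop
  have hlc : Continuous (fun φ => C.ρ φ * ‖Psi A χ x y (C.s φ) (C.z φ)‖ ^ 2) := by fun_prop
  refine (intervalIntegral.integral_mono_on hπ.le (hlc.intervalIntegrable _ _) (hrc.intervalIntegrable _ _)
    (fun φ _ => hpt φ)).trans ?_
  have c1 := (C.q_cont x).intervalIntegrable (μ := volume) 0 (2 * Real.pi)
  have c2 := (C.q_cont y).intervalIntegrable (μ := volume) 0 (2 * Real.pi)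
  have c3 := (C.q_cont (A x)).intervalIntegrable (μ := volume) 0 (2 * Real.pi)
  have c4 := (C.q_cont (A y)).intervalIntegrable (μ := volume) 0 (2 * Real.pi)
  have c5 := (q_F_cont C x y).intervalIntegrable (μ := volume) 0 (2 * Real.pi)
  have e1 : ∫ φ in (0 : ℝ)..(2 * Real.pi), ((√ε)⁻¹ * C.q φ (y - C.z φ • x) +
      √ε * (cw ^ 2 * (4 * (R ^ 2 * C.q φ x + C.q φ (A x) + R ^ 2 * C.q φ y + C.q φ (A y))))) =
      (√ε)⁻¹ * (∫ φ in (0 : ℝ)..(2 * Real.pi), C.q φ (y - C.z φ • x)) +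
      √ε * (2 * Real.pi * Cg) := by
    rw [intervalIntegral.integral_add (c5.const_mul _)
      ((((((c1.const_mul _).add c3).add (c2.const_mul _)).add c4).const_mul _).const_mul _ |>.const_mul _),
      intervalIntegral.integral_const_mul, intervalIntegral.integral_const_mul,
      intervalIntegral.integral_const_mul, intervalIntegral.integral_const_mul,
      intervalIntegral.integral_add (((c1.const_mul _).add c3).add (c2.const_mul _)) c4,
      intervalIntegral.integral_add ((c1.const_mul _).add c3) (c2.const_mul _),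
      intervalIntegral.integral_add (c1.const_mul _) c3,
      intervalIntegral.integral_const_mul, intervalIntegral.integral_const_mul,
      C.q_int, C.q_int, C.q_int, C.q_int, hx, hy]
    ring
  rw [e1]
  have h1 := int_F hM C x y
  have h2 : (√ε)⁻¹ * (∫ φ in (0 : ℝ)..(2 * Real.pi), C.q φ (y - C.z φ • x)) ≤ 2 * Real.pi * √ε := by
    calc (√ε)⁻¹ * (∫ φ in (0 : ℝ)..(2 * Real.pi), C.q φ (y - C.z φ • x)) ≤
        (√ε)⁻¹ * (2 * Real.pi * ε) := by
          apply mul_le_mul_of_nonneg_left _ (by positivity)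
          refine h1.trans ?_
          gcongr
      _ = 2 * Real.pi * √ε := by
          have h3 : (√ε)⁻¹ * ε = √ε := by
            rw [inv_mul_eq_iff_eq_mul₀ hsq.ne']
            exact hsq2.symm
          rw [mul_left_comm, h3]
  calc _ ≤ 2 * Real.pi * √ε + √ε * (2 * Real.pi * Cg) := by linarith
    _ = _ := by ring

end Pool.Agent.KS6_34.CE
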