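import Pool.Agent.KS6_34.CE.Conc

/-!
# Crouzeix equality: the contact set is infinite (conclusion)
-/

set_option autoImplicit false
set_option linter.unusedSectionVars false

open MeasureTheory Set Filter Topology Complex Polynomial

namespace Pool.Agent.KS6_34.CE

open Pool.Agent.W753.CZ (numRange crouzeix_bound)

variable {H : Type*} [NormedAddCommGroup H] [InnerProductSpace ℂ H] [CompleteSpace H]

theorem away (χ : ℂ[X]) (Z : Finset ℂ) (hZ : ∀ σ ∈ Z, χ.eval σ ≠ 0) :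
    ∃ d0 : ℝ, 0 < d0 ∧ ∃ c0 : ℝ, 0 < c0 ∧ ∀ σ ∈ Z, ∀ s : ℂ, ‖s - σ‖ < d0 → c0 ≤ ‖χ.eval s‖ := by
  induction Z using Finset.induction_on with
  | empty => exact ⟨1, one_pos, 1, one_pos, fun σ hσ => absurd hσ (Finset.notMem_empty σ)⟩
  | insert a Z _ ih =>
    obtain ⟨d1, hd1, c1, hc1, h1⟩ := ih (fun σ hσ => hZ σ (Finset.mem_insert_of_mem hσ))
    have ha : 0 < ‖χ.eval a‖ := norm_pos_iff.mpr (hZ a (Finset.mem_insert_self a Z))
    have hcont : Continuous (fun s : ℂ => ‖χ.eval s‖) := by fun_prop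
    have hev : ∀ᶠ s in 𝓝 a, ‖χ.eval a‖ / 2 < ‖χ.eval s‖ :=
      (hcont.tendsto a).eventually_const_lt (by linarith)
    obtain ⟨d2, hd2, h2⟩ := Metric.eventually_nhds_iff.mp hev
    refine ⟨min d1 d2, lt_min hd1 hd2, min c1 (‖χ.eval a‖ / 2), lt_min hc1 (by positivity), ?_⟩
    intro σ hσ s hs
    rcases Finset.mem_insert.mp hσ with rfl | hσ'
    · refine (min_le_right _ _).trans (h2 ?_).le
      rw [dist_eq_norm]
      exact hs.trans_le (min_le_right _ _)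
    · exact (min_le_left _ _).trans (h1 σ hσ' s (hs.trans_le (min_le_left _ _)))

theorem bump_le {χ : ℂ[X]} {σ s : ℂ} {η d0 c0 : ℝ} (hη : 0 < η) (hd0 : 0 < d0) (hc0 : 0 < c0)
    (h : ‖s - σ‖ < d0 → c0 ≤ ‖χ.eval s‖) :
    η ^ 2 / (η ^ 2 + ‖s - σ‖ ^ 2) ≤ η ^ 2 / d0 ^ 2 + c0⁻¹ * (‖χ.eval s‖ * (η ^ 2 / (η ^ 2 + ‖s - σ‖ ^ 2))) := by
  by_cases hs : ‖s - σ‖ < d0
  · have h1 := h hs
    have h2 : 0 ≤ η ^ 2 / (η ^ 2 + ‖s - σ‖ ^ 2) := by positivity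
    have h3 : 0 ≤ η ^ 2 / d0 ^ 2 := by positivity
    have h4 : 1 ≤ c0⁻¹ * ‖χ.eval s‖ := by
      rw [le_inv_mul_iff₀ hc0]
      linarith
    calc η ^ 2 / (η ^ 2 + ‖s - σ‖ ^ 2) = 1 * (η ^ 2 / (η ^ 2 + ‖s - σ‖ ^ 2)) := (one_mul _).symm
      _ ≤ (c0⁻¹ * ‖χ.eval s‖) * (η ^ 2 / (η ^ 2 + ‖s - σ‖ ^ 2)) := by gcongr
      _ ≤ _ := by linarith
  · push Not at hs
    have h1 : η ^ 2 / (η ^ 2 + ‖s - σ‖ ^ 2) ≤ η ^ 2 / d0 ^ 2 := by
      apply div_le_div_of_nonneg_left (by positivity) (by positivity)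
      have := pow_le_pow_left₀ hd0.le hs 2
      nlinarith [sq_nonneg η]
    have h2 : 0 ≤ c0⁻¹ * (‖χ.eval s‖ * (η ^ 2 / (η ^ 2 + ‖s - σ‖ ^ 2))) := by positivity
    linarith

theorem bump_int {A : H →L[ℂ] H} {p χ : ℂ[X]} {M R : ℝ} (C : CD A p M R) (hχ : aeval A χ = 0) {x : H}
    (hx : ‖x‖ = 1) {CP : ℝ} (hCP : ∀ s : ℂ, ‖s‖ ≤ R → ‖Pop A χ s‖ ≤ CP) {σ : ℂ} {η d0 c0 : ℝ} (hη : 0 < η)
    (hd0 : 0 < d0) (hc0 : 0 < c0) (h : ∀ s : ℂ, ‖s - σ‖ < d0 → c0 ≤ ‖χ.eval s‖) :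
    ∫ φ in (0 : ℝ)..(2 * Real.pi), (η ^ 2 / (η ^ 2 + ‖C.s φ - σ‖ ^ 2)) * C.q φ x ≤
      2 * Real.pi * (η ^ 2 / d0 ^ 2) + c0⁻¹ * (CP * (4 * (√2 * η * Real.pi))) := by
  have hπ : (0 : ℝ) < 2 * Real.pi := by positivity
  have hCP0 : 0 ≤ CP := (norm_nonneg _).trans (hCP (C.s 0) (C.hR 0))
  have hρc := C.ρ_cont
  have hsc := C.s_cont
  have hqc := C.q_cont x
  have hbc : Continuous (fun φ => η ^ 2 / (η ^ 2 + ‖C.s φ - σ‖ ^ 2)) := by
    have h1 : Continuous (fun φ => η ^ 2 + ‖C.s φ - σ‖ ^ 2) := by fun_prop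
    have h2 : ∀ φ, η ^ 2 + ‖C.s φ - σ‖ ^ 2 ≠ 0 := fun φ => by positivity
    exact continuous_const.div h1 h2
  have h1 : ∀ φ, (η ^ 2 / (η ^ 2 + ‖C.s φ - σ‖ ^ 2)) * C.q φ x ≤
      (η ^ 2 / d0 ^ 2) * C.q φ x + (c0⁻¹ * CP) * (C.ρ φ * (η ^ 2 / (η ^ 2 + ‖C.s φ - σ‖ ^ 2))) := by
    intro φ
    have h2 := bump_le (χ := χ) (s := C.s φ) (σ := σ) hη hd0 hc0 (h (C.s φ))
    have h3 := mul_le_mul_of_nonneg_right h2 (C.q_nonneg φ x)
    refine h3.trans ?_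
    rw [add_mul]
    apply add_le_add_right
    have h4 := C.chi_q hχ φ x
    rw [hx, one_pow, mul_one] at h4
    have h5 : C.ρ φ * ‖Pop A χ (C.s φ)‖ ≤ C.ρ φ * CP :=
      mul_le_mul_of_nonneg_left (hCP _ (C.hR φ)) (C.ρ_nonneg φ)
    have h6 : 0 ≤ η ^ 2 / (η ^ 2 + ‖C.s φ - σ‖ ^ 2) := by positivity
    calc c0⁻¹ * (‖χ.eval (C.s φ)‖ * (η ^ 2 / (η ^ 2 + ‖C.s φ - σ‖ ^ 2))) * C.q φ x =
        c0⁻¹ * ((η ^ 2 / (η ^ 2 + ‖C.s φ - σ‖ ^ 2)) * (‖χ.eval (C.s φ)‖ * C.q φ x)) := by ring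
      _ ≤ c0⁻¹ * ((η ^ 2 / (η ^ 2 + ‖C.s φ - σ‖ ^ 2)) * (C.ρ φ * CP)) :=
          mul_le_mul_of_nonneg_left (mul_le_mul_of_nonneg_left (h4.trans h5) h6) (inv_nonneg.mpr hc0.le)
      _ = _ := by ring
  have j1 : IntervalIntegrable (fun φ => (η ^ 2 / (η ^ 2 + ‖C.s φ - σ‖ ^ 2)) * C.q φ x) volume 0 (2 * Real.pi) :=
    (hbc.mul hqc).intervalIntegrable _ _
  have j2 : IntervalIntegrable (fun φ => (η ^ 2 / d0 ^ 2) * C.q φ x) volume 0 (2 * Real.pi) :=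
    (continuous_const.mul hqc).intervalIntegrable _ _
  have j3 : IntervalIntegrable (fun φ => (c0⁻¹ * CP) * (C.ρ φ * (η ^ 2 / (η ^ 2 + ‖C.s φ - σ‖ ^ 2)))) volume 0
      (2 * Real.pi) := (continuous_const.mul (hρc.mul hbc)).intervalIntegrable _ _
  refine (intervalIntegral.integral_mono_on hπ.le j1 (j2.add j3) (fun φ _ => h1 φ)).trans ?_
  rw [intervalIntegral.integral_add j2 j3, intervalIntegral.integral_const_mul,
    intervalIntegral.integral_const_mul, C.q_int, hx]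
  have h2 := C.arc_int σ η hη
  have h3 : c0⁻¹ * CP * (∫ φ in (0 : ℝ)..(2 * Real.pi), C.ρ φ * (η ^ 2 / (η ^ 2 + ‖C.s φ - σ‖ ^ 2))) ≤
      c0⁻¹ * CP * (4 * (√2 * η * Real.pi)) := by gcongr
  calc _ ≤ η ^ 2 / d0 ^ 2 * (2 * Real.pi * 1 ^ 2) + c0⁻¹ * CP * (4 * (√2 * η * Real.pi)) := by linarith
    _ = _ := by ring

theorem contact_infinite [FiniteDimensional ℂ H] [Nontrivial H] (A : H →L[ℂ] H) (p χ : ℂ[X])
    (hp : ∀ w ∈ numRange A, ‖p.eval w‖ ≤ 1) (x y : H) (hx : ‖x‖ = 1) (hy : ‖y‖ = 1)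
    (hTx : aeval A p x = (2 : ℂ) • y) (hTy : (star (aeval A p)) y = (2 : ℂ) • x)
    (hlim : Tendsto (fun k => ‖((star (aeval A p)) ^ k) x‖) atTop (𝓝 0))
    (hχ : aeval A χ = 0) (hroot : ∀ a, χ.eval a = 0 → ‖p.eval a‖ < 1) :
    inner ℂ x y = (0 : ℂ) ∧ {σ : ℂ | ‖p.eval σ‖ = 1 ∧ Psi A χ x y σ (p.eval σ) = 0}.Infinite := by
  obtain ⟨hx0, hnear⟩ := near_eq A p hp x y hx hy hTx hTy hlim
  have hxy : inner ℂ x y = (0 : ℂ) := by
    have h1 : (2 : ℂ) * inner ℂ x y = 0 := by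
      rw [← inner_smul_right, ← hTx, ← ContinuousLinearMap.adjoint_inner_left,
        ← ContinuousLinearMap.star_eq_adjoint, hx0, inner_zero_left]
    exact (mul_eq_zero.mp h1).resolve_left two_ne_zero
  refine ⟨hxy, ?_⟩
  intro hfin
  set Z : Finset ℂ := hfin.toFinset with hZ
  have hZmem : ∀ σ, σ ∈ Z ↔ ‖p.eval σ‖ = 1 ∧ Psi A χ x y σ (p.eval σ) = 0 := by
    intro σ
    rw [hZ, Set.Finite.mem_toFinset]
    rfl
  set R : ℝ := ‖A‖ + 2 with hR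
  obtain ⟨C1, hC1, hconc⟩ := conc1 A p χ hχ x y hxy hx hy R
  obtain ⟨CP, hCP⟩ := (isCompact_closedBall (0 : ℂ) R).exists_bound_of_continuousOn (Pop_cont A χ).continuousOn
  have hCP' : ∀ s : ℂ, ‖s‖ ≤ R → ‖Pop A χ s‖ ≤ CP := fun s hs => hCP s (mem_closedBall_zero_iff.mpr hs)
  have hCP0 : 0 ≤ CP := (norm_nonneg _).trans (hCP' 0 (by rw [norm_zero]; positivity))
  obtain ⟨d0, hd0, c0, hc0, haway⟩ := away χ Z (by
    intro σ hσ h
    have h1 := hroot σ h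
    rw [((hZmem σ).mp hσ).1] at h1
    exact lt_irrefl _ h1)
  have hpi := Real.pi_pos
  -- choose `η`
  obtain ⟨η, hη, hηs⟩ : ∃ η : ℝ, 0 < η ∧
      (Z.card : ℝ) * (2 * Real.pi * (η ^ 2 / d0 ^ 2) + c0⁻¹ * (CP * (4 * (√2 * η * Real.pi)))) < Real.pi / 2 := by
    have hcont : Continuous (fun η : ℝ =>
      (Z.card : ℝ) * (2 * Real.pi * (η ^ 2 / d0 ^ 2) + c0⁻¹ * (CP * (4 * (√2 * η * Real.pi))))) := by fun_prop
    have h1 : Tendsto (fun η : ℝ =>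
      (Z.card : ℝ) * (2 * Real.pi * (η ^ 2 / d0 ^ 2) + c0⁻¹ * (CP * (4 * (√2 * η * Real.pi))))) (𝓝[>] 0) (𝓝 0) := by
      have h2 := (hcont.tendsto 0).mono_left (nhdsWithin_le_nhds (s := Ioi 0))
      have h3 : (Z.card : ℝ) * (2 * Real.pi * ((0 : ℝ) ^ 2 / d0 ^ 2) + c0⁻¹ * (CP * (4 * (√2 * 0 * Real.pi)))) = 0 := by
        ring
      rwa [h3] at h2
    have h2 := (h1.eventually_lt_const (show (0 : ℝ) < Real.pi / 2 by positivity)).and self_mem_nhdsWithin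
    obtain ⟨η, h3, h4⟩ := h2.exists
    exact ⟨η, h4, h3⟩
  set β : ℂ → ℝ := fun s => ∑ σ ∈ Z, η ^ 2 / (η ^ 2 + ‖s - σ‖ ^ 2) with hβ
  have hβc : Continuous β := by
    rw [hβ]
    apply continuous_finsetSum
    intro σ _
    have h1 : Continuous (fun s : ℂ => η ^ 2 + ‖s - σ‖ ^ 2) := by fun_prop
    have h2 : ∀ s : ℂ, η ^ 2 + ‖s - σ‖ ^ 2 ≠ 0 := fun s => by positivity
    exact continuous_const.div h1 h2
  have hβ1 : ∀ σ ∈ Z, 1 ≤ β σ := by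
    intro σ hσ
    have h1 : η ^ 2 / (η ^ 2 + ‖σ - σ‖ ^ 2) ≤ β σ := by
      have h3 : ∀ τ ∈ Z, (0 : ℝ) ≤ η ^ 2 / (η ^ 2 + ‖σ - τ‖ ^ 2) := fun τ _ => by positivity
      exact Finset.single_le_sum h3 hσ
    have h2 : η ^ 2 / (η ^ 2 + ‖σ - σ‖ ^ 2) = 1 := by
      rw [sub_self, norm_zero, zero_pow two_ne_zero, add_zero]
      exact div_self (pow_ne_zero 2 hη.ne')
    linarith
  set K : Set ℂ := {s : ℂ | s ∈ Metric.closedBall (0 : ℂ) R ∧ β s ≤ 3 / 4} with hK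
  have hKc : IsCompact K := by
    have h1 : IsClosed {s : ℂ | β s ≤ 3 / 4} := isClosed_le hβc continuous_const
    exact (isCompact_closedBall (0 : ℂ) R).inter_right h1
  set g : ℝ → ℂ → ℝ := fun m s => |1 - ‖(m : ℂ)⁻¹ * p.eval s‖ ^ 2| +
    ‖χ.eval s‖ * ‖Psi A χ x y s ((m : ℂ)⁻¹ * p.eval s)‖ ^ 2 with hg
  have hgc : ∀ s : ℂ, ContinuousAt (fun w : ℝ × ℂ => g w.1 w.2) (1, s) := by
    intro s
    have h1 : ContinuousAt (fun w : ℝ × ℂ => ((w.1 : ℂ))⁻¹ * p.eval w.2) (1, s) := by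
      apply ContinuousAt.mul
      · apply ContinuousAt.inv₀
        · exact (Complex.continuous_ofReal.comp continuous_fst).continuousAt
        · norm_num
      · exact (p.continuous.comp continuous_snd).continuousAt
    have h2 : ContinuousAt (fun w : ℝ × ℂ => Psi A χ x y w.2 ((w.1 : ℂ)⁻¹ * p.eval w.2)) (1, s) := by
      have h3 : ContinuousAt (fun w : ℝ × ℂ => (w.2, (w.1 : ℂ)⁻¹ * p.eval w.2)) (1, s) :=
        continuous_snd.continuousAt.prodMk h1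
      exact ContinuousAt.comp (f := fun w : ℝ × ℂ => (w.2, (w.1 : ℂ)⁻¹ * p.eval w.2))
        (g := fun w : ℂ × ℂ => Psi A χ x y w.1 w.2) (Psi_cont A χ x y).continuousAt h3
    have h4 : ContinuousAt (fun w : ℝ × ℂ => ‖χ.eval w.2‖) (1, s) :=
      ((χ.continuous.comp continuous_snd).norm).continuousAt
    exact ((continuousAt_const.sub (h1.norm.pow 2)).abs).add (h4.mul (h2.norm.pow 2))
  have hg1 : ∀ s ∈ K, 0 < g 1 s := by
    intro s hs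
    have h0 : 0 ≤ g 1 s := by positivity
    rcases h0.lt_or_eq with h1 | h1
    · exact h1
    · exfalso
      have h2 : (((1 : ℝ) : ℂ))⁻¹ * p.eval s = p.eval s := by norm_num
      rw [hg] at h1
      simp only [h2] at h1
      have a1 : 0 ≤ |1 - ‖p.eval s‖ ^ 2| := abs_nonneg _
      have a2 : 0 ≤ ‖χ.eval s‖ * ‖Psi A χ x y s (p.eval s)‖ ^ 2 := by positivity
      have h3 : |1 - ‖p.eval s‖ ^ 2| = 0 := by linarith
      have h4 : ‖χ.eval s‖ * ‖Psi A χ x y s (p.eval s)‖ ^ 2 = 0 := by linarith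
      have h5 : ‖p.eval s‖ = 1 := by
        have := abs_eq_zero.mp h3
        nlinarith [norm_nonneg (p.eval s)]
      have h6 : Psi A χ x y s (p.eval s) = 0 := by
        rcases mul_eq_zero.mp h4 with h7 | h7
        · have h8 := hroot s (norm_eq_zero.mp h7)
          rw [h5] at h8
          exact absurd h8 (lt_irrefl _)
        · exact norm_eq_zero.mp (pow_eq_zero_iff two_ne_zero |>.mp h7)
      have h7 := hβ1 s ((hZmem s).mpr ⟨h5, h6⟩)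
      have h8 := hs.2
      linarith
  obtain ⟨c2, hc2, hgev⟩ : ∃ c2 : ℝ, 0 < c2 ∧ ∀ᶠ m : ℝ in 𝓝 1, ∀ s ∈ K, c2 < g m s := by
    by_cases hKne : K.Nonempty
    · have hcK : ContinuousOn (fun s => g 1 s) K := by
        intro s _
        have h1 : ContinuousAt (fun s : ℂ => ((1 : ℝ), s)) s := by fun_prop
        exact (ContinuousAt.comp (f := fun s : ℂ => ((1 : ℝ), s)) (g := fun w : ℝ × ℂ => g w.1 w.2)
          (hgc s) h1).continuousWithinAt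
      obtain ⟨s0, hs0, hmin⟩ := hKc.exists_isMinOn hKne hcK
      have hpos := hg1 s0 hs0
      refine ⟨g 1 s0 / 2, by positivity, ?_⟩
      apply hKc.eventually_forall_of_forall_eventually
      intro s hs
      have h1 : g 1 s0 ≤ g 1 s := hmin hs
      exact (hgc s).eventually_const_lt (by linarith : g 1 s0 / 2 < g 1 s)
    · refine ⟨1, one_pos, Eventually.of_forall fun m s hs => ?_⟩
      exact absurd ⟨s, hs⟩ hKne
  obtain ⟨r0, hr0, hgr⟩ := Metric.eventually_nhds_iff.mp hgev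
  -- choose `ε`
  obtain ⟨ε, hε, hε1, hεs⟩ : ∃ ε : ℝ, 0 < ε ∧ ε < r0 ∧
      c2⁻¹ * (2 * Real.pi * ε + CP * (C1 * √ε)) < Real.pi / 2 := by
    have hcont : Continuous (fun ε : ℝ => c2⁻¹ * (2 * Real.pi * ε + CP * (C1 * √ε))) := by fun_prop
    have h1 : Tendsto (fun ε : ℝ => c2⁻¹ * (2 * Real.pi * ε + CP * (C1 * √ε))) (𝓝[>] 0) (𝓝 0) := by
      have h2 := (hcont.tendsto 0).mono_left (nhdsWithin_le_nhds (s := Ioi 0))
      have h3 : c2⁻¹ * (2 * Real.pi * 0 + CP * (C1 * √0)) = 0 := by simp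
      rwa [h3] at h2
    have h2 := ((h1.eventually_lt_const (show (0 : ℝ) < Real.pi / 2 by positivity)).and
      self_mem_nhdsWithin).and ((eventually_lt_nhds hr0).filter_mono nhdsWithin_le_nhds)
    obtain ⟨ε, ⟨h3, h4⟩, h5⟩ := h2.exists
    exact ⟨ε, h4, h5, h3⟩
  obtain ⟨M, hM1, hM2, C, hQ⟩ := hnear ε hε
  have hM0 : 0 < M := by linarith
  have hgM : ∀ s ∈ K, c2 < g M s := by
    apply hgr
    rw [Real.dist_eq, abs_of_pos (by linarith)]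
    linarith
  have hρc := C.ρ_cont
  have hsc := C.s_cont
  have hzc := C.z_cont
  have hqc := C.q_cont x
  have hψc : Continuous (fun φ => Psi A χ x y (C.s φ) (C.z φ)) :=
    (Psi_cont A χ x y).comp (hsc.prodMk hzc)
  have hβsc : Continuous (fun φ => β (C.s φ)) := hβc.comp hsc
  have hπ : (0 : ℝ) < 2 * Real.pi := by positivity
  have hpt : ∀ φ, 3 / 4 * C.q φ x ≤ β (C.s φ) * C.q φ x + c2⁻¹ * ((1 - ‖C.z φ‖ ^ 2) * C.q φ x +
      CP * (C.ρ φ * ‖Psi A χ x y (C.s φ) (C.z φ)‖ ^ 2)) := by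
    intro φ
    have hq := C.q_nonneg φ x
    have hz := C.z_le hM0 φ
    have hz2 : 0 ≤ 1 - ‖C.z φ‖ ^ 2 := by
      have := pow_le_one₀ (n := 2) (norm_nonneg _) hz
      linarith
    have hρ0 := C.ρ_nonneg φ
    have h1 : ‖χ.eval (C.s φ)‖ * C.q φ x ≤ C.ρ φ * CP := by
      have h4 := C.chi_q hχ φ x
      rw [hx, one_pow, mul_one] at h4
      exact h4.trans (mul_le_mul_of_nonneg_left (hCP' _ (C.hR φ)) hρ0)
    have h2 : 3 / 4 ≤ β (C.s φ) + c2⁻¹ * ((1 - ‖C.z φ‖ ^ 2) +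
        ‖χ.eval (C.s φ)‖ * ‖Psi A χ x y (C.s φ) (C.z φ)‖ ^ 2) := by
      by_cases hK1 : β (C.s φ) ≤ 3 / 4
      · have h3 := hgM (C.s φ) ⟨mem_closedBall_zero_iff.mpr (C.hR φ), hK1⟩
        have h4 : g M (C.s φ) = (1 - ‖C.z φ‖ ^ 2) +
            ‖χ.eval (C.s φ)‖ * ‖Psi A χ x y (C.s φ) (C.z φ)‖ ^ 2 := by
          rw [hg]
          simp only
          change |1 - ‖C.z φ‖ ^ 2| + _ = _
          rw [abs_of_nonneg hz2]
          rfl
        rw [h4] at h3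
        have h5 : 1 ≤ c2⁻¹ * ((1 - ‖C.z φ‖ ^ 2) +
            ‖χ.eval (C.s φ)‖ * ‖Psi A χ x y (C.s φ) (C.z φ)‖ ^ 2) := by
          rw [le_inv_mul_iff₀ hc2]
          linarith
        have h6 : 0 ≤ β (C.s φ) := Finset.sum_nonneg fun σ _ => by positivity
        linarith
      · push Not at hK1
        have h5 : 0 ≤ c2⁻¹ * ((1 - ‖C.z φ‖ ^ 2) +
            ‖χ.eval (C.s φ)‖ * ‖Psi A χ x y (C.s φ) (C.z φ)‖ ^ 2) := by positivity
        linarith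
    have h3 := mul_le_mul_of_nonneg_right h2 hq
    refine h3.trans ?_
    rw [add_mul]
    apply add_le_add_right
    rw [mul_assoc]
    apply mul_le_mul_of_nonneg_left _ (by positivity)
    rw [add_mul]
    apply add_le_add_right
    calc ‖χ.eval (C.s φ)‖ * ‖Psi A χ x y (C.s φ) (C.z φ)‖ ^ 2 * C.q φ x =
        ‖Psi A χ x y (C.s φ) (C.z φ)‖ ^ 2 * (‖χ.eval (C.s φ)‖ * C.q φ x) := by ring
      _ ≤ ‖Psi A χ x y (C.s φ) (C.z φ)‖ ^ 2 * (C.ρ φ * CP) := by gcongr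
      _ = _ := by ring
  have i1 : IntervalIntegrable (fun φ => β (C.s φ) * C.q φ x) volume 0 (2 * Real.pi) :=
    (hβsc.mul hqc).intervalIntegrable _ _
  have i2 : IntervalIntegrable (fun φ => (1 - ‖C.z φ‖ ^ 2) * C.q φ x) volume 0 (2 * Real.pi) := by
    apply Continuous.intervalIntegrable; fun_prop
  have i3 : IntervalIntegrable (fun φ => CP * (C.ρ φ * ‖Psi A χ x y (C.s φ) (C.z φ)‖ ^ 2)) volume 0
      (2 * Real.pi) := by
    apply Continuous.intervalIntegrable; fun_prop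
  have i0 : IntervalIntegrable (fun φ => 3 / 4 * C.q φ x) volume 0 (2 * Real.pi) :=
    (continuous_const.mul hqc).intervalIntegrable _ _
  have hint := intervalIntegral.integral_mono_on hπ.le i0
    (i1.add ((i2.add i3).const_mul c2⁻¹)) (fun φ _ => hpt φ)
  rw [intervalIntegral.integral_const_mul, C.q_int, hx,
    intervalIntegral.integral_add i1 ((i2.add i3).const_mul c2⁻¹), intervalIntegral.integral_const_mul,
    intervalIntegral.integral_add i2 i3, intervalIntegral.integral_const_mul] at hint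
  have b1 : ∫ φ in (0 : ℝ)..(2 * Real.pi), β (C.s φ) * C.q φ x ≤
      (Z.card : ℝ) * (2 * Real.pi * (η ^ 2 / d0 ^ 2) + c0⁻¹ * (CP * (4 * (√2 * η * Real.pi)))) := by
    have e1 : ∀ φ, β (C.s φ) * C.q φ x = ∑ σ ∈ Z, (η ^ 2 / (η ^ 2 + ‖C.s φ - σ‖ ^ 2)) * C.q φ x := by
      intro φ
      rw [hβ, Finset.sum_mul]
    rw [intervalIntegral.integral_congr (fun φ _ => e1 φ), intervalIntegral.integral_finsetSum]
    · refine (Finset.sum_le_card_nsmul Z _ _ (fun σ hσ =>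
        bump_int C hχ hx hCP' hη hd0 hc0 (haway σ hσ))).trans ?_
      rw [nsmul_eq_mul]
    · intro σ _
      apply Continuous.intervalIntegrable
      have h1 : Continuous (fun φ => η ^ 2 + ‖C.s φ - σ‖ ^ 2) := by fun_prop
      have h2 : ∀ φ, η ^ 2 + ‖C.s φ - σ‖ ^ 2 ≠ 0 := fun φ => by positivity
      exact (continuous_const.div h1 h2).mul hqc
  have b2 := int_def C x y
  have b3 := hconc M hM0 C ε hε hQ
  have b4 : c2⁻¹ * ((∫ φ in (0 : ℝ)..(2 * Real.pi), (1 - ‖C.z φ‖ ^ 2) * C.q φ x) +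
      CP * ∫ φ in (0 : ℝ)..(2 * Real.pi), C.ρ φ * ‖Psi A χ x y (C.s φ) (C.z φ)‖ ^ 2) ≤
      c2⁻¹ * (2 * Real.pi * ε + CP * (C1 * √ε)) := by
    apply mul_le_mul_of_nonneg_left _ (by positivity)
    apply add_le_add
    · refine b2.trans ?_
      gcongr
    · gcongr
  have : 3 / 4 * (2 * Real.pi * 1 ^ 2) < Real.pi := by linarith
  linarith

end Pool.Agent.KS6_34.CE
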