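import Pool.Agent.KS6_34.CE.Conc2
import Pool.Agent.KS6_34.CE.Lim2

/-!
# Crouzeix equality: the contact set for limits of polynomials
-/

set_option autoImplicit false
set_option linter.unusedSectionVars false

open MeasureTheory Set Filter Topology Complex Polynomial

namespace Pool.Agent.KS6_34.CE

open Pool.Agent.W753.CZ (numRange crouzeix_bound numRange_norm numRange_nonempty)

variable {H : Type*} [NormedAddCommGroup H] [InnerProductSpace ℂ H] [CompleteSpace H]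

theorem conc1' (A : H →L[ℂ] H) (χ : ℂ[X]) (hχ : aeval A χ = 0) (x y : H) (hxy : inner ℂ x y = (0 : ℂ))
    (hx : ‖x‖ = 1) (hy : ‖y‖ = 1) (R : ℝ) :
    ∃ C1 : ℝ, 0 < C1 ∧ ∀ (p : ℂ[X]) (M : ℝ) (_ : 0 < M) (C : CD A p M R) (ε : ℝ), 0 < ε → C.Q x y < ε →
      ∫ φ in (0 : ℝ)..(2 * Real.pi), C.ρ φ * ‖Psi A χ x y (C.s φ) (C.z φ)‖ ^ 2 ≤ C1 * √ε := by
  have hcomp : IsCompact (Metric.closedBall (0 : ℂ) R ×ˢ Metric.closedBall (0 : ℂ) 1) :=
    (isCompact_closedBall _ _).prod (isCompact_closedBall _ _)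
  have hcont : Continuous (fun w : ℂ × ℂ => χ.eval w.1 * Psi A χ x y w.1 w.2) := by
    have h1 := Psi_cont A χ x y
    have h2 : Continuous (fun w : ℂ × ℂ => χ.eval w.1) := by fun_prop
    exact h2.mul h1
  obtain ⟨cw, hcw⟩ := hcomp.exists_bound_of_continuousOn hcont.continuousOn
  set Cg : ℝ := cw ^ 2 * (4 * (R ^ 2 + ‖A x‖ ^ 2 + R ^ 2 + ‖A y‖ ^ 2)) with hCg
  have hCg0 : 0 ≤ Cg := by positivity
  refine ⟨2 * Real.pi * (1 + Cg), by positivity, ?_⟩
  intro p M hM C ε hε hQ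
  have hπ : (0 : ℝ) < 2 * Real.pi := by positivity
  have hsq : 0 < √ε := Real.sqrt_pos.mpr hε
  have hsq2 : √ε * √ε = ε := Real.mul_self_sqrt hε.le
  have hzc := C.z_cont
  have hsc := C.s_cont
  have hρc := C.ρ_cont
  have hψc : Continuous (fun φ => Psi A χ x y (C.s φ) (C.z φ)) :=
    (Psi_cont A χ x y).comp (hsc.prodMk hzc)
  have hpt : ∀ φ, C.ρ φ * ‖Psi A χ x y (C.s φ) (C.z φ)‖ ^ 2 ≤ (√ε)⁻¹ * C.q φ (y - C.z φ • x) +
      √ε * (cw ^ 2 * (4 * (R ^ 2 * C.q φ x + C.q φ (A x) + R ^ 2 * C.q φ y + C.q φ (A y)))) := by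
    intro φ
    refine (C.psi_pair hχ hxy hx hy φ (√ε)⁻¹ (by positivity)).trans ?_
    rw [inv_inv]
    apply add_le_add_right
    apply mul_le_mul_of_nonneg_left _ hsq.le
    have hs := C.hR φ
    have hz := C.z_le hM φ
    have hs' : ‖C.s φ‖ ≤ R := hs
    rw [C.q_smul]
    have hw : ‖star (χ.eval (C.s φ)) * (exp (φ * I) * Psi A χ x y (C.s φ) (C.z φ))‖ ≤ cw := by
      rw [norm_mul, norm_star, norm_mul, Complex.norm_exp_ofReal_mul_I, one_mul, ← norm_mul]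
      exact hcw (C.s φ, C.z φ) ⟨mem_closedBall_zero_iff.mpr hs', mem_closedBall_zero_iff.mpr hz⟩
    have hw2 := pow_le_pow_left₀ (norm_nonneg _) hw 2
    have hvq : C.q φ ((C.s φ • (1 : H →L[ℂ] H) - A) (x + star (C.z φ) • y)) ≤
        4 * (R ^ 2 * C.q φ x + C.q φ (A x) + R ^ 2 * C.q φ y + C.q φ (A y)) := by
      have e : (C.s φ • (1 : H →L[ℂ] H) - A) (x + star (C.z φ) • y) =
          (C.s φ • x + (-A x)) + ((C.s φ * star (C.z φ)) • y + (-(star (C.z φ) • A y))) := by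
        rw [sub_apply, smul_apply, one_apply_eq_self, map_add, map_smul, smul_add, smul_smul]
        abel
      rw [e]
      have a1 := C.q_add_le φ (C.s φ • x + (-A x)) ((C.s φ * star (C.z φ)) • y + (-(star (C.z φ) • A y)))
      have a2 := C.q_add_le φ (C.s φ • x) (-A x)
      have a3 := C.q_add_le φ ((C.s φ * star (C.z φ)) • y) (-(star (C.z φ) • A y))
      rw [C.q_neg, C.q_smul] at a2 a3
      rw [C.q_smul, norm_mul, norm_star] at a3
      have n1 := C.q_nonneg φ x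
      have n2 := C.q_nonneg φ (A x)
      have n3 := C.q_nonneg φ y
      have n4 := C.q_nonneg φ (A y)
      have b1 : ‖C.s φ‖ ^ 2 * C.q φ x ≤ R ^ 2 * C.q φ x := by gcongr
      have hz2 : ‖C.z φ‖ ^ 2 ≤ 1 := pow_le_one₀ (norm_nonneg _) hz
      have b2 : ‖C.z φ‖ ^ 2 * C.q φ (A y) ≤ 1 * C.q φ (A y) := by gcongr
      have b3 : (‖C.s φ‖ * ‖C.z φ‖) ^ 2 * C.q φ y ≤ R ^ 2 * C.q φ y := by
        have : (‖C.s φ‖ * ‖C.z φ‖) ^ 2 ≤ R ^ 2 := by
          rw [mul_pow]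
          calc ‖C.s φ‖ ^ 2 * ‖C.z φ‖ ^ 2 ≤ R ^ 2 * 1 := by gcongr
            _ = R ^ 2 := mul_one _
        gcongr
      linarith
    exact mul_le_mul hw2 hvq (C.q_nonneg φ _) (by positivity)
  have hrc : Continuous (fun φ => (√ε)⁻¹ * C.q φ (y - C.z φ • x) +
      √ε * (cw ^ 2 * (4 * (R ^ 2 * C.q φ x + C.q φ (A x) + R ^ 2 * C.q φ y + C.q φ (A y))))) := by
    have c1 := C.q_cont x
    have c2 := C.q_cont y
    have c3 := C.q_cont (A x)
    have c4 := C.q_cont (A y)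
    have c5 := q_F_cont C x y
    fun_prop
  have hlc : Continuous (fun φ => C.ρ φ * ‖Psi A χ x y (C.s φ) (C.z φ)‖ ^ 2) := by fun_prop
  refine (intervalIntegral.integral_mono_on hπ.le (hlc.intervalIntegrable _ _) (hrc.intervalIntegrable _ _)
    (fun φ _ => hpt φ)).trans ?_
  have c1 := (C.q_cont x).intervalIntegrable (μ := volume) 0 (2 * Real.pi)
  have c2 := (C.q_cont y).intervalIntegrable (μ := volume) 0 (2 * Real.pi)
  have c3 := (C.q_cont (A x)).intervalIntegrable (μ := volume) 0 (2 * Real.pi)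
  have c4 := (C.q_cont (A y)).intervalIntegrable (μ := volume) 0 (2 * Real.pi)
  have c5 := (q_F_cont C x y).intervalIntegrable (μ := volume) 0 (2 * Real.pi)
  have e1 : ∫ φ in (0 : ℝ)..(2 * Real.pi), ((√ε)⁻¹ * C.q φ (y - C.z φ • x) +
      √ε * (cw ^ 2 * (4 * (R ^ 2 * C.q φ x + C.q φ (A x) + R ^ 2 * C.q φ y + C.q φ (A y))))) =
      (√ε)⁻¹ * (∫ φ in (0 : ℝ)..(2 * Real.pi), C.q φ (y - C.z φ • x)) +
      √ε * (2 * Real.pi * Cg) := by
    rw [intervalIntegral.integral_add (c5.const_mul _)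
      ((((((c1.const_mul _).add c3).add (c2.const_mul _)).add c4).const_mul _).const_mul _ |>.const_mul _),
      intervalIntegral.integral_const_mul, intervalIntegral.integral_const_mul,
      intervalIntegral.integral_const_mul, intervalIntegral.integral_const_mul,
      intervalIntegral.integral_add (((c1.const_mul _).add c3).add (c2.const_mul _)) c4,
      intervalIntegral.integral_add ((c1.const_mul _).add c3) (c2.const_mul _),
      intervalIntegral.integral_add (c1.const_mul _) c3,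
      intervalIntegral.integral_const_mul, intervalIntegral.integral_const_mul,
      C.q_int, C.q_int, C.q_int, C.q_int, hx, hy]
    ring
  rw [e1]
  have h1 := int_F hM C x y
  have h2 : (√ε)⁻¹ * (∫ φ in (0 : ℝ)..(2 * Real.pi), C.q φ (y - C.z φ • x)) ≤ 2 * Real.pi * √ε := by
    calc (√ε)⁻¹ * (∫ φ in (0 : ℝ)..(2 * Real.pi), C.q φ (y - C.z φ • x)) ≤
        (√ε)⁻¹ * (2 * Real.pi * ε) := by
          apply mul_le_mul_of_nonneg_left _ (by positivity)
          refine h1.trans ?_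
          gcongr
      _ = 2 * Real.pi * √ε := by
          have h3 : (√ε)⁻¹ * ε = √ε := by
            rw [inv_mul_eq_iff_eq_mul₀ hsq.ne']
            exact hsq2.symm
          rw [mul_left_comm, h3]
  calc _ ≤ 2 * Real.pi * √ε + √ε * (2 * Real.pi * Cg) := by linarith
    _ = _ := by ring

theorem contact_infinite2 [FiniteDimensional ℂ H] [Nontrivial H] (A T : H →L[ℂ] H) (χ : ℂ[X]) (f : ℂ → ℂ)
    (U : Set ℂ) (hUo : IsOpen U) (hUW : closure (numRange A) ⊆ U) (hfc : ContinuousOn f U)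
    (hf1 : ∀ w ∈ numRange A, ‖f w‖ ≤ 1) (P : ℕ → ℂ[X]) (hPT : ∀ n, aeval A (P n) = T)
    (hPf : ∀ n : ℕ, ∀ s ∈ U, ‖(P n).eval s - f s‖ ≤ 1 / ((n : ℝ) + 1))
    (x y : H) (hx : ‖x‖ = 1) (hy : ‖y‖ = 1)
    (hTx : T x = (2 : ℂ) • y) (hTy : (star T) y = (2 : ℂ) • x)
    (hlim : Tendsto (fun k => ‖((star T) ^ k) x‖) atTop (𝓝 0))
    (hχ : aeval A χ = 0) (hroot : ∀ a ∈ closure (numRange A), χ.eval a = 0 → ‖f a‖ < 1) :
    star T x = 0 ∧ inner ℂ x y = (0 : ℂ) ∧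
      {σ : ℂ | σ ∈ closure (numRange A) ∧ ‖f σ‖ = 1 ∧ Psi A χ x y σ (f σ) = 0}.Infinite := by
  set W := numRange A with hW
  -- the constants
  set M : ℕ → ℝ := fun n => 1 + 2 / ((n : ℝ) + 1) with hMd
  have hM1 : ∀ n, 1 < M n := by
    intro n
    rw [hMd]
    simp only
    have : (0 : ℝ) < 2 / ((n : ℝ) + 1) := by positivity
    linarith
  have hMlim : Tendsto M atTop (𝓝 1) := by
    have h1 : Tendsto (fun n : ℕ => 2 * (1 / ((n : ℝ) + 1))) atTop (𝓝 (2 * 0)) :=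
      tendsto_one_div_add_atTop_nhds_zero_nat.const_mul 2
    have := (tendsto_const_nhds (x := (1 : ℝ))).add h1
    rw [mul_zero, add_zero] at this
    refine this.congr fun n => ?_
    rw [hMd]
    simp only
    ring
  have hPW : ∀ n, ∀ w ∈ W, ‖(P n).eval w‖ ≤ 1 + 1 / ((n : ℝ) + 1) := by
    intro n w hw
    have h1 := hPf n w (hUW (subset_closure hw))
    have h2 := hf1 w hw
    calc ‖(P n).eval w‖ = ‖((P n).eval w - f w) + f w‖ := by congr 1; ring
      _ ≤ ‖(P n).eval w - f w‖ + ‖f w‖ := norm_add_le _ _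
      _ ≤ _ := by linarith
  have hMM : ∀ n : ℕ, 1 + 1 / ((n : ℝ) + 1) < M n := by
    intro n
    rw [hMd]
    simp only
    have h1 : (0 : ℝ) < 1 / ((n : ℝ) + 1) := by positivity
    have h2 : 2 / ((n : ℝ) + 1) = 1 / ((n : ℝ) + 1) + 1 / ((n : ℝ) + 1) := by ring
    linarith
  obtain ⟨R, hR⟩ : ∃ R : ℝ, R = ‖A‖ + 2 := ⟨_, rfl⟩
  have hC : ∀ n : ℕ, ∃ C : CD A (P n) (M n) R, ∀ φ, Metric.infDist (C.s φ) W ≤ 1 / ((n : ℝ) + 1) := by
    intro n
    rw [hR]
    exact exists_CD2 A (P n) _ (hPW n) (M n) (hMM n) (1 / ((n : ℝ) + 1)) (by positivity)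
  choose C hCd using hC
  obtain ⟨hx0, hnear⟩ := near_seq A T P M R hM1 hMlim hPT (fun n w hw => (hPW n w hw).trans (hMM n).le) C
    x y hx hy hTx hTy hlim
  have hxy : inner ℂ x y = (0 : ℂ) := by
    have h1 : (2 : ℂ) * inner ℂ x y = 0 := by
      rw [← inner_smul_right, ← hTx, ← ContinuousLinearMap.adjoint_inner_left,
        ← ContinuousLinearMap.star_eq_adjoint, hx0, inner_zero_left]
    exact (mul_eq_zero.mp h1).resolve_left two_ne_zero
  refine ⟨hx0, hxy, ?_⟩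
  intro hfin
  set Z : Finset ℂ := hfin.toFinset with hZ
  have hZmem : ∀ σ, σ ∈ Z ↔ σ ∈ closure W ∧ ‖f σ‖ = 1 ∧ Psi A χ x y σ (f σ) = 0 := by
    intro σ
    rw [hZ, Set.Finite.mem_toFinset]
    rfl
  obtain ⟨C1, hC1, hconc⟩ := conc1' A χ hχ x y hxy hx hy R
  obtain ⟨CP, hCP⟩ := (isCompact_closedBall (0 : ℂ) R).exists_bound_of_continuousOn (Pop_cont A χ).continuousOn
  have hCP' : ∀ s : ℂ, ‖s‖ ≤ R → ‖Pop A χ s‖ ≤ CP := fun s hs => hCP s (mem_closedBall_zero_iff.mpr hs)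
  have hCP0 : 0 ≤ CP := (norm_nonneg _).trans (hCP' 0 (by rw [norm_zero, hR]; positivity))
  obtain ⟨d0, hd0, c0, hc0, haway⟩ := away χ Z (by
    intro σ hσ h
    have h1 := hroot σ ((hZmem σ).mp hσ).1 h
    rw [((hZmem σ).mp hσ).2.1] at h1
    exact lt_irrefl _ h1)
  have hpi := Real.pi_pos
  -- choose `η`
  obtain ⟨η, hη, hηs⟩ : ∃ η : ℝ, 0 < η ∧
      (Z.card : ℝ) * (2 * Real.pi * (η ^ 2 / d0 ^ 2) + c0⁻¹ * (CP * (4 * (√2 * η * Real.pi)))) < Real.pi / 2 := by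
    have hcont : Continuous (fun η : ℝ =>
      (Z.card : ℝ) * (2 * Real.pi * (η ^ 2 / d0 ^ 2) + c0⁻¹ * (CP * (4 * (√2 * η * Real.pi))))) := by fun_prop
    have h1 : Tendsto (fun η : ℝ =>
      (Z.card : ℝ) * (2 * Real.pi * (η ^ 2 / d0 ^ 2) + c0⁻¹ * (CP * (4 * (√2 * η * Real.pi))))) (𝓝[>] 0) (𝓝 0) := by
      have h2 := (hcont.tendsto 0).mono_left (nhdsWithin_le_nhds (s := Ioi 0))
      have h3 : (Z.card : ℝ) * (2 * Real.pi * ((0 : ℝ) ^ 2 / d0 ^ 2) + c0⁻¹ * (CP * (4 * (√2 * 0 * Real.pi)))) = 0 := by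
        ring
      rwa [h3] at h2
    have h2 := (h1.eventually_lt_const (show (0 : ℝ) < Real.pi / 2 by positivity)).and self_mem_nhdsWithin
    obtain ⟨η, h3, h4⟩ := h2.exists
    exact ⟨η, h4, h3⟩
  set β : ℂ → ℝ := fun s => ∑ σ ∈ Z, η ^ 2 / (η ^ 2 + ‖s - σ‖ ^ 2) with hβ
  have hβc : Continuous β := by
    rw [hβ]
    apply continuous_finsetSum
    intro σ _
    have h1 : Continuous (fun s : ℂ => η ^ 2 + ‖s - σ‖ ^ 2) := by fun_prop
    have h2 : ∀ s : ℂ, η ^ 2 + ‖s - σ‖ ^ 2 ≠ 0 := fun s => by positivity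
    exact continuous_const.div h1 h2
  have hβ1 : ∀ σ ∈ Z, 1 ≤ β σ := by
    intro σ hσ
    have h1 : η ^ 2 / (η ^ 2 + ‖σ - σ‖ ^ 2) ≤ β σ := by
      have h3 : ∀ τ ∈ Z, (0 : ℝ) ≤ η ^ 2 / (η ^ 2 + ‖σ - τ‖ ^ 2) := fun τ _ => by positivity
      exact Finset.single_le_sum h3 hσ
    have h2 : η ^ 2 / (η ^ 2 + ‖σ - σ‖ ^ 2) = 1 := by
      rw [sub_self, norm_zero, zero_pow two_ne_zero, add_zero]
      exact div_self (pow_ne_zero 2 hη.ne')
    linarith
  have hWc : IsCompact (closure W) := by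
    apply Metric.isCompact_of_isClosed_isBounded isClosed_closure
    apply Bornology.IsBounded.closure
    rw [isBounded_iff_forall_norm_le]
    exact ⟨‖A‖, numRange_norm A⟩
  have hfcl : ∀ w ∈ closure W, ‖f w‖ ≤ 1 := by
    intro w hw
    have hcw : ContinuousWithinAt (fun s => ‖f s‖) W w :=
      ((hfc w (hUW hw)).mono (subset_closure.trans hUW)).norm
    have hmem : ‖f w‖ ∈ closure ((fun s => ‖f s‖) '' W) := hcw.mem_closure_image hw
    have hsub : (fun s => ‖f s‖) '' W ⊆ Set.Iic 1 := by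
      rintro _ ⟨s, hs, rfl⟩
      exact hf1 s hs
    exact closure_minimal hsub isClosed_Iic hmem
  set K : Set ℂ := {s : ℂ | s ∈ closure W ∧ β s ≤ 3 / 4} with hK
  have hKc : IsCompact K := by
    have h1 : IsClosed {s : ℂ | β s ≤ 3 / 4} := isClosed_le hβc continuous_const
    exact hWc.inter_right h1
  set g : ℂ → ℂ → ℝ := fun s z => |1 - ‖z‖ ^ 2| + ‖χ.eval s‖ * ‖Psi A χ x y s z‖ ^ 2 with hg
  have hgc : Continuous (fun w : ℂ × ℂ => g w.1 w.2) := by
    have h1 := Psi_cont A χ x y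
    have h2 : Continuous (fun w : ℂ × ℂ => ‖χ.eval w.1‖) := (χ.continuous.comp continuous_fst).norm
    have h3 : Continuous (fun w : ℂ × ℂ => |1 - ‖w.2‖ ^ 2|) := by fun_prop
    exact h3.add (h2.mul (h1.norm.pow 2))
  have hg1 : ∀ s ∈ K, 0 < g s (f s) := by
    intro s hs
    have h0 : 0 ≤ g s (f s) := by positivity
    rcases h0.lt_or_eq with h1 | h1
    · exact h1
    · exfalso
      rw [hg] at h1
      simp only at h1
      have a1 : 0 ≤ |1 - ‖f s‖ ^ 2| := abs_nonneg _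
      have a2 : 0 ≤ ‖χ.eval s‖ * ‖Psi A χ x y s (f s)‖ ^ 2 := by positivity
      have h3 : |1 - ‖f s‖ ^ 2| = 0 := by linarith
      have h4 : ‖χ.eval s‖ * ‖Psi A χ x y s (f s)‖ ^ 2 = 0 := by linarith
      have h5 : ‖f s‖ = 1 := by
        have := abs_eq_zero.mp h3
        nlinarith [norm_nonneg (f s)]
      have h6 : Psi A χ x y s (f s) = 0 := by
        rcases mul_eq_zero.mp h4 with h7 | h7
        · have h8 := hroot s hs.1 (norm_eq_zero.mp h7)
          rw [h5] at h8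
          exact absurd h8 (lt_irrefl _)
        · exact norm_eq_zero.mp (pow_eq_zero_iff two_ne_zero |>.mp h7)
      have h7 := hβ1 s ((hZmem s).mpr ⟨hs.1, h5, h6⟩)
      have h8 := hs.2
      linarith
  have hgf : ContinuousOn (fun s => g s (f s)) U := by
    have h1 : ContinuousOn (fun s => (s, f s)) U := continuousOn_id.prodMk hfc
    exact Continuous.comp_continuousOn (g := fun w : ℂ × ℂ => g w.1 w.2) (f := fun s : ℂ => (s, f s)) hgc h1
  obtain ⟨c2, hc2, hgK⟩ : ∃ c2 : ℝ, 0 < c2 ∧ ∀ s ∈ K, c2 < g s (f s) := by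
    by_cases hKne : K.Nonempty
    · obtain ⟨s0, hs0, hmin⟩ := hKc.exists_isMinOn hKne (hgf.mono fun s hs => hUW hs.1)
      have hpos := hg1 s0 hs0
      refine ⟨g s0 (f s0) / 2, by positivity, fun s hs => ?_⟩
      have h1 : g s0 (f s0) ≤ g s (f s) := hmin hs
      linarith
    · exact ⟨1, one_pos, fun s hs => absurd ⟨s, hs⟩ hKne⟩
  -- the open set
  set O : Set (ℂ × ℂ) := (U ×ˢ (univ : Set ℂ)) ∩ {w : ℂ × ℂ | 2 / 3 < β w.1 ∨ c2 < g w.1 (f w.1 + w.2)} with hO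
  have hOo : IsOpen O := by
    have h1 : ContinuousOn (fun w : ℂ × ℂ => (w.1, f w.1 + w.2)) (U ×ˢ (univ : Set ℂ)) := by
      apply ContinuousOn.prodMk continuousOn_fst
      apply ContinuousOn.add _ continuousOn_snd
      exact ContinuousOn.comp (g := f) (f := fun w : ℂ × ℂ => w.1) hfc continuousOn_fst (fun w hw => hw.1)
    have h2 : ContinuousOn (fun w : ℂ × ℂ => g w.1 (f w.1 + w.2)) (U ×ˢ (univ : Set ℂ)) :=
      Continuous.comp_continuousOn (g := fun w : ℂ × ℂ => g w.1 w.2) (f := fun w : ℂ × ℂ => (w.1, f w.1 + w.2)) hgc h1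
    have h3 : ContinuousOn (fun w : ℂ × ℂ => β w.1) (U ×ˢ (univ : Set ℂ)) :=
      (hβc.comp continuous_fst).continuousOn
    have hUo' : IsOpen (U ×ˢ (univ : Set ℂ)) := hUo.prod isOpen_univ
    have h4 := h2.isOpen_inter_preimage hUo' (isOpen_Ioi (a := c2))
    have h5 := h3.isOpen_inter_preimage hUo' (isOpen_Ioi (a := 2 / 3))
    have h6 : O = ((U ×ˢ (univ : Set ℂ)) ∩ (fun w : ℂ × ℂ => β w.1) ⁻¹' Ioi (2 / 3)) ∪
        ((U ×ˢ (univ : Set ℂ)) ∩ (fun w : ℂ × ℂ => g w.1 (f w.1 + w.2)) ⁻¹' Ioi c2) := by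
      rw [hO, ← inter_union_distrib_left]
      rfl
    rw [h6]
    exact h5.union h4
  have hWO : closure W ×ˢ ({0} : Set ℂ) ⊆ O := by
    rintro ⟨s, z⟩ ⟨hs, hz⟩
    have hz0 : z = 0 := hz
    subst hz0
    refine ⟨⟨hUW hs, mem_univ _⟩, ?_⟩
    by_cases h : β s ≤ 3 / 4
    · right
      change c2 < g s (f s + 0)
      rw [add_zero]
      exact hgK s ⟨hs, h⟩
    · left
      push Not at h
      change 2 / 3 < β s
      linarith
  obtain ⟨η1, hη1, hthick⟩ := (hWc.prod isCompact_singleton).exists_thickening_subset_open hOo hWO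
  have hOuse : ∀ s z : ℂ, Metric.infDist s W < η1 → ‖z‖ < η1 → s ∈ U ∧ (2 / 3 < β s ∨ c2 < g s (f s + z)) := by
    intro s z hs hz
    obtain ⟨w, hw, hd⟩ := (Metric.infDist_lt_iff (numRange_nonempty A)).mp hs
    have h1 : (s, z) ∈ Metric.thickening η1 (closure W ×ˢ ({0} : Set ℂ)) := by
      rw [Metric.mem_thickening_iff]
      refine ⟨(w, 0), ⟨subset_closure hw, rfl⟩, ?_⟩
      rw [Prod.dist_eq]
      apply max_lt hd
      rw [dist_zero_right]
      exact hz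
    have h2 := hthick h1
    exact ⟨h2.1.1, h2.2⟩
  -- choose `ε`
  obtain ⟨ε, hε, hεs⟩ : ∃ ε : ℝ, 0 < ε ∧ c2⁻¹ * (2 * Real.pi * ε + CP * (C1 * √ε)) < Real.pi / 3 := by
    have hcont : Continuous (fun ε : ℝ => c2⁻¹ * (2 * Real.pi * ε + CP * (C1 * √ε))) := by fun_prop
    have h1 : Tendsto (fun ε : ℝ => c2⁻¹ * (2 * Real.pi * ε + CP * (C1 * √ε))) (𝓝[>] 0) (𝓝 0) := by
      have h2 := (hcont.tendsto 0).mono_left (nhdsWithin_le_nhds (s := Ioi 0))
      have h3 : c2⁻¹ * (2 * Real.pi * 0 + CP * (C1 * √0)) = 0 := by simp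
      rwa [h3] at h2
    have h2 := (h1.eventually_lt_const (show (0 : ℝ) < Real.pi / 3 by positivity)).and self_mem_nhdsWithin
    obtain ⟨ε, h3, h4⟩ := h2.exists
    exact ⟨ε, h4, h3⟩
  obtain ⟨N, hN⟩ : ∃ N : ℕ, 4 / η1 < (N : ℝ) := exists_nat_gt _
  obtain ⟨n, hnN, hQ⟩ := hnear ε hε N
  have hn4 : 4 / ((n : ℝ) + 1) < η1 := by
    have h1 : (N : ℝ) ≤ (n : ℝ) := by exact_mod_cast hnN
    rw [div_lt_iff₀ (by positivity)]
    rw [div_lt_iff₀ hη1] at hN
    nlinarith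
  have hn1 : 1 / ((n : ℝ) + 1) < η1 := by
    have h1 : 0 < 1 / ((n : ℝ) + 1) := by positivity
    have h2 : 4 / ((n : ℝ) + 1) = 4 * (1 / ((n : ℝ) + 1)) := by ring
    linarith
  have hM0 : 0 < M n := by linarith [hM1 n]
  have hρc := (C n).ρ_cont
  have hsc := (C n).s_cont
  have hzc := (C n).z_cont
  have hqc := (C n).q_cont x
  have hψc : Continuous (fun φ => Psi A χ x y ((C n).s φ) ((C n).z φ)) :=
    (Psi_cont A χ x y).comp (hsc.prodMk hzc)
  have hβsc : Continuous (fun φ => β ((C n).s φ)) := hβc.comp hsc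
  have hπ : (0 : ℝ) < 2 * Real.pi := by positivity
  have hgood : ∀ φ, β ((C n).s φ) ≤ 2 / 3 → c2 < g ((C n).s φ) ((C n).z φ) := by
    intro φ hφ
    have hd := (hCd n φ).trans_lt hn1
    have hz1 := (C n).z_le hM0 φ
    have hsU : (C n).s φ ∈ U := (hOuse _ 0 hd (by rw [norm_zero]; exact hη1)).1
    have h1 := hPf n _ hsU
    have h2 : (P n).eval ((C n).s φ) = (M n : ℂ) * (C n).z φ := by
      rw [CD.z, ← mul_assoc, mul_inv_cancel₀ (by exact_mod_cast hM0.ne'), one_mul]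
    have h3 : ‖(C n).z φ - f ((C n).s φ)‖ < η1 := by
      have h4 : (C n).z φ - f ((C n).s φ) = ((P n).eval ((C n).s φ) - f ((C n).s φ)) -
          ((M n - 1 : ℝ) : ℂ) * (C n).z φ := by
        rw [h2]
        push_cast
        ring
      rw [h4]
      refine (norm_sub_le _ _).trans_lt ?_
      rw [norm_mul, Complex.norm_real, Real.norm_of_nonneg (by linarith [hM1 n])]
      have h5 : (M n - 1) * ‖(C n).z φ‖ ≤ (M n - 1) * 1 :=
        mul_le_mul_of_nonneg_left hz1 (by linarith [hM1 n])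
      have h6 : M n - 1 = 2 / ((n : ℝ) + 1) := by
        rw [hMd]
        simp only
        ring
      have h7 : 1 / ((n : ℝ) + 1) + 2 / ((n : ℝ) + 1) = 3 / ((n : ℝ) + 1) := by ring
      have h8 : 3 / ((n : ℝ) + 1) < 4 / ((n : ℝ) + 1) := by
        apply div_lt_div_of_pos_right _ (by positivity)
        norm_num
      rw [h6, mul_one] at h5
      rw [h6]
      linarith
    rcases (hOuse _ _ hd h3).2 with h9 | h9
    · exact absurd h9 (not_lt.mpr hφ)
    · rwa [add_sub_cancel] at h9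
  have hpt : ∀ φ, 2 / 3 * (C n).q φ x ≤ β ((C n).s φ) * (C n).q φ x + c2⁻¹ * ((1 - ‖(C n).z φ‖ ^ 2) * (C n).q φ x +
      CP * ((C n).ρ φ * ‖Psi A χ x y ((C n).s φ) ((C n).z φ)‖ ^ 2)) := by
    intro φ
    have hq := (C n).q_nonneg φ x
    have hz := (C n).z_le hM0 φ
    have hz2 : 0 ≤ 1 - ‖(C n).z φ‖ ^ 2 := by
      have := pow_le_one₀ (n := 2) (norm_nonneg _) hz
      linarith
    have hρ0 := (C n).ρ_nonneg φ
    have h1 : ‖χ.eval ((C n).s φ)‖ * (C n).q φ x ≤ (C n).ρ φ * CP := by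
      have h4 := (C n).chi_q hχ φ x
      rw [hx, one_pow, mul_one] at h4
      exact h4.trans (mul_le_mul_of_nonneg_left (hCP' _ ((C n).hR φ)) hρ0)
    have h2 : 2 / 3 ≤ β ((C n).s φ) + c2⁻¹ * ((1 - ‖(C n).z φ‖ ^ 2) +
        ‖χ.eval ((C n).s φ)‖ * ‖Psi A χ x y ((C n).s φ) ((C n).z φ)‖ ^ 2) := by
      by_cases hK1 : β ((C n).s φ) ≤ 2 / 3
      · have h3 := hgood φ hK1
        have h4 : g ((C n).s φ) ((C n).z φ) = (1 - ‖(C n).z φ‖ ^ 2) +
            ‖χ.eval ((C n).s φ)‖ * ‖Psi A χ x y ((C n).s φ) ((C n).z φ)‖ ^ 2 := by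
          rw [hg]
          simp only
          rw [abs_of_nonneg hz2]
        rw [h4] at h3
        have h5 : 1 ≤ c2⁻¹ * ((1 - ‖(C n).z φ‖ ^ 2) +
            ‖χ.eval ((C n).s φ)‖ * ‖Psi A χ x y ((C n).s φ) ((C n).z φ)‖ ^ 2) := by
          rw [le_inv_mul_iff₀ hc2]
          linarith
        have h6 : 0 ≤ β ((C n).s φ) := Finset.sum_nonneg fun σ _ => by positivity
        linarith
      · push Not at hK1
        have h5 : 0 ≤ c2⁻¹ * ((1 - ‖(C n).z φ‖ ^ 2) +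
            ‖χ.eval ((C n).s φ)‖ * ‖Psi A χ x y ((C n).s φ) ((C n).z φ)‖ ^ 2) := by positivity
        linarith
    have h3 := mul_le_mul_of_nonneg_right h2 hq
    refine h3.trans ?_
    rw [add_mul]
    apply add_le_add_right
    rw [mul_assoc]
    apply mul_le_mul_of_nonneg_left _ (by positivity)
    rw [add_mul]
    apply add_le_add_right
    calc ‖χ.eval ((C n).s φ)‖ * ‖Psi A χ x y ((C n).s φ) ((C n).z φ)‖ ^ 2 * (C n).q φ x =
        ‖Psi A χ x y ((C n).s φ) ((C n).z φ)‖ ^ 2 * (‖χ.eval ((C n).s φ)‖ * (C n).q φ x) := by ring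
      _ ≤ ‖Psi A χ x y ((C n).s φ) ((C n).z φ)‖ ^ 2 * ((C n).ρ φ * CP) := by gcongr
      _ = _ := by ring
  have i1 : IntervalIntegrable (fun φ => β ((C n).s φ) * (C n).q φ x) volume 0 (2 * Real.pi) :=
    (hβsc.mul hqc).intervalIntegrable _ _
  have i2 : IntervalIntegrable (fun φ => (1 - ‖(C n).z φ‖ ^ 2) * (C n).q φ x) volume 0 (2 * Real.pi) := by
    apply Continuous.intervalIntegrable; fun_prop
  have i3 : IntervalIntegrable (fun φ => CP * ((C n).ρ φ * ‖Psi A χ x y ((C n).s φ) ((C n).z φ)‖ ^ 2)) volume 0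
      (2 * Real.pi) := by
    apply Continuous.intervalIntegrable; fun_prop
  have i0 : IntervalIntegrable (fun φ => 2 / 3 * (C n).q φ x) volume 0 (2 * Real.pi) :=
    (continuous_const.mul hqc).intervalIntegrable _ _
  have hint := intervalIntegral.integral_mono_on hπ.le i0
    (i1.add ((i2.add i3).const_mul c2⁻¹)) (fun φ _ => hpt φ)
  rw [intervalIntegral.integral_const_mul, (C n).q_int, hx,
    intervalIntegral.integral_add i1 ((i2.add i3).const_mul c2⁻¹), intervalIntegral.integral_const_mul,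
    intervalIntegral.integral_add i2 i3, intervalIntegral.integral_const_mul] at hint
  have b1 : ∫ φ in (0 : ℝ)..(2 * Real.pi), β ((C n).s φ) * (C n).q φ x ≤
      (Z.card : ℝ) * (2 * Real.pi * (η ^ 2 / d0 ^ 2) + c0⁻¹ * (CP * (4 * (√2 * η * Real.pi)))) := by
    have e1 : ∀ φ, β ((C n).s φ) * (C n).q φ x =
        ∑ σ ∈ Z, (η ^ 2 / (η ^ 2 + ‖(C n).s φ - σ‖ ^ 2)) * (C n).q φ x := by
      intro φ
      rw [hβ, Finset.sum_mul]
    rw [intervalIntegral.integral_congr (fun φ _ => e1 φ), intervalIntegral.integral_finsetSum]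
    · refine (Finset.sum_le_card_nsmul Z _ _ (fun σ hσ =>
        bump_int (C n) hχ hx hCP' hη hd0 hc0 (haway σ hσ))).trans ?_
      rw [nsmul_eq_mul]
    · intro σ _
      apply Continuous.intervalIntegrable
      have h1 : Continuous (fun φ => η ^ 2 + ‖(C n).s φ - σ‖ ^ 2) := by fun_prop
      have h2 : ∀ φ, η ^ 2 + ‖(C n).s φ - σ‖ ^ 2 ≠ 0 := fun φ => by positivity
      exact (continuous_const.div h1 h2).mul hqc
  have b2 := int_def (C n) x y
  have b3 := hconc (P n) (M n) hM0 (C n) ε hε hQ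
  have b4 : c2⁻¹ * ((∫ φ in (0 : ℝ)..(2 * Real.pi), (1 - ‖(C n).z φ‖ ^ 2) * (C n).q φ x) +
      CP * ∫ φ in (0 : ℝ)..(2 * Real.pi), (C n).ρ φ * ‖Psi A χ x y ((C n).s φ) ((C n).z φ)‖ ^ 2) ≤
      c2⁻¹ * (2 * Real.pi * ε + CP * (C1 * √ε)) := by
    apply mul_le_mul_of_nonneg_left _ (by positivity)
    apply add_le_add
    · refine b2.trans ?_
      gcongr
    · gcongr
  have : 2 / 3 * (2 * Real.pi * 1 ^ 2) < Real.pi / 2 + Real.pi / 3 := by linarith
  linarith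

end Pool.Agent.KS6_34.CE
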