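import Pool.Agent.KS6_34.CE.Toep

/-!
# Crouzeix equality: the Crabb chain
-/

set_option autoImplicit false
set_option linter.unusedSectionVars false

open Filter Topology Complex

namespace Pool.Agent.KS6_34.CE

variable {H : Type*} [NormedAddCommGroup H] [InnerProductSpace ℂ H] [CompleteSpace H]

theorem lin0 (w : H) (h : ∀ (g : H) (t : ℝ), 0 ≤ t * (inner ℂ w g).re + t ^ 2 * ‖g‖ ^ 2) : w = 0 := by
  by_contra hw
  have hw' : 0 < ‖w‖ := norm_pos_iff.mpr hw
  have hs : (inner ℂ w w).re = ‖w‖ ^ 2 := by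
    rw [inner_self_eq_norm_sq_to_K]
    norm_cast
  have h1 := h w (-(1 / 2))
  rw [hs] at h1
  nlinarith [sq_nonneg ‖w‖, pow_pos hw' 2]

theorem mulA (S R : H →L[ℂ] H) (u : H) : (S * R) u = S (R u) := rfl

theorem adj_pow (B : H →L[ℂ] H) (k : ℕ) (u v : H) :
    inner ℂ ((star B ^ k) u) v = inner ℂ u ((B ^ k) v) := by
  rw [← star_pow, ContinuousLinearMap.star_eq_adjoint, ContinuousLinearMap.adjoint_inner_left]

theorem adj_one (B : H →L[ℂ] H) (u v : H) :
    inner ℂ ((star B) u) v = inner ℂ u (B v) := by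
  rw [ContinuousLinearMap.star_eq_adjoint, ContinuousLinearMap.adjoint_inner_left]

theorem crabb_rel [Nontrivial H] (B : H →L[ℂ] H) (hB : ∀ u : H, ‖inner ℂ u (B u)‖ ≤ ‖u‖ ^ 2) (D : ℕ) (hD : 1 ≤ D)
    (x y : H) (hx : ‖x‖ = 1) (hy : ‖y‖ = 1) (h : (B ^ D) x = (2 : ℂ) • y) :
    (star B ^ D) y = (2 : ℂ) • x ∧ B y = 0 ∧ star B x = 0 ∧
      ∀ m, 0 < m → m < D → (B ^ (D - m)) x = (star B ^ m) y := by
  have hyx : (inner ℂ y ((B ^ D) x)).re = 2 := by
    rw [h, inner_smul_right, inner_self_eq_norm_sq_to_K, hy]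
    norm_num
  have hts : ∀ (t : ℝ) (g : H), ‖(t : ℂ) • g‖ ^ 2 = t ^ 2 * ‖g‖ ^ 2 := by
    intro t g
    rw [norm_smul, Complex.norm_real, mul_pow, Real.norm_eq_abs, sq_abs]
  have hl : ∀ (t : ℝ) (u g : H), (inner ℂ u ((t : ℂ) • g)).re = t * (inner ℂ u g).re := by
    intro t u g
    rw [inner_smul_right, Complex.re_ofReal_mul]
  have hr : ∀ (t : ℝ) (u g : H), (inner ℂ ((t : ℂ) • g) u).re = t * (inner ℂ g u).re := by
    intro t u g
    rw [inner_smul_left, Complex.conj_ofReal, Complex.re_ofReal_mul]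
  have hsym : ∀ u v : H, (inner ℂ u v).re = (inner ℂ v u).re := fun u v => inner_re_symm (𝕜 := ℂ) u v
  -- the adjoint
  have h1 : (star B ^ D) y = (2 : ℂ) • x := by
    rw [← sub_eq_zero]
    apply lin0
    intro g t
    have h2 := toep3 B hB D 1 (by omega) one_pos y (-x + (t : ℂ) • g) 0
    rw [map_zero, map_zero, inner_zero_right, inner_zero_right, norm_zero, map_add, map_neg, inner_add_right,
      inner_neg_right, map_smul, Complex.add_re, Complex.neg_re, hyx, hl, hy] at h2
    have h3 : ‖-x + (t : ℂ) • g‖ ^ 2 = 1 - 2 * (t * (inner ℂ x g).re) + t ^ 2 * ‖g‖ ^ 2 := by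
      have := norm_add_sq (𝕜 := ℂ) (-x) ((t : ℂ) • g)
      rw [this, norm_neg, hx, hts, inner_neg_left]
      have h4 : RCLike.re (-inner ℂ x ((t : ℂ) • g)) = -(t * (inner ℂ x g).re) := by
        rw [← hl]
        rfl
      rw [h4]
      ring
    rw [h3, Complex.zero_re] at h2
    rw [inner_sub_left, Complex.sub_re, adj_pow, inner_smul_left]
    have h5 : ((starRingEnd ℂ) 2 * inner ℂ x g).re = 2 * (inner ℂ x g).re := by
      rw [map_ofNat]
      simp
    rw [h5]
    linarith
  refine ⟨h1, ?_, ?_, ?_⟩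
  · -- `B y = 0`
    apply lin0
    intro g t
    have h2 := toep3 B hB 1 D one_pos (by omega) ((-t : ℝ) • g) y (-x)
    have e0 : ((-t : ℝ) • g) = (((-t : ℝ) : ℂ)) • g := by
      rw [Complex.coe_smul]
    have e1 : (B ^ (1 + D)) x = (2 : ℂ) • B y := by
      rw [add_comm, pow_succ', mulA, h, map_smul]
    rw [e0, hts, norm_neg, hx, hy, pow_one, map_neg, map_neg, e1, inner_neg_right, inner_neg_right, Complex.neg_re,
      Complex.neg_re, hyx, hr, hr] at h2
    have e2 : (inner ℂ g ((2 : ℂ) • B y)).re = 2 * (inner ℂ (B y) g).re := by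
      rw [inner_smul_right, hsym (B y) g]
      simp
    rw [e2, hsym g (B y)] at h2
    nlinarith [h2]
  · -- `star B x = 0`
    apply lin0
    intro g t
    have h2 := toep3 B hB D 1 (by omega) one_pos y (-x) ((t : ℂ) • g)
    have e1 : inner ℂ y ((B ^ (D + 1)) g) = 2 * inner ℂ ((star B) x) g := by
      rw [← adj_pow, pow_succ', mulA, h1, map_smul, inner_smul_left, map_ofNat]
    rw [norm_neg, hts, hx, hy, map_neg, inner_neg_right, Complex.neg_re, hyx, map_smul, hl, e1, pow_one, map_smul,
      inner_neg_left, Complex.neg_re, hl, ← adj_one] at h2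
    have e2 : (2 * inner ℂ ((star B) x) g).re = 2 * (inner ℂ ((star B) x) g).re := by simp
    rw [e2] at h2
    nlinarith [h2]
  · intro m hm hmD
    rw [eq_comm, ← sub_eq_zero]
    apply lin0
    intro g t
    have h2 := toep3 B hB m (D - m) hm (by omega) y ((t : ℂ) • g) (-x)
    have e1 : m + (D - m) = D := by omega
    rw [e1, norm_neg, hts, hx, hy, map_smul, hl, map_neg, inner_neg_right, Complex.neg_re, hyx, map_neg,
      inner_neg_right, Complex.neg_re, hr] at h2
    rw [inner_sub_left, Complex.sub_re, adj_pow, hsym ((B ^ (D - m)) x) g]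
    nlinarith [h2]

/-- the weights of the Crabb matrix -/
noncomputable def crabbW (D j : ℕ) : ℝ :=
  if D = 1 then 2 else if j = 0 ∨ j + 1 = D then √2 else 1

theorem crabbW_pos (D j : ℕ) : 0 < crabbW D j := by
  unfold crabbW
  split_ifs <;> positivity

/-- the chain from the relations -/
theorem crabb_chain [Nontrivial H] (B : H →L[ℂ] H) (hB : ∀ u : H, ‖inner ℂ u (B u)‖ ≤ ‖u‖ ^ 2) (D : ℕ) (hD : 1 ≤ D)
    (x y : H) (hx : ‖x‖ = 1) (hy : ‖y‖ = 1) (h : (B ^ D) x = (2 : ℂ) • y) :
    ∃ v : ℕ → H, v 0 = x ∧ v D = y ∧ (∀ j < D, B (v j) = (crabbW D j : ℂ) • v (j + 1)) ∧ B (v D) = 0 ∧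
      star B (v 0) = 0 ∧ (∀ j < D, star B (v (j + 1)) = (crabbW D j : ℂ) • v j) := by
  obtain ⟨h1, h2, h3, h4⟩ := crabb_rel B hB D hD x y hx hy h
  have hs2 : (√2 : ℂ) * (√2 : ℂ) = 2 := by
    have : (√2 : ℝ) * √2 = 2 := Real.mul_self_sqrt (by norm_num)
    exact_mod_cast this
  have hs0 : ((√2 : ℝ) : ℂ) ≠ 0 := by
    intro h0
    rw [h0] at hs2
    norm_num at hs2
  have hs3 : (2 : ℂ) * ((√2 : ℝ) : ℂ)⁻¹ = ((√2 : ℝ) : ℂ) := by
    rw [← hs2, mul_assoc, mul_inv_cancel₀ hs0, mul_one]
  rcases Nat.lt_or_ge 1 D with hD1 | hD1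
  · -- `2 ≤ D`
    have hne : D ≠ 1 := by omega
    refine ⟨fun j => if j = 0 then x else if j = D then y else ((√2 : ℝ) : ℂ)⁻¹ • (B ^ j) x, ?_, ?_, ?_, ?_, ?_, ?_⟩
    · simp
    · have : D ≠ 0 := by omega
      simp [this]
    · intro j hj
      unfold crabbW
      rw [if_neg hne]
      have c1 : j ≠ D := by omega
      have c2 : j + 1 ≠ 0 := by omega
      simp only [if_neg c1, if_neg c2]
      by_cases j0 : j = 0
      · subst j0
        have c3 : 0 + 1 ≠ D := by omega
        rw [if_pos rfl, if_pos (Or.inl rfl), if_neg c3, smul_smul, mul_inv_cancel₀ hs0, one_smul, zero_add, pow_one]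
      · rw [if_neg j0, map_smul]
        have e1 : B ((B ^ j) x) = (B ^ (j + 1)) x := by rw [pow_succ', mulA]
        rw [e1]
        by_cases jD : j + 1 = D
        · rw [if_pos (Or.inr jD), if_pos jD, jD, h, smul_smul, mul_comm, hs3]
        · have c4 : ¬ (j = 0 ∨ j + 1 = D) := by
            intro h5; rcases h5 with h5 | h5
            · exact j0 h5
            · exact jD h5
          rw [if_neg c4, if_neg jD, Complex.ofReal_one, one_smul]
    · have : D ≠ 0 := by omega
      simp only [if_neg this, if_true]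
      exact h2
    · simp only [if_true]
      exact h3
    · intro j hj
      unfold crabbW
      rw [if_neg hne]
      have c1 : j ≠ D := by omega
      have c2 : j + 1 ≠ 0 := by omega
      simp only [if_neg c1, if_neg c2]
      by_cases jD : j + 1 = D
      · have j0 : j ≠ 0 := by omega
        have h5 := h4 1 one_pos hD1
        rw [if_pos jD, if_pos (Or.inr jD), if_neg j0, smul_smul, mul_inv_cancel₀ hs0, one_smul]
        have e1 : D - 1 = j := by omega
        rw [e1, pow_one] at h5
        exact h5.symm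
      · rw [if_neg jD, map_smul]
        have h5 := h4 (D - (j + 1)) (by omega) (by omega)
        have e1 : D - (D - (j + 1)) = j + 1 := by omega
        rw [e1] at h5
        rw [h5]
        have e2 : star B ((star B ^ (D - (j + 1))) y) = (star B ^ (D - j)) y := by
          rw [← mulA, ← pow_succ']
          congr 2
          omega
        rw [e2]
        by_cases j0 : j = 0
        · subst j0
          rw [if_pos rfl, if_pos (Or.inl rfl), Nat.sub_zero, h1, smul_smul, mul_comm, hs3]
        · have c4 : ¬ (j = 0 ∨ j + 1 = D) := by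
            intro h5; rcases h5 with h5 | h5
            · exact j0 h5
            · exact jD h5
          have h6 := h4 (D - j) (by omega) (by omega)
          have e3 : D - (D - j) = j := by omega
          rw [e3] at h6
          rw [if_neg j0, if_neg c4, Complex.ofReal_one, one_smul, h6]
  · have hD' : D = 1 := by omega
    subst hD'
    rw [pow_one] at h h1
    refine ⟨fun j => if j = 0 then x else y, ?_, ?_, ?_, ?_, ?_, ?_⟩
    · simp
    · simp
    · intro j hj
      have : j = 0 := by omega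
      subst this
      unfold crabbW
      simp [h]
    · simp [h2]
    · simp [h3]
    · intro j hj
      have : j = 0 := by omega
      subst this
      unfold crabbW
      simp [h1]

/-- a chain is orthonormal -/
theorem chain_orthonormal (B : H →L[ℂ] H) (D : ℕ) (W : ℕ → ℝ) (hW : ∀ j < D, W j ≠ 0) (v : ℕ → H) (h0 : ‖v 0‖ = 1)
    (h1 : ∀ j < D, B (v j) = (W j : ℂ) • v (j + 1)) (h2 : star B (v 0) = 0)
    (h3 : ∀ j < D, star B (v (j + 1)) = (W j : ℂ) • v j) :
    Orthonormal ℂ (fun j : Fin (D + 1) => v j) := by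
  have hW' : ∀ j < D, (W j : ℂ) ≠ 0 := by
    intro j hj
    exact_mod_cast hW j hj
  have key : ∀ i j, i ≤ j → j ≤ D → inner ℂ (v i) (v j) = if i = j then (1 : ℂ) else 0 := by
    intro i
    induction i with
    | zero =>
      intro j _ hj
      rcases Nat.eq_zero_or_pos j with rfl | hj0
      · rw [if_pos rfl, inner_self_eq_norm_sq_to_K, h0]
        norm_num
      · rw [if_neg (by omega)]
        obtain ⟨k, rfl⟩ : ∃ k, j = k + 1 := ⟨j - 1, by omega⟩
        have h4 : (W k : ℂ) * inner ℂ (v 0) (v (k + 1)) = 0 := by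
          rw [← inner_smul_right, ← h1 k (by omega), ← adj_one, h2, inner_zero_left]
        exact (mul_eq_zero.mp h4).resolve_left (hW' k (by omega))
    | succ i ih =>
      intro j hij hj
      obtain ⟨k, rfl⟩ : ∃ k, j = k + 1 := ⟨j - 1, by omega⟩
      have h4 : (W k : ℂ) * inner ℂ (v (i + 1)) (v (k + 1)) = (W i : ℂ) * inner ℂ (v i) (v k) := by
        rw [← inner_smul_right, ← h1 k (by omega), ← adj_one, h3 i (by omega), inner_smul_left, Complex.conj_ofReal]
      rw [ih k (by omega) (by omega)] at h4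
      by_cases hik : i = k
      · subst hik
        rw [if_pos rfl, mul_one] at h4
        rw [if_pos rfl]
        have h5 := hW' i (by omega)
        exact mul_left_cancel₀ h5 (by rw [h4, mul_one])
      · rw [if_neg hik, mul_zero] at h4
        rw [if_neg (by omega)]
        exact (mul_eq_zero.mp h4).resolve_left (hW' k (by omega))
  rw [orthonormal_iff_ite]
  intro i j
  rcases le_total (i : ℕ) (j : ℕ) with hij | hij
  · rw [key i j hij (by omega)]
    by_cases h : i = j
    · rw [if_pos h, if_pos (by rw [h])]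
    · rw [if_neg h, if_neg (fun h' => h (Fin.ext h'))]
  · rw [← inner_conj_symm, key j i hij (by omega)]
    by_cases h : i = j
    · rw [if_pos h, if_pos (by rw [h]), map_one]
    · rw [if_neg h, if_neg (fun h' => h (Fin.ext h'.symm)), map_zero]

end Pool.Agent.KS6_34.CE
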