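import Pool.Agent.KS6_34.CE.Lim

/-!
# Crouzeix equality: operators with numerical radius at most one
-/

set_option autoImplicit false
set_option linter.unusedSectionVars false

open MeasureTheory Set Filter Topology Complex Polynomial

namespace Pool.Agent.KS6_34.CE

open Pool.Agent.W753.CZ (numRange crouzeix_bound sg)

variable {H : Type*} [NormedAddCommGroup H] [InnerProductSpace ℂ H] [CompleteSpace H]

/-- the density on a circle of radius `1 + δ` -/
theorem disc_data (B : H →L[ℂ] H) (hB : ∀ u : H, ‖inner ℂ u (B u)‖ ≤ ‖u‖ ^ 2) (r : ℝ) (hr : 1 < r) :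
    ∃ X : ℝ → H →L[ℂ] H, Continuous X ∧ (∀ φ u, 0 ≤ (inner ℂ u (X φ u)).re) ∧
      (∀ φ : ℝ, X φ = 1 + (((r : ℂ)⁻¹ * exp (-(φ : ℂ) * I)) • B) * X φ) ∧
      (∀ k : ℕ, ∫ φ in (0 : ℝ)..(2 * Real.pi), ((r : ℂ) * exp ((φ : ℂ) * I)) ^ k • X φ =
        ((2 * Real.pi : ℝ) : ℂ) • B ^ k) := by
  have hr0 : (r : ℂ) ≠ 0 := by
    have : r ≠ 0 := by positivity
    exact_mod_cast this
  have hsg : ∀ φ : ℝ, sg (fun _ => r) (fun _ => 0) φ = (r : ℂ) * exp ((φ : ℂ) * I) := by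
    intro φ
    unfold sg
    simp only [ofReal_zero, zero_mul, add_zero]
    ring
  obtain ⟨X, hXc, hXre, hXeq, -, hXint⟩ := curve_data B (fun _ => r) (fun _ => 0) (fun _ => 0)
    (fun φ => hasDerivAt_const φ r) (fun φ => hasDerivAt_const φ 0) continuous_const rfl rfl
    (fun φ => by linarith) (r - 1) (by linarith) (fun φ u => by
      have h1 := Complex.re_le_norm (exp (-φ * I) * inner ℂ u (B u))
      rw [norm_mul, Pool.Agent.W753.CZ.norm_exp', one_mul] at h1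
      have h2 := hB u
      have h3 : (r - (r - 1)) * ‖u‖ ^ 2 = ‖u‖ ^ 2 := by ring
      rw [h3]
      linarith)
  refine ⟨X, hXc, hXre, ?_, ?_⟩
  · intro φ
    have h1 := hXeq φ
    rw [hsg, add_zero, sub_mul, smul_one_mul] at h1
    have h2 : exp (-(φ : ℂ) * I) * exp ((φ : ℂ) * I) = 1 := by
      rw [← Complex.exp_add]
      simp
    have h3 : ((r : ℂ)⁻¹ * exp (-(φ : ℂ) * I)) * ((r : ℂ) * exp ((φ : ℂ) * I)) = 1 := by
      calc ((r : ℂ)⁻¹ * exp (-(φ : ℂ) * I)) * ((r : ℂ) * exp ((φ : ℂ) * I)) =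
          ((r : ℂ)⁻¹ * r) * (exp (-(φ : ℂ) * I) * exp ((φ : ℂ) * I)) := by ring
        _ = 1 := by rw [h2, inv_mul_cancel₀ hr0, mul_one]
    have h4 := congrArg (fun Y : H →L[ℂ] H => ((r : ℂ)⁻¹ * exp (-(φ : ℂ) * I)) • Y) h1
    simp only [smul_sub, smul_smul, h3, one_smul] at h4
    rw [smul_mul_assoc]
    rw [← h4]
    abel
  · intro k
    have h1 := hXint (Polynomial.X ^ k)
    simp only [hsg, eval_pow, eval_X, map_pow, aeval_X] at h1
    exact h1

theorem int_exp (k : ℕ) (hk : 1 ≤ k) :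
    ∫ φ in (0 : ℝ)..(2 * Real.pi), exp (-(φ : ℂ) * I) ^ k = 0 := by
  have hk0 : (k : ℂ) ≠ 0 := by
    have : k ≠ 0 := by omega
    exact_mod_cast this
  have hd : ∀ φ ∈ uIcc (0 : ℝ) (2 * Real.pi), HasDerivAt
      (fun φ : ℝ => (I / k) * exp (-(φ : ℂ) * I) ^ k) (exp (-(φ : ℂ) * I) ^ k) φ := by
    intro φ _
    have h1 := ((Pool.Agent.W753.CZ.hasDerivAt_expI' φ).pow k).const_mul (I / k)
    refine h1.congr_deriv ?_
    have h2 : exp (-(φ : ℂ) * I) ^ k = exp (-(φ : ℂ) * I) ^ (k - 1) * exp (-(φ : ℂ) * I) := by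
      rw [← pow_succ]
      congr 1
      omega
    rw [h2]
    calc I / k * ((k : ℂ) * exp (-(φ : ℂ) * I) ^ (k - 1) * (-I * exp (-(φ : ℂ) * I))) =
        (-(I * I)) * ((k : ℂ) / k) * (exp (-(φ : ℂ) * I) ^ (k - 1) * exp (-(φ : ℂ) * I)) := by ring
      _ = _ := by rw [I_mul_I, div_self hk0]; ring
  rw [intervalIntegral.integral_eq_sub_of_hasDerivAt hd (by apply Continuous.intervalIntegrable; fun_prop)]
  have h3 : exp (-((2 * Real.pi : ℝ) : ℂ) * I) = 1 := by
    push_cast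
    rw [neg_mul, Complex.exp_neg, Complex.exp_two_pi_mul_I, inv_one]
  rw [h3]
  simp

/-- the negative moments vanish -/
theorem neg_moment [Nontrivial H] (B : H →L[ℂ] H) (hB : ∀ u : H, ‖inner ℂ u (B u)‖ ≤ ‖u‖ ^ 2) (r : ℝ) (hr : 1 < r)
    (X : ℝ → H →L[ℂ] H) (hXc : Continuous X)
    (hX : ∀ φ : ℝ, X φ = 1 + (((r : ℂ)⁻¹ * exp (-(φ : ℂ) * I)) • B) * X φ) (k : ℕ) (hk : 1 ≤ k) :
    ∫ φ in (0 : ℝ)..(2 * Real.pi), exp (-(φ : ℂ) * I) ^ k • X φ = 0 := by
  have hπ : (0 : ℝ) < 2 * Real.pi := by positivity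
  obtain ⟨K, hK⟩ := (isCompact_uIcc (a := (0 : ℝ)) (b := 2 * Real.pi)).exists_bound_of_continuousOn
    hXc.continuousOn
  have hpow : ∀ n : ℕ, ‖B ^ n‖ ≤ 2 := by
    intro n
    have h := crouzeix_bound B (Polynomial.X ^ n) 1 (by
      rintro w ⟨x, hx, rfl⟩
      rw [eval_pow, eval_X, norm_pow]
      apply pow_le_one₀ (norm_nonneg _)
      have := hB x
      rw [hx] at this
      simpa using this)
    rw [map_pow, aeval_X] at h
    linarith
  set J : ℕ → H →L[ℂ] H := fun k => ∫ φ in (0 : ℝ)..(2 * Real.pi), exp (-(φ : ℂ) * I) ^ k • X φ with hJ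
  have hJb : ∀ k, ‖J k‖ ≤ K * (2 * Real.pi) := by
    intro k
    have := intervalIntegral.norm_integral_le_of_norm_le_const (a := (0 : ℝ)) (b := 2 * Real.pi)
      (f := fun φ : ℝ => exp (-(φ : ℂ) * I) ^ k • X φ) (C := K) (fun φ hφ => by
        rw [norm_smul, norm_pow, Pool.Agent.W753.CZ.norm_exp', one_pow, one_mul]
        exact hK φ (uIoc_subset_uIcc hφ))
    rwa [sub_zero, abs_of_pos hπ] at this
  have hstep : ∀ k, 1 ≤ k → J k = ((r : ℂ)⁻¹) • (B * J (k + 1)) := by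
    intro k hk
    have e1 : ∀ φ : ℝ, exp (-(φ : ℂ) * I) ^ k • X φ = exp (-(φ : ℂ) * I) ^ k • (1 : H →L[ℂ] H) +
        ((r : ℂ)⁻¹) • (B * (exp (-(φ : ℂ) * I) ^ (k + 1) • X φ)) := by
      intro φ
      conv_lhs => rw [hX φ]
      rw [smul_add, smul_mul_assoc, smul_smul, mul_smul_comm, smul_smul]
      congr 2
      ring
    have i1 : IntervalIntegrable (fun φ : ℝ => exp (-(φ : ℂ) * I) ^ k • (1 : H →L[ℂ] H)) volume 0
        (2 * Real.pi) := by
      apply Continuous.intervalIntegrable; fun_prop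
    have i2 : IntervalIntegrable (fun φ : ℝ => exp (-(φ : ℂ) * I) ^ (k + 1) • X φ) volume 0
        (2 * Real.pi) := by
      apply Continuous.intervalIntegrable; fun_prop
    have i3 : IntervalIntegrable (fun φ : ℝ => ((r : ℂ)⁻¹) • (B * (exp (-(φ : ℂ) * I) ^ (k + 1) • X φ))) volume 0
        (2 * Real.pi) := by
      apply Continuous.intervalIntegrable; fun_prop
    have e2 : ∫ φ in (0 : ℝ)..(2 * Real.pi), B * (exp (-(φ : ℂ) * I) ^ (k + 1) • X φ) = B * J (k + 1) :=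
      ContinuousLinearMap.intervalIntegral_comp_comm (ContinuousLinearMap.mul ℂ (H →L[ℂ] H) B) i2
    rw [hJ]
    simp only
    rw [intervalIntegral.integral_congr (fun φ _ => e1 φ), intervalIntegral.integral_add i1 i3,
      intervalIntegral.integral_smul_const, int_exp k hk, zero_smul, zero_add, intervalIntegral.integral_smul, e2]
  have hiter : ∀ m, J k = ((r : ℂ)⁻¹ ^ m) • (B ^ m * J (k + m)) := by
    intro m
    induction m with
    | zero => simp
    | succ m ih =>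
      rw [ih, hstep (k + m) (by omega), mul_smul_comm, smul_smul, ← mul_assoc, ← pow_succ, ← pow_succ]
      rfl
  have hb : ∀ m, ‖J k‖ ≤ (r⁻¹) ^ m * (2 * (K * (2 * Real.pi))) := by
    intro m
    rw [hiter m, norm_smul, norm_pow, norm_inv, Complex.norm_real, Real.norm_of_nonneg (by linarith)]
    apply mul_le_mul_of_nonneg_left _ (by positivity)
    refine (norm_mul_le _ _).trans ?_
    exact mul_le_mul (hpow m) (hJb _) (norm_nonneg _) (by norm_num)
  have hlim : Tendsto (fun m : ℕ => (r⁻¹) ^ m * (2 * (K * (2 * Real.pi)))) atTop (𝓝 (0 * (2 * (K * (2 * Real.pi))))) := by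
    apply Tendsto.mul_const
    apply tendsto_pow_atTop_nhds_zero_of_lt_one (by positivity)
    exact inv_lt_one_of_one_lt₀ hr
  rw [zero_mul] at hlim
  have h0 : ‖J k‖ ≤ 0 := ge_of_tendsto' hlim hb
  exact norm_le_zero_iff.mp h0

end Pool.Agent.KS6_34.CE
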