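import Pool.Agent.KS6_34.CE.Cases

/-!
# Reducing chains and powers
-/

set_option autoImplicit false
set_option linter.unusedSectionVars false

open Filter Topology Complex Set Polynomial

namespace Pool.Agent.KS6_34.CE

variable {H : Type*} [NormedAddCommGroup H] [InnerProductSpace ℂ H] [CompleteSpace H]

theorem Chain.orthonormal {A : H →L[ℂ] H} {a : ℂ} {ρ : ℝ} {D : ℕ} {W : ℕ → ℝ} {v : ℕ → H} (h : Chain A a ρ D W v)
    (hρ : 0 < ρ) (hW : ∀ j < D, W j ≠ 0) : Orthonormal ℂ (fun j : Fin (D + 1) => v j) := by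
  have hs : star (A - a • (1 : H →L[ℂ] H)) = star A - (starRingEnd ℂ) a • (1 : H →L[ℂ] H) := by
    rw [star_sub, star_smul, star_one]
    rfl
  apply chain_orthonormal (A - a • (1 : H →L[ℂ] H)) D (fun j => ρ * W j) (fun j hj => mul_ne_zero hρ.ne' (hW j hj)) v
    h.nrm
  · intro j hj
    rw [sub_apply, smul_apply, one_apply_eq_self, h.up j hj]
    abel
  · rw [hs, sub_apply, smul_apply, one_apply_eq_self, h.bot]
    abel
  · intro j hj
    rw [hs, sub_apply, smul_apply, one_apply_eq_self, h.dn j hj]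
    abel

/-- the top of the chain is reached by powers -/
theorem pow_chain (A : H →L[ℂ] H) (a : ℂ) (ρ : ℝ) (D : ℕ) (W : ℕ → ℝ) (v : ℕ → H)
    (h : ∀ j < D, A (v j) = a • v j + ((ρ * W j : ℝ) : ℂ) • v (j + 1)) (k : ℕ) (hk : k ≤ D) :
    ((A - a • (1 : H →L[ℂ] H)) ^ k) (v 0) = ((ρ ^ k * ∏ j ∈ Finset.range k, W j : ℝ) : ℂ) • v k := by
  induction k with
  | zero => simp
  | succ k ih =>
    rw [pow_succ', mulA, ih (by omega), map_smul, sub_apply, smul_apply, one_apply_eq_self, h k (by omega),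
      add_sub_cancel_left, smul_smul, Finset.prod_range_succ]
    congr 1
    push_cast
    ring

theorem prod_wgt (κ : ℝ) (D : ℕ) (hD : 1 ≤ D) :
    ∏ j ∈ Finset.range D, wgt κ D j = if D = 1 then κ else 2 := by
  rcases Nat.lt_or_ge 1 D with h | h
  · obtain ⟨d, rfl⟩ : ∃ d, D = d + 2 := ⟨D - 2, by omega⟩
    rw [if_neg (by omega), Finset.prod_range_succ, Finset.prod_range_succ']
    have h1 : ∏ k ∈ Finset.range d, wgt κ (d + 2) (k + 1) = 1 := by
      apply Finset.prod_eq_one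
      intro k hk
      have := Finset.mem_range.mp hk
      unfold wgt
      rw [if_neg (by omega), if_neg (by omega)]
    have h2 : wgt κ (d + 2) 0 = √2 := by
      unfold wgt
      rw [if_neg (by omega), if_pos (Or.inl rfl)]
    have h3 : wgt κ (d + 2) (d + 1) = √2 := by
      unfold wgt
      rw [if_neg (by omega), if_pos (Or.inr rfl)]
    rw [h1, h2, h3, one_mul]
    exact Real.mul_self_sqrt (by norm_num)
  · have : D = 1 := by omega
    subst this
    rw [if_pos rfl, Finset.prod_range_one]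
    unfold wgt
    rw [if_pos rfl]

/-- a chain gives a lower bound -/
theorem chain_lower (A : H →L[ℂ] H) (a γ : ℂ) (ρ κ : ℝ) (hρ : 0 < ρ) (hκ : 0 ≤ κ) (D : ℕ) (hD : 1 ≤ D) (v : ℕ → H)
    (h0 : ‖v 0‖ = 1) (h1 : ‖v D‖ = 1)
    (h : ∀ j < D, A (v j) = a • v j + ((ρ * wgt κ D j : ℝ) : ℂ) • v (j + 1)) (p : ℂ[X])
    (hp : p = C γ * (X - C a) ^ D) :
    ‖γ‖ * ρ ^ D * (if D = 1 then κ else 2) ≤ ‖aeval A p‖ := by
  have h2 : aeval A p = γ • (A - a • (1 : H →L[ℂ] H)) ^ D := by
    rw [hp, map_mul, map_pow, map_sub, aeval_X, aeval_C, aeval_C, Algebra.algebraMap_eq_smul_one,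
      Algebra.algebraMap_eq_smul_one, smul_one_mul]
  have h3 := (aeval A p).le_opNorm (v 0)
  have hnn : 0 ≤ ρ ^ D * (if D = 1 then κ else 2) := by
    apply mul_nonneg (by positivity)
    split_ifs
    · exact hκ
    · norm_num
  rw [h0, mul_one, h2, smul_apply, pow_chain A a ρ D _ v h D le_rfl, prod_wgt κ D hD, norm_smul, norm_smul, h1,
    mul_one, Complex.norm_real, Real.norm_of_nonneg hnn, ← h2] at h3
  linarith

end Pool.Agent.KS6_34.CE
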