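import Pool.Agent.KS6_34.CE.MobZero
import Pool.Agent.KS6_34.CE.Mat

/-!
# The case `|q| = 4/5`
-/

set_option autoImplicit false
set_option linter.unusedSectionVars false

open Filter Topology Complex Set Polynomial

namespace Pool.Agent.KS6_34.CE

open Pool.Agent.W753.CZ (numRange crouzeix_bound numRange_norm numRange_nonempty)
open Pool.Agent.X24.QN (Om Sr Sr_apply Sr_self Sr_mul Sr_symm Sr_norm sim_le aeval_sim disc_le main_le inner_self_one
  exists_max)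

variable {H : Type*} [NormedAddCommGroup H] [InnerProductSpace ℂ H] [CompleteSpace H]

/-- a unimodular eigenvalue of `p(A)` comes from an eigenvalue of `A` -/
theorem eig_of_aeval [FiniteDimensional ℂ H] (A : H →L[ℂ] H) (p : ℂ[X]) (μ : ℂ) (x : H) (hx : x ≠ 0)
    (h : aeval A p x = μ • x) : ∃ (b : ℂ) (e : H), ‖e‖ = 1 ∧ A e = b • e ∧ p.eval b = μ := by
  set K : Submodule ℂ H := LinearMap.ker ((aeval A p - μ • (1 : H →L[ℂ] H) : H →L[ℂ] H) : H →ₗ[ℂ] H) with hK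
  have hmem : ∀ u, u ∈ K ↔ aeval A p u = μ • u := by
    intro u
    rw [hK, LinearMap.mem_ker]
    change (aeval A p - μ • (1 : H →L[ℂ] H)) u = 0 ↔ _
    rw [sub_apply, smul_apply, one_apply_eq_self, sub_eq_zero]
  have hinv : ∀ u ∈ K, A u ∈ K := by
    intro u hu
    rw [hmem] at hu ⊢
    have hc : aeval A p * A = A * aeval A p := (Pool.Agent.W753.CZ.commute_aeval (Commute.refl A) p).eq
    have h1 : aeval A p (A u) = A (aeval A p u) := congrArg (fun L : H →L[ℂ] H => L u) hc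
    rw [h1, hu, map_smul]
  have hxK : x ∈ K := (hmem x).mpr h
  have : CompleteSpace K := FiniteDimensional.complete ℂ K
  have : Nontrivial K := by
    refine ⟨⟨⟨x, hxK⟩, 0, ?_⟩⟩
    intro h
    exact hx (congrArg Subtype.val h)
  obtain ⟨b, hb⟩ := spectrum.nonempty (rst A K hinv)
  obtain ⟨e, he0, he⟩ := exists_eig (rst A K hinv) b hb
  have he' : A (e : H) = b • (e : H) := congrArg Subtype.val he
  have he0' : (e : H) ≠ 0 := fun h => he0 (Subtype.ext h)
  have hn : ‖(e : H)‖ ≠ 0 := norm_ne_zero_iff.mpr he0'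
  refine ⟨b, ((‖(e : H)‖⁻¹ : ℝ) : ℂ) • (e : H), ?_, ?_, ?_⟩
  · rw [norm_smul, Complex.norm_real, norm_inv, norm_norm, inv_mul_cancel₀ hn]
  · rw [map_smul, he', smul_comm]
  · have h1 := aeval_eig A p b e he'
    have h2 := (hmem e).mp e.2
    rw [h1] at h2
    have h3 : (p.eval b - μ) • (e : H) = 0 := by rw [sub_smul, h2, sub_self]
    exact sub_eq_zero.mp ((smul_eq_zero.mp h3).resolve_right he0')

/-- the extremal pair is orthogonal -/
theorem orth_45 [FiniteDimensional ℂ H] [Nontrivial H] {q : ℂ} (hq : ‖q‖ = 4 / 5) (A : H →L[ℂ] H)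
    (hdim : ∀ x : H, ‖x‖ = 1 → ∃ v : H, ‖v‖ = 1 ∧ inner ℂ x v = (0 : ℂ)) (hA : ∀ a : ℂ, A ≠ a • 1)
    (p : ℂ[X]) (hdeg : 1 ≤ p.natDegree) (hM : ∀ z ∈ Om q A, ‖p.eval z‖ ≤ 1) (x y : H) (hx : ‖x‖ = 1) (hy : ‖y‖ = 1)
    (hTx : aeval A p x = y) : inner ℂ y x = (0 : ℂ) := by
  have hq0 : q ≠ 0 := by
    rintro rfl
    rw [norm_zero] at hq
    norm_num at hq
  have hq1 : ‖q‖ < 1 := by rw [hq]; norm_num
  have hsq : √(1 - ‖q‖ ^ 2) = 3 / 5 := by
    rw [hq]
    rw [show (1 : ℝ) - (4 / 5) ^ 2 = (3 / 5) ^ 2 by norm_num]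
    exact Real.sqrt_sq (by norm_num)
  set T := aeval A p with hT
  set β : ℂ := inner ℂ y x with hβ
  have hxy : inner ℂ x y = (starRingEnd ℂ) β := by rw [hβ, inner_conj_symm]
  have hβ1 : ‖β‖ ≤ 1 := by
    have := norm_inner_le_norm (𝕜 := ℂ) y x
    rwa [hx, hy, one_mul] at this
  have hxx := inner_self_one hx
  have hyy := inner_self_one hy
  rcases hβ1.lt_or_eq with hlt | heq
  · set s : ℝ := √(1 - ‖β‖ ^ 2) with hs
    have hs2 : s ^ 2 = 1 - ‖β‖ ^ 2 := Real.sq_sqrt (by nlinarith [norm_nonneg β])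
    have hs0 : 0 < s := Real.sqrt_pos.mpr (by nlinarith [norm_nonneg β])
    have h1s : (0 : ℝ) < 1 + s := by linarith
    have h1sc : ((1 + s : ℝ) : ℂ) ≠ 0 := by exact_mod_cast h1s.ne'
    set a : ℂ := (starRingEnd ℂ) β / ((1 + s : ℝ) : ℂ) with ha
    have hac : (starRingEnd ℂ) a = β / ((1 + s : ℝ) : ℂ) := by
      rw [ha, map_div₀, Complex.conj_conj, Complex.conj_ofReal]
    have han : ‖a‖ < 1 := by
      rw [ha, norm_div, RCLike.norm_conj, Complex.norm_real, Real.norm_of_nonneg h1s.le, div_lt_one h1s]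
      linarith
    -- the key equation
    have hkey : β - 2 * (starRingEnd ℂ) a + (starRingEnd ℂ) a ^ 2 * (starRingEnd ℂ) β = 0 := by
      rw [hac]
      have h1 : β * (starRingEnd ℂ) β = ((1 - s ^ 2 : ℝ) : ℂ) := by
        rw [Complex.mul_conj, Complex.normSq_eq_norm_sq, hs2]
        congr 1
        ring
      field_simp
      push_cast at h1 h1sc ⊢
      linear_combination β * h1
    set N : ℝ := ‖x - (starRingEnd ℂ) a • y‖ with hN
    have hN0 : 0 < N := by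
      have h1 := norm_sub_norm_le x ((starRingEnd ℂ) a • y)
      rw [hx, norm_smul, RCLike.norm_conj, hy, mul_one] at h1
      rw [hN]
      linarith
    have hNc : (N : ℂ) ≠ 0 := by exact_mod_cast hN0.ne'
    have hN2 : ‖y - a • x‖ = N := by
      have h1 : ‖y - a • x‖ ^ 2 = N ^ 2 := by
        have e1 := norm_sub_sq (𝕜 := ℂ) y (a • x)
        have e2 := norm_sub_sq (𝕜 := ℂ) x ((starRingEnd ℂ) a • y)
        rw [hN, e1, e2, inner_smul_right, inner_smul_right, ← hβ, hxy, norm_smul, norm_smul, RCLike.norm_conj, hx, hy]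
        have e3 : (starRingEnd ℂ) a * (starRingEnd ℂ) β = (starRingEnd ℂ) (a * β) := by rw [map_mul]
        rw [e3, RCLike.conj_re]
      exact (pow_left_inj₀ (norm_nonneg _) hN0.le two_ne_zero).mp h1
    set x' : H := (N : ℂ)⁻¹ • (x - (starRingEnd ℂ) a • y) with hx'
    set y' : H := (N : ℂ)⁻¹ • (y - a • x) with hy'
    set z' : H := (N : ℂ)⁻¹ • x with hz'
    have hx'1 : ‖x'‖ = 1 := by
      rw [hx', norm_smul, norm_inv, Complex.norm_real, Real.norm_of_nonneg hN0.le, ← hN, inv_mul_cancel₀ hN0.ne']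
    have hy'1 : ‖y'‖ = 1 := by
      rw [hy', norm_smul, norm_inv, Complex.norm_real, Real.norm_of_nonneg hN0.le, hN2, inv_mul_cancel₀ hN0.ne']
    have hx'z : x' = z' - (starRingEnd ℂ) a • T z' := by
      rw [hx', hz', map_smul, hTx, smul_sub, smul_comm]
    have hy'z : y' = T z' - a • z' := by
      rw [hy', hz', map_smul, hTx, smul_sub, smul_comm]
    have horth : inner ℂ y' x' = (0 : ℂ) := by
      rw [hy', hx', inner_smul_left, inner_smul_right, inner_sub_left, inner_sub_right, inner_sub_right,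
        inner_smul_left, inner_smul_left, inner_smul_right, inner_smul_right, ← hβ, hxx, hyy, hxy]
      have h1 : β - (starRingEnd ℂ) a * 1 - ((starRingEnd ℂ) a * 1 -
          (starRingEnd ℂ) a * ((starRingEnd ℂ) a * (starRingEnd ℂ) β)) = 0 := by
        linear_combination hkey
      rw [h1, mul_zero, mul_zero]
    -- the similarity
    set r : ℝ := √2 with hr
    have hr0 : 0 < r := Real.sqrt_pos.mpr (by norm_num)
    have hr2 : r ^ 2 = 2 := Real.sq_sqrt (by norm_num)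
    have hr2' : r⁻¹ ^ 2 = 1 / 2 := by rw [inv_pow, hr2]; norm_num
    have hrq : r ^ 2 + r⁻¹ ^ 2 = 2 / ‖q‖ := by rw [hr2, hr2', hq]; norm_num
    have hrc : (r : ℂ) ≠ 0 := by exact_mod_cast hr0.ne'
    set S := Sr r y' with hS
    set B := Sr r y' * A * Sr r⁻¹ y' with hB
    have hnB : ∀ w ∈ numRange B, ‖p.eval w‖ ≤ 1 := fun w hw =>
      sim_le hq0 hq1.le A hdim p 1 hM hr0 hrq hy'1 hw
    have hsim : ∀ u, aeval B p (S u) = S (T u) := fun u =>
      congrArg (fun L : H →L[ℂ] H => L u) (aeval_sim hr0.ne' hy'1 A p)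
    have hSx : S x' = ((r⁻¹ : ℝ) : ℂ) • x' := Sr_orth r horth
    have hSy : S y' = (r : ℂ) • y' := Sr_self hy'1
    have e1 : aeval B p ((r : ℂ) • S z') = (r : ℂ) • S (T z') := by
      have e2 : aeval B p ((r : ℂ) • S z') = (r : ℂ) • aeval B p (S z') := map_smul _ _ _
      rw [e2, hsim]
    clear_value x' y' z'
    have ha0 : a = 0 := by
      refine mob_zero B p hdeg hnB a han x' y' ((r : ℂ) • S z') hx'1 hy'1 ?_ ?_
      · rw [e1, smul_comm, ← smul_sub, ← map_smul, ← map_sub, ← hx'z, hSx, smul_smul]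
        have h1 : (r : ℂ) * ((r⁻¹ : ℝ) : ℂ) = 1 := by
          push_cast
          exact mul_inv_cancel₀ hrc
        rw [h1, one_smul]
      · rw [e1, smul_comm a (r : ℂ), ← smul_sub, ← map_smul, ← map_sub, ← hy'z, hSy, smul_smul]
        congr 1
        rw [← Complex.ofReal_mul, ← pow_two, hr2]
        norm_num
    have h2 : (starRingEnd ℂ) β = 0 := by
      rw [ha, div_eq_zero_iff] at ha0
      exact ha0.resolve_right h1sc
    exact (_root_.map_eq_zero _).mp h2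
  · exfalso
    -- `x` is an eigenvector
    have h1 : T x = (starRingEnd ℂ) β • x := by
      rw [hTx, ← sub_eq_zero, ← norm_eq_zero, ← sq_eq_zero_iff]
      have e1 := norm_sub_sq (𝕜 := ℂ) y ((starRingEnd ℂ) β • x)
      rw [e1, inner_smul_right, ← hβ, Complex.conj_mul', norm_smul, RCLike.norm_conj, hx, hy, heq]
      norm_num
    have hx0 : x ≠ 0 := by
      rintro rfl
      rw [norm_zero] at hx
      exact zero_ne_one hx
    obtain ⟨b, e, he1, he, hpb⟩ := eig_of_aeval A p _ x hx0 h1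
    have h2 := eig_lt hq0 hq1 A hdim hA p hdeg hM b e he1 he
    rw [hpb, RCLike.norm_conj, heq] at h2
    exact lt_irrefl _ h2

/-- equality for `|q| = 4/5` -/
theorem case_45 [FiniteDimensional ℂ H] [Nontrivial H] {q : ℂ} (hq : ‖q‖ = 4 / 5)
    (A : H →L[ℂ] H) (hdim : ∀ x : H, ‖x‖ = 1 → ∃ v : H, ‖v‖ = 1 ∧ inner ℂ x v = (0 : ℂ))
    (hA : ∀ a : ℂ, A ≠ a • 1) (p : ℂ[X]) (hdeg : 1 ≤ p.natDegree) {M : ℝ} (hM : 0 < M)
    (hp : ∀ w ∈ Om q A, ‖p.eval w‖ ≤ M) (heq : ‖aeval A p‖ = M) :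
    ∃ (a γ : ℂ) (ρ : ℝ) (v : ℕ → H), 0 < ρ ∧ γ ≠ 0 ∧ p = C γ * (X - C a) ^ 1 ∧
      ‖γ‖ * ρ ^ 1 = M ∧ Chain A a ρ 1 (wgt 1 1) v := by
  have hMc : (M : ℂ) ≠ 0 := by exact_mod_cast hM.ne'
  have hq0 : q ≠ 0 := by
    rintro rfl
    rw [norm_zero] at hq
    norm_num at hq
  have hq1 : ‖q‖ < 1 := by rw [hq]; norm_num
  have hsq : √(1 - ‖q‖ ^ 2) = 3 / 5 := by
    rw [hq]
    rw [show (1 : ℝ) - (4 / 5) ^ 2 = (3 / 5) ^ 2 by norm_num]
    exact Real.sqrt_sq (by norm_num)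
  have hc : 2 * (‖q‖ / (1 + √(1 - ‖q‖ ^ 2))) = 1 := by rw [hsq, hq]; norm_num
  have hn : ‖aeval A (C ((M : ℂ)⁻¹) * p)‖ = 1 := by
    rw [scale_aeval, norm_smul, norm_inv, Complex.norm_real, Real.norm_of_nonneg hM.le, heq]
    field_simp
  have hp1 : ∀ w ∈ Om q A, ‖(C ((M : ℂ)⁻¹) * p).eval w‖ ≤ 1 := fun w hw => scale_le p hM (hp w hw)
  obtain ⟨x, y, hx, hy, hxy⟩ := exists_pair _ one_pos hn
  have hxy' : aeval A (C ((M : ℂ)⁻¹) * p) x = y := by rw [hxy, Complex.ofReal_one, one_smul]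
  have hdeg' : 1 ≤ (C ((M : ℂ)⁻¹) * p).natDegree := by rw [scale_natDegree p hM]; exact hdeg
  have hyx := orth_45 hq A hdim hA _ hdeg' hp1 x y hx hy hxy'
  obtain ⟨-, a, c, ρ, v, hρ, hc', hpc, hcρ, hch⟩ := q_core hq0 hq1 A hdim _ hdeg' hp1 hx hy hyx
    (by rw [hc]; exact hxy)
  refine ⟨a, (M : ℂ) * c, ρ, v, hρ, mul_ne_zero hMc hc', unscale p hM hpc, ?_, ?_⟩
  · rw [norm_mul, Complex.norm_real, Real.norm_of_nonneg hM.le, mul_assoc, pow_one, hcρ, mul_one]
  · have hW : wgt 1 1 = fun _ => 2 * (‖q‖ / (1 + √(1 - ‖q‖ ^ 2))) := by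
      funext j
      unfold wgt
      rw [if_pos rfl, hc]
    rw [hW]
    exact hch

end Pool.Agent.KS6_34.CE
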