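import Pool.Agent.KS6_34.CE.Red

/-!
# Crouzeix equality: the structure of the operator
-/

set_option autoImplicit false
set_option linter.unusedSectionVars false

open Filter Topology Complex Set Polynomial

namespace Pool.Agent.KS6_34.CE

open Pool.Agent.W753.CZ (numRange crouzeix_bound)

variable {H : Type*} [NormedAddCommGroup H] [InnerProductSpace ℂ H] [CompleteSpace H]

/-- `v 0, …, v D` is a reducing chain of `A` with the centre `a`, the scale `ρ` and the weights `W` -/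
structure Chain (A : H →L[ℂ] H) (a : ℂ) (ρ : ℝ) (D : ℕ) (W : ℕ → ℝ) (v : ℕ → H) : Prop where
  nrm : ‖v 0‖ = 1
  up : ∀ j < D, A (v j) = a • v j + ((ρ * W j : ℝ) : ℂ) • v (j + 1)
  top : A (v D) = a • v D
  bot : star A (v 0) = (starRingEnd ℂ) a • v 0
  dn : ∀ j < D, star A (v (j + 1)) = (starRingEnd ℂ) a • v (j + 1) + ((ρ * W j : ℝ) : ℂ) • v j

/-- numerical radius from the numerical range -/
theorem numRad_le (B : H →L[ℂ] H) (h : ∀ w ∈ numRange B, ‖w‖ ≤ 1) (u : H) : ‖inner ℂ u (B u)‖ ≤ ‖u‖ ^ 2 := by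
  by_cases hu : u = 0
  · simp [hu]
  have hn : ‖u‖ ≠ 0 := norm_ne_zero_iff.mpr hu
  set x : H := ((‖u‖⁻¹ : ℝ) : ℂ) • u with hx
  have hx1 : ‖x‖ = 1 := by
    rw [hx, norm_smul, Complex.norm_real, norm_inv, norm_norm, inv_mul_cancel₀ hn]
  have h1 := h (inner ℂ x (B x)) ⟨x, hx1, rfl⟩
  have h2 : inner ℂ x (B x) = (((‖u‖⁻¹) ^ 2 : ℝ) : ℂ) * inner ℂ u (B u) := by
    rw [hx, map_smul, inner_smul_left, inner_smul_right, Complex.conj_ofReal]
    push_cast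
    ring
  rw [h2, norm_mul, Complex.norm_real, Real.norm_of_nonneg (by positivity)] at h1
  have h3 : 0 < ‖u‖ ^ 2 := by positivity
  calc ‖inner ℂ u (B u)‖ = ((‖u‖⁻¹) ^ 2 * ‖inner ℂ u (B u)‖) * ‖u‖ ^ 2 := by field_simp
    _ ≤ 1 * ‖u‖ ^ 2 := by gcongr
    _ = ‖u‖ ^ 2 := one_mul _

theorem q1_full [FiniteDimensional ℂ H] [Nontrivial H] (A : H →L[ℂ] H) (p : ℂ[X]) (hdeg : 1 ≤ p.natDegree)
    (hp : ∀ w ∈ numRange A, ‖p.eval w‖ ≤ 1) (x y : H) (hx : ‖x‖ = 1) (hy : ‖y‖ = 1)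
    (hTx : aeval A p x = (2 : ℂ) • y) :
    ∃ (a c : ℂ) (ρ : ℝ) (v : ℕ → H), 0 < ρ ∧ c ≠ 0 ∧ p = C c * (X - C a) ^ p.natDegree ∧
      ‖c‖ * ρ ^ p.natDegree = 1 ∧ (∀ w ∈ numRange A, ‖w - a‖ ≤ ρ) ∧
      v 0 = x ∧ v p.natDegree = ((c * (ρ : ℂ) ^ p.natDegree)⁻¹) • y ∧
      Chain A a ρ p.natDegree (crabbW p.natDegree) v := by
  obtain ⟨a, c, hc, hpc⟩ := q1_poly A p hdeg hp x y hx hy hTx
  set D := p.natDegree with hD
  have hcn : 0 < ‖c‖ := norm_pos_iff.mpr hc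
  obtain ⟨ρ, hρ, hρD⟩ : ∃ ρ : ℝ, 0 < ρ ∧ ρ ^ D = ‖c‖⁻¹ := by
    refine ⟨(‖c‖⁻¹) ^ ((D : ℝ)⁻¹), Real.rpow_pos_of_pos (inv_pos.mpr hcn) _, ?_⟩
    exact Real.rpow_inv_natCast_pow (inv_nonneg.mpr hcn.le) (by omega)
  have hcρ : ‖c‖ * ρ ^ D = 1 := by rw [hρD, mul_inv_cancel₀ hcn.ne']
  have hρc : (ρ : ℂ) ≠ 0 := by exact_mod_cast hρ.ne'
  have hev : ∀ w, p.eval w = c * (w - a) ^ D := by
    intro w
    conv_lhs => rw [hpc]
    simp
  have hball : ∀ w ∈ numRange A, ‖w - a‖ ≤ ρ := by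
    intro w hw
    have h1 := hp w hw
    rw [hev, norm_mul, norm_pow, ← hcρ] at h1
    have h2 : ‖w - a‖ ^ D ≤ ρ ^ D := le_of_mul_le_mul_left h1 hcn
    exact (pow_le_pow_iff_left₀ (norm_nonneg _) hρ.le (by omega)).mp h2
  set B : H →L[ℂ] H := (ρ : ℂ)⁻¹ • (A - a • (1 : H →L[ℂ] H)) with hB
  have hBA : A = a • (1 : H →L[ℂ] H) + (ρ : ℂ) • B := by
    rw [hB, smul_smul, mul_inv_cancel₀ hρc, one_smul]
    abel
  have hBw : ∀ w ∈ numRange B, ‖w‖ ≤ 1 := by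
    rintro w ⟨u, hu, rfl⟩
    have h1 := hball (inner ℂ u (A u)) ⟨u, hu, rfl⟩
    have h2 : inner ℂ u (A u) - a = (ρ : ℂ) * inner ℂ u (B u) := by
      conv_lhs => rw [hBA]
      rw [add_apply, smul_apply, smul_apply, one_apply_eq_self, inner_add_right, inner_smul_right, inner_smul_right,
        inner_self_eq_norm_sq_to_K, hu]
      simp
    rw [h2, norm_mul, Complex.norm_real, Real.norm_of_nonneg hρ.le] at h1
    have h3 : ρ * ‖inner ℂ u (B u)‖ ≤ ρ * 1 := by rw [mul_one]; exact h1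
    exact le_of_mul_le_mul_left h3 hρ
  have hBr := numRad_le B hBw
  have hpA : aeval A p = (c * (ρ : ℂ) ^ D) • B ^ D := by
    conv_lhs => rw [hpc]
    rw [map_mul, map_pow, map_sub, aeval_X, aeval_C, aeval_C, Algebra.algebraMap_eq_smul_one,
      Algebra.algebraMap_eq_smul_one]
    have h1 : A - a • (1 : H →L[ℂ] H) = (ρ : ℂ) • B := by
      rw [hB, smul_smul, mul_inv_cancel₀ hρc, one_smul]
    rw [h1, _root_.smul_pow, smul_one_mul, smul_smul]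
  have hcρ0 : c * (ρ : ℂ) ^ D ≠ 0 := mul_ne_zero hc (pow_ne_zero _ hρc)
  have hcρn : ‖c * (ρ : ℂ) ^ D‖ = 1 := by
    rw [norm_mul, norm_pow, Complex.norm_real, Real.norm_of_nonneg hρ.le, hcρ]
  have hBx : (B ^ D) x = (2 : ℂ) • ((c * (ρ : ℂ) ^ D)⁻¹ • y) := by
    rw [hpA, smul_apply] at hTx
    rw [smul_comm, ← hTx, smul_smul, inv_mul_cancel₀ hcρ0, one_smul]
  have hy' : ‖(c * (ρ : ℂ) ^ D)⁻¹ • y‖ = 1 := by
    rw [norm_smul, norm_inv, hcρn, inv_one, one_mul, hy]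
  obtain ⟨v, hv0, hvD, hup, htop, hbot, hdn⟩ := crabb_chain B hBr D hdeg x _ hx hy' hBx
  refine ⟨a, c, ρ, v, hρ, hc, hpc, hcρ, hball, hv0, hvD, ?_⟩
  have hAu : ∀ u, A u = a • u + (ρ : ℂ) • B u := by
    intro u
    conv_lhs => rw [hBA]
    rw [add_apply, smul_apply, smul_apply, one_apply_eq_self]
  have hAs : ∀ u, star A u = (starRingEnd ℂ) a • u + (ρ : ℂ) • (star B) u := by
    intro u
    have h1 : star A = (starRingEnd ℂ) a • (1 : H →L[ℂ] H) + (ρ : ℂ) • star B := by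
      conv_lhs => rw [hBA]
      rw [star_add, star_smul, star_smul, star_one]
      congr 2
      exact Complex.conj_ofReal ρ
    rw [h1, add_apply, smul_apply, smul_apply, one_apply_eq_self]
  refine ⟨by rw [hv0]; exact hx, ?_, ?_, ?_, ?_⟩
  · intro j hj
    rw [hAu, hup j hj, smul_smul]
    push_cast
    rfl
  · rw [hAu, htop, smul_zero, add_zero]
  · rw [hAs, hbot, smul_zero, add_zero]
  · intro j hj
    rw [hAs, hdn j hj, smul_smul]
    push_cast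
    rfl

end Pool.Agent.KS6_34.CE
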