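import Pool.Agent.KS6_34.CE.Red
import Pool.Agent.KS6_34.CE.Conc3

/-!
# Crouzeix equality: Moebius transforms of polynomials
-/

set_option autoImplicit false
set_option linter.unusedSectionVars false

open Filter Topology Complex Set Polynomial

namespace Pool.Agent.KS6_34.CE

open Pool.Agent.W753.CZ (numRange crouzeix_bound numRange_norm numRange_nonempty)

theorem mob_id (a z : ℂ) : ‖1 - (starRingEnd ℂ) a * z‖ ^ 2 - ‖z - a‖ ^ 2 = (1 - ‖a‖ ^ 2) * (1 - ‖z‖ ^ 2) := by
  rw [← Complex.normSq_eq_norm_sq, ← Complex.normSq_eq_norm_sq, ← Complex.normSq_eq_norm_sq,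
    ← Complex.normSq_eq_norm_sq, Complex.normSq_apply, Complex.normSq_apply, Complex.normSq_apply,
    Complex.normSq_apply]
  simp only [Complex.sub_re, Complex.sub_im, Complex.mul_re, Complex.mul_im, Complex.conj_re, Complex.conj_im,
    Complex.one_re, Complex.one_im]
  ring

theorem mob_ne {a z : ℂ} (_ : ‖a‖ < 1) (hz : ‖a‖ * ‖z‖ < 1) : 1 - (starRingEnd ℂ) a * z ≠ 0 := by
  intro h
  have h1 : (starRingEnd ℂ) a * z = 1 := (sub_eq_zero.mp h).symm
  have h2 := congrArg norm h1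
  rw [norm_mul, RCLike.norm_conj, norm_one] at h2
  linarith

theorem mob_le {a z : ℂ} (ha : ‖a‖ < 1) (hz : ‖z‖ ≤ 1) : ‖(z - a) / (1 - (starRingEnd ℂ) a * z)‖ ≤ 1 := by
  have hne := mob_ne (a := a) (z := z) ha (by nlinarith [norm_nonneg a, norm_nonneg z])
  rw [norm_div, div_le_one (norm_pos_iff.mpr hne)]
  have h1 := mob_id a z
  have h2 : 0 ≤ (1 - ‖a‖ ^ 2) * (1 - ‖z‖ ^ 2) := by
    apply mul_nonneg
    · nlinarith [norm_nonneg a]
    · nlinarith [norm_nonneg z]
  exact (pow_le_pow_iff_left₀ (norm_nonneg _) (norm_nonneg _) two_ne_zero).mp (by linarith)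

theorem mob_lt {a z : ℂ} (ha : ‖a‖ < 1) (hz : ‖z‖ < 1) : ‖(z - a) / (1 - (starRingEnd ℂ) a * z)‖ < 1 := by
  have hne := mob_ne (a := a) (z := z) ha (by nlinarith [norm_nonneg a, norm_nonneg z])
  rw [norm_div, div_lt_one (norm_pos_iff.mpr hne)]
  have h1 := mob_id a z
  have h2 : 0 < (1 - ‖a‖ ^ 2) * (1 - ‖z‖ ^ 2) := by
    apply mul_pos
    · nlinarith [norm_nonneg a]
    · nlinarith [norm_nonneg z]
  exact (pow_lt_pow_iff_left₀ (norm_nonneg _) (norm_nonneg _) two_ne_zero).mp (by linarith)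

theorem mob_eq {a z : ℂ} (ha : ‖a‖ < 1) (hz : ‖z‖ ≤ 1) (h : ‖(z - a) / (1 - (starRingEnd ℂ) a * z)‖ = 1) :
    ‖z‖ = 1 := by
  refine le_antisymm hz ?_
  by_contra hcon
  push Not at hcon
  have := mob_lt ha hcon
  rw [h] at this
  exact lt_irrefl _ this

/-- the inverse of `1 - conj a p` modulo an annihilating polynomial -/
theorem exists_bezout (p χ : ℂ[X]) (a : ℂ) (ha : ‖a‖ < 1)
    (hroot : ∀ b, χ.eval b = 0 → ‖p.eval b‖ ≤ 1) :
    ∃ g k : ℂ[X], g * (1 - C ((starRingEnd ℂ) a) * p) + k * χ = 1 := by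
  have hcop : IsCoprime (1 - C ((starRingEnd ℂ) a) * p) χ := by
    rw [Polynomial.isCoprime_iff_aeval_ne_zero_of_isAlgClosed ℂ ℂ]
    intro b
    by_cases h : χ.eval b = 0
    · left
      rw [coe_aeval_eq_eval]
      have h1 : (1 - C ((starRingEnd ℂ) a) * p).eval b = 1 - (starRingEnd ℂ) a * p.eval b := by simp
      rw [h1]
      apply mob_ne ha
      have := hroot b h
      nlinarith [norm_nonneg a, norm_nonneg (p.eval b)]
    · right
      rw [coe_aeval_eq_eval]
      exact h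
  obtain ⟨g, k, h⟩ := hcop
  exact ⟨g, k, h⟩

variable {H : Type*} [NormedAddCommGroup H] [InnerProductSpace ℂ H] [CompleteSpace H]

/-- the Moebius transform of `p` is a limit of polynomials with the same value at `A` -/
theorem mob_approx (A : H →L[ℂ] H) [Nontrivial H] (p χ g k : ℂ[X]) (hχ : aeval A χ = 0) (a : ℂ) (ha : ‖a‖ < 1)
    (hp : ∀ w ∈ numRange A, ‖p.eval w‖ ≤ 1) (hg : g * (1 - C ((starRingEnd ℂ) a) * p) + k * χ = 1) :
    ∃ U : Set ℂ, IsOpen U ∧ closure (numRange A) ⊆ U ∧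
      ContinuousOn (fun s => (p.eval s - a) / (1 - (starRingEnd ℂ) a * p.eval s)) U ∧
      ∃ P : ℕ → ℂ[X], (∀ n, aeval A (P n) = aeval A ((p - C a) * g)) ∧
        ∀ n : ℕ, ∀ s ∈ U, ‖(P n).eval s - (p.eval s - a) / (1 - (starRingEnd ℂ) a * p.eval s)‖ ≤ 1 / ((n : ℝ) + 1) := by
  set θ : ℝ := (1 + ‖a‖) / 2 with hθ
  have hθ1 : θ < 1 := by rw [hθ]; linarith
  have hθ0 : 0 < θ := by rw [hθ]; positivity
  have haθ : ‖a‖ < θ := by rw [hθ]; linarith
  set U : Set ℂ := {s : ℂ | ‖s‖ < ‖A‖ + 1 ∧ ‖a‖ * ‖p.eval s‖ < θ} with hU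
  have hUo : IsOpen U := by
    have h1 : IsOpen {s : ℂ | ‖s‖ < ‖A‖ + 1} := isOpen_lt (by fun_prop) continuous_const
    have h2 : IsOpen {s : ℂ | ‖a‖ * ‖p.eval s‖ < θ} := isOpen_lt (by fun_prop) continuous_const
    exact h1.inter h2
  have hUW : closure (numRange A) ⊆ U := by
    intro s hs
    have h1 : closure (numRange A) ⊆ {s : ℂ | ‖s‖ ≤ ‖A‖} :=
      closure_minimal (numRange_norm A) (isClosed_le (by fun_prop) continuous_const)
    have h2 : closure (numRange A) ⊆ {s : ℂ | ‖p.eval s‖ ≤ 1} :=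
      closure_minimal hp (isClosed_le (by fun_prop) continuous_const)
    have h3 : ‖s‖ ≤ ‖A‖ := h1 hs
    have h4 : ‖p.eval s‖ ≤ 1 := h2 hs
    refine ⟨by linarith, ?_⟩
    nlinarith [norm_nonneg a]
  have hne : ∀ s ∈ U, 1 - (starRingEnd ℂ) a * p.eval s ≠ 0 := by
    intro s hs
    apply mob_ne ha
    have := hs.2
    linarith
  refine ⟨U, hUo, hUW, ?_, ?_⟩
  · apply ContinuousOn.div
    · fun_prop
    · fun_prop
    · exact hne
  set w : ℂ[X] := C ((starRingEnd ℂ) a) * p with hw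
  have hwe : ∀ s, w.eval s = (starRingEnd ℂ) a * p.eval s := by
    intro s
    rw [hw, eval_mul, eval_C]
  -- the bound
  obtain ⟨B, hB⟩ := (isCompact_closedBall (0 : ℂ) (‖A‖ + 1)).exists_bound_of_continuousOn
    (f := fun s : ℂ => (p.eval s - a)) (by fun_prop)
  obtain ⟨B', hB'⟩ := (isCompact_closedBall (0 : ℂ) (‖A‖ + 1)).exists_bound_of_continuousOn
    (f := fun s : ℂ => g.eval s) (by fun_prop)
  have hB0 : 0 ≤ B := (norm_nonneg _).trans (hB 0 (by simp; positivity))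
  have hB'0 : 0 ≤ B' := (norm_nonneg _).trans (hB' 0 (by simp; positivity))
  set Cc : ℝ := B * ((1 - θ)⁻¹ + B') with hCc
  have h1θ : 0 < 1 - θ := by linarith
  have hCc0 : 0 ≤ Cc := by positivity
  have hN : ∀ n : ℕ, ∃ N : ℕ, Cc * θ ^ N ≤ 1 / ((n : ℝ) + 1) := by
    intro n
    have h1 : Tendsto (fun N : ℕ => Cc * θ ^ N) atTop (𝓝 (Cc * 0)) :=
      (tendsto_pow_atTop_nhds_zero_of_lt_one hθ0.le hθ1).const_mul Cc
    rw [mul_zero] at h1
    have h2 := h1.eventually_lt_const (show (0 : ℝ) < 1 / ((n : ℝ) + 1) by positivity)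
    obtain ⟨N, hN⟩ := h2.exists
    exact ⟨N, hN.le⟩
  choose N hN using hN
  refine ⟨fun n => (p - C a) * (∑ j ∈ Finset.range (N n), w ^ j + g * w ^ (N n)), ?_, ?_⟩
  · intro n
    have h1 : ∑ j ∈ Finset.range (N n), w ^ j + g * w ^ (N n) =
        g + k * χ * ∑ j ∈ Finset.range (N n), w ^ j := by
      have h2 : (∑ j ∈ Finset.range (N n), w ^ j) * (1 - w) = 1 - w ^ (N n) := by
        rw [mul_comm]
        exact mul_neg_geom_sum w (N n)
      have h3 : (∑ j ∈ Finset.range (N n), w ^ j) * (g * (1 - w) + k * χ) = ∑ j ∈ Finset.range (N n), w ^ j := by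
        rw [hg, mul_one]
      linear_combination g * h2 - h3
    change aeval A ((p - C a) * (∑ j ∈ Finset.range (N n), w ^ j + g * w ^ (N n))) = _
    rw [h1, mul_add, map_add, map_mul, map_mul, map_mul, map_mul, hχ, mul_zero, zero_mul, mul_zero, add_zero]
  · intro n s hs
    have hsne := hne s hs
    have hsb : s ∈ Metric.closedBall (0 : ℂ) (‖A‖ + 1) := mem_closedBall_zero_iff.mpr hs.1.le
    have h1 : (∑ j ∈ Finset.range (N n), (w.eval s) ^ j) * (1 - w.eval s) = 1 - (w.eval s) ^ (N n) := by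
      rw [mul_comm]
      exact mul_neg_geom_sum _ _
    have hwn : ‖w.eval s‖ ≤ θ := by
      rw [hwe, norm_mul, RCLike.norm_conj]
      exact hs.2.le
    have hsne' : 1 - w.eval s ≠ 0 := by rw [hwe]; exact hsne
    have h2 : ((p - C a) * (∑ j ∈ Finset.range (N n), w ^ j + g * w ^ (N n))).eval s -
        (p.eval s - a) / (1 - (starRingEnd ℂ) a * p.eval s) =
        (p.eval s - a) * (w.eval s) ^ (N n) * (g.eval s - (1 - w.eval s)⁻¹) := by
      rw [← hwe]
      simp only [eval_mul, eval_add, eval_sub, eval_C, eval_pow, eval_finsetSum]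
      have h3 : (∑ j ∈ Finset.range (N n), (w.eval s) ^ j) = (1 - (w.eval s) ^ (N n)) * (1 - w.eval s)⁻¹ := by
        rw [← h1, mul_assoc, mul_inv_cancel₀ hsne', mul_one]
      rw [h3]
      field_simp
      ring
    rw [h2, norm_mul, norm_mul, norm_pow]
    have h4 : ‖g.eval s - (1 - w.eval s)⁻¹‖ ≤ B' + (1 - θ)⁻¹ := by
      refine (norm_sub_le _ _).trans ?_
      apply add_le_add (hB' s hsb)
      rw [norm_inv]
      apply inv_anti₀ h1θ
      have h5 := norm_sub_norm_le (1 : ℂ) (w.eval s)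
      rw [norm_one] at h5
      linarith
    have h6 : ‖w.eval s‖ ^ (N n) ≤ θ ^ (N n) := pow_le_pow_left₀ (norm_nonneg _) hwn _
    calc ‖p.eval s - a‖ * ‖w.eval s‖ ^ (N n) * ‖g.eval s - (1 - w.eval s)⁻¹‖ ≤
        B * θ ^ (N n) * (B' + (1 - θ)⁻¹) := by
          apply mul_le_mul _ h4 (norm_nonneg _) (by positivity)
          exact mul_le_mul (hB s hsb) h6 (by positivity) hB0
      _ = Cc * θ ^ (N n) := by rw [hCc]; ring
      _ ≤ _ := hN n

/-- the second exchange identity -/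
theorem Pl_swap2 (A : H →L[ℂ] H) (p χ : ℂ[X]) (hχ : aeval A χ = 0) {x y : H}
    (hTy : (star (aeval A p)) y = (2 : ℂ) • x) :
    p * Pl A χ y y = C 2 * Pl A χ y x + χ * Pl A p y y := by
  apply Polynomial.funext
  intro s
  rw [eval_mul, eval_add, eval_mul, eval_mul, eval_C, Pl_eval, Pl_eval, Pl_eval]
  have h := congrArg (fun L : H →L[ℂ] H => inner ℂ y (L y)) (Pop_swap A p χ hχ s)
  have hc : Pop A χ s * aeval A p = aeval A p * Pop A χ s := by
    unfold Pop
    rw [Finset.sum_mul, Finset.mul_sum]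
    refine Finset.sum_congr rfl fun j _ => ?_
    rw [smul_mul_assoc, mul_smul_comm, Finset.sum_mul, Finset.mul_sum]
    congr 1
    refine Finset.sum_congr rfl fun i _ => ?_
    rw [smul_mul_assoc, mul_smul_comm]
    congr 1
    exact ((Pool.Agent.W753.CZ.commute_aeval (Commute.refl A) p).pow_right _).eq.symm
  have h2 : inner ℂ y ((Pop A χ s * aeval A p) y) = 2 * inner ℂ x (Pop A χ s y) := by
    rw [hc, mulA, ← adj_one, hTy, inner_smul_left, map_ofNat]
  simp only [smul_apply, add_apply, inner_smul_right, inner_add_right] at h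
  rw [h2] at h
  exact h

/-- the polynomial is a power of a linear one, if the Moebius transform is extremal -/
theorem mob_form (A : H →L[ℂ] H) (p χ g k : ℂ[X]) (hχ0 : χ ≠ 0) (hχ : aeval A χ = 0) (a : ℂ) (ha : ‖a‖ < 1)
    (hg : g * (1 - C ((starRingEnd ℂ) a) * p) + k * χ = 1) (x y : H)
    (hy : ‖y‖ = 1) (hTx : aeval A ((p - C a) * g) x = (2 : ℂ) • y)
    (hTy : (star (aeval A ((p - C a) * g))) y = (2 : ℂ) • x) (hD : 1 ≤ p.natDegree)
    (hinf : {σ : ℂ | ‖p.eval σ‖ = 1 ∧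
      Psi A χ x y σ ((p.eval σ - a) / (1 - (starRingEnd ℂ) a * p.eval σ)) = 0}.Infinite) :
    ∃ b c : ℂ, c ≠ 0 ∧ p = C c * (X - C b) ^ p.natDegree := by
  have hd : 1 ≤ χ.natDegree := by
    by_contra hcon
    have h0 : χ.natDegree = 0 := by omega
    have h1 := Polynomial.eq_C_of_natDegree_eq_zero h0
    have h2 : χ.coeff 0 ≠ 0 := by
      intro h
      rw [h, C_0] at h1
      exact hχ0 h1
    rw [h1, aeval_C, Algebra.algebraMap_eq_smul_one] at hχ
    have h3 := congrArg (fun L : H →L[ℂ] H => L y) hχ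
    simp only [smul_apply, one_apply_eq_self, zero_apply] at h3
    rcases smul_eq_zero.mp h3 with h4 | h4
    · exact h2 h4
    · rw [h4, norm_zero] at hy
      exact zero_ne_one hy
  set w : ℂ[X] := C ((starRingEnd ℂ) a) * p with hw
  set h : ℂ[X] := p - C a with hh
  apply poly_of_infinite p
    ((1 - w) ^ 2 * Pl A χ y x - (1 - w) * h * Pl A χ x x + (1 - w) * h * Pl A χ y y - h ^ 2 * Pl A χ x y)
    ((1 - w) ^ 2 * Pl A χ y (A x) - (1 - w) * h * Pl A χ x (A x) + (1 - w) * h * Pl A χ y (A y) -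
      h ^ 2 * Pl A χ x (A y)) ?_ hD
  · refine hinf.mono ?_
    rintro σ ⟨h1, h2⟩
    refine ⟨h1, ?_⟩
    have hne : 1 - (starRingEnd ℂ) a * p.eval σ ≠ 0 := mob_ne ha (by rw [h1, mul_one]; exact ha)
    obtain ⟨ζ, hζ⟩ : ∃ ζ, ζ = (p.eval σ - a) / (1 - (starRingEnd ℂ) a * p.eval σ) := ⟨_, rfl⟩
    have hζ' : p.eval σ - a = ζ * (1 - (starRingEnd ℂ) a * p.eval σ) := by
      rw [hζ, div_mul_cancel₀ _ hne]
    rw [← hζ] at h2
    rw [Psi, star_def, sub_apply, smul_apply, one_apply_eq_self, inner_sub_left, inner_smul_left,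
      map_add, map_smul, inner_add_left, inner_add_left, inner_smul_left, inner_smul_left, conj_conj, map_sub,
      map_smul, inner_sub_right, inner_sub_right, inner_sub_right, inner_sub_right, inner_smul_right,
      inner_smul_right, inner_smul_right, inner_smul_right, sub_eq_zero] at h2
    rw [hh, hw]
    simp only [eval_sub, eval_add, eval_mul, eval_pow, eval_C, eval_one, Pl_eval]
    rw [hζ']
    linear_combination (1 - (starRingEnd ℂ) a * p.eval σ) ^ 2 * h2
  · rw [Pl_xx_yy A (h * g) χ hTx hTy]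
    intro h0
    have hp0 : p ≠ 0 := by
      rintro rfl
      simp at hD
    have hh0 : h ≠ 0 := by
      intro h1
      rw [hh] at h1
      have h2 : p = C a := sub_eq_zero.mp h1
      rw [h2, natDegree_C] at hD
      omega
    have hI1 := Pl_swap A (h * g) χ hχ hTx
    have hI2 := Pl_swap2 A (h * g) χ hχ hTy
    have h1 : (1 - w) ^ 2 * Pl A χ y x = h ^ 2 * Pl A χ x y := by linear_combination h0
    have h2 : g * (1 - w) = 1 - k * χ := by linear_combination hg
    have h3 : C (3 : ℂ) * Pl A χ y x = χ * (-(C 2 * Pl A (h * g) y y) - (h * g) * Pl A (h * g) x y -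
        (C 2 * k - k ^ 2 * χ) * Pl A χ y x) := by
      have e3 : (C (3 : ℂ) : ℂ[X]) = C 2 + 1 := by
        rw [← C_1, ← C_add]
        norm_num
      have e4 : (C (2 : ℂ) : ℂ[X]) = 1 + 1 := by
        rw [← C_1, ← C_add]
        norm_num
      rw [e3, e4]
      rw [e4] at hI1 hI2
      have h4 : (g * (1 - w)) ^ 2 * Pl A χ y x = (h * g) ^ 2 * Pl A χ x y := by
        linear_combination g ^ 2 * h1
      rw [h2] at h4
      linear_combination (-1 : ℂ[X]) * h4 - (h * g) * hI1 - (1 + 1) * hI2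
    have h5 : Pl A χ y x = 0 := by
      have h6 : χ ∣ C (3 : ℂ) * Pl A χ y x := ⟨_, h3⟩
      have h7 : (C (3 : ℂ) * Pl A χ y x).natDegree < χ.natDegree := by
        rw [natDegree_C_mul (by norm_num)]
        exact Pl_natDegree_lt A χ hd y x
      have h8 := eq_zero_of_dvd_of_natDegree_lt h6 h7
      exact (mul_eq_zero.mp h8).resolve_left (C_ne_zero.mpr (by norm_num))
    have h9 : Pl A χ x y = 0 := by
      rw [h5, mul_zero] at h1
      exact (mul_eq_zero.mp h1.symm).resolve_left (pow_ne_zero 2 hh0)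
    rw [h9, mul_zero] at hI1
    have h10 : Pl A χ y y = 0 := by
      have h6 : χ ∣ C (2 : ℂ) * Pl A χ y y := ⟨-Pl A (h * g) x y, by linear_combination -hI1⟩
      have h7 : (C (2 : ℂ) * Pl A χ y y).natDegree < χ.natDegree := by
        rw [natDegree_C_mul (by norm_num)]
        exact Pl_natDegree_lt A χ hd y y
      have h8 := eq_zero_of_dvd_of_natDegree_lt h6 h7
      exact (mul_eq_zero.mp h8).resolve_left (C_ne_zero.mpr (by norm_num))
    have h11 := Pl_coeff_top A χ hd y y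
    rw [h10, coeff_zero, inner_self_eq_norm_sq_to_K, hy] at h11
    have h12 : χ.leadingCoeff ≠ 0 := leadingCoeff_ne_zero.mpr hχ0
    apply h12
    simpa using h11.symm

end Pool.Agent.KS6_34.CE
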