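import Pool.Agent.KS6_34.CE.Mob
import Pool.Agent.KS6_34.CE.Berger
import Pool.Agent.KS6_34.CE.Full1

/-!
# Crouzeix equality: no extremal Moebius transforms
-/

set_option autoImplicit false
set_option linter.unusedSectionVars false

open Filter Topology Complex Set Polynomial

namespace Pool.Agent.KS6_34.CE

open Pool.Agent.W753.CZ (numRange crouzeix_bound numRange_norm numRange_nonempty)

variable {H : Type*} [NormedAddCommGroup H] [InnerProductSpace ℂ H] [CompleteSpace H]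

/-- the numerical radius of powers of a linear polynomial -/
theorem form_numRad (A : H →L[ℂ] H) (p : ℂ[X]) (b c : ℂ) (D : ℕ) (hD : 1 ≤ D) (hc : c ≠ 0)
    (hpc : p = C c * (X - C b) ^ D) (hp : ∀ w ∈ numRange A, ‖p.eval w‖ ≤ 1) (v : H) :
    ‖inner ℂ v ((aeval A p) v)‖ ≤ ‖v‖ ^ 2 := by
  have hcn : 0 < ‖c‖ := norm_pos_iff.mpr hc
  obtain ⟨ρ, hρ, hρD⟩ : ∃ ρ : ℝ, 0 < ρ ∧ ρ ^ D = ‖c‖⁻¹ := by
    refine ⟨(‖c‖⁻¹) ^ ((D : ℝ)⁻¹), Real.rpow_pos_of_pos (inv_pos.mpr hcn) _, ?_⟩
    exact Real.rpow_inv_natCast_pow (inv_nonneg.mpr hcn.le) (by omega)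
  have hcρ : ‖c‖ * ρ ^ D = 1 := by rw [hρD, mul_inv_cancel₀ hcn.ne']
  have hρc : (ρ : ℂ) ≠ 0 := by exact_mod_cast hρ.ne'
  have hev : ∀ w, p.eval w = c * (w - b) ^ D := by
    intro w
    conv_lhs => rw [hpc]
    simp
  have hball : ∀ w ∈ numRange A, ‖w - b‖ ≤ ρ := by
    intro w hw
    have h1 := hp w hw
    rw [hev, norm_mul, norm_pow, ← hcρ] at h1
    have h2 : ‖w - b‖ ^ D ≤ ρ ^ D := le_of_mul_le_mul_left h1 hcn
    exact (pow_le_pow_iff_left₀ (norm_nonneg _) hρ.le (by omega)).mp h2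
  set B : H →L[ℂ] H := (ρ : ℂ)⁻¹ • (A - b • (1 : H →L[ℂ] H)) with hB
  have hBA : A = b • (1 : H →L[ℂ] H) + (ρ : ℂ) • B := by
    rw [hB, smul_smul, mul_inv_cancel₀ hρc, one_smul]
    abel
  have hBw : ∀ w ∈ numRange B, ‖w‖ ≤ 1 := by
    rintro w ⟨u, hu, rfl⟩
    have h1 := hball (inner ℂ u (A u)) ⟨u, hu, rfl⟩
    have h2 : inner ℂ u (A u) - b = (ρ : ℂ) * inner ℂ u (B u) := by
      conv_lhs => rw [hBA]
      rw [add_apply, smul_apply, smul_apply, one_apply_eq_self, inner_add_right, inner_smul_right, inner_smul_right,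
        inner_self_eq_norm_sq_to_K, hu]
      simp
    rw [h2, norm_mul, Complex.norm_real, Real.norm_of_nonneg hρ.le] at h1
    have h3 : ρ * ‖inner ℂ u (B u)‖ ≤ ρ * 1 := by rw [mul_one]; exact h1
    exact le_of_mul_le_mul_left h3 hρ
  have hBr := numRad_le B hBw
  have hpA : aeval A p = (c * (ρ : ℂ) ^ D) • B ^ D := by
    conv_lhs => rw [hpc]
    rw [map_mul, map_pow, map_sub, aeval_X, aeval_C, aeval_C, Algebra.algebraMap_eq_smul_one,
      Algebra.algebraMap_eq_smul_one]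
    have h1 : A - b • (1 : H →L[ℂ] H) = (ρ : ℂ) • B := by
      rw [hB, smul_smul, mul_inv_cancel₀ hρc, one_smul]
    rw [h1, _root_.smul_pow, smul_one_mul, smul_smul]
  have hcρn : ‖c * (ρ : ℂ) ^ D‖ = 1 := by
    rw [norm_mul, norm_pow, Complex.norm_real, Real.norm_of_nonneg hρ.le, hcρ]
  rw [hpA, smul_apply, inner_smul_right, norm_mul, hcρn, one_mul]
  exact berger B hBr D hD v

theorem comm_one_sub (S T : H →L[ℂ] H) (c : ℂ) (h : S * T = T * S) :
    S * (1 - c • T) = (1 - c • T) * S := by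
  rw [sub_mul, mul_sub, one_mul, mul_one, smul_mul_assoc, mul_smul_comm, h]

/-- the extremal Moebius transform as a polynomial in `A` -/
theorem mob_setup [FiniteDimensional ℂ H] [Nontrivial H] (A : H →L[ℂ] H) (p : ℂ[X])
    (hp : ∀ w ∈ numRange A, ‖p.eval w‖ ≤ 1) (a : ℂ) (ha : ‖a‖ < 1) (x y z : H) (hx : ‖x‖ = 1) (hy : ‖y‖ = 1)
    (h1 : z - (starRingEnd ℂ) a • aeval A p z = x) (h2 : aeval A p z - a • z = (2 : ℂ) • y) :
    ∃ χ g k : ℂ[X], χ ≠ 0 ∧ aeval A χ = 0 ∧ (∀ b, χ.eval b = 0 → b ∈ spectrum ℂ A) ∧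
      g * (1 - C ((starRingEnd ℂ) a) * p) + k * χ = 1 ∧ aeval A ((p - C a) * g) x = (2 : ℂ) • y ∧
      (star (aeval A ((p - C a) * g))) y = (2 : ℂ) • x ∧
      (∀ u, star (aeval A p) u - (starRingEnd ℂ) a • u =
        star (aeval A ((p - C a) * g)) u - a • star (aeval A p) (star (aeval A ((p - C a) * g)) u)) := by
  obtain ⟨χ, hχ0, hχ, hroot⟩ := exists_chi A
  have hroot1 : ∀ b, χ.eval b = 0 → ‖p.eval b‖ ≤ 1 := by
    intro b hb
    obtain ⟨e, he0, he⟩ := exists_eig A b (hroot b hb)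
    exact hp b (eig_mem_numRange A b e he0 he)
  obtain ⟨g, k, hg⟩ := exists_bezout p χ a ha hroot1
  set T := aeval A p with hT
  have hgA : aeval A g * (1 - (starRingEnd ℂ) a • T) = 1 := by
    have h3 := congrArg (aeval A) hg
    rw [map_add, map_mul, map_mul, hχ, mul_zero, add_zero, map_sub, map_one, map_mul, aeval_C,
      Algebra.algebraMap_eq_smul_one, smul_one_mul] at h3
    exact h3
  have hcm : aeval A g * T = T * aeval A g := by
    rw [hT, ← map_mul, ← map_mul, mul_comm]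
  have hgA' : (1 - (starRingEnd ℂ) a • T) * aeval A g = 1 := by
    rw [← comm_one_sub _ _ _ hcm, hgA]
  have hT0 : aeval A ((p - C a) * g) = (T - a • (1 : H →L[ℂ] H)) * aeval A g := by
    rw [map_mul, map_sub, aeval_C, Algebra.algebraMap_eq_smul_one]
  have hgx : aeval A g x = z := by
    have h3 : x = (1 - (starRingEnd ℂ) a • T) z := by
      rw [sub_apply, one_apply_eq_self, smul_apply, h1]
    rw [h3, ← mulA, hgA, one_apply_eq_self]
  have hT0x : aeval A ((p - C a) * g) x = (2 : ℂ) • y := by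
    rw [hT0, mulA, hgx, sub_apply, smul_apply, one_apply_eq_self, h2]
  -- the norm
  obtain ⟨U, -, hUW, -, P, hPT, hPf⟩ := mob_approx A p χ g k hχ a ha hp hg
  have hnorm : ‖aeval A ((p - C a) * g)‖ ≤ 2 := by
    refine le_of_forall_pos_le_add fun ε hε => ?_
    obtain ⟨n, hn⟩ := exists_nat_gt (2 / ε)
    have h3 := crouzeix_bound A (P n) (1 + 1 / ((n : ℝ) + 1)) (by
      intro w hw
      have h4 := hPf n w (hUW (subset_closure hw))
      have h5 := mob_le ha (hp w hw)
      calc ‖(P n).eval w‖ = ‖((P n).eval w - (p.eval w - a) / (1 - (starRingEnd ℂ) a * p.eval w)) +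
            (p.eval w - a) / (1 - (starRingEnd ℂ) a * p.eval w)‖ := by congr 1; ring
        _ ≤ _ := norm_add_le _ _
        _ ≤ _ := by linarith)
    rw [hPT n] at h3
    have h4 : 2 * (1 / ((n : ℝ) + 1)) ≤ ε := by
      have h5 : (0 : ℝ) < (n : ℝ) + 1 := by positivity
      rw [mul_one_div, div_le_iff₀ h5]
      rw [div_lt_iff₀ hε] at hn
      nlinarith
    linarith
  have hT0y : (star (aeval A ((p - C a) * g))) y = (2 : ℂ) • x := by
    have h3 := adj_attain (aeval A ((p - C a) * g)) 2 hnorm x y hx hy (by rw [hT0x]; norm_num)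
    rw [h3]
    norm_num
  refine ⟨χ, g, k, hχ0, hχ, hroot, hg, hT0x, hT0y, ?_⟩
  intro u
  have h3 : (1 - (starRingEnd ℂ) a • T) * aeval A ((p - C a) * g) = T - a • (1 : H →L[ℂ] H) := by
    have h4 : (T - a • (1 : H →L[ℂ] H)) * aeval A g = aeval A g * (T - a • (1 : H →L[ℂ] H)) := by
      rw [sub_mul, mul_sub, hcm, smul_one_mul, mul_smul_one]
    rw [hT0, h4, ← mul_assoc, hgA', one_mul]
  have h4 : aeval A ((p - C a) * g) * (1 - (starRingEnd ℂ) a • T) = T - a • (1 : H →L[ℂ] H) := by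
    have h5 : aeval A ((p - C a) * g) * T = T * aeval A ((p - C a) * g) := by
      rw [hT, ← map_mul, ← map_mul, mul_comm]
    rw [← h3, comm_one_sub _ _ _ h5]
  have h5 : star (T - a • (1 : H →L[ℂ] H)) = star T - (starRingEnd ℂ) a • (1 : H →L[ℂ] H) := by
    rw [star_sub, star_smul, star_one]
    rfl
  have h6 : star ((1 : H →L[ℂ] H) - (starRingEnd ℂ) a • T) = 1 - a • star T := by
    rw [star_sub, star_smul, star_one]
    congr 2
    exact Complex.conj_conj a
  have h7 := congrArg star h4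
  rw [star_mul, h5, h6] at h7
  have h8 := congrArg (fun L : H →L[ℂ] H => L u) h7
  simp only [mulA, sub_apply, one_apply_eq_self, smul_apply] at h8
  exact h8.symm

/-- no extremal Moebius transforms, for operators without extremal eigenvalues -/
theorem mob_zero_A [FiniteDimensional ℂ H] [Nontrivial H] (A : H →L[ℂ] H) (p : ℂ[X]) (hdeg : 1 ≤ p.natDegree)
    (hp : ∀ w ∈ numRange A, ‖p.eval w‖ ≤ 1) (hspec : ∀ b ∈ spectrum ℂ A, ‖p.eval b‖ < 1)
    (a : ℂ) (ha : ‖a‖ < 1) (x y z : H) (hx : ‖x‖ = 1) (hy : ‖y‖ = 1)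
    (h1 : z - (starRingEnd ℂ) a • aeval A p z = x) (h2 : aeval A p z - a • z = (2 : ℂ) • y) : a = 0 := by
  obtain ⟨χ, g, k, hχ0, hχ, hroot, hg, hTx, hTy, hrel⟩ := mob_setup A p hp a ha x y z hx hy h1 h2
  obtain ⟨U, hUo, hUW, hfc, P, hPT, hPf⟩ := mob_approx A p χ g k hχ a ha hp hg
  set T0 := aeval A ((p - C a) * g) with hT0
  have hchi0 : ∀ b ∈ spectrum ℂ A, χ.eval b = 0 := by
    intro b hb
    obtain ⟨e, he0, he⟩ := exists_eig A b hb
    have h3 := aeval_eig A χ b e he
    rw [hχ, zero_apply] at h3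
    exact (smul_eq_zero.mp h3.symm).resolve_right he0
  have hTspec : ∀ t ∈ spectrum ℂ T0, ‖t‖ < 1 := by
    intro t ht
    rw [hT0, spectrum.map_polynomial_aeval_of_nonempty A _ (spectrum.nonempty A)] at ht
    obtain ⟨b, hb, rfl⟩ := ht
    have h3 := congrArg (fun P : ℂ[X] => P.eval b) hg
    simp only [eval_add, eval_mul, eval_sub, eval_one, eval_C, hchi0 b hb, mul_zero, add_zero] at h3
    have hlt := hspec b hb
    have hne : 1 - (starRingEnd ℂ) a * p.eval b ≠ 0 :=
      mob_ne ha (by nlinarith [norm_nonneg a, norm_nonneg (p.eval b)])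
    have h4 : g.eval b = (1 - (starRingEnd ℂ) a * p.eval b)⁻¹ := eq_inv_of_mul_eq_one_left h3
    have h5 : ((p - C a) * g).eval b = (p.eval b - a) / (1 - (starRingEnd ℂ) a * p.eval b) := by
      rw [eval_mul, eval_sub, eval_C, h4, div_eq_mul_inv]
    have h6 := mob_lt ha hlt
    rw [← h5] at h6
    exact h6
  have hlim : Tendsto (fun k => ‖((star T0) ^ k) x‖) atTop (𝓝 0) :=
    squeeze_zero (fun k => norm_nonneg _) (fun k => star_pow_le T0 x hx k) (pow_tendsto T0 hTspec)
  have hpcl : ∀ w ∈ closure (numRange A), ‖p.eval w‖ ≤ 1 := by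
    have h3 : closure (numRange A) ⊆ {z : ℂ | ‖p.eval z‖ ≤ 1} :=
      closure_minimal hp (isClosed_le (by fun_prop) continuous_const)
    exact fun w hw => h3 hw
  obtain ⟨hx0, hxy, hinf⟩ := contact_infinite2 A T0 χ
    (fun s => (p.eval s - a) / (1 - (starRingEnd ℂ) a * p.eval s)) U hUo hUW hfc
    (fun w hw => mob_le ha (hp w hw)) P hPT hPf x y hx hy hTx hTy hlim hχ
    (fun b _ hb => mob_lt ha (hspec b (hroot b hb)))
  have hinf' : {σ : ℂ | ‖p.eval σ‖ = 1 ∧
      Psi A χ x y σ ((p.eval σ - a) / (1 - (starRingEnd ℂ) a * p.eval σ)) = 0}.Infinite := by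
    refine hinf.mono ?_
    rintro σ ⟨h3, h4, h5⟩
    exact ⟨mob_eq ha (hpcl σ h3) h4, h5⟩
  obtain ⟨b, c, hc, hpc⟩ := mob_form A p χ g k hχ0 hχ a ha hg x y hy hTx hTy hdeg hinf'
  have hnum := form_numRad A p b c p.natDegree hdeg hc hpc hp
  -- the two-dimensional compression
  set T := aeval A p with hT
  have hTsx : star T x = (starRingEnd ℂ) a • x := by
    have h3 := hrel x
    rw [hx0, map_zero, smul_zero, sub_zero] at h3
    exact sub_eq_zero.mp h3
  have hTsy : star T y = (starRingEnd ℂ) a • y + ((2 * (1 - ‖a‖ ^ 2) : ℝ) : ℂ) • x := by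
    have h3 := hrel y
    rw [hTy, map_smul, hTsx, smul_smul, smul_smul, ← sub_smul] at h3
    have h4 : (2 : ℂ) - a * 2 * (starRingEnd ℂ) a = ((2 * (1 - ‖a‖ ^ 2) : ℝ) : ℂ) := by
      have h5 : a * (starRingEnd ℂ) a = ((‖a‖ ^ 2 : ℝ) : ℂ) := by
        rw [Complex.mul_conj, Complex.normSq_eq_norm_sq]
      push_cast at h5 ⊢
      linear_combination (-2 : ℂ) * h5
    rw [← h4]
    rw [← h3]
    abel
  by_contra ha0
  have han : 0 < ‖a‖ := norm_pos_iff.mpr ha0
  have hanc : (‖a‖ : ℂ) ≠ 0 := by exact_mod_cast han.ne'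
  set e : ℂ := (starRingEnd ℂ) a / (‖a‖ : ℂ) with he
  have hen : ‖e‖ = 1 := by
    rw [he, norm_div, RCLike.norm_conj, Complex.norm_real, norm_norm, div_self han.ne']
  have hee : (starRingEnd ℂ) e * e = 1 := by
    rw [Complex.conj_mul', hen]
    norm_num
  have hce : (starRingEnd ℂ) e = a / (‖a‖ : ℂ) := by
    rw [he, map_div₀, Complex.conj_conj, Complex.conj_ofReal]
  have hxx : inner ℂ x x = (1 : ℂ) := by
    rw [inner_self_eq_norm_sq_to_K, hx]
    norm_num
  have hyy : inner ℂ y y = (1 : ℂ) := by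
    rw [inner_self_eq_norm_sq_to_K, hy]
    norm_num
  have hyx : inner ℂ y x = (0 : ℂ) := by rw [← inner_conj_symm, hxy, map_zero]
  have hv2 : ‖x + e • y‖ ^ 2 = 2 := by
    have h3 : ((‖x + e • y‖ ^ 2 : ℝ) : ℂ) = 2 := by
      have h4 : inner ℂ (x + e • y) (x + e • y) = (2 : ℂ) := by
        rw [inner_add_left, inner_add_right, inner_add_right, inner_smul_left, inner_smul_left, inner_smul_right,
          inner_smul_right, hxx, hyy, hxy, hyx]
        linear_combination hee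
      rw [← h4, inner_self_eq_norm_sq_to_K]
      push_cast
      rfl
    exact_mod_cast h3
  have hval : inner ℂ (x + e • y) (T (x + e • y)) = 2 * ((starRingEnd ℂ) e * ((‖a‖ + (1 - ‖a‖ ^ 2) : ℝ) : ℂ)) := by
    rw [← adj_one, map_add, map_smul, hTsx, hTsy]
    simp only [inner_add_left, inner_add_right, inner_smul_left, inner_smul_right, hxx, hyy, hxy, hyx, smul_add,
      mul_zero, mul_one, zero_add, add_zero, Complex.conj_conj, Complex.conj_ofReal]
    have h3 : a = (starRingEnd ℂ) e * (‖a‖ : ℂ) := by rw [hce, div_mul_cancel₀ _ hanc]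
    push_cast
    linear_combination a * hee + 2 * h3
  have h3 := hnum (x + e • y)
  rw [hval, hv2, norm_mul, norm_mul, RCLike.norm_conj, hen, one_mul, Complex.norm_real,
    Real.norm_of_nonneg (by nlinarith)] at h3
  have h4 : ‖(2 : ℂ)‖ = 2 := by norm_num
  rw [h4] at h3
  nlinarith

/-- **no extremal Moebius transforms** -/
theorem mob_zero [FiniteDimensional ℂ H] [Nontrivial H] (A : H →L[ℂ] H) (p : ℂ[X]) (hdeg : 1 ≤ p.natDegree)
    (hp : ∀ w ∈ numRange A, ‖p.eval w‖ ≤ 1)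
    (a : ℂ) (ha : ‖a‖ < 1) (x y z : H) (hx : ‖x‖ = 1) (hy : ‖y‖ = 1)
    (h1 : z - (starRingEnd ℂ) a • aeval A p z = x) (h2 : aeval A p z - a • z = (2 : ℂ) • y) : a = 0 := by
  obtain ⟨χ, g, k, hχ0, hχ, hroot, hg, hTx, hTy, hrel⟩ := mob_setup A p hp a ha x y z hx hy h1 h2
  -- the extremal eigenvectors
  set E : Set H := {e : H | ∃ b : ℂ, A e = b • e ∧ ‖p.eval b‖ = 1} with hE
  set K : Submodule ℂ H := (Submodule.span ℂ E)ᗮ with hKd
  have hKmem : ∀ u, u ∈ K ↔ ∀ e ∈ E, inner ℂ e u = 0 := by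
    intro u
    rw [hKd, Submodule.mem_orthogonal]
    constructor
    · intro h e he
      exact h e (Submodule.subset_span he)
    · intro h v hv
      induction hv using Submodule.span_induction with
      | mem v hv => exact h v hv
      | zero => exact inner_zero_left _
      | add v w _ _ h1 h2 => rw [inner_add_left, h1, h2, add_zero]
      | smul c v _ h1 => rw [inner_smul_left, h1, mul_zero]
  have hK : ∀ u ∈ K, A u ∈ K := by
    intro u hu
    rw [hKmem] at hu ⊢
    rintro e ⟨b, he, hb⟩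
    have h1 := bd_eig A p hdeg hp b hb e he
    rw [← adj_one, h1, inner_smul_left, hu e ⟨b, he, hb⟩, mul_zero]
  have hzK : z ∈ K := by
    rw [hKmem]
    rintro e ⟨b, he, hb⟩
    have h3 := bd_eig A p hdeg hp b hb e he
    have h4 := aeval_eig A p b e he
    have h5 := star_aeval_eig A p b e h3
    have hne : 1 - (starRingEnd ℂ) a * p.eval b ≠ 0 := mob_ne ha (by rw [hb, mul_one]; exact ha)
    have hTz : inner ℂ e (aeval A p z) = p.eval b * inner ℂ e z := by
      rw [← adj_one, h5, inner_smul_left, Complex.conj_conj]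
    have hex : inner ℂ e x = (1 - (starRingEnd ℂ) a * p.eval b) * inner ℂ e z := by
      rw [← h1, inner_sub_right, inner_smul_right, hTz]
      ring
    have hey : 2 * inner ℂ e y = (p.eval b - a) * inner ℂ e z := by
      rw [← inner_smul_right, ← h2, inner_sub_right, inner_smul_right, hTz]
      ring
    have hTs : ∀ u, inner ℂ e (star (aeval A p) u) = (starRingEnd ℂ) (p.eval b) * inner ℂ e u := by
      intro u
      rw [ContinuousLinearMap.star_eq_adjoint, ContinuousLinearMap.adjoint_inner_right, h4, inner_smul_left]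
    have h6 := congrArg (fun u => inner ℂ e u) (hrel y)
    simp only [inner_sub_right, inner_smul_right, hTs, hTy] at h6
    -- the moduli
    have h7 := mob_id a (p.eval b)
    rw [hb, one_pow, sub_self, mul_zero] at h7
    have h8 : (1 - (starRingEnd ℂ) a * p.eval b) * (starRingEnd ℂ) (1 - (starRingEnd ℂ) a * p.eval b) =
        (p.eval b - a) * (starRingEnd ℂ) (p.eval b - a) := by
      rw [Complex.mul_conj, Complex.mul_conj, Complex.normSq_eq_norm_sq, Complex.normSq_eq_norm_sq]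
      congr 1
      linarith
    have h9 : (3 : ℂ) * ((1 - (starRingEnd ℂ) a * p.eval b) *
        (starRingEnd ℂ) (1 - (starRingEnd ℂ) a * p.eval b)) * inner ℂ e z = 0 := by
      simp only [map_sub, map_mul, map_one, Complex.conj_conj] at h8 ⊢
      linear_combination (-2 : ℂ) * h6 + ((starRingEnd ℂ) (p.eval b) - (starRingEnd ℂ) a) * hey -
        4 * (1 - a * (starRingEnd ℂ) (p.eval b)) * hex - inner ℂ e z * h8
    have h10 : (1 - (starRingEnd ℂ) a * p.eval b) * (starRingEnd ℂ) (1 - (starRingEnd ℂ) a * p.eval b) ≠ 0 := by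
      apply mul_ne_zero hne
      rw [_root_.map_ne_zero]
      exact hne
    have h11 : (3 : ℂ) * ((1 - (starRingEnd ℂ) a * p.eval b) *
        (starRingEnd ℂ) (1 - (starRingEnd ℂ) a * p.eval b)) ≠ 0 := mul_ne_zero (by norm_num) h10
    exact (mul_eq_zero.mp h9).resolve_left h11
  have hTK : aeval A p z ∈ K := by
    have h3 : aeval A p z = ((aeval (rst A K hK) p ⟨z, hzK⟩ : K) : H) := (rst_aeval A K hK p ⟨z, hzK⟩).symm
    rw [h3]
    exact Subtype.mem _
  have hxK : x ∈ K := by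
    rw [← h1]
    exact K.sub_mem hzK (K.smul_mem _ hTK)
  have hyK : y ∈ K := by
    have h3 : y = (2 : ℂ)⁻¹ • (aeval A p z - a • z) := by
      rw [h2, smul_smul]
      norm_num
    rw [h3]
    exact K.smul_mem _ (K.sub_mem hTK (K.smul_mem _ hzK))
  have : CompleteSpace K := FiniteDimensional.complete ℂ K
  have : Nontrivial K := by
    refine ⟨⟨⟨x, hxK⟩, 0, ?_⟩⟩
    intro h
    have h1 : x = 0 := congrArg Subtype.val h
    rw [h1, norm_zero] at hx
    exact zero_ne_one hx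
  set AK := rst A K hK with hAK
  have hpK : ∀ w ∈ numRange AK, ‖p.eval w‖ ≤ 1 := fun w hw => hp w (rst_numRange A K hK hw)
  have hspec : ∀ b ∈ spectrum ℂ AK, ‖p.eval b‖ < 1 := by
    intro b hb
    obtain ⟨e, he0, he⟩ := exists_eig AK b hb
    refine lt_of_le_of_ne (hpK b (eig_mem_numRange AK b e he0 he)) ?_
    intro h3
    have h4 : (e : H) ∈ E := ⟨b, by
      have := congrArg (Subtype.val) he
      exact this, h3⟩
    have h5 := (hKmem (e : H)).mp e.2 e h4
    rw [inner_self_eq_zero] at h5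
    exact he0 (Subtype.ext h5)
  refine mob_zero_A AK p hdeg hpK hspec a ha ⟨x, hxK⟩ ⟨y, hyK⟩ ⟨z, hzK⟩ hx hy ?_ ?_
  · apply Subtype.ext
    rw [Submodule.coe_sub, Submodule.coe_smul, hAK, rst_aeval]
    exact h1
  · apply Subtype.ext
    rw [Submodule.coe_sub, Submodule.coe_smul, hAK, rst_aeval]
    exact h2

end Pool.Agent.KS6_34.CE
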