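import Pool.Agent.KS6_34.CE.Res

/-!
# Crouzeix equality: a convex curve spends little length near a point
-/

set_option autoImplicit false
set_option linter.unusedSectionVars false

open MeasureTheory Set Filter Topology Complex Polynomial

namespace Pool.Agent.KS6_34.CE

variable {H : Type*} [NormedAddCommGroup H] [InnerProductSpace ℂ H] [CompleteSpace H]

namespace CD

variable {A : H →L[ℂ] H} {p : ℂ[X]} {M R : ℝ} (C : CD A p M R)

theorem quarter (σ : ℂ) (η : ℝ) (hη : 0 < η) (a : ℝ) :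
    ∫ φ in a..(a + Real.pi / 2), C.ρ φ * (η ^ 2 / (η ^ 2 + ‖C.s φ - σ‖ ^ 2)) ≤ √2 * η * Real.pi := by
  have hpi := Real.pi_pos
  set d : ℂ := exp (-((a + Real.pi / 4 : ℝ) : ℂ) * I) with hd
  set t : ℝ → ℝ := fun φ => (-I * d * (C.s φ - σ)).re with ht
  have hdn : ‖-I * d‖ = 1 := by
    rw [norm_mul, norm_neg, norm_I, one_mul, hd]
    have : (-((a + Real.pi / 4 : ℝ) : ℂ) * I) = ((-(a + Real.pi / 4) : ℝ) : ℂ) * I := by push_cast; ring
    rw [this, Complex.norm_exp_ofReal_mul_I]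
  have htd : ∀ φ, HasDerivAt t (C.ρ φ * Real.cos (φ - (a + Real.pi / 4))) φ := by
    intro φ
    have h1 := ((C.s_deriv φ).sub_const σ).const_mul (-I * d)
    have h2 : HasDerivAt (fun φ : ℝ => (-I * d * (C.s φ - σ)).re)
        ((-I * d * (I * exp (φ * I) * (C.ρ φ : ℂ))).re) φ := by
      have := (Complex.reCLM.hasFDerivAt.comp_hasDerivAt φ h1)
      exact this
    refine h2.congr_deriv ?_
    have h3 : -I * d * (I * exp (φ * I) * (C.ρ φ : ℂ)) =
        (C.ρ φ : ℂ) * exp (((φ - (a + Real.pi / 4) : ℝ) : ℂ) * I) := by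
      rw [hd]
      have h4 : exp (-((a + Real.pi / 4 : ℝ) : ℂ) * I) * exp (φ * I) =
          exp (((φ - (a + Real.pi / 4) : ℝ) : ℂ) * I) := by
        rw [← Complex.exp_add]
        congr 1
        push_cast
        ring
      calc -I * exp (-((a + Real.pi / 4 : ℝ) : ℂ) * I) * (I * exp (φ * I) * (C.ρ φ : ℂ)) =
          (-(I * I)) * ((C.ρ φ : ℂ) * (exp (-((a + Real.pi / 4 : ℝ) : ℂ) * I) * exp (φ * I))) := by ring
        _ = _ := by rw [h4, I_mul_I]; ring
    rw [h3, re_ofReal_mul, Complex.exp_ofReal_mul_I_re]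
  have hts : ∀ φ, t φ ^ 2 ≤ ‖C.s φ - σ‖ ^ 2 := by
    intro φ
    have h1 : |t φ| ≤ ‖C.s φ - σ‖ := by
      refine (Complex.abs_re_le_norm _).trans ?_
      rw [norm_mul, hdn, one_mul]
    calc t φ ^ 2 = |t φ| ^ 2 := (sq_abs _).symm
      _ ≤ _ := pow_le_pow_left₀ (abs_nonneg _) h1 2
  have hρc := C.ρ_cont
  have hsc := C.s_cont
  have htc : Continuous t := continuous_iff_continuousAt.mpr fun φ => (htd φ).continuousAt
  have hcosc : Continuous (fun φ : ℝ => Real.cos (φ - (a + Real.pi / 4))) := by fun_prop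
  set g : ℝ → ℝ := fun φ => √2 * η * ((1 / (1 + (t φ / η) ^ 2)) * ((C.ρ φ * Real.cos (φ - (a + Real.pi / 4))) / η))
    with hg
  have hgc : Continuous g := by
    rw [hg]
    have h1 : Continuous (fun φ => 1 + (t φ / η) ^ 2) := by fun_prop
    have h2 : ∀ φ, 1 + (t φ / η) ^ 2 ≠ 0 := fun φ => by positivity
    have h3 : Continuous (fun φ => 1 / (1 + (t φ / η) ^ 2)) := continuous_const.div h1 h2
    fun_prop
  have hu : ∀ φ ∈ uIcc a (a + Real.pi / 2), HasDerivAt (fun φ => √2 * η * Real.arctan (t φ / η)) (g φ) φ := by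
    intro φ _
    have h1 := ((htd φ).div_const η).arctan
    exact h1.const_mul (√2 * η)
  have hI := intervalIntegral.integral_eq_sub_of_hasDerivAt hu (hgc.intervalIntegrable _ _)
  have hle : ∫ φ in a..(a + Real.pi / 2), C.ρ φ * (η ^ 2 / (η ^ 2 + ‖C.s φ - σ‖ ^ 2)) ≤
      ∫ φ in a..(a + Real.pi / 2), g φ := by
    apply intervalIntegral.integral_mono_on (by linarith)
    · apply Continuous.intervalIntegrable
      have h1 : Continuous (fun φ => η ^ 2 + ‖C.s φ - σ‖ ^ 2) := by fun_prop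
      have h2 : ∀ φ, η ^ 2 + ‖C.s φ - σ‖ ^ 2 ≠ 0 := fun φ => by positivity
      have h3 : Continuous (fun φ => η ^ 2 / (η ^ 2 + ‖C.s φ - σ‖ ^ 2)) := continuous_const.div h1 h2
      fun_prop
    · exact hgc.intervalIntegrable _ _
    · intro φ hφ
      have hρ0 := C.ρ_nonneg φ
      have hcos : √2 / 2 ≤ Real.cos (φ - (a + Real.pi / 4)) := by
        rw [← Real.cos_pi_div_four, ← Real.cos_abs (φ - (a + Real.pi / 4))]
        apply Real.cos_le_cos_of_nonneg_of_le_pi (abs_nonneg _) (by linarith)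
        rw [abs_le]
        constructor
        · linarith [hφ.1]
        · linarith [hφ.2]
      have h1 : η ^ 2 / (η ^ 2 + ‖C.s φ - σ‖ ^ 2) ≤ η ^ 2 / (η ^ 2 + t φ ^ 2) := by
        apply div_le_div_of_nonneg_left (by positivity) (by positivity)
        linarith [hts φ]
      have h2 : 1 ≤ √2 * Real.cos (φ - (a + Real.pi / 4)) := by
        have h3 : √2 * (√2 / 2) = 1 := by
          have := Real.mul_self_sqrt (show (0 : ℝ) ≤ 2 by norm_num)
          linarith
        calc (1 : ℝ) = √2 * (√2 / 2) := h3.symm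
          _ ≤ _ := by gcongr
      have h4 : g φ = (√2 * Real.cos (φ - (a + Real.pi / 4))) * (C.ρ φ * (η ^ 2 / (η ^ 2 + t φ ^ 2))) := by
        rw [hg]
        simp only
        have : (1 + (t φ / η) ^ 2) ≠ 0 := by positivity
        field_simp
      rw [h4]
      calc C.ρ φ * (η ^ 2 / (η ^ 2 + ‖C.s φ - σ‖ ^ 2)) ≤ C.ρ φ * (η ^ 2 / (η ^ 2 + t φ ^ 2)) := by gcongr
        _ = 1 * (C.ρ φ * (η ^ 2 / (η ^ 2 + t φ ^ 2))) := (one_mul _).symm
        _ ≤ _ := by gcongr
  refine hle.trans ?_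
  rw [hI]
  have h1 := Real.arctan_lt_pi_div_two (t (a + Real.pi / 2) / η)
  have h2 := Real.neg_pi_div_two_lt_arctan (t a / η)
  have h3 : 0 < √2 * η := by positivity
  nlinarith

theorem arc_int (σ : ℂ) (η : ℝ) (hη : 0 < η) :
    ∫ φ in (0 : ℝ)..(2 * Real.pi), C.ρ φ * (η ^ 2 / (η ^ 2 + ‖C.s φ - σ‖ ^ 2)) ≤ 4 * (√2 * η * Real.pi) := by
  have hρc := C.ρ_cont
  have hsc := C.s_cont
  have hc : Continuous (fun φ => C.ρ φ * (η ^ 2 / (η ^ 2 + ‖C.s φ - σ‖ ^ 2))) := by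
    have h1 : Continuous (fun φ => η ^ 2 + ‖C.s φ - σ‖ ^ 2) := by fun_prop
    have h2 : ∀ φ, η ^ 2 + ‖C.s φ - σ‖ ^ 2 ≠ 0 := fun φ => by positivity
    have h3 : Continuous (fun φ => η ^ 2 / (η ^ 2 + ‖C.s φ - σ‖ ^ 2)) := continuous_const.div h1 h2
    fun_prop
  have hi : ∀ a b : ℝ, IntervalIntegrable (fun φ => C.ρ φ * (η ^ 2 / (η ^ 2 + ‖C.s φ - σ‖ ^ 2))) volume a b :=
    fun a b => hc.intervalIntegrable _ _
  have q0 := C.quarter σ η hη 0
  have q1 := C.quarter σ η hη (0 + Real.pi / 2)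
  have q2 := C.quarter σ η hη (0 + Real.pi / 2 + Real.pi / 2)
  have q3 := C.quarter σ η hη (0 + Real.pi / 2 + Real.pi / 2 + Real.pi / 2)
  have e1 := intervalIntegral.integral_add_adjacent_intervals (hi 0 (0 + Real.pi / 2))
    (hi (0 + Real.pi / 2) (0 + Real.pi / 2 + Real.pi / 2))
  have e2 := intervalIntegral.integral_add_adjacent_intervals (hi 0 (0 + Real.pi / 2 + Real.pi / 2))
    (hi (0 + Real.pi / 2 + Real.pi / 2) (0 + Real.pi / 2 + Real.pi / 2 + Real.pi / 2))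
  have e3 := intervalIntegral.integral_add_adjacent_intervals
    (hi 0 (0 + Real.pi / 2 + Real.pi / 2 + Real.pi / 2))
    (hi (0 + Real.pi / 2 + Real.pi / 2 + Real.pi / 2)
      (0 + Real.pi / 2 + Real.pi / 2 + Real.pi / 2 + Real.pi / 2))
  have e4 : 0 + Real.pi / 2 + Real.pi / 2 + Real.pi / 2 + Real.pi / 2 = 2 * Real.pi := by ring
  rw [← e4]
  linarith

end CD

end Pool.Agent.KS6_34.CE
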