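import Pool.Agent.KS6_34.CE.Full1
import Pool.Graph.R_pool_sql_team_seeded_64922ed1.X24.QN.C

/-!
# Equality for the scaled `q`-numerical range, `|q| < 1`
-/

set_option autoImplicit false
set_option linter.unusedSectionVars false

open Filter Topology Complex Set Polynomial

namespace Pool.Agent.KS6_34.CE

open Pool.Agent.W753.CZ (numRange crouzeix_bound)
open Pool.Agent.X24.QN (Om Sr Sr_apply Sr_self Sr_mul Sr_symm Sr_norm sim_le aeval_sim disc_le perturb pert_poly
  inner_self_one)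

variable {H : Type*} [NormedAddCommGroup H] [InnerProductSpace ℂ H] [CompleteSpace H]

/-- orthogonality of the extremal pair -/
theorem q_orth {q : ℂ} (A : H →L[ℂ] H) (p : ℂ[X]) (hM : ∀ z ∈ Om q A, ‖p.eval z‖ ≤ 1) {κ : ℝ} (hκ : 1 < κ)
    (hn : ‖aeval A p‖ = κ) (hle : ∀ P : ℂ[X], (∀ z ∈ Om q A, ‖P.eval z‖ ≤ 1) → ‖aeval A P‖ ≤ κ) {x y : H}
    (hx : ‖x‖ = 1) (hy : ‖y‖ = 1) (hTx : aeval A p x = (κ : ℂ) • y) : inner ℂ y x = (0 : ℂ) := by
  rw [← hn] at hTx
  have hpos : 0 < ‖aeval A p‖ := by rw [hn]; linarith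
  set b : ℝ := ‖(inner ℂ y x : ℂ)‖ with hb
  have hb0 : 0 ≤ b := norm_nonneg _
  have key : ∀ t : ℝ, 0 < t → (κ ^ 2 - 1) * b ≤ 2 * κ * t := by
    intro t ht
    obtain ⟨a, ha, h1⟩ := perturb (aeval A p) hx hy hTx hpos ht.le
    have h2 := pert_poly A p hM hle (s := t ^ 2) (by positivity) (a := a) (by rw [Real.sqrt_sq ht.le]; exact ha)
    rw [hn] at h1
    have h3 := h1.trans h2
    have h4 : (κ ^ 2 - 1) * t * b ≤ 2 * t ^ 2 * κ := by linarith
    have h5 : t * ((κ ^ 2 - 1) * b) ≤ t * (2 * κ * t) := by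
      calc t * ((κ ^ 2 - 1) * b) = (κ ^ 2 - 1) * t * b := by ring
        _ ≤ 2 * t ^ 2 * κ := h4
        _ = t * (2 * κ * t) := by ring
    exact le_of_mul_le_mul_left h5 ht
  have h0 : (κ ^ 2 - 1) * b ≤ 0 := by
    have hlim : Tendsto (fun t : ℝ => 2 * κ * t) (𝓝[>] 0) (𝓝 (2 * κ * 0)) :=
      ((continuous_const.mul continuous_id).tendsto (0 : ℝ)).mono_left nhdsWithin_le_nhds
    rw [mul_zero] at hlim
    apply ge_of_tendsto hlim
    filter_upwards [self_mem_nhdsWithin] with t ht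
    exact key t ht
  have h1 : 0 < κ ^ 2 - 1 := by nlinarith
  have h2 : b ≤ 0 := by
    by_contra hcon
    push Not at hcon
    have := mul_pos h1 hcon
    linarith
  exact norm_le_zero_iff.mp h2

/-- the strict form of the inclusion of the numerical range of the similar operator -/
theorem sim_strict {q : ℂ} (hq0 : q ≠ 0) (A : H →L[ℂ] H) {r : ℝ} (hr : 0 < r) (hr1 : r ^ 2 ≠ r⁻¹ ^ 2)
    (hrq : r ^ 2 + r⁻¹ ^ 2 = 2 / ‖q‖) {e : H} (he : ‖e‖ = 1) {v : H} (hv : ‖v‖ = 1)
    (hδ : ‖(inner ℂ e v : ℂ)‖ ^ 2 ≠ 1 / 2) (hq1 : ‖q‖ ≤ 1) :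
    ∃ (x : H) (k : ℂ), ‖x‖ = 1 ∧ k ≠ 0 ∧ Sr r e x = k • v ∧
      (‖(inner ℂ v ((Sr r e * A * Sr r⁻¹ e) v) : ℂ) - inner ℂ x (A x)‖ <
        √(1 - ‖q‖ ^ 2) / ‖q‖ * ‖A x - (inner ℂ x (A x) : ℂ) • x‖ ∨
      (A x = (inner ℂ x (A x) : ℂ) • x ∧ (inner ℂ v ((Sr r e * A * Sr r⁻¹ e) v) : ℂ) = inner ℂ x (A x))) := by
  have hqn : 0 < ‖q‖ := norm_pos_iff.mpr hq0
  have hrr : Sr r e * Sr r⁻¹ e = 1 := Sr_mul hr.ne' he
  set x0 : H := Sr r⁻¹ e v with hx0
  have hS : Sr r e x0 = v := by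
    have := congrArg (fun L : H →L[ℂ] H => L v) hrr
    exact this
  have hx0n : ‖x0‖ ≠ 0 := by
    intro h
    have h1 : x0 = 0 := norm_eq_zero.mp h
    rw [h1, map_zero] at hS
    rw [← hS, norm_zero] at hv
    norm_num at hv
  have hx0p : 0 < ‖x0‖ := lt_of_le_of_ne (norm_nonneg _) (Ne.symm hx0n)
  set x : H := ((‖x0‖⁻¹ : ℝ) : ℂ) • x0 with hx
  have hx1 : ‖x‖ = 1 := by
    rw [hx, norm_smul, Complex.norm_real, norm_inv, norm_norm, inv_mul_cancel₀ hx0n]
  set W : H := ((‖x0‖ : ℝ) : ℂ) • Sr r e v with hW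
  have hWx : inner ℂ W x = (1 : ℂ) := by
    rw [hW, hx, inner_smul_left, inner_smul_right, Complex.conj_ofReal, Sr_symm, hS, inner_self_one hv, mul_one,
      ← Complex.ofReal_mul, mul_inv_cancel₀ hx0n, Complex.ofReal_one]
  have hWA : inner ℂ v ((Sr r e * A * Sr r⁻¹ e) v) = (inner ℂ W (A x) : ℂ) := by
    have h1 : (Sr r e * A * Sr r⁻¹ e) v = Sr r e (A x0) := rfl
    rw [h1, ← Sr_symm, hW, hx, map_smul, inner_smul_left, inner_smul_right, Complex.conj_ofReal, ← mul_assoc,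
      ← Complex.ofReal_mul, mul_inv_cancel₀ hx0n, Complex.ofReal_one, one_mul]
  refine ⟨x, ((‖x0‖⁻¹ : ℝ) : ℂ), hx1, ?_, ?_, ?_⟩
  · have : ‖x0‖⁻¹ ≠ 0 := inv_ne_zero hx0n
    exact_mod_cast this
  · rw [hx, map_smul, hS]
  rw [hWA]
  set m : ℂ := inner ℂ x (A x) with hm
  have hWx' : inner ℂ (W - x) x = (0 : ℂ) := by rw [inner_sub_left, hWx, inner_self_one hx1, sub_self]
  have h1 : (inner ℂ W (A x) : ℂ) - m = inner ℂ (W - x) (A x - m • x) := by
    rw [inner_sub_right, inner_smul_right, hWx', mul_zero, sub_zero, inner_sub_left]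
  by_cases hw : ‖A x - m • x‖ = 0
  · right
    have hw' : A x - m • x = 0 := norm_eq_zero.mp hw
    refine ⟨sub_eq_zero.mp hw', ?_⟩
    rw [hw', inner_zero_right] at h1
    exact sub_eq_zero.mp h1
  · left
    have hwp : 0 < ‖A x - m • x‖ := lt_of_le_of_ne (norm_nonneg _) (Ne.symm hw)
    rw [h1]
    refine (norm_inner_le_norm _ _).trans_lt ?_
    refine mul_lt_mul_of_pos_right ?_ hwp
    have hWn : ‖W‖ ^ 2 < (1 / ‖q‖) ^ 2 := by
      have e1 : ‖W‖ ^ 2 = ‖Sr r⁻¹ e v‖ ^ 2 * ‖Sr r e v‖ ^ 2 := by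
        rw [hW, norm_smul, Complex.norm_real, norm_norm, mul_pow]
      have e2 := Sr_norm hr he v
      have e3 := Sr_norm (inv_pos.mpr hr) he v
      rw [inv_inv] at e3
      have e4 : ‖Sr r⁻¹ e v‖ ^ 2 + ‖Sr r e v‖ ^ 2 = 2 / ‖q‖ := by
        rw [e2, e3, hv, ← hrq]
        ring
      have e6 : ‖Sr r⁻¹ e v‖ ^ 2 - ‖Sr r e v‖ ^ 2 ≠ 0 := by
        rw [e2, e3, hv]
        have : r⁻¹ ^ 2 * ‖(inner ℂ e v : ℂ)‖ ^ 2 + r ^ 2 * (1 ^ 2 - ‖(inner ℂ e v : ℂ)‖ ^ 2) -
            (r ^ 2 * ‖(inner ℂ e v : ℂ)‖ ^ 2 + r⁻¹ ^ 2 * (1 ^ 2 - ‖(inner ℂ e v : ℂ)‖ ^ 2)) =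
            (r ^ 2 - r⁻¹ ^ 2) * (1 - 2 * ‖(inner ℂ e v : ℂ)‖ ^ 2) := by ring
        rw [this]
        refine mul_ne_zero (sub_ne_zero.mpr hr1) ?_
        intro h
        apply hδ
        linarith
      rw [e1]
      have e5 : (1 / ‖q‖) ^ 2 = ((‖Sr r⁻¹ e v‖ ^ 2 + ‖Sr r e v‖ ^ 2) / 2) ^ 2 := by
        rw [e4]
        congr 1
        field_simp
      rw [e5]
      have e7 : 0 < (‖Sr r⁻¹ e v‖ ^ 2 - ‖Sr r e v‖ ^ 2) ^ 2 := by positivity
      nlinarith [e7]
    have hsub : ‖W - x‖ ^ 2 = ‖W‖ ^ 2 - 1 := by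
      have h2 := norm_sub_sq (𝕜 := ℂ) W x
      rw [hWx, hx1] at h2
      simp at h2
      linarith
    have h3 : ‖W - x‖ ^ 2 < (√(1 - ‖q‖ ^ 2) / ‖q‖) ^ 2 := by
      rw [hsub, div_pow, Real.sq_sqrt (by nlinarith)]
      have : (1 - ‖q‖ ^ 2) / ‖q‖ ^ 2 = (1 / ‖q‖) ^ 2 - 1 := by
        field_simp
      rw [this]
      linarith
    exact (pow_lt_pow_iff_left₀ (norm_nonneg _) (by positivity) (by norm_num)).mp h3

theorem Sr_star (r : ℝ) (e : H) : star (Sr r e) = Sr r e := by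
  apply ContinuousLinearMap.ext
  intro u
  apply ext_inner_right ℂ
  intro w
  rw [adj_one, Sr_symm]

theorem Sr_orth (r : ℝ) {e x : H} (h : inner ℂ e x = (0 : ℂ)) : Sr r e x = ((r⁻¹ : ℝ) : ℂ) • x := by
  rw [Sr_apply, h, zero_smul, smul_zero, add_zero]

theorem Sr_smul {r : ℝ} {e : H} (he : ‖e‖ = 1) (u : ℂ) : Sr r e (u • e) = (r : ℂ) • (u • e) := by
  rw [map_smul, Sr_self he, smul_comm]

/-- the test vector -/
theorem test_vec (B : H →L[ℂ] H) (D : ℕ) (hD : 2 ≤ D) (v : ℕ → H)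
    (hC : Chain B 0 1 D (crabbW D) v) :
    ∃ g : H, B g = g - v 0 + v D ∧ inner ℂ (v 0) g = (1 : ℂ) ∧ inner ℂ (v D) g = (1 : ℂ) ∧ 4 ≤ ‖g‖ ^ 2 := by
  have hup : ∀ j < D, B (v j) = (crabbW D j : ℂ) • v (j + 1) := by
    intro j hj
    have := hC.up j hj
    rwa [zero_smul, zero_add, one_mul] at this
  have hbot : star B (v 0) = 0 := by
    have := hC.bot
    rwa [map_zero, zero_smul] at this
  have hdn : ∀ j < D, star B (v (j + 1)) = (crabbW D j : ℂ) • v j := by
    intro j hj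
    have := hC.dn j hj
    rwa [map_zero, zero_smul, zero_add, one_mul] at this
  have htop : B (v D) = 0 := by
    have := hC.top
    rwa [zero_smul] at this
  have hon := chain_orthonormal B D (crabbW D) (fun j _ => (crabbW_pos D j).ne') v hC.nrm hup hbot hdn
  have hin : ∀ i j, i ≤ D → j ≤ D → inner ℂ (v i) (v j) = if i = j then (1 : ℂ) else 0 := by
    intro i j hi hj
    have := (orthonormal_iff_ite.mp hon) ⟨i, by omega⟩ ⟨j, by omega⟩
    simp only [Fin.mk.injEq] at this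
    exact this
  set s : H := ∑ j ∈ Finset.Ico 1 D, v j with hs
  have hvs : ∀ i ≤ D, inner ℂ (v i) s = if i ∈ Finset.Ico 1 D then (1 : ℂ) else 0 := by
    intro i hi
    rw [hs, inner_sum]
    have : ∀ j ∈ Finset.Ico 1 D, inner ℂ (v i) (v j) = if i = j then (1 : ℂ) else 0 := by
      intro j hj
      have := (Finset.mem_Ico.mp hj).2
      exact hin i j hi (by omega)
    rw [Finset.sum_congr rfl this, Finset.sum_ite_eq]
  have hs2 : ((√2 : ℝ) : ℂ) * ((√2 : ℝ) : ℂ) = 2 := by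
    have : (√2 : ℝ) * √2 = 2 := Real.mul_self_sqrt (by norm_num)
    exact_mod_cast this
  have hBs : B s = s - v 1 + ((√2 : ℝ) : ℂ) • v D := by
    obtain ⟨d, rfl⟩ : ∃ d, D = d + 1 := ⟨D - 1, by omega⟩
    have hd : 1 ≤ d := by omega
    rw [hs, map_sum, Finset.sum_Ico_succ_top hd, Finset.sum_eq_sum_Ico_succ_bot (by omega : 1 < d + 1)]
    have h1 : ∑ j ∈ Finset.Ico 1 d, B (v j) = ∑ j ∈ Finset.Ico (1 + 1) (d + 1), v j := by
      rw [← Finset.sum_Ico_add' (fun j => v j) 1 d 1]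
      refine Finset.sum_congr rfl fun j hj => ?_
      have hj' := Finset.mem_Ico.mp hj
      rw [hup j (by omega)]
      unfold crabbW
      rw [if_neg (by omega), if_neg (by omega), Complex.ofReal_one, one_smul]
    rw [h1, hup d (by omega)]
    have h2 : crabbW (d + 1) d = √2 := by
      unfold crabbW
      rw [if_neg (by omega), if_pos (Or.inr rfl)]
    rw [h2]
    abel
  have hW0 : B (v 0) = ((√2 : ℝ) : ℂ) • v 1 := by
    rw [hup 0 (by omega)]
    have h2 : crabbW D 0 = √2 := by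
      unfold crabbW
      rw [if_neg (by omega), if_pos (Or.inl rfl)]
    rw [h2]
  set g : H := v 0 + ((√2 : ℝ) : ℂ) • s + v D with hg
  have h0g : inner ℂ (v 0) g = (1 : ℂ) := by
    rw [hg, inner_add_right, inner_add_right, inner_smul_right, hvs 0 (by omega), hin 0 0 (by omega) (by omega),
      hin 0 D (by omega) le_rfl, if_pos rfl, if_neg (by simp), if_neg (by omega)]
    ring
  have hDg : inner ℂ (v D) g = (1 : ℂ) := by
    rw [hg, inner_add_right, inner_add_right, inner_smul_right, hvs D le_rfl, hin D 0 le_rfl (by omega),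
      hin D D le_rfl le_rfl, if_pos rfl, if_neg (by omega), if_neg (by simp)]
    ring
  have h1g : inner ℂ (v 1) g = ((√2 : ℝ) : ℂ) := by
    rw [hg, inner_add_right, inner_add_right, inner_smul_right, hvs 1 (by omega), hin 1 0 (by omega) (by omega),
      hin 1 D (by omega) le_rfl, if_neg (by omega), if_pos (by simp; omega), if_neg (by omega)]
    ring
  refine ⟨g, ?_, h0g, hDg, ?_⟩
  · rw [hg, map_add, map_add, map_smul, hBs, hW0, htop, smul_add, smul_sub, smul_smul, hs2, two_smul]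
    abel
  · set f : H := v 0 + ((√2 : ℝ) : ℂ) • v 1 + v D with hf
    have hfg : inner ℂ f g = (4 : ℂ) := by
      rw [hf, inner_add_left, inner_add_left, inner_smul_left, h0g, hDg, h1g, Complex.conj_ofReal, hs2]
      norm_num
    have hff : inner ℂ f f = (4 : ℂ) := by
      have a00 := hin 0 0 (by omega) (by omega)
      have a01 := hin 0 1 (by omega) (by omega)
      have a0D := hin 0 D (by omega) le_rfl
      have a10 := hin 1 0 (by omega) (by omega)
      have a11 := hin 1 1 (by omega) (by omega)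
      have a1D := hin 1 D (by omega) le_rfl
      have aD0 := hin D 0 le_rfl (by omega)
      have aD1 := hin D 1 le_rfl (by omega)
      have aDD := hin D D le_rfl le_rfl
      rw [if_pos rfl] at a00 a11 aDD
      rw [if_neg (by omega)] at a01 a0D a10 a1D aD0 aD1
      rw [hf]
      simp only [inner_add_left, inner_add_right, inner_smul_left, inner_smul_right, a00, a01, a0D, a10, a11, a1D,
        aD0, aD1, aDD, Complex.conj_ofReal, mul_zero, add_zero, zero_add, mul_one]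
      rw [hs2]
      norm_num
    have hfn : ‖f‖ ^ 2 = 4 := by
      have h1 : ((‖f‖ ^ 2 : ℝ) : ℂ) = 4 := by
        rw [← hff, inner_self_eq_norm_sq_to_K]
        push_cast
        rfl
      exact_mod_cast h1
    have h1 := norm_inner_le_norm (𝕜 := ℂ) f g
    rw [hfg] at h1
    have h2 : ‖(4 : ℂ)‖ = 4 := by norm_num
    rw [h2] at h1
    have h3 : (4 : ℝ) ^ 2 ≤ (‖f‖ * ‖g‖) ^ 2 := pow_le_pow_left₀ (by norm_num) h1 2
    rw [mul_pow, hfn] at h3
    linarith

/-- **the structure theorem for `|q| < 1`**, given orthogonality -/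
theorem q_core [FiniteDimensional ℂ H] [Nontrivial H] {q : ℂ} (hq0 : q ≠ 0) (hq1 : ‖q‖ < 1) (A : H →L[ℂ] H)
    (hdim : ∀ x : H, ‖x‖ = 1 → ∃ v : H, ‖v‖ = 1 ∧ inner ℂ x v = (0 : ℂ)) (p : ℂ[X]) (hdeg : 1 ≤ p.natDegree)
    (hM : ∀ z ∈ Om q A, ‖p.eval z‖ ≤ 1) {x y : H} (hx : ‖x‖ = 1) (hy : ‖y‖ = 1) (hyx : inner ℂ y x = (0 : ℂ))
    (hTx : aeval A p x = ((2 * (‖q‖ / (1 + √(1 - ‖q‖ ^ 2))) : ℝ) : ℂ) • y) :
    p.natDegree = 1 ∧ ∃ (a c : ℂ) (ρ : ℝ) (v : ℕ → H), 0 < ρ ∧ c ≠ 0 ∧ p = C c * (X - C a) ^ 1 ∧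
      ‖c‖ * ρ = 1 ∧ Chain A a ρ 1 (fun _ => 2 * (‖q‖ / (1 + √(1 - ‖q‖ ^ 2)))) v := by
  have hqn : 0 < ‖q‖ := norm_pos_iff.mpr hq0
  set p0 := √(1 - ‖q‖ ^ 2) with hp0
  have hp2 : p0 ^ 2 = 1 - ‖q‖ ^ 2 := Real.sq_sqrt (by nlinarith)
  have hp00 : 0 < p0 := Real.sqrt_pos.mpr (by nlinarith)
  set c0 : ℝ := ‖q‖ / (1 + p0) with hc
  have hc0 : 0 < c0 := by positivity
  have hc1 : c0 < 1 := by
    rw [hc, div_lt_one (by positivity)]
    linarith
  set r : ℝ := √(1 / c0) with hr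
  have hr0 : 0 < r := Real.sqrt_pos.mpr (by positivity)
  have hr2 : r ^ 2 = 1 / c0 := Real.sq_sqrt (by positivity)
  have hr2' : r⁻¹ ^ 2 = c0 := by rw [inv_pow, hr2, one_div, inv_inv]
  have hrq : r ^ 2 + r⁻¹ ^ 2 = 2 / ‖q‖ := by
    rw [hr2, hr2', hc]
    field_simp
    nlinarith
  have hrne : r ^ 2 ≠ r⁻¹ ^ 2 := by
    rw [hr2, hr2']
    intro h
    have h1 : c0 * c0 = 1 := by
      rw [div_eq_iff hc0.ne'] at h
      exact h.symm
    nlinarith
  have hrc : (r : ℂ) ≠ 0 := by exact_mod_cast hr0.ne'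
  set S := Sr r y with hS
  set S' := Sr r⁻¹ y with hS'
  have hSS' : S * S' = 1 := Sr_mul hr0.ne' hy
  have hS'S : S' * S = 1 := by
    have := Sr_mul (inv_ne_zero hr0.ne') hy
    rwa [inv_inv] at this
  set B := S * A * S' with hB
  have hSx : S x = ((r⁻¹ : ℝ) : ℂ) • x := Sr_orth r hyx
  have hS'x : S' x = (r : ℂ) • x := by
    have := Sr_orth r⁻¹ hyx
    rwa [inv_inv] at this
  have hnB : ∀ w ∈ numRange B, ‖p.eval w‖ ≤ 1 := fun z hz => sim_le hq0 hq1.le A hdim p 1 hM hr0 hrq hy hz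
  have hBx : aeval B p x = (2 : ℂ) • y := by
    have h1 : aeval B p (S x) = S (aeval A p x) :=
      congrArg (fun L : H →L[ℂ] H => L x) (aeval_sim hr0.ne' hy A p)
    rw [hSx, hTx, map_smul, map_smul, Sr_self hy, smul_smul] at h1
    have h2 : aeval B p x = (r : ℂ) • (((r⁻¹ : ℝ) : ℂ) • aeval B p x) := by
      rw [smul_smul]
      have : (r : ℂ) * ((r⁻¹ : ℝ) : ℂ) = 1 := by
        push_cast
        exact mul_inv_cancel₀ hrc
      rw [this, one_smul]
    rw [h2, h1, smul_smul]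
    have h3 : (r : ℂ) * (((2 * c0 : ℝ) : ℂ) * (r : ℂ)) = 2 := by
      have h4 : r * (2 * c0 * r) = 2 := by
        calc r * (2 * c0 * r) = 2 * c0 * r ^ 2 := by ring
          _ = 2 := by rw [hr2]; field_simp
      exact_mod_cast congrArg (fun t : ℝ => (t : ℂ)) h4
    rw [h3]
  obtain ⟨a, c, ρ, v, hρ, hc', hpc, hcρ, hball, hv0, hvD, hch⟩ := q1_full B p hdeg hnB x y hx hy hBx
  set D := p.natDegree with hD
  have hcρ0 : c * (ρ : ℂ) ^ D ≠ 0 := by
    apply mul_ne_zero hc'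
    apply pow_ne_zero
    exact_mod_cast hρ.ne'
  set u : ℂ := (c * (ρ : ℂ) ^ D)⁻¹ with hu
  have hun : ‖u‖ = 1 := by
    rw [hu, norm_inv, norm_mul, norm_pow, Complex.norm_real, Real.norm_of_nonneg hρ.le, hcρ, inv_one]
  have hρc : (ρ : ℂ) ≠ 0 := by exact_mod_cast hρ.ne'
  have hev : ∀ w, p.eval w = c * (w - a) ^ D := by
    intro w
    conv_lhs => rw [hpc]
    simp
  -- `A` in terms of `B`
  have hAB : A = S' * B * S := by
    rw [hB]
    calc A = (S' * S) * A * (S' * S) := by rw [hS'S, one_mul, mul_one]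
      _ = _ := by simp only [mul_assoc]
  -- the degree is one
  have hD1 : D = 1 := by
    by_contra hDne
    have hD2 : 2 ≤ D := by omega
    set B1 : H →L[ℂ] H := (ρ : ℂ)⁻¹ • (B - a • (1 : H →L[ℂ] H)) with hB1
    have hB1u : ∀ w, B w = a • w + (ρ : ℂ) • B1 w := by
      intro w
      rw [hB1, smul_apply, sub_apply, smul_apply, one_apply_eq_self, smul_smul, mul_inv_cancel₀ hρc, one_smul]
      abel
    have hB1s : ∀ w, star B w = (starRingEnd ℂ) a • w + (ρ : ℂ) • (star B1) w := by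
      intro w
      have h1 : star B1 = (ρ : ℂ)⁻¹ • (star B - (starRingEnd ℂ) a • (1 : H →L[ℂ] H)) := by
        rw [hB1, star_smul, star_sub, star_smul, star_one]
        congr 1
        change (starRingEnd ℂ) ((ρ : ℂ)⁻¹) = _
        rw [map_inv₀, Complex.conj_ofReal]
      rw [h1, smul_apply, sub_apply, smul_apply, one_apply_eq_self, smul_smul, mul_inv_cancel₀ hρc, one_smul]
      abel
    have hcan : ∀ w w' : H, (ρ : ℂ) • w = (ρ : ℂ) • w' → w = w' := by
      intro w w' h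
      have := congrArg (fun t => (ρ : ℂ)⁻¹ • t) h
      simp only [smul_smul, inv_mul_cancel₀ hρc, one_smul] at this
      exact this
    have hch1 : Chain B1 0 1 D (crabbW D) v := by
      refine ⟨hch.nrm, ?_, ?_, ?_, ?_⟩
      · intro j hj
        have h1 := hch.up j hj
        rw [hB1u] at h1
        have h2 := add_left_cancel h1
        rw [zero_smul, zero_add, one_mul]
        apply hcan
        rw [h2, smul_smul]
        push_cast
        rfl
      · have h1 := hch.top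
        rw [hB1u] at h1
        have h2 : (ρ : ℂ) • B1 (v D) = 0 := by
          have := congrArg (fun t => t - a • v D) h1
          simpa using this
        rw [zero_smul]
        exact (smul_eq_zero.mp h2).resolve_left hρc
      · have h1 := hch.bot
        rw [hB1s] at h1
        have h2 : (ρ : ℂ) • star B1 (v 0) = 0 := by
          have := congrArg (fun t => t - (starRingEnd ℂ) a • v 0) h1
          simpa using this
        rw [map_zero, zero_smul]
        exact (smul_eq_zero.mp h2).resolve_left hρc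
      · intro j hj
        have h1 := hch.dn j hj
        rw [hB1s] at h1
        have h2 := add_left_cancel h1
        rw [map_zero, zero_smul, zero_add, one_mul]
        apply hcan
        rw [h2, smul_smul]
        push_cast
        rfl
    obtain ⟨g, hBg, h0g, hDg, hg4⟩ := test_vec B1 D hD2 v hch1
    have hgp : 0 < ‖g‖ := by
      rcases (norm_nonneg g).lt_or_eq with h | h
      · exact h
      · rw [← h] at hg4; norm_num at hg4
    set gh : H := ((‖g‖⁻¹ : ℝ) : ℂ) • g with hgh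
    have hgh1 : ‖gh‖ = 1 := by
      rw [hgh, norm_smul, Complex.norm_real, norm_inv, norm_norm, inv_mul_cancel₀ hgp.ne']
    have hyg : ‖(inner ℂ y g : ℂ)‖ = 1 := by
      rw [hvD, inner_smul_left] at hDg
      have := congrArg norm hDg
      rwa [norm_mul, RCLike.norm_conj, hun, one_mul, norm_one] at this
    have hδ : ‖(inner ℂ y gh : ℂ)‖ ^ 2 ≠ 1 / 2 := by
      rw [hgh, inner_smul_right, norm_mul, hyg, Complex.norm_real, norm_inv, norm_norm, mul_one, inv_pow]
      intro h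
      have h1 : ‖g‖ ^ 2 = 2 := by
        rw [← inv_inv (‖g‖ ^ 2), h]
        norm_num
      linarith
    have hval : inner ℂ gh (B gh) = a + (ρ : ℂ) := by
      have h1 : inner ℂ g (B1 g) = ((‖g‖ ^ 2 : ℝ) : ℂ) := by
        rw [hBg, inner_add_right, inner_sub_right, ← inner_conj_symm g (v 0), ← inner_conj_symm g (v D), h0g, hDg,
          inner_self_eq_norm_sq_to_K]
        push_cast
        simp
      have h2 : inner ℂ gh (B1 gh) = 1 := by
        rw [hgh, map_smul, inner_smul_left, inner_smul_right, h1, Complex.conj_ofReal]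
        have h3 : ‖g‖⁻¹ * (‖g‖⁻¹ * ‖g‖ ^ 2) = 1 := by field_simp
        exact_mod_cast congrArg (fun t : ℝ => (t : ℂ)) h3
      have e1 : inner ℂ gh (a • gh) = a := by
        rw [inner_smul_right gh gh a, inner_self_one hgh1, mul_one]
      have e2 : inner ℂ gh ((ρ : ℂ) • B1 gh) = (ρ : ℂ) := by
        rw [inner_smul_right gh (B1 gh) (ρ : ℂ), h2, mul_one]
      rw [hB1u, inner_add_right, e1, e2]
    obtain ⟨x', k, hx', hk, hSx', hcase⟩ := sim_strict hq0 A hr0 hrne hrq hy hgh1 hδ hq1.le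
    have hval' : inner ℂ gh ((Sr r y * A * Sr r⁻¹ y) gh) = a + (ρ : ℂ) := hval
    rw [hval'] at hcase
    rcases hcase with hlt | ⟨hAx', hm⟩
    · -- the point is in the open disc
      obtain ⟨ε, hε, hεl⟩ : ∃ ε : ℝ, 0 < ε ∧
          ‖a + (ρ : ℂ) - inner ℂ x' (A x')‖ + ε ≤ √(1 - ‖q‖ ^ 2) / ‖q‖ * ‖A x' - (inner ℂ x' (A x') : ℂ) • x'‖ :=
        ⟨√(1 - ‖q‖ ^ 2) / ‖q‖ * ‖A x' - (inner ℂ x' (A x') : ℂ) • x'‖ - ‖a + (ρ : ℂ) - inner ℂ x' (A x')‖,
          by linarith, by linarith⟩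
      have h1 := disc_le hq0 hq1.le A hdim p 1 hM hx' (z := a + (ρ : ℂ) + (ε : ℂ)) (by
        refine le_trans ?_ hεl
        have h2 : a + (ρ : ℂ) + (ε : ℂ) - inner ℂ x' (A x') = (a + (ρ : ℂ) - inner ℂ x' (A x')) + (ε : ℂ) := by ring
        rw [h2]
        refine (norm_add_le _ _).trans ?_
        rw [Complex.norm_real, Real.norm_of_nonneg hε.le])
      rw [hev, norm_mul, norm_pow] at h1
      have h2 : a + (ρ : ℂ) + (ε : ℂ) - a = ((ρ + ε : ℝ) : ℂ) := by push_cast; ring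
      rw [h2, Complex.norm_real, Real.norm_of_nonneg (by positivity)] at h1
      have h3 : ρ ^ D < (ρ + ε) ^ D := pow_lt_pow_left₀ (by linarith) hρ.le (by omega)
      have h4 : ‖c‖ * ρ ^ D < ‖c‖ * (ρ + ε) ^ D := mul_lt_mul_of_pos_left h3 (norm_pos_iff.mpr hc')
      linarith
    · -- an eigenvector
      have h1 : B gh = (a + (ρ : ℂ)) • gh := by
        have h2 : S (A x') = B (S x') := by
          have h3 : B * S = S * A := by
            rw [hB, mul_assoc, hS'S, mul_one]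
          exact (congrArg (fun L : H →L[ℂ] H => L x') h3).symm
        rw [hAx', ← hm, map_smul] at h2
        have h4 : S x' = k • gh := hSx'
        rw [h4, map_smul, smul_comm] at h2
        have := congrArg (fun t => k⁻¹ • t) h2
        simp only [smul_smul, inv_mul_cancel₀ hk, one_smul] at this
        have h5 : k⁻¹ * (k * (a + (ρ : ℂ))) = a + (ρ : ℂ) := by rw [← mul_assoc, inv_mul_cancel₀ hk, one_mul]
        rw [h5] at this
        exact this.symm
      have h2 : B1 gh = gh := by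
        rw [hB1u, add_smul] at h1
        exact hcan _ _ (add_left_cancel h1)
      have hgc : ((‖g‖⁻¹ : ℝ) : ℂ) ≠ 0 := by
        have : ‖g‖⁻¹ ≠ 0 := inv_ne_zero hgp.ne'
        exact_mod_cast this
      have h3 : B1 g = g := by
        rw [hgh, map_smul] at h2
        have := congrArg (fun t => (((‖g‖⁻¹ : ℝ) : ℂ))⁻¹ • t) h2
        simp only [smul_smul, inv_mul_cancel₀ hgc, one_smul] at this
        exact this
      rw [hBg] at h3
      have h4 : v D = v 0 := by
        have h5 : g - v 0 + v D = g + (v D - v 0) := by abel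
        rw [h5] at h3
        have h6 : v D - v 0 = 0 := by
          have := congrArg (fun t => t - g) h3
          simpa using this
        exact sub_eq_zero.mp h6
      rw [hvD, hv0] at h4
      have h5 : inner ℂ y (u • y) = (0 : ℂ) := by rw [h4, hyx]
      rw [inner_smul_right, inner_self_one hy, mul_one] at h5
      rw [h5, norm_zero] at hun
      exact zero_ne_one hun
  refine ⟨hD1, a, c, ρ, v, hρ, hc', ?_, ?_, ?_⟩
  · rw [hD1] at hpc; exact hpc
  · rw [hD1, pow_one] at hcρ; exact hcρ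
  · rw [hD1] at hvD hch
    have hW : ∀ j < 1, crabbW 1 j = 2 := by
      intro j _
      unfold crabbW
      rw [if_pos rfl]
    have hAs : star A = S * star B * S' := by
      conv_lhs => rw [hAB]
      rw [star_mul, star_mul, hS, hS', Sr_star, Sr_star, mul_assoc]
    have hSv1 : S (v 1) = (r : ℂ) • v 1 := by rw [hvD]; exact Sr_smul hy u
    have hS'v1 : S' (v 1) = ((r⁻¹ : ℝ) : ℂ) • v 1 := by rw [hvD]; exact Sr_smul hy u
    have hr1 : ((r⁻¹ : ℝ) : ℂ) * (r : ℂ) = 1 := by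
      push_cast
      exact inv_mul_cancel₀ hrc
    have hr3 : ((r⁻¹ : ℝ) : ℂ) * ((r⁻¹ : ℝ) : ℂ) = (c0 : ℂ) := by
      rw [← Complex.ofReal_mul, ← pow_two, hr2']
    have hup0 := hch.up 0 one_pos
    have hdn0 := hch.dn 0 one_pos
    have htop := hch.top
    have hbot := hch.bot
    rw [hW 0 one_pos, zero_add, hv0] at hup0 hdn0
    rw [hv0] at hbot
    refine ⟨by rw [hv0]; exact hx, ?_, ?_, ?_, ?_⟩
    · intro j hj
      have hj0 : j = 0 := by omega
      subst hj0
      have e1 : A (v 0) = S' (B (S x)) := by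
        conv_lhs => rw [hAB, hv0]
        rfl
      rw [e1, hSx, map_smul, hup0, smul_add, map_add, map_smul, map_smul, map_smul, map_smul, hS'x, hS'v1, zero_add,
        hv0]
      simp only [smul_smul]
      congr 1
      · congr 1
        linear_combination a * hr1
      · congr 1
        push_cast
        push_cast at hr3
        linear_combination (2 * (ρ : ℂ)) * hr3
    · have e1 : A (v 1) = S' (B (S (v 1))) := by
        conv_lhs => rw [hAB]
        rfl
      rw [e1, hSv1, map_smul, htop, map_smul, map_smul, hS'v1]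
      simp only [smul_smul]
      congr 1
      linear_combination a * hr1
    · have e1 : star A (v 0) = S (star B (S' x)) := by
        rw [hAs, hv0]
        rfl
      rw [e1, hS'x, map_smul, hbot, map_smul, map_smul, hSx, hv0]
      simp only [smul_smul]
      congr 1
      linear_combination ((starRingEnd ℂ) a) * hr1
    · intro j hj
      have hj0 : j = 0 := by omega
      subst hj0
      have e1 : star A (v 1) = S (star B (S' (v 1))) := by
        rw [hAs]
        rfl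
      rw [zero_add, e1, hS'v1, map_smul, hdn0, smul_add, map_add, map_smul, map_smul, map_smul, map_smul, hSx, hSv1,
        hv0]
      simp only [smul_smul]
      congr 1
      · congr 1
        linear_combination ((starRingEnd ℂ) a) * hr1
      · congr 1
        push_cast
        push_cast at hr3
        linear_combination (2 * (ρ : ℂ)) * hr3

end Pool.Agent.KS6_34.CE
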