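import Pool.Agent.KS6_34.CE.Bd
import Pool.Agent.KS6_34.CE.Alg
import Pool.Agent.KS6_34.CE.Conc2

/-!
# Crouzeix equality: reduction to operators without extremal eigenvalues
-/

set_option autoImplicit false
set_option linter.unusedSectionVars false

open Filter Topology Complex Set Polynomial
open scoped NNReal ENNReal

namespace Pool.Agent.KS6_34.CE

open Pool.Agent.W753.CZ (numRange crouzeix_bound)

variable {H : Type*} [NormedAddCommGroup H] [InnerProductSpace ℂ H] [CompleteSpace H]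

/-- attained norm gives the adjoint relation -/
theorem adj_attain (T : H →L[ℂ] H) (c : ℝ) (hT : ‖T‖ ≤ c) (x y : H) (hx : ‖x‖ = 1) (hy : ‖y‖ = 1)
    (h : T x = (c : ℂ) • y) : star T y = (c : ℂ) • x := by
  have hc : 0 ≤ c := (norm_nonneg _).trans hT
  rw [← sub_eq_zero, ← norm_eq_zero, ← sq_eq_zero_iff]
  have h1 : ‖star T y‖ ≤ c := by
    have h2 := (star T).le_opNorm y
    rw [hy, mul_one, norm_star] at h2
    exact h2.trans hT
  have h2 := norm_sub_sq (𝕜 := ℂ) (star T y) ((c : ℂ) • x)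
  have h3 : inner ℂ (star T y) ((c : ℂ) • x) = ((c ^ 2 : ℝ) : ℂ) := by
    rw [inner_smul_right, adj_one, h, inner_smul_right, inner_self_eq_norm_sq_to_K, hy]
    push_cast
    ring
  have h4 : RCLike.re (inner ℂ (star T y) ((c : ℂ) • x)) = c ^ 2 := by
    rw [h3]
    exact Complex.ofReal_re _
  rw [h4, norm_smul, Complex.norm_real, Real.norm_of_nonneg hc, hx, mul_one] at h2
  have h5 : ‖star T y‖ ^ 2 ≤ c ^ 2 := pow_le_pow_left₀ (norm_nonneg _) h1 2
  have h6 : 0 ≤ ‖star T y - (c : ℂ) • x‖ ^ 2 := sq_nonneg _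
  linarith

theorem aeval_eig (A : H →L[ℂ] H) (p : ℂ[X]) (a : ℂ) (e : H) (he : A e = a • e) :
    aeval A p e = p.eval a • e := by
  obtain ⟨g, hg⟩ := X_sub_C_dvd_sub_C_eval (a := a) (p := p)
  have h1 : p = g * (X - C a) + C (p.eval a) := by rw [mul_comm, ← hg]; ring
  conv_lhs => rw [h1]
  rw [map_add, map_mul, map_sub, aeval_X, aeval_C, aeval_C, add_apply, mulA, sub_apply,
    Algebra.algebraMap_eq_smul_one, Algebra.algebraMap_eq_smul_one, smul_apply, smul_apply, one_apply_eq_self,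
    he, sub_self, map_zero, zero_add]

theorem star_aeval_eig (A : H →L[ℂ] H) (p : ℂ[X]) (a : ℂ) (e : H) (he : star A e = (starRingEnd ℂ) a • e) :
    star (aeval A p) e = (starRingEnd ℂ) (p.eval a) • e := by
  obtain ⟨g, hg⟩ := X_sub_C_dvd_sub_C_eval (a := a) (p := p)
  have h1 : p = (X - C a) * g + C (p.eval a) := by rw [← hg]; ring
  have h2 : star (aeval A p) = star (aeval A g) * (star A - (starRingEnd ℂ) a • 1) +
      (starRingEnd ℂ) (p.eval a) • (1 : H →L[ℂ] H) := by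
    conv_lhs => rw [h1]
    rw [map_add, map_mul, map_sub, aeval_X, aeval_C, aeval_C, Algebra.algebraMap_eq_smul_one,
      Algebra.algebraMap_eq_smul_one, star_add, star_mul, star_sub, star_smul, star_smul, star_one]
    rfl
  rw [h2, add_apply, mulA, sub_apply, smul_apply, smul_apply, one_apply_eq_self, he, sub_self, map_zero, zero_add]

/-- the restriction of an operator to an invariant subspace -/
noncomputable def rst (A : H →L[ℂ] H) (K : Submodule ℂ H) (hK : ∀ u ∈ K, A u ∈ K) : K →L[ℂ] K :=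
  (A.comp K.subtypeL).codRestrict K (fun u => hK u u.2)

theorem rst_coe (A : H →L[ℂ] H) (K : Submodule ℂ H) (hK : ∀ u ∈ K, A u ∈ K) (u : K) :
    ((rst A K hK u : K) : H) = A u := rfl

theorem rst_aeval (A : H →L[ℂ] H) (K : Submodule ℂ H) (hK : ∀ u ∈ K, A u ∈ K) (p : ℂ[X]) (u : K) :
    ((aeval (rst A K hK) p u : K) : H) = aeval A p (u : H) := by
  have hpow : ∀ (n : ℕ) (u : K), ((((rst A K hK) ^ n) u : K) : H) = (A ^ n) (u : H) := by
    intro n
    induction n with
    | zero => intro u; rfl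
    | succ n ih =>
      intro u
      have hm : ((rst A K hK) ^ (n + 1)) u = ((rst A K hK) ^ n) ((rst A K hK) u) := by rw [pow_succ]; rfl
      have hm' : (A ^ (n + 1)) (u : H) = (A ^ n) (A (u : H)) := by rw [pow_succ]; rfl
      rw [hm, hm', ih, rst_coe]
  rw [aeval_eq_sum_range, aeval_eq_sum_range, sum_apply, sum_apply, Submodule.coe_sum]
  refine Finset.sum_congr rfl fun k _ => ?_
  rw [smul_apply, smul_apply, Submodule.coe_smul, hpow]

theorem rst_numRange (A : H →L[ℂ] H) (K : Submodule ℂ H) (hK : ∀ u ∈ K, A u ∈ K) :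
    numRange (rst A K hK) ⊆ numRange A := by
  rintro w ⟨u, hu, rfl⟩
  refine ⟨u, hu, ?_⟩
  rw [Submodule.coe_inner, rst_coe]

/-- points of the spectrum are eigenvalues -/
theorem exists_eig [FiniteDimensional ℂ H] (A : H →L[ℂ] H) (a : ℂ) (ha : a ∈ spectrum ℂ A) :
    ∃ e : H, e ≠ 0 ∧ A e = a • e := by
  by_contra hcon
  push Not at hcon
  apply ha
  set L : H →L[ℂ] H := algebraMap ℂ (H →L[ℂ] H) a - A with hL
  have hLu : ∀ u, L u = a • u - A u := by
    intro u
    rw [hL, sub_apply, Algebra.algebraMap_eq_smul_one, smul_apply, one_apply_eq_self]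
  have hinj : Function.Injective L := by
    rw [injective_iff_map_eq_zero]
    intro u hu
    by_contra hu0
    apply hcon u hu0
    rw [hLu] at hu
    exact (sub_eq_zero.mp hu).symm
  have hsurj : Function.Surjective L := by
    have := (LinearMap.injective_iff_surjective (f := (L : H →ₗ[ℂ] H))).mp hinj
    exact this
  change IsUnit L
  rw [ContinuousLinearMap.isUnit_iff_bijective]
  exact ⟨hinj, hsurj⟩

/-- an eigenvalue is in the numerical range -/
theorem eig_mem_numRange (A : H →L[ℂ] H) (a : ℂ) (e : H) (he0 : e ≠ 0) (he : A e = a • e) : a ∈ numRange A := by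
  have hn : ‖e‖ ≠ 0 := norm_ne_zero_iff.mpr he0
  refine ⟨((‖e‖⁻¹ : ℝ) : ℂ) • e, ?_, ?_⟩
  · rw [norm_smul, Complex.norm_real, norm_inv, norm_norm, inv_mul_cancel₀ hn]
  · rw [map_smul, he, inner_smul_left, inner_smul_right, inner_smul_right, inner_self_eq_norm_sq_to_K,
      Complex.conj_ofReal]
    have h1 : ((‖e‖⁻¹ : ℝ) : ℂ) * (((‖e‖⁻¹ : ℝ) : ℂ) * (a * ((‖e‖ : ℝ) : ℂ) ^ 2)) =
        a * (((‖e‖⁻¹ * ‖e‖) ^ 2 : ℝ) : ℂ) := by
      push_cast
      ring
    have h2 : ((‖e‖⁻¹ * ‖e‖) ^ 2 : ℝ) = 1 := by rw [inv_mul_cancel₀ hn, one_pow]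
    calc _ = ((‖e‖⁻¹ : ℝ) : ℂ) * (((‖e‖⁻¹ : ℝ) : ℂ) * (a * ((‖e‖ : ℝ) : ℂ) ^ 2)) := rfl
      _ = a := by rw [h1, h2, Complex.ofReal_one, mul_one]

/-- an annihilating polynomial whose roots are eigenvalues -/
theorem exists_chi [FiniteDimensional ℂ H] (A : H →L[ℂ] H) :
    ∃ χ : ℂ[X], χ ≠ 0 ∧ aeval A χ = 0 ∧ ∀ a, χ.eval a = 0 → a ∈ spectrum ℂ A := by
  have : FiniteDimensional ℂ (H →L[ℂ] H) := inferInstance
  have hint : IsIntegral ℂ A := Algebra.IsIntegral.isIntegral A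
  refine ⟨minpoly ℂ A, minpoly.ne_zero hint, minpoly.aeval ℂ A, ?_⟩
  intro a ha
  obtain ⟨g, hg⟩ := dvd_iff_isRoot.mpr (show IsRoot (minpoly ℂ A) a from ha)
  have hg0 : g ≠ 0 := by
    rintro rfl
    rw [mul_zero] at hg
    exact minpoly.ne_zero hint hg
  have hdeg : (minpoly ℂ A).natDegree = 1 + g.natDegree := by
    conv_lhs => rw [hg]
    rw [natDegree_mul (X_sub_C_ne_zero a) hg0, natDegree_X_sub_C]
  have hag : aeval A g ≠ 0 := by
    intro h0
    have := natDegree_le_natDegree (minpoly.degree_le_of_ne_zero ℂ A hg0 h0)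
    omega
  intro hu
  apply hag
  have h1 : aeval A ((X - C a) * g) = 0 := by rw [← hg]; exact minpoly.aeval ℂ A
  rw [map_mul, map_sub, aeval_X, aeval_C] at h1
  have h2 : (algebraMap ℂ (H →L[ℂ] H) a - A) * aeval A g = 0 := by
    rw [← neg_sub, neg_mul, h1, neg_zero]
  have hu' : IsUnit (algebraMap ℂ (H →L[ℂ] H) a - A) := hu
  exact (hu'.mul_right_eq_zero).mp h2

/-- powers tend to zero when the spectrum is in the open disc -/
theorem pow_tendsto [FiniteDimensional ℂ H] [Nontrivial H] (T : H →L[ℂ] H) (hT : ∀ z ∈ spectrum ℂ T, ‖z‖ < 1) :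
    Tendsto (fun k => ‖T ^ k‖) atTop (𝓝 0) := by
  have hne : (spectrum ℂ T).Nonempty := spectrum.nonempty T
  have hlt : spectralRadius ℂ T < ((1 : ℝ≥0) : ℝ≥0∞) := by
    apply spectrum.spectralRadius_lt_of_forall_lt_of_nonempty hne
    intro z hz
    exact_mod_cast hT z hz
  obtain ⟨r, hr1, hr2⟩ := ENNReal.lt_iff_exists_nnreal_btwn.mp hlt
  have hr2' : r < 1 := by exact_mod_cast hr2
  have hG := spectrum.pow_nnnorm_pow_one_div_tendsto_nhds_spectralRadius T
  have hev := hG.eventually_lt_const hr1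
  have hle : ∀ᶠ k : ℕ in atTop, ‖T ^ k‖ ≤ (r : ℝ) ^ k := by
    filter_upwards [hev, eventually_gt_atTop 0] with k hk hk0
    have hk' : (0 : ℝ) < k := by exact_mod_cast hk0
    have h1 : ((‖T ^ k‖₊ : ℝ≥0∞) ^ (1 / k : ℝ)) ^ (k : ℝ) < ((r : ℝ≥0∞)) ^ (k : ℝ) :=
      ENNReal.rpow_lt_rpow hk hk'
    rw [← ENNReal.rpow_mul, one_div, inv_mul_cancel₀ hk'.ne', ENNReal.rpow_one, ENNReal.rpow_natCast] at h1
    have h2 : ‖T ^ k‖₊ < r ^ k := by exact_mod_cast h1
    exact_mod_cast h2.le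
  have hlim : Tendsto (fun k : ℕ => (r : ℝ) ^ k) atTop (𝓝 0) :=
    tendsto_pow_atTop_nhds_zero_of_lt_one r.2 (by exact_mod_cast hr2')
  exact squeeze_zero' (Eventually.of_forall fun k => norm_nonneg _) hle hlim

theorem star_pow_le (T : H →L[ℂ] H) (x : H) (hx : ‖x‖ = 1) (k : ℕ) : ‖((star T) ^ k) x‖ ≤ ‖T ^ k‖ := by
  have h2 := ((star T) ^ k).le_opNorm x
  rw [hx, mul_one, ← star_pow, norm_star] at h2
  rw [← star_pow]
  exact h2

/-- the polynomial in the equality case -/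
theorem q1_poly [FiniteDimensional ℂ H] [Nontrivial H] (A : H →L[ℂ] H) (p : ℂ[X]) (hdeg : 1 ≤ p.natDegree)
    (hp : ∀ w ∈ numRange A, ‖p.eval w‖ ≤ 1) (x y : H) (hx : ‖x‖ = 1) (hy : ‖y‖ = 1)
    (hTx : aeval A p x = (2 : ℂ) • y) : ∃ a c : ℂ, c ≠ 0 ∧ p = C c * (X - C a) ^ p.natDegree := by
  have hTx' : aeval A p x = ((2 : ℝ) : ℂ) • y := by rw [hTx]; norm_num
  have hT2 : ‖aeval A p‖ ≤ 2 := by
    have := crouzeix_bound A p 1 hp
    linarith
  have hTy : star (aeval A p) y = (2 : ℂ) • x := by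
    have := adj_attain (aeval A p) 2 hT2 x y hx hy hTx'
    rw [this]
    norm_num
  -- the extremal eigenvectors
  set E : Set H := {e : H | ∃ a : ℂ, A e = a • e ∧ ‖p.eval a‖ = 1} with hE
  set K : Submodule ℂ H := (Submodule.span ℂ E)ᗮ with hKd
  have hKmem : ∀ u, u ∈ K ↔ ∀ e ∈ E, inner ℂ e u = 0 := by
    intro u
    rw [hKd, Submodule.mem_orthogonal]
    constructor
    · intro h e he
      exact h e (Submodule.subset_span he)
    · intro h v hv
      induction hv using Submodule.span_induction with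
      | mem v hv => exact h v hv
      | zero => exact inner_zero_left _
      | add v w _ _ h1 h2 => rw [inner_add_left, h1, h2, add_zero]
      | smul c v _ h1 => rw [inner_smul_left, h1, mul_zero]
  have hK : ∀ u ∈ K, A u ∈ K := by
    intro u hu
    rw [hKmem] at hu ⊢
    rintro e ⟨a, he, ha⟩
    have h1 := bd_eig A p hdeg hp a ha e he
    rw [← adj_one, h1, inner_smul_left, hu e ⟨a, he, ha⟩, mul_zero]
  have hxK : x ∈ K := by
    rw [hKmem]
    rintro e ⟨a, he, ha⟩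
    have h1 := bd_eig A p hdeg hp a ha e he
    have h2 := aeval_eig A p a e he
    have h3 := star_aeval_eig A p a e h1
    have h4 : inner ℂ e (star (aeval A p) (aeval A p x)) = 4 * inner ℂ e x := by
      rw [hTx, map_smul, hTy, smul_smul, inner_smul_right]
      norm_num
    have h5 : inner ℂ e (star (aeval A p) (aeval A p x)) = inner ℂ e x := by
      rw [ContinuousLinearMap.star_eq_adjoint, ContinuousLinearMap.adjoint_inner_right, h2, inner_smul_left,
        ← adj_one, h3, inner_smul_left, ← mul_assoc, RingHomCompTriple.comp_apply, RingHom.id_apply]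
      have h6 : (starRingEnd ℂ) (p.eval a) * p.eval a = 1 := by
        rw [Complex.conj_mul', ha]
        norm_num
      rw [h6, one_mul]
    rw [h5] at h4
    have h7 : (3 : ℂ) * inner ℂ e x = 0 := by linear_combination -h4
    exact (mul_eq_zero.mp h7).resolve_left (by norm_num)
  have hyK : y ∈ K := by
    have h1 : aeval A p x = ((aeval (rst A K hK) p ⟨x, hxK⟩ : K) : H) := (rst_aeval A K hK p ⟨x, hxK⟩).symm
    have h2 : y = (2 : ℂ)⁻¹ • ((aeval (rst A K hK) p ⟨x, hxK⟩ : K) : H) := by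
      rw [← h1, hTx, smul_smul]
      norm_num
    rw [h2]
    exact K.smul_mem _ (Subtype.mem _)
  have : CompleteSpace K := FiniteDimensional.complete ℂ K
  have : Nontrivial K := by
    refine ⟨⟨⟨x, hxK⟩, 0, ?_⟩⟩
    intro h
    have h1 : x = 0 := congrArg Subtype.val h
    rw [h1, norm_zero] at hx
    exact zero_ne_one hx
  set AK := rst A K hK with hAK
  have hpK : ∀ w ∈ numRange AK, ‖p.eval w‖ ≤ 1 := fun w hw => hp w (rst_numRange A K hK hw)
  have hspec : ∀ a ∈ spectrum ℂ AK, ‖p.eval a‖ < 1 := by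
    intro a ha
    obtain ⟨e, he0, he⟩ := exists_eig AK a ha
    refine lt_of_le_of_ne (hpK a (eig_mem_numRange AK a e he0 he)) ?_
    intro h1
    have h2 : (e : H) ∈ E := ⟨a, by
      have := congrArg (Subtype.val) he
      exact this, h1⟩
    have h3 := (hKmem (e : H)).mp e.2 e h2
    rw [inner_self_eq_zero] at h3
    exact he0 (Subtype.ext h3)
  have hTxK : aeval AK p ⟨x, hxK⟩ = (2 : ℂ) • (⟨y, hyK⟩ : K) := by
    apply Subtype.ext
    rw [hAK, rst_aeval]
    exact hTx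
  have hx' : ‖(⟨x, hxK⟩ : K)‖ = 1 := hx
  have hy' : ‖(⟨y, hyK⟩ : K)‖ = 1 := hy
  have hTyK : star (aeval AK p) ⟨y, hyK⟩ = (2 : ℂ) • (⟨x, hxK⟩ : K) := by
    have h1 : ‖aeval AK p‖ ≤ 2 := by
      have := crouzeix_bound AK p 1 hpK
      linarith
    have := adj_attain (aeval AK p) 2 h1 ⟨x, hxK⟩ ⟨y, hyK⟩ hx' hy' (by rw [hTxK]; norm_num)
    rw [this]
    norm_num
  have hTspec : ∀ z ∈ spectrum ℂ (aeval AK p), ‖z‖ < 1 := by
    intro z hz
    rw [spectrum.map_polynomial_aeval_of_nonempty AK p (spectrum.nonempty AK)] at hz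
    obtain ⟨a, ha, rfl⟩ := hz
    exact hspec a ha
  have hlim : Tendsto (fun k => ‖((star (aeval AK p)) ^ k) (⟨x, hxK⟩ : K)‖) atTop (𝓝 0) := by
    have h1 := pow_tendsto (aeval AK p) hTspec
    refine squeeze_zero (fun k => norm_nonneg _) (fun k => ?_) h1
    exact star_pow_le (aeval AK p) ⟨x, hxK⟩ hx' k
  obtain ⟨χ, hχ0, hχ, hroot⟩ := exists_chi AK
  obtain ⟨-, hinf⟩ := contact_infinite AK p χ hpK ⟨x, hxK⟩ ⟨y, hyK⟩ hx' hy' hTxK hTyK hlim hχ
    (fun a ha => hspec a (hroot a ha))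
  exact poly_form AK p χ hχ0 hχ ⟨x, hxK⟩ ⟨y, hyK⟩ hy' hTxK hTyK hdeg hinf

end Pool.Agent.KS6_34.CE
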