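import Pool.Agent.KS6_34.CE.CD

/-!
# Crouzeix equality: the resolvent as a polynomial over an annihilating polynomial, and the small integrals
-/

set_option autoImplicit false
set_option linter.unusedSectionVars false

open MeasureTheory Set Filter Topology Complex Polynomial

namespace Pool.Agent.KS6_34.CE

variable {H : Type*} [NormedAddCommGroup H] [InnerProductSpace ℂ H] [CompleteSpace H]

/-- `(χ(s) - χ(A)) / (s - A)` -/
noncomputable def Pop (A : H →L[ℂ] H) (χ : ℂ[X]) (s : ℂ) : H →L[ℂ] H :=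
  ∑ k ∈ Finset.range (χ.natDegree + 1), χ.coeff k • ∑ i ∈ Finset.range k, s ^ i • A ^ (k - 1 - i)

theorem Pop_eq (A : H →L[ℂ] H) (χ : ℂ[X]) (s : ℂ) :
    Pop A χ s = ∑ k ∈ Finset.range (χ.natDegree + 1), χ.coeff k •
      ∑ i ∈ Finset.range k, (s • (1 : H →L[ℂ] H)) ^ i * A ^ (k - 1 - i) := by
  unfold Pop
  refine Finset.sum_congr rfl fun k _ => ?_
  congr 1
  refine Finset.sum_congr rfl fun i _ => ?_
  rw [_root_.smul_pow, one_pow, smul_one_mul]

theorem comm_sA (A : H →L[ℂ] H) (s : ℂ) : Commute (s • (1 : H →L[ℂ] H)) A :=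
  (Commute.one_left A).smul_left s

theorem sA_mul_Pop (A : H →L[ℂ] H) (χ : ℂ[X]) (s : ℂ) :
    (s • (1 : H →L[ℂ] H) - A) * Pop A χ s = χ.eval s • (1 : H →L[ℂ] H) - aeval A χ := by
  rw [Pop_eq, Finset.mul_sum]
  have h1 : ∀ k ∈ Finset.range (χ.natDegree + 1), (s • (1 : H →L[ℂ] H) - A) *
      (χ.coeff k • ∑ i ∈ Finset.range k, (s • (1 : H →L[ℂ] H)) ^ i * A ^ (k - 1 - i)) =
      (χ.coeff k * s ^ k) • (1 : H →L[ℂ] H) - χ.coeff k • A ^ k := by
    intro k _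
    rw [mul_smul_comm, (comm_sA A s).mul_geom_sum₂ k, smul_sub, _root_.smul_pow, one_pow, smul_smul]
  rw [Finset.sum_congr rfl h1, Finset.sum_sub_distrib, ← Finset.sum_smul, ← Polynomial.eval_eq_sum_range,
    ← Polynomial.aeval_eq_sum_range]

theorem Pop_mul_sA (A : H →L[ℂ] H) (χ : ℂ[X]) (s : ℂ) :
    Pop A χ s * (s • (1 : H →L[ℂ] H) - A) = χ.eval s • (1 : H →L[ℂ] H) - aeval A χ := by
  rw [← sA_mul_Pop]
  have h : Commute (Pop A χ s) (s • (1 : H →L[ℂ] H) - A) := by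
    unfold Pop
    apply Commute.sum_left
    intro k _
    apply Commute.smul_left
    apply Commute.sum_left
    intro i _
    apply Commute.smul_left
    apply Commute.sub_right
    · exact ((Commute.one_right _).smul_right _)
    · exact (Commute.refl A).pow_left _
  exact h.eq

theorem Pop_cont (A : H →L[ℂ] H) (χ : ℂ[X]) : Continuous (Pop A χ) := by
  unfold Pop
  fun_prop

/-- the defect function -/
noncomputable def Psi (A : H →L[ℂ] H) (χ : ℂ[X]) (x y : H) (s z : ℂ) : ℂ :=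
  inner ℂ ((s • (1 : H →L[ℂ] H) - A) (x + star z • y)) (Pop A χ s (y - z • x))

theorem Psi_cont (A : H →L[ℂ] H) (χ : ℂ[X]) (x y : H) :
    Continuous (fun w : ℂ × ℂ => Psi A χ x y w.1 w.2) := by
  unfold Psi
  have h1 : Continuous (fun w : ℂ × ℂ => Pop A χ w.1) := (Pop_cont A χ).comp continuous_fst
  have h2 : Continuous (fun w : ℂ × ℂ => star w.2) := continuous_snd.star
  fun_prop

namespace CD

variable {A : H →L[ℂ] H} {p : ℂ[X]} {M R : ℝ} (C : CD A p M R)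

/-- the quadratic form -/
noncomputable def q (φ : ℝ) (u : H) : ℝ := (inner ℂ u (C.X φ u)).re

theorem q_nonneg (φ : ℝ) (u : H) : 0 ≤ C.q φ u := C.Xre φ u

theorem q_smul (φ : ℝ) (g : ℂ) (u : H) : C.q φ (g • u) = ‖g‖ ^ 2 * C.q φ u := by
  unfold q
  rw [map_smul, inner_smul_left, inner_smul_right, ← mul_assoc, mul_comm ((starRingEnd ℂ) g), mul_conj,
    normSq_eq_norm_sq, re_ofReal_mul]

theorem q_sub_mul (φ t : ℝ) (u v : H) : C.q φ ((t : ℂ) • u - v) = t ^ 2 * C.q φ u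
    - t * ((inner ℂ v (C.X φ u)).re + (inner ℂ u (C.X φ v)).re) + C.q φ v := by
  unfold q
  rw [map_sub, map_smul, inner_sub_left, inner_sub_right, inner_sub_right, inner_smul_left, inner_smul_left,
    inner_smul_right, inner_smul_right, Complex.conj_ofReal]
  simp only [sub_re, re_ofReal_mul]
  ring

theorem q_add_le (φ : ℝ) (u v : H) : C.q φ (u + v) ≤ 2 * C.q φ u + 2 * C.q φ v := by
  have h1 := C.q_nonneg φ (u - v)
  have h2 : C.q φ (u + v) + C.q φ (u - v) = 2 * C.q φ u + 2 * C.q φ v := by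
    unfold q
    rw [map_add, map_sub, inner_sub_left, inner_sub_right, inner_sub_right, inner_add_left, inner_add_right,
      inner_add_right]
    simp only [sub_re, add_re]
    ring
  linarith

theorem q_neg (φ : ℝ) (u : H) : C.q φ (-u) = C.q φ u := by
  have := C.q_smul φ (-1) u
  simpa using this

theorem q_cont (u : H) : Continuous (fun φ => C.q φ u) := by
  have := C.Xc
  unfold q
  have hYc : Continuous (fun φ => inner ℂ u (C.X φ u)) := by fun_prop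
  exact Complex.continuous_re.comp hYc

theorem q_int (u : H) : ∫ φ in (0 : ℝ)..(2 * Real.pi), C.q φ u = 2 * Real.pi * ‖u‖ ^ 2 := by
  unfold q
  rw [hre _ C.Xc, C.int_one, hs1, hs2]

theorem XsA (φ : ℝ) : C.X φ * (C.s φ • (1 : H →L[ℂ] H) - A) =
    ((C.ρ φ : ℂ) * exp (φ * I)) • (1 : H →L[ℂ] H) := by
  have h1 : Commute (C.X φ) (C.s φ • (1 : H →L[ℂ] H) - A) :=
    ((Commute.one_right _).smul_right _).sub_right (C.Xcomm φ).symm
  rw [h1.eq]
  exact C.Xeq φ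

theorem chi_X {χ : ℂ[X]} (hχ : aeval A χ = 0) (φ : ℝ) :
    χ.eval (C.s φ) • C.X φ = ((C.ρ φ : ℂ) * exp (φ * I)) • Pop A χ (C.s φ) := by
  have h1 : Pop A χ (C.s φ) * (C.s φ • (1 : H →L[ℂ] H) - A) * C.X φ =
      Pop A χ (C.s φ) * (((C.ρ φ : ℂ) * exp (φ * I)) • (1 : H →L[ℂ] H)) := by
    rw [mul_assoc]
    congr 1
    exact C.Xeq φ
  rw [Pop_mul_sA, hχ, sub_zero, smul_one_mul, mul_smul_comm, mul_one] at h1
  exact h1

/-- the size of the form away from the spectrum -/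
theorem chi_q {χ : ℂ[X]} (hχ : aeval A χ = 0) (φ : ℝ) (u : H) :
    ‖χ.eval (C.s φ)‖ * C.q φ u ≤ C.ρ φ * (‖Pop A χ (C.s φ)‖ * ‖u‖ ^ 2) := by
  have h1 : ‖χ.eval (C.s φ)‖ * C.q φ u ≤ ‖inner ℂ u ((χ.eval (C.s φ) • C.X φ) u)‖ := by
    rw [smul_apply, inner_smul_right, norm_mul]
    apply mul_le_mul_of_nonneg_left _ (norm_nonneg _)
    exact Complex.re_le_norm _
  refine h1.trans ?_
  rw [C.chi_X hχ, smul_apply, inner_smul_right, norm_mul, norm_mul, Complex.norm_exp_ofReal_mul_I, mul_one,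
    Complex.norm_real, Real.norm_of_nonneg (C.ρ_nonneg φ)]
  apply mul_le_mul_of_nonneg_left _ (C.ρ_nonneg φ)
  calc ‖inner ℂ u (Pop A χ (C.s φ) u)‖ ≤ ‖u‖ * ‖Pop A χ (C.s φ) u‖ := norm_inner_le_norm _ _
    _ ≤ ‖u‖ * (‖Pop A χ (C.s φ)‖ * ‖u‖) := by gcongr; exact ContinuousLinearMap.le_opNorm _ _
    _ = ‖Pop A χ (C.s φ)‖ * ‖u‖ ^ 2 := by ring

/-- the pairing that produces `ρ |Ψ|²` -/
theorem psi_pair {χ : ℂ[X]} (hχ : aeval A χ = 0) {x y : H} (hxy : inner ℂ x y = (0 : ℂ)) (hx : ‖x‖ = 1)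
    (hy : ‖y‖ = 1) (φ : ℝ) (t : ℝ) (ht : 0 < t) :
    C.ρ φ * ‖Psi A χ x y (C.s φ) (C.z φ)‖ ^ 2 ≤ t * C.q φ (y - C.z φ • x) +
      t⁻¹ * C.q φ ((star (χ.eval (C.s φ)) * (exp (φ * I) * Psi A χ x y (C.s φ) (C.z φ))) •
        ((C.s φ • (1 : H →L[ℂ] H) - A) (x + star (C.z φ) • y))) := by
  set F : H := y - C.z φ • x with hF
  set e : H := x + star (C.z φ) • y with he
  set ψ : ℂ := Psi A χ x y (C.s φ) (C.z φ) with hψ
  set w : ℂ := star (χ.eval (C.s φ)) * (exp (φ * I) * ψ) with hw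
  set G : H := w • ((C.s φ • (1 : H →L[ℂ] H) - A) e) with hG
  have h1 := C.q_nonneg φ ((t : ℂ) • F - G)
  rw [C.q_sub_mul] at h1
  -- `inner F (X G) = 0`
  have hyx : inner ℂ y x = (0 : ℂ) := by rw [← inner_conj_symm, hxy, map_zero]
  have hxx : inner ℂ x x = (1 : ℂ) := by rw [inner_self_eq_norm_sq_to_K, hx]; norm_num
  have hyy : inner ℂ y y = (1 : ℂ) := by rw [inner_self_eq_norm_sq_to_K, hy]; norm_num
  have h2 : inner ℂ F e = (0 : ℂ) := by
    rw [hF, he, inner_sub_left, inner_add_right, inner_add_right, inner_smul_left, inner_smul_left,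
      inner_smul_right, inner_smul_right, hyx, hyy, hxx, hxy, star_def]
    ring
  have h3 : inner ℂ F (C.X φ G) = (0 : ℂ) := by
    have h4 : C.X φ G = (w * ((C.ρ φ : ℂ) * exp (φ * I))) • e := by
      rw [hG, map_smul]
      have h5 := congrArg (fun L : H →L[ℂ] H => L e) (C.XsA φ)
      have h6 : C.X φ ((C.s φ • (1 : H →L[ℂ] H) - A) e) = ((C.ρ φ : ℂ) * exp (φ * I)) • e := h5
      rw [h6, smul_smul]
    rw [h4, inner_smul_right, h2, mul_zero]
  have h4 : inner ℂ G (C.X φ F) = ((C.ρ φ * ‖ψ‖ ^ 2 : ℝ) : ℂ) := by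
    have hst : (starRingEnd ℂ) (star (χ.eval (C.s φ))) = χ.eval (C.s φ) := by rw [star_def, conj_conj]
    rw [hG, inner_smul_left, hw, map_mul, map_mul, hst, ← exp_conj]
    have h5 : (starRingEnd ℂ) ((φ : ℂ) * I) = -((φ : ℂ) * I) := by
      rw [map_mul, conj_ofReal, conj_I]; ring
    have h6 : χ.eval (C.s φ) * inner ℂ ((C.s φ • (1 : H →L[ℂ] H) - A) e) (C.X φ F) =
        ((C.ρ φ : ℂ) * exp (φ * I)) * ψ := by
      rw [← inner_smul_right]
      have h7 : χ.eval (C.s φ) • (C.X φ F) = ((C.ρ φ : ℂ) * exp (φ * I)) • (Pop A χ (C.s φ) F) := by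
        have := congrArg (fun L : H →L[ℂ] H => L F) (C.chi_X hχ φ)
        exact this
      rw [h7, inner_smul_right]
      rfl
    have h8 : exp (-((φ : ℂ) * I)) * exp ((φ : ℂ) * I) = 1 := by
      rw [← Complex.exp_add, neg_add_cancel, Complex.exp_zero]
    rw [h5]
    calc χ.eval (C.s φ) * (exp (-((φ : ℂ) * I)) * (starRingEnd ℂ) ψ) *
          inner ℂ ((C.s φ • (1 : H →L[ℂ] H) - A) e) (C.X φ F) =
        exp (-((φ : ℂ) * I)) * (starRingEnd ℂ) ψ *
          (χ.eval (C.s φ) * inner ℂ ((C.s φ • (1 : H →L[ℂ] H) - A) e) (C.X φ F)) := by ring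
      _ = exp (-((φ : ℂ) * I)) * (starRingEnd ℂ) ψ * (((C.ρ φ : ℂ) * exp (φ * I)) * ψ) := by rw [h6]
      _ = (exp (-((φ : ℂ) * I)) * exp ((φ : ℂ) * I)) * ((C.ρ φ : ℂ) * (ψ * (starRingEnd ℂ) ψ)) := by ring
      _ = ((C.ρ φ * ‖ψ‖ ^ 2 : ℝ) : ℂ) := by
        rw [h8, mul_conj, normSq_eq_norm_sq]
        push_cast
        ring
  rw [h3, h4, ofReal_re, zero_re, add_zero] at h1
  have h5 : t * (C.ρ φ * ‖ψ‖ ^ 2) ≤ t * (t * C.q φ F + t⁻¹ * C.q φ G) := by
    have : t * (t * C.q φ F + t⁻¹ * C.q φ G) = t ^ 2 * C.q φ F + C.q φ G := by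
      field_simp
    rw [this]
    linarith
  exact le_of_mul_le_mul_left h5 ht

end CD

end Pool.Agent.KS6_34.CE
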