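import Pool.Agent.KS6_34.CE.QPart

/-!
# The scaled `q`-numerical range: eigenvalues, and strictness for `|q| < 4/5`
-/

set_option autoImplicit false
set_option linter.unusedSectionVars false

open Filter Topology Complex Set Polynomial

namespace Pool.Agent.KS6_34.CE

open Pool.Agent.W753.CZ (numRange crouzeix_bound)
open Pool.Agent.X24.QN (Om disc_le main_le inner_self_one norm_add_orth)

variable {H : Type*} [NormedAddCommGroup H] [InnerProductSpace ℂ H] [CompleteSpace H]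

theorem maxmod (p : ℂ[X]) (hdeg : 1 ≤ p.natDegree) (m : ℂ) (R : ℝ) (h : ∀ z, ‖z - m‖ ≤ R → ‖p.eval z‖ ≤ 1) {z : ℂ}
    (hz : ‖z - m‖ < R) : ‖p.eval z‖ < 1 := by
  refine lt_of_le_of_ne (h z hz.le) ?_
  intro h1
  have hmax : IsLocalMax (norm ∘ fun z => p.eval z) z := by
    have hnb := Metric.ball_mem_nhds z (sub_pos.mpr hz)
    filter_upwards [hnb] with w hw
    simp only [Function.comp_apply]
    rw [h1]
    apply h w
    rw [mem_ball_iff_norm] at hw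
    calc ‖w - m‖ = ‖(w - z) + (z - m)‖ := by congr 1; ring
      _ ≤ ‖w - z‖ + ‖z - m‖ := norm_add_le _ _
      _ ≤ R := by linarith
  have hd : ∀ᶠ w in 𝓝 z, DifferentiableAt ℂ (fun z => p.eval z) w :=
    Eventually.of_forall fun w => p.differentiable w
  have hconst := Complex.eventually_eq_of_isLocalMax_norm hd hmax
  have hinf : {w : ℂ | (p - Polynomial.C (p.eval z)).eval w = 0}.Infinite := by
    apply infinite_of_mem_nhds z
    filter_upwards [hconst] with w hw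
    rw [Polynomial.eval_sub, Polynomial.eval_C, hw, sub_self]
  have h0 : p - Polynomial.C (p.eval z) = 0 := Polynomial.eq_zero_of_infinite_isRoot _ hinf
  have h2 : p = Polynomial.C (p.eval z) := sub_eq_zero.mp h0
  rw [h2, Polynomial.natDegree_C] at hdeg
  omega

theorem numRange_le {q : ℂ} (hq0 : q ≠ 0) (hq1 : ‖q‖ ≤ 1) (A : H →L[ℂ] H)
    (hdim : ∀ x : H, ‖x‖ = 1 → ∃ v : H, ‖v‖ = 1 ∧ inner ℂ x v = (0 : ℂ)) (p : ℂ[X]) (M : ℝ)
    (hM : ∀ z ∈ Om q A, ‖p.eval z‖ ≤ M) : ∀ w ∈ numRange A, ‖p.eval w‖ ≤ M := by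
  rintro w ⟨x, hx, rfl⟩
  exact disc_le hq0 hq1 A hdim p M hM hx (by rw [sub_self, norm_zero]; positivity)

/-- the eigenvalues of a nonscalar operator are interior points -/
theorem eig_lt [Nontrivial H] {q : ℂ} (hq0 : q ≠ 0) (hq1 : ‖q‖ < 1) (A : H →L[ℂ] H)
    (hdim : ∀ x : H, ‖x‖ = 1 → ∃ v : H, ‖v‖ = 1 ∧ inner ℂ x v = (0 : ℂ)) (hA : ∀ a : ℂ, A ≠ a • 1)
    (p : ℂ[X]) (hdeg : 1 ≤ p.natDegree) (hM : ∀ z ∈ Om q A, ‖p.eval z‖ ≤ 1) (a : ℂ) (e : H) (he1 : ‖e‖ = 1)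
    (he : A e = a • e) : ‖p.eval a‖ < 1 := by
  have hqn : 0 < ‖q‖ := norm_pos_iff.mpr hq0
  have hnr := numRange_le hq0 hq1.le A hdim p 1 hM
  have he0 : e ≠ 0 := by
    rintro rfl
    rw [norm_zero] at he1
    exact zero_ne_one he1
  refine lt_of_le_of_ne (hnr a (eig_mem_numRange A a e he0 he)) ?_
  intro ha
  have hs := bd_eig A p hdeg hnr a ha e he
  set τ : ℝ := √(1 - ‖q‖ ^ 2) / ‖q‖ with hτ
  have hτ0 : 0 < τ := div_pos (Real.sqrt_pos.mpr (by nlinarith)) hqn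
  -- a vector which is not an eigenvector
  obtain ⟨v0, hv0⟩ : ∃ v0 : H, A v0 ≠ a • v0 := by
    by_contra hcon
    push Not at hcon
    apply hA a
    apply ContinuousLinearMap.ext
    intro u
    rw [hcon u]
    rfl
  set v : H := v0 - (inner ℂ e v0 : ℂ) • e with hv
  have hev : inner ℂ e v = (0 : ℂ) := by
    rw [hv, inner_sub_right, inner_smul_right, inner_self_one he1, mul_one, sub_self]
  set w : H := A v - a • v with hw
  have hw0 : w ≠ 0 := by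
    intro h
    apply hv0
    rw [hw, hv, map_sub, map_smul, he, smul_sub] at h
    have h1 : A v0 - a • v0 = 0 := by
      rw [← h, smul_comm a]
      abel
    exact sub_eq_zero.mp h1
  have hwn : 0 < ‖w‖ := norm_pos_iff.mpr hw0
  have hew : inner ℂ e w = (0 : ℂ) := by
    rw [hw, inner_sub_right, ← adj_one, hs, inner_smul_left, inner_smul_right, hev, mul_zero, mul_zero, sub_self]
  -- the parameter
  obtain ⟨t, ht, hts⟩ : ∃ t : ℝ, 0 < t ∧ (1 + τ) * (t * (‖v‖ * ‖w‖)) < τ * ‖w‖ := by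
    refine ⟨τ / (2 * (1 + τ) * (‖v‖ + 1)), by positivity, ?_⟩
    have h1 : (1 + τ) * (τ / (2 * (1 + τ) * (‖v‖ + 1)) * (‖v‖ * ‖w‖)) =
        τ * ‖w‖ * (‖v‖ / (2 * (‖v‖ + 1))) := by
      field_simp
    rw [h1]
    have h2 : ‖v‖ / (2 * (‖v‖ + 1)) < 1 := by
      rw [div_lt_one (by positivity)]
      have := norm_nonneg v
      linarith
    have h3 : 0 < τ * ‖w‖ := by positivity
    calc τ * ‖w‖ * (‖v‖ / (2 * (‖v‖ + 1))) < τ * ‖w‖ * 1 := mul_lt_mul_of_pos_left h2 h3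
      _ = τ * ‖w‖ := mul_one _
  set f : H := e + (t : ℂ) • v with hf
  have hfn2 : ‖f‖ ^ 2 = 1 + t ^ 2 * ‖v‖ ^ 2 := by
    have h1 := norm_add_orth hev 1 (t : ℂ)
    rw [one_smul, ← hf, norm_one, he1, Complex.norm_real, Real.norm_of_nonneg ht.le] at h1
    rw [h1]
    ring
  have hfn1 : 1 ≤ ‖f‖ := by
    have h1 : (1 : ℝ) ^ 2 ≤ ‖f‖ ^ 2 := by rw [hfn2]; nlinarith [sq_nonneg (t * ‖v‖)]
    exact (pow_le_pow_iff_left₀ zero_le_one (norm_nonneg _) (by norm_num)).mp h1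
  have hfp : 0 < ‖f‖ := by linarith
  set x : H := ((‖f‖⁻¹ : ℝ) : ℂ) • f with hx
  have hx1 : ‖x‖ = 1 := by
    rw [hx, norm_smul, Complex.norm_real, norm_inv, norm_norm, inv_mul_cancel₀ hfp.ne']
  have hAf : A f - a • f = (t : ℂ) • w := by
    rw [hf, map_add, map_smul, he, smul_add, hw, smul_sub (t : ℂ) (A v) (a • v), smul_comm a (t : ℂ) v]
    abel
  have hAx : A x - a • x = ((‖f‖⁻¹ * t : ℝ) : ℂ) • w := by
    rw [hx, map_smul, smul_comm a, ← smul_sub, hAf, smul_smul]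
    push_cast
    rfl
  set m : ℂ := inner ℂ x (A x) with hm
  have hma : m - a = ((‖f‖⁻¹ ^ 2 * t ^ 2 : ℝ) : ℂ) * inner ℂ v w := by
    have h1 : m - a = inner ℂ x (A x - a • x) := by
      rw [inner_sub_right, inner_smul_right, inner_self_one hx1, mul_one]
    rw [h1, hAx, inner_smul_right, hx, inner_smul_left, hf, inner_add_left, inner_smul_left, hew,
      Complex.conj_ofReal, Complex.conj_ofReal, ← hf]
    push_cast
    ring
  have hman : ‖m - a‖ ≤ ‖f‖⁻¹ * t * (t * (‖v‖ * ‖w‖)) := by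
    rw [hma, norm_mul, Complex.norm_real, Real.norm_of_nonneg (by positivity)]
    have h1 := norm_inner_le_norm (𝕜 := ℂ) v w
    have h2 : ‖f‖⁻¹ ^ 2 * t ^ 2 ≤ ‖f‖⁻¹ * t ^ 2 := by
      have h3 : ‖f‖⁻¹ ≤ 1 := inv_le_one_of_one_le₀ hfn1
      have h4 : 0 ≤ ‖f‖⁻¹ := by positivity
      have h5 : ‖f‖⁻¹ ^ 2 ≤ ‖f‖⁻¹ := by nlinarith
      exact mul_le_mul_of_nonneg_right h5 (sq_nonneg t)
    calc ‖f‖⁻¹ ^ 2 * t ^ 2 * ‖(inner ℂ v w : ℂ)‖ ≤ (‖f‖⁻¹ * t ^ 2) * (‖v‖ * ‖w‖) := by gcongr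
      _ = _ := by ring
  have hlt : ‖a - m‖ < τ * ‖A x - m • x‖ := by
    have h1 : A x - m • x = ((‖f‖⁻¹ * t : ℝ) : ℂ) • w - (m - a) • x := by
      rw [← hAx, sub_smul]
      abel
    have h2 : ‖f‖⁻¹ * t * ‖w‖ - ‖m - a‖ ≤ ‖A x - m • x‖ := by
      have h3 := norm_sub_norm_le (((‖f‖⁻¹ * t : ℝ) : ℂ) • w) ((m - a) • x)
      rw [← h1, norm_smul, norm_smul, hx1, mul_one, Complex.norm_real, Real.norm_of_nonneg (by positivity)] at h3
      exact h3
    have h4 : τ * (‖f‖⁻¹ * t * ‖w‖ - ‖m - a‖) ≤ τ * ‖A x - m • x‖ := mul_le_mul_of_nonneg_left h2 hτ0.le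
    rw [norm_sub_rev]
    have h5 : (1 + τ) * ‖m - a‖ < τ * (‖f‖⁻¹ * t * ‖w‖) := by
      have h6 : 0 < ‖f‖⁻¹ * t := by positivity
      calc (1 + τ) * ‖m - a‖ ≤ (1 + τ) * (‖f‖⁻¹ * t * (t * (‖v‖ * ‖w‖))) := by gcongr
        _ = (‖f‖⁻¹ * t) * ((1 + τ) * (t * (‖v‖ * ‖w‖))) := by ring
        _ < (‖f‖⁻¹ * t) * (τ * ‖w‖) := mul_lt_mul_of_pos_left hts h6
        _ = _ := by ring
    linarith
  have hcon := maxmod p hdeg m (τ * ‖A x - m • x‖) (fun z hz => disc_le hq0 hq1.le A hdim p 1 hM hx1 hz) hlt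
  rw [ha] at hcon
  exact lt_irrefl _ hcon

/-- the strict bound for `|q| < 4/5` -/
theorem small_strict [FiniteDimensional ℂ H] [Nontrivial H] {q : ℂ} (hq0 : q ≠ 0) (hq1 : ‖q‖ < 4 / 5)
    (A : H →L[ℂ] H) (hdim : ∀ x : H, ‖x‖ = 1 → ∃ v : H, ‖v‖ = 1 ∧ inner ℂ x v = (0 : ℂ))
    (hA : ∀ a : ℂ, A ≠ a • 1) (p : ℂ[X]) (hdeg : 1 ≤ p.natDegree) (hM : ∀ z ∈ Om q A, ‖p.eval z‖ ≤ 1) :
    ‖aeval A p‖ < 1 := by
  have hqn : 0 < ‖q‖ := norm_pos_iff.mpr hq0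
  have hq1' : ‖q‖ < 1 := by linarith
  set q' : ℂ := 4 / 5 with hq'
  have hq'0 : q' ≠ 0 := by rw [hq']; norm_num
  have hq'n : ‖q'‖ = 4 / 5 := by rw [hq']; norm_num
  have hsq : √(1 - ‖q'‖ ^ 2) = 3 / 5 := by
    rw [hq'n]
    rw [show (1 : ℝ) - (4 / 5) ^ 2 = (3 / 5) ^ 2 by norm_num]
    exact Real.sqrt_sq (by norm_num)
  have hτ : √(1 - ‖q'‖ ^ 2) / ‖q'‖ < √(1 - ‖q‖ ^ 2) / ‖q‖ := by
    rw [hsq, hq'n]
    have h1 : (3 : ℝ) / 5 < √(1 - ‖q‖ ^ 2) := by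
      apply Real.lt_sqrt_of_sq_lt
      nlinarith
    calc (3 : ℝ) / 5 / (4 / 5) < √(1 - ‖q‖ ^ 2) / (4 / 5) := by
          apply div_lt_div_of_pos_right h1; norm_num
      _ ≤ √(1 - ‖q‖ ^ 2) / ‖q‖ := by
          apply div_le_div_of_nonneg_left (Real.sqrt_nonneg _) hqn hq1.le
  -- pointwise strictness on `Om q' A`
  have hpt : ∀ x y : H, ‖x‖ = 1 → ‖y‖ = 1 → inner ℂ y x = q' → ‖p.eval (inner ℂ y (A x) / q')‖ < 1 := by
    intro x y hx hy hyx
    set m : ℂ := inner ℂ x (A x) with hm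
    have h1 : ‖inner ℂ y (A x) / q' - m‖ ≤ √(1 - ‖q'‖ ^ 2) / ‖q'‖ * ‖A x - m • x‖ := by
      set y' : H := y - (starRingEnd ℂ) q' • x with hy'
      have hxy : inner ℂ x y = (starRingEnd ℂ) q' := by rw [← hyx, inner_conj_symm]
      have hy'n : ‖y'‖ ^ 2 = 1 - ‖q'‖ ^ 2 := by
        have h2 : inner ℂ x y' = (0 : ℂ) := by
          rw [hy', inner_sub_right, inner_smul_right, inner_self_one hx, hxy, mul_one, sub_self]
        have h3 := norm_add_orth h2 ((starRingEnd ℂ) q') 1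
        rw [one_smul, hy', add_sub_cancel, hy, hx, RCLike.norm_conj, norm_one, ← hy'] at h3
        linarith
      have hy'x : inner ℂ y' x = (0 : ℂ) := by
        rw [hy', inner_sub_left, inner_smul_left, hyx, inner_self_one hx, Complex.conj_conj, mul_one, sub_self]
      have h2 : inner ℂ y (A x) / q' - m = inner ℂ y' (A x - m • x) / q' := by
        rw [inner_sub_right, inner_smul_right, hy'x, mul_zero, sub_zero, hy', inner_sub_left, inner_smul_left,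
          Complex.conj_conj, sub_div, mul_div_cancel_left₀ _ hq'0]
      rw [h2, norm_div, div_mul_eq_mul_div]
      apply div_le_div_of_nonneg_right _ (norm_nonneg _)
      refine (norm_inner_le_norm _ _).trans ?_
      apply mul_le_mul_of_nonneg_right _ (norm_nonneg _)
      apply Real.le_sqrt_of_sq_le
      rw [hy'n]
    by_cases hw : ‖A x - m • x‖ = 0
    · rw [hw, mul_zero] at h1
      have h2 : inner ℂ y (A x) / q' = m := sub_eq_zero.mp (norm_le_zero_iff.mp h1)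
      rw [h2]
      exact eig_lt hq0 hq1' A hdim hA p hdeg hM m x hx (sub_eq_zero.mp (norm_eq_zero.mp hw))
    · have hwp : 0 < ‖A x - m • x‖ := lt_of_le_of_ne (norm_nonneg _) (Ne.symm hw)
      exact maxmod p hdeg m (√(1 - ‖q‖ ^ 2) / ‖q‖ * ‖A x - m • x‖)
        (fun z hz => disc_le hq0 hq1'.le A hdim p 1 hM hx hz)
        (h1.trans_lt (mul_lt_mul_of_pos_right hτ hwp))
  -- compactness
  have hprop : ProperSpace H := FiniteDimensional.proper ℂ H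
  set Sset : Set (H × H) := {w | w ∈ Metric.sphere (0 : H) 1 ×ˢ Metric.sphere (0 : H) 1 ∧ inner ℂ w.2 w.1 = q'}
    with hSset
  have hcomp : IsCompact Sset := by
    have h1 : IsClosed {w : H × H | (inner ℂ w.2 w.1 : ℂ) = q'} :=
      isClosed_eq (by fun_prop) continuous_const
    exact ((isCompact_sphere (0 : H) 1).prod (isCompact_sphere (0 : H) 1)).inter_right h1
  have hcont : Continuous (fun w : H × H => ‖p.eval (inner ℂ w.2 (A w.1) / q')‖) := by fun_prop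
  obtain ⟨M, hM0, hM1, hMle⟩ : ∃ M : ℝ, 0 < M ∧ M < 1 ∧ ∀ z ∈ Om q' A, ‖p.eval z‖ ≤ M := by
    by_cases hne : Sset.Nonempty
    · obtain ⟨w0, hw0, hmax⟩ := hcomp.exists_isMaxOn hne hcont.continuousOn
      have hw1 : ‖w0.1‖ = 1 := mem_sphere_zero_iff_norm.mp hw0.1.1
      have hw2 : ‖w0.2‖ = 1 := mem_sphere_zero_iff_norm.mp hw0.1.2
      refine ⟨max (1 / 2) ‖p.eval (inner ℂ w0.2 (A w0.1) / q')‖, by positivity, max_lt (by norm_num)
        (hpt w0.1 w0.2 hw1 hw2 hw0.2), ?_⟩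
      rintro z ⟨x, y, hx, hy, hyx, rfl⟩
      have h1 : (x, y) ∈ Sset :=
        ⟨⟨mem_sphere_zero_iff_norm.mpr hx, mem_sphere_zero_iff_norm.mpr hy⟩, hyx⟩
      exact (hmax h1).trans (le_max_right _ _)
    · refine ⟨1 / 2, by norm_num, by norm_num, ?_⟩
      rintro z ⟨x, y, hx, hy, hyx, rfl⟩
      exact absurd ⟨(x, y), ⟨mem_sphere_zero_iff_norm.mpr hx, mem_sphere_zero_iff_norm.mpr hy⟩, hyx⟩ hne
  have hMc : (M : ℂ) ≠ 0 := by exact_mod_cast hM0.ne'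
  have h1 := main_le hq'0 (by rw [hq'n]; norm_num) A hdim (C ((M : ℂ)⁻¹) * p) (by
    intro z hz
    rw [eval_mul, eval_C, norm_mul, norm_inv, Complex.norm_real, Real.norm_of_nonneg hM0.le,
      inv_mul_le_iff₀ hM0, mul_one]
    exact hMle z hz)
  rw [map_mul, aeval_C, Algebra.algebraMap_eq_smul_one, smul_one_mul, norm_smul, norm_inv,
    Complex.norm_real, Real.norm_of_nonneg hM0.le, inv_mul_le_iff₀ hM0, hsq, hq'n] at h1
  have h2 : max (1 : ℝ) (2 * (4 / 5 / (1 + 3 / 5))) = 1 := by norm_num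
  rw [h2, mul_one] at h1
  linarith

end Pool.Agent.KS6_34.CE
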