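import Pool.Agent.KS6_34.CE.Disc

/-!
# Crouzeix equality: three-term positivity for operators of numerical radius at most one
-/

set_option autoImplicit false
set_option linter.unusedSectionVars false

open MeasureTheory Set Filter Topology Complex

namespace Pool.Agent.KS6_34.CE

variable {H : Type*} [NormedAddCommGroup H] [InnerProductSpace ℂ H] [CompleteSpace H]

/-- pairing commutes with the integral -/
theorem int_pair (f : ℝ → ℂ) (hf : Continuous f) (X : ℝ → H →L[ℂ] H) (hX : Continuous X) (a b : H) :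
    ∫ φ in (0 : ℝ)..(2 * Real.pi), f φ * inner ℂ a (X φ b) =
      inner ℂ a ((∫ φ in (0 : ℝ)..(2 * Real.pi), f φ • X φ) b) := by
  have hi : IntervalIntegrable (fun φ => f φ • X φ) volume 0 (2 * Real.pi) :=
    (hf.smul hX).intervalIntegrable _ _
  have h1 : (∫ φ in (0 : ℝ)..(2 * Real.pi), f φ • X φ) b =
      ∫ φ in (0 : ℝ)..(2 * Real.pi), (f φ • X φ) b :=
    ContinuousLinearMap.intervalIntegral_apply hi b
  have hi2 : IntervalIntegrable (fun φ => (f φ • X φ) b) volume 0 (2 * Real.pi) := by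
    apply Continuous.intervalIntegrable
    exact (hf.smul hX).clm_apply continuous_const
  have h2 : inner ℂ a (∫ φ in (0 : ℝ)..(2 * Real.pi), (f φ • X φ) b) =
      ∫ φ in (0 : ℝ)..(2 * Real.pi), inner ℂ a ((f φ • X φ) b) :=
    (ContinuousLinearMap.intervalIntegral_comp_comm (innerSL ℂ a) hi2).symm
  rw [h1, h2]
  apply intervalIntegral.integral_congr
  intro φ _
  simp only [smul_apply, inner_smul_right]

/-- three-term positivity before the limit -/
theorem toep3_r [Nontrivial H] (B : H →L[ℂ] H) (hB : ∀ u : H, ‖inner ℂ u (B u)‖ ≤ ‖u‖ ^ 2) (m l : ℕ) (hm : 0 < m)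
    (hl : 0 < l) (a b c : H) (r : ℝ) (hr : 1 < r) :
    0 ≤ (inner ℂ a a).re + (inner ℂ a ((B ^ m) b)).re + (inner ℂ a ((B ^ (m + l)) c)).re +
      r ^ (2 * m) * (inner ℂ b b).re + r ^ (2 * m) * (inner ℂ b ((B ^ l) c)).re +
      r ^ (2 * (m + l)) * (inner ℂ c c).re := by
  obtain ⟨X, hXc, hre, hX, hint⟩ := disc_data B hB r hr
  have hneg := neg_moment B hB r hr X hXc hX
  have hπ : (0 : ℝ) < 2 * Real.pi := by positivity
  have hr0 : (0 : ℝ) < r := by linarith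
  -- notation
  set e : ℝ → ℂ := fun φ => exp ((φ : ℂ) * I) with he
  set e' : ℝ → ℂ := fun φ => exp (-(φ : ℂ) * I) with he'
  have hec : Continuous e := by fun_prop
  have hec' : Continuous e' := by fun_prop
  have hee : ∀ φ, e' φ * e φ = 1 := by
    intro φ
    rw [he, he']
    simp only
    rw [← Complex.exp_add]
    simp
  have hconj : ∀ φ, (starRingEnd ℂ) (e φ) = e' φ := by
    intro φ
    rw [he, he']
    simp only
    rw [← Complex.exp_conj]
    simp
  -- pairings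
  have P1 : ∀ (k : ℕ) (u v : H), ∫ φ in (0 : ℝ)..(2 * Real.pi), ((r : ℂ) * e φ) ^ k * inner ℂ u (X φ v) =
      ((2 * Real.pi : ℝ) : ℂ) * inner ℂ u ((B ^ k) v) := by
    intro k u v
    rw [int_pair (fun φ => ((r : ℂ) * e φ) ^ k) (by fun_prop) X hXc u v]
    have := hint k
    rw [this, smul_apply, inner_smul_right]
  have P2 : ∀ (k : ℕ) (u v : H), 1 ≤ k → ∫ φ in (0 : ℝ)..(2 * Real.pi), (e' φ) ^ k * inner ℂ u (X φ v) = 0 := by
    intro k u v hk
    rw [int_pair (fun φ => (e' φ) ^ k) (by fun_prop) X hXc u v, hneg k hk, zero_apply, inner_zero_right]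
  set F : ℝ → H := fun φ => a + ((r : ℂ) * e φ) ^ m • b + ((r : ℂ) * e φ) ^ (m + l) • c with hF
  have hFc : Continuous F := by fun_prop
  have hpos : 0 ≤ ∫ φ in (0 : ℝ)..(2 * Real.pi), (inner ℂ (F φ) (X φ (F φ))).re :=
    intervalIntegral.integral_nonneg hπ.le fun φ _ => hre φ (F φ)
  have hexp : ∀ φ, inner ℂ (F φ) (X φ (F φ)) =
      ((r : ℂ) * e φ) ^ 0 * inner ℂ a (X φ a) + ((r : ℂ) * e φ) ^ m * inner ℂ a (X φ b) +
      ((r : ℂ) * e φ) ^ (m + l) * inner ℂ a (X φ c) +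
      (r : ℂ) ^ m * ((e' φ) ^ m * inner ℂ b (X φ a)) +
      (r : ℂ) ^ (2 * m) * (((r : ℂ) * e φ) ^ 0 * inner ℂ b (X φ b)) +
      (r : ℂ) ^ (2 * m) * (((r : ℂ) * e φ) ^ l * inner ℂ b (X φ c)) +
      (r : ℂ) ^ (m + l) * ((e' φ) ^ (m + l) * inner ℂ c (X φ a)) +
      (r : ℂ) ^ (2 * m + l) * ((e' φ) ^ l * inner ℂ c (X φ b)) +
      (r : ℂ) ^ (2 * (m + l)) * (((r : ℂ) * e φ) ^ 0 * inner ℂ c (X φ c)) := by
    intro φ
    have c1 : ∀ k : ℕ, (starRingEnd ℂ) (((r : ℂ) * e φ) ^ k) = ((r : ℂ) * e' φ) ^ k := by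
      intro k
      rw [map_pow, map_mul, hconj, Complex.conj_ofReal]
    have hm1 : (e' φ) ^ m * (e φ) ^ m = 1 := by rw [← mul_pow, hee, one_pow]
    have hl1 : (e' φ) ^ l * (e φ) ^ l = 1 := by rw [← mul_pow, hee, one_pow]
    rw [hF]
    simp only [map_add, map_smul, inner_add_left, inner_add_right, inner_smul_left, inner_smul_right, c1, pow_zero,
      one_mul]
    have d1 : ((r : ℂ) * e φ) ^ m * ((r : ℂ) * e' φ) ^ m = (r : ℂ) ^ (2 * m) := by
      calc ((r : ℂ) * e φ) ^ m * ((r : ℂ) * e' φ) ^ m = (r : ℂ) ^ m * (r : ℂ) ^ m * ((e' φ) ^ m * (e φ) ^ m) := by ring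
        _ = _ := by rw [hm1]; ring
    have d2 : ((r : ℂ) * e φ) ^ (m + l) * ((r : ℂ) * e' φ) ^ m = (r : ℂ) ^ (2 * m) * ((r : ℂ) * e φ) ^ l := by
      rw [pow_add, mul_right_comm, d1]
    have d3 : ((r : ℂ) * e φ) ^ m * ((r : ℂ) * e' φ) ^ (m + l) = (r : ℂ) ^ (2 * m + l) * (e' φ) ^ l := by
      rw [pow_add, ← mul_assoc, d1, mul_pow, ← mul_assoc, ← pow_add]
    have d4 : ((r : ℂ) * e φ) ^ (m + l) * ((r : ℂ) * e' φ) ^ (m + l) = (r : ℂ) ^ (2 * (m + l)) := by
      calc ((r : ℂ) * e φ) ^ (m + l) * ((r : ℂ) * e' φ) ^ (m + l) =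
          (r : ℂ) ^ (m + l) * (r : ℂ) ^ (m + l) * (((e' φ) ^ m * (e φ) ^ m) * ((e' φ) ^ l * (e φ) ^ l)) := by ring
        _ = _ := by rw [hm1, hl1]; ring
    have f1 : ((r : ℂ) * e' φ) ^ m = (r : ℂ) ^ m * (e' φ) ^ m := mul_pow _ _ _
    have f2 : ((r : ℂ) * e' φ) ^ (m + l) = (r : ℂ) ^ (m + l) * (e' φ) ^ (m + l) := mul_pow _ _ _
    linear_combination (inner ℂ b (X φ a)) * f1 + (inner ℂ c (X φ a)) * f2 + (inner ℂ b (X φ b)) * d1 +
      (inner ℂ c (X φ b)) * d3 + (inner ℂ b (X φ c)) * d2 + (inner ℂ c (X φ c)) * d4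
  have hq : ∀ (f : ℝ → ℂ), Continuous f → ∀ u v : H,
      IntervalIntegrable (fun φ => f φ * inner ℂ u (X φ v)) volume 0 (2 * Real.pi) := by
    intro f hf u v
    apply Continuous.intervalIntegrable
    fun_prop
  have hI : ∫ φ in (0 : ℝ)..(2 * Real.pi), inner ℂ (F φ) (X φ (F φ)) =
      ((2 * Real.pi : ℝ) : ℂ) * (inner ℂ a a + inner ℂ a ((B ^ m) b) + inner ℂ a ((B ^ (m + l)) c) +
      (r : ℂ) ^ (2 * m) * inner ℂ b b + (r : ℂ) ^ (2 * m) * inner ℂ b ((B ^ l) c) +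
      (r : ℂ) ^ (2 * (m + l)) * inner ℂ c c) := by
    rw [intervalIntegral.integral_congr (fun φ _ => hexp φ)]
    have i1 := hq (fun φ => ((r : ℂ) * e φ) ^ 0) (by fun_prop) a a
    have i2 := hq (fun φ => ((r : ℂ) * e φ) ^ m) (by fun_prop) a b
    have i3 := hq (fun φ => ((r : ℂ) * e φ) ^ (m + l)) (by fun_prop) a c
    have i4 := (hq (fun φ => (e' φ) ^ m) (by fun_prop) b a).const_mul ((r : ℂ) ^ m)
    have i5 := (hq (fun φ => ((r : ℂ) * e φ) ^ 0) (by fun_prop) b b).const_mul ((r : ℂ) ^ (2 * m))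
    have i6 := (hq (fun φ => ((r : ℂ) * e φ) ^ l) (by fun_prop) b c).const_mul ((r : ℂ) ^ (2 * m))
    have i7 := (hq (fun φ => (e' φ) ^ (m + l)) (by fun_prop) c a).const_mul ((r : ℂ) ^ (m + l))
    have i8 := (hq (fun φ => (e' φ) ^ l) (by fun_prop) c b).const_mul ((r : ℂ) ^ (2 * m + l))
    have i9 := (hq (fun φ => ((r : ℂ) * e φ) ^ 0) (by fun_prop) c c).const_mul ((r : ℂ) ^ (2 * (m + l)))
    rw [intervalIntegral.integral_add (((((((i1.add i2).add i3).add i4).add i5).add i6).add i7).add i8) i9,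
      intervalIntegral.integral_add ((((((i1.add i2).add i3).add i4).add i5).add i6).add i7) i8,
      intervalIntegral.integral_add (((((i1.add i2).add i3).add i4).add i5).add i6) i7,
      intervalIntegral.integral_add ((((i1.add i2).add i3).add i4).add i5) i6,
      intervalIntegral.integral_add (((i1.add i2).add i3).add i4) i5,
      intervalIntegral.integral_add ((i1.add i2).add i3) i4,
      intervalIntegral.integral_add (i1.add i2) i3,
      intervalIntegral.integral_add i1 i2]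
    simp only [intervalIntegral.integral_const_mul]
    rw [P1 0, P1 m, P1 (m + l), P2 m _ _ hm, P1 0, P1 l, P2 (m + l) _ _ (by omega), P2 l _ _ hl, P1 0]
    simp only [pow_zero, one_apply_eq_self]
    ring
  have hre2 : ∫ φ in (0 : ℝ)..(2 * Real.pi), (inner ℂ (F φ) (X φ (F φ))).re =
      (∫ φ in (0 : ℝ)..(2 * Real.pi), inner ℂ (F φ) (X φ (F φ))).re := by
    have hi : IntervalIntegrable (fun φ => inner ℂ (F φ) (X φ (F φ))) volume 0 (2 * Real.pi) := by
      apply Continuous.intervalIntegrable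
      fun_prop
    exact (ContinuousLinearMap.intervalIntegral_comp_comm Complex.reCLM hi)
  rw [hre2, hI, Complex.re_ofReal_mul] at hpos
  have h3 := nonneg_of_mul_nonneg_right hpos hπ
  have h4 : ∀ (k : ℕ) (z : ℂ), ((r : ℂ) ^ k * z).re = r ^ k * z.re := by
    intro k z
    rw [← Complex.ofReal_pow, Complex.re_ofReal_mul]
  simp only [Complex.add_re, h4] at h3
  exact h3

/-- three-term positivity -/
theorem toep3 [Nontrivial H] (B : H →L[ℂ] H) (hB : ∀ u : H, ‖inner ℂ u (B u)‖ ≤ ‖u‖ ^ 2) (m l : ℕ) (hm : 0 < m)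
    (hl : 0 < l) (a b c : H) :
    0 ≤ ‖a‖ ^ 2 + ‖b‖ ^ 2 + ‖c‖ ^ 2 + (inner ℂ a ((B ^ m) b)).re + (inner ℂ a ((B ^ (m + l)) c)).re +
      (inner ℂ b ((B ^ l) c)).re := by
  have hs : ∀ u : H, (inner ℂ u u).re = ‖u‖ ^ 2 := by
    intro u
    rw [inner_self_eq_norm_sq_to_K]
    norm_cast
  set f : ℝ → ℝ := fun r => (inner ℂ a a).re + (inner ℂ a ((B ^ m) b)).re + (inner ℂ a ((B ^ (m + l)) c)).re +
      r ^ (2 * m) * (inner ℂ b b).re + r ^ (2 * m) * (inner ℂ b ((B ^ l) c)).re +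
      r ^ (2 * (m + l)) * (inner ℂ c c).re with hf
  have hfc : Continuous f := by fun_prop
  have h1 : Tendsto f (𝓝[>] 1) (𝓝 (f 1)) := (hfc.tendsto 1).mono_left nhdsWithin_le_nhds
  have h2 : 0 ≤ f 1 := by
    apply ge_of_tendsto h1
    filter_upwards [self_mem_nhdsWithin] with r hr
    exact toep3_r B hB m l hm hl a b c r hr
  rw [hf] at h2
  simp only [one_pow, one_mul, hs] at h2
  linarith

end Pool.Agent.KS6_34.CE
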